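import Pool.Agent.Lib.MP_391708_nt.TF1.RelB
import Pool.Agent.Lib.MP_391708_nt.TF.Spec

/-!
# T1a, group A: `SpecA1` (signs) and `SpecA2` (roles)
-/

set_option autoImplicit false
set_option linter.constructorNameAsVariable false

namespace Pool.Agent.Lib.MP391708.TF

variable [Aa]

open Finset Filter Topology
open Pool.Agent.Lib.MP391708.T1 (RD)
open scoped Classical

namespace A12

omit [Aa] in
lemma good_of {φ : Prm → Prop} (h : ∀ p : Prm, 0 < p.ζ → φ p) : Good φ :=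
  ⟨0, fun E _ => ⟨0, fun K _ => ⟨0, fun r _ => ⟨0, fun k _ => ⟨1, one_pos, fun ζ hζ _ =>
    h ⟨E, K, r, k, ζ⟩ hζ⟩⟩⟩⟩⟩

omit [Aa] in
lemma lam_mul {m n : ℕ} (hm : 0 < m) (hn : 0 < n) : lam (m * n) = lam m * lam n := by
  simp only [lam]
  rw [ArithmeticFunction.cardFactors_mul hm.ne' hn.ne', pow_add]

omit [Aa] in
lemma lam_sq (n : ℕ) : lam n * lam n = 1 := by
  simp only [lam]
  rw [← mul_pow]; norm_num

omit [Aa] in
lemma one_le_zz {p : Prm} (hp : 0 < p.ζ) {N : ℕ} (hN : 1 ≤ N) : 1 ≤ zz p N := by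
  simp only [zz]
  exact Real.one_le_rpow (by exact_mod_cast hN) hp.le

lemma sm_le {p : Prm} {N m n : ℕ} (h : m ∣ n) (hn : n ≠ 0) : sm p N m ≤ sm p N n := by
  simp only [sm]
  refine Finset.prod_le_prod' fun l hl => ?_
  have hl1 : 0 < l := by
    simp only [PP, Finset.mem_filter] at hl
    exact hl.2.1.pos
  exact Nat.pow_le_pow_right hl1
    ((Nat.factorization_le_iff_dvd (ne_zero_of_dvd_ne_zero hn h) hn).2 h l)

lemma one_le_sm (p : Prm) (N m : ℕ) : 1 ≤ sm p N m := by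
  simp only [sm]
  refine Finset.one_le_prod' fun l hl => ?_
  have hl1 : 0 < l := by
    simp only [PP, Finset.mem_filter] at hl
    exact hl.2.1.pos
  exact Nat.one_le_pow _ _ hl1

attribute [local irreducible] RP

theorem specA1 : SpecA1 := by
  intro e₁
  refine good_of fun p _ => ?_
  filter_upwards [eventually_ge_atTop (8 * aa)] with N hN r hr
  have h := inRP hr
  have c := h.crit hN
  have hG := h.isR.G1
  have hP := h.isR.P1
  have hQ := h.isR.Q1
  have hX := h.isR.X1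
  have hT := c.T_pos
  have hR := c.R_pos
  rw [← h.isR.gpq, ← c.xrq, ← c.grt, ← c.xpt]
  rw [lam_mul (Nat.mul_pos hG hP) hQ, lam_mul hG hP, lam_mul (Nat.mul_pos hX hR) hQ, lam_mul hX hR,
    lam_mul (Nat.mul_pos hG hR) hT, lam_mul hG hR, lam_mul (Nat.mul_pos hX hP) hT, lam_mul hX hP]
  have e : lam (rG r) * lam (rP r) * lam (rQ r) * (lam (rX r) * lam (rR r) * lam (rQ r)) *
      (lam (rG r) * lam (rR r) * lam (rT r)) * (lam (rX r) * lam (rP r) * lam (rT r)) =
      (lam (rG r) * lam (rG r)) * (lam (rP r) * lam (rP r)) * (lam (rQ r) * lam (rQ r)) *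
      (lam (rX r) * lam (rX r)) * (lam (rR r) * lam (rR r)) * (lam (rT r) * lam (rT r)) := by
    ring
  rw [e]
  simp only [lam_sq]
  norm_num

/-- the conditions of `RG`, as a structure -/
structure InRG (p : Prm) (N : ℕ) (r : Rl) : Prop where
  isR : IsR r
  sml : small p r
  M_lo : N ≤ 2 * rM r
  M_hi : rM r ≤ 8 * N
  p1 : (rM r : ℤ) ≤ 3 * (|rD r| * rP r)
  p2 : |rD r| * rP r ≤ 10 * rM r
  q1 : |D2 r| * rQ r * rM r ≤ 10 * ((rM r : ℤ) ^ 2 + aa)
  x1 : rX r ≤ 100 * rG r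
  x2 : rG r ≤ 100 * rX r
  sqG : Squarefree (rG r)
  sqX : Squarefree (rX r)
  dq : ∀ l : ℕ, l.Prime → (l : ℤ) ∣ rD r → l ∣ rQ r → l ≤ p.E
  nsq : ∀ l ∈ PP p N, ¬ l ^ 2 ∣ rM r ^ 2 + aa
  smM : (sm p N (rM r ^ 2 + aa) : ℝ) ≤ zz p N ^ (4 * p.K)
  smX : (sm p N (rX r) : ℝ) ≤ zz p N ^ (4 * p.K)
  D_lo : Y1 p N / zz p N ^ (4 * p.K) ≤ (|rD r| : ℝ)
  D_hi : (|rD r| : ℝ) ≤ Y2 p N * zz p N ^ (4 * p.K)
  G_lo : Y1 p N * Y3 p N ≤ 10 * (rG r : ℝ)
  G_hi : (rG r : ℝ) ≤ 10 * (Y2 p N * Y4 p N * zz p N ^ (4 * p.K))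

lemma aa_pos : 0 < aa := Aa.ha

lemma mem_RG {p : Prm} {N : ℕ} {r : Rl} (hN : 8 * aa ≤ N) (h : InRG p N r) : r ∈ RG p N := by
  have hM := h.M_hi
  have hGM : rG r ≤ rM r ^ 2 + aa := by
    rw [← h.isR.gpq, mul_assoc]
    exact Nat.le_mul_of_pos_right _ (Nat.mul_pos h.isR.P1 h.isR.Q1)
  have hPM : rP r ≤ rM r ^ 2 + aa := by
    rw [← h.isR.gpq, mul_comm (rG r), mul_assoc]
    exact Nat.le_mul_of_pos_right _ (Nat.mul_pos h.isR.G1 h.isR.Q1)
  have hQM : rQ r ≤ rM r ^ 2 + aa := by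
    rw [← h.isR.gpq]
    exact Nat.le_mul_of_pos_left _ (Nat.mul_pos h.isR.G1 h.isR.P1)
  have hb : rM r ^ 2 + aa ≤ 64 * N ^ 2 + aa := by
    have : rM r ^ 2 ≤ (8 * N) ^ 2 := Nat.pow_le_pow_left hM 2
    nlinarith
  have hD : |rD r| ≤ 80 * N := by
    have h1 := h.p2
    have h2 : |rD r| * 1 ≤ |rD r| * rP r :=
      mul_le_mul_of_nonneg_left (by exact_mod_cast h.isR.P1) (abs_nonneg _)
    have h3 : (rM r : ℤ) ≤ 8 * N := by exact_mod_cast hM
    linarith
  rw [RG, Finset.mem_filter]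
  refine ⟨?_, h.isR, h.sml, h.M_lo, h.M_hi, h.p1, h.p2, h.q1, h.x1, h.x2, h.sqG, h.sqX,
    h.isR.copD, h.dq, h.nsq, h.smM, h.smX, h.D_lo, h.D_hi, h.G_lo, h.G_hi⟩
  have k1 : rM r < 10000 * (N + 1) ^ 2 := by nlinarith
  have k2 : rG r < 10000 * (N + 1) ^ 2 := by nlinarith
  have k3 : rP r < 10000 * (N + 1) ^ 2 := by nlinarith
  have k4 : rQ r < 10000 * (N + 1) ^ 2 := by nlinarith
  have k6 : rX r < 10000 * (N + 1) ^ 2 := by
    have := h.x1
    nlinarith
  have k5 : |rD r| < ((10000 * (N + 1) ^ 2 : ℕ) : ℤ) := by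
    push_cast
    nlinarith
  generalize 10000 * (N + 1) ^ 2 = B at *
  simp only [rbox, Finset.mem_product, Finset.mem_range, Finset.mem_Ioo]
  exact ⟨k1, k2, k3, k4, abs_lt.1 k5, k6⟩

section roles

variable {p : Prm} {e₁ : ℝ} {N : ℕ} {r : Rl}

omit [Aa] in
lemma Y_nonneg (N : ℕ) : 0 ≤ Y1 p N ∧ 0 ≤ Y2 p N ∧ 0 ≤ Y3 p N ∧ 0 ≤ Y4 p N ∧ 0 ≤ zz p N := by
  have hz : 0 ≤ zz p N := by simp only [zz]; positivity
  refine ⟨pow_nonneg hz _, pow_nonneg hz _, pow_nonneg hz _, pow_nonneg hz _, hz⟩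

/-- the sizes of `G` -/
lemma G_size (h : InRP p e₁ N r) :
    Y1 p N * Y3 p N ≤ (rG r : ℝ) ∧
      (rG r : ℝ) ≤ zz p N ^ (2 * p.K) * (Y2 p N * Y4 p N) ∧
      (sm p N (rG r) : ℝ) ≤ zz p N ^ (2 * p.K) := by
  obtain ⟨y1, y2, y3, y4, hz⟩ := Y_nonneg (p := p) N
  obtain ⟨u, v, -, -, hu1, hu2, hv1, hv2, e⟩ := h.uv
  have hs : (sm p N (rG r) : ℝ) ≤ zz p N ^ (2 * p.K) := by
    refine le_trans ?_ h.smM
    have : sm p N (rG r) ≤ sm p N (rM r ^ 2 + aa) :=
      sm_le ⟨rP r * rQ r, by rw [← h.isR.gpq, mul_assoc]⟩ (by have := aa_pos; positivity)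
    exact_mod_cast this
  have h1 : (1 : ℝ) ≤ (sm p N (rG r) : ℝ) := by exact_mod_cast one_le_sm p N (rG r)
  have eR : (rG r : ℝ) = (sm p N (rG r) : ℝ) * ((u : ℝ) * v) := by
    have : (rG r : ℝ) = ((sm p N (rG r) * u * v : ℕ) : ℝ) := by rw [← e]
    rw [this]; push_cast; ring
  refine ⟨?_, ?_, hs⟩
  · rw [eR]
    calc Y1 p N * Y3 p N = 1 * (Y1 p N * Y3 p N) := (one_mul _).symm
      _ ≤ (sm p N (rG r) : ℝ) * ((u : ℝ) * v) := by
          apply mul_le_mul h1 _ (by positivity) (by positivity)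
          exact mul_le_mul hu1 hv1 y3 (by positivity)
  · rw [eR]
    apply mul_le_mul hs _ (by positivity) (by positivity)
    exact mul_le_mul hu2 hv2 (by positivity) y2

lemma pow_le_pow_z (hp : 0 < p.ζ) (hN : 8 * aa ≤ N) {a b : ℕ} (hab : a ≤ b) :
    zz p N ^ a ≤ zz p N ^ b :=
  pow_le_pow_right₀ (one_le_zz hp (by have := aa_pos; omega)) hab

lemma rg1 (hp : 0 < p.ζ) (hN : 8 * aa ≤ N) (h : InRP p e₁ N r) : InRG p N r := by
  obtain ⟨y1, y2, y3, y4, hz⟩ := Y_nonneg (p := p) N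
  obtain ⟨g1, g2, g3⟩ := G_size h
  have c := h.crit hN
  have w := c.win
  have ok := c.ok
  have hD1 : (1 : ℤ) ≤ rD r := w.D1
  have hDD : (1 : ℤ) ≤ D2 r := w.d2
  have hz1 : (1 : ℝ) ≤ zz p N ^ (2 * p.K) := one_le_pow₀ (one_le_zz hp (by have := aa_pos; omega))
  have hz2 := pow_le_pow_z (p := p) hp hN (by omega : 2 * p.K ≤ 4 * p.K)
  have hx1 := w.x_lo ok
  have hx2 := w.x_hi ok
  simp only [toRD_rX, toRD_rG] at hx1 hx2
  have hM0 : (0 : ℤ) ≤ rM r := by positivity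
  refine
    { isR := h.isR
      sml := h.sml
      M_lo := by have := h.M_lo; omega
      M_hi := by have := h.M_hi; omega
      p1 := by
        rw [abs_of_pos (by omega)]
        have := h.p1; linarith
      p2 := by
        rw [abs_of_pos (by omega)]
        have := h.p2; linarith
      q1 := by
        rw [abs_of_pos (by omega)]
        have := h.q2
        nlinarith
      x1 := by omega
      x2 := by omega
      sqG := h.sqG
      sqX := h.sqX
      dq := h.dq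
      nsq := fun l hl hd => h.nsq l hl (by
        rw [h.isR.gpq, mul_assoc, mul_assoc]
        exact Dvd.dvd.mul_right hd _)
      smM := h.smM.trans hz2
      smX := h.smX.trans (pow_le_pow_z hp hN (by omega))
      D_lo := by
        rw [abs_of_pos (by exact_mod_cast (by omega : (0 : ℤ) < rD r))]
        exact h.D_lo
      D_hi := by
        rw [abs_of_pos (by exact_mod_cast (by omega : (0 : ℤ) < rD r))]
        exact h.D_hi
      G_lo := by
        have : (0 : ℝ) ≤ rG r := by positivity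
        linarith
      G_hi := by
        refine g2.trans ?_
        have : zz p N ^ (2 * p.K) * (Y2 p N * Y4 p N) ≤
            zz p N ^ (4 * p.K) * (Y2 p N * Y4 p N) :=
          mul_le_mul_of_nonneg_right hz2 (by positivity)
        have h0 : 0 ≤ zz p N ^ (4 * p.K) * (Y2 p N * Y4 p N) := by positivity
        linarith }

/-- `M' = ± M` modulo `W₀`: the conditions at the primes `≤ E` at the other vertices -/
lemma small_of {s : Rl} (h : small p r) (hD : (W0 p : ℤ) ∣ rD s) (hD2 : (W0 p : ℤ) ∣ D2 s)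
    (hGX : Nat.Coprime (rG s * rX s) (W0 p))
    (hM : (W0 p : ℤ) ∣ (rM s : ℤ) ^ 2 - (rM r : ℤ) ^ 2) : small p s := by
  refine ⟨hD, hD2, hGX, ?_⟩
  intro l hl hE hd
  refine h.2.2.2 l hl hE ?_
  have h1 : ((l ^ p.E : ℕ) : ℤ) ∣ (W0 p : ℤ) := by
    rw [Int.natCast_dvd_natCast]
    simp only [W0]
    exact pow_dvd_pow_of_dvd (hl.dvd_primorial_iff.mpr hE) _
  have h2 : ((l ^ p.E : ℕ) : ℤ) ∣ ((rM s ^ 2 + aa : ℕ) : ℤ) := by exact_mod_cast hd
  have h3 : ((l ^ p.E : ℕ) : ℤ) ∣ ((rM r ^ 2 + aa : ℕ) : ℤ) := by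
    have h4 := dvd_sub h2 (h1.trans hM)
    have e : ((rM s ^ 2 + aa : ℕ) : ℤ) - ((rM s : ℤ) ^ 2 - (rM r : ℤ) ^ 2) =
      ((rM r ^ 2 + aa : ℕ) : ℤ) := by push_cast; ring
    rwa [e] at h4
  exact_mod_cast h3

lemma rg4 (hp : 0 < p.ζ) (hN : 8 * aa ≤ N) (h : InRP p e₁ N r) : InRG p N (role4 r) := by
  obtain ⟨y1, y2, y3, y4, hz⟩ := Y_nonneg (p := p) N
  obtain ⟨g1, g2, g3⟩ := G_size h
  have c := h.crit hN
  have w := c.win
  have ok := c.ok
  obtain ⟨r1, r2, r3, r4⟩ := c.r4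
  have hD1 : (1 : ℤ) ≤ rD r := w.D1
  have hDD : (1 : ℤ) ≤ D2 r := w.d2
  have hz1 : (1 : ℝ) ≤ zz p N ^ (2 * p.K) := one_le_pow₀ (one_le_zz hp (by have := aa_pos; omega))
  have hz2 := pow_le_pow_z (p := p) hp hN (by omega : 2 * p.K ≤ 4 * p.K)
  have hx1 := w.x_lo ok
  have hx2 := w.x_hi ok
  simp only [toRD_rX, toRD_rG] at hx1 hx2
  have m1 := w.M4_lo
  have m2 := w.M4_hi
  have m3 := w.M3_lo ok
  have m4 := w.M3_hi ok
  rw [toRD_M4] at m1 m2
  rw [toRD_M3] at m3 m4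
  simp only [toRD_rM] at m1 m2 m3 m4
  have hM : ((M4 r).natAbs : ℤ) = M4 r := Int.natAbs_of_nonneg c.M4_pos.le
  have eM : (rM (role4 r) : ℤ) = M4 r := hM
  have n1 := h.M_lo
  have n2 := h.M_hi
  have hp1 := h.p1
  have hp2 := h.p2
  refine
    { isR := r1
      sml := ?_
      M_lo := by omega
      M_hi := by omega
      p1 := by
        rw [eM]
        show M4 r ≤ 3 * (|rD r| * rP r)
        rw [abs_of_pos (by omega)]
        simp only [M4]
        linarith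
      p2 := by
        rw [eM]
        show |rD r| * rP r ≤ 10 * M4 r
        rw [abs_of_pos (by omega)]
        simp only [M4]
        linarith
      q1 := by
        rw [r2, abs_neg, abs_of_pos (by omega), eM]
        show D2 r * rT r * M4 r ≤ 10 * (M4 r ^ 2 + aa)
        rw [c.d2t]
        nlinarith
      x1 := by show rG r ≤ 100 * rX r; omega
      x2 := by show rX r ≤ 100 * rG r; omega
      sqG := h.sqX
      sqX := h.sqG
      dq := by
        intro l hl hd hq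
        refine h.dq l hl hd ?_
        have hq' : (l : ℤ) ∣ ((rT r : ℕ) : ℤ) := Int.natCast_dvd_natCast.2 hq
        have h1 : (l : ℤ) ∣ ((rQ r : ℕ) : ℤ) :=
          (ok.dvd_t_iff (Nat.prime_iff_prime_int.1 hl) hd).1 hq'
        exact Int.natCast_dvd_natCast.1 h1
      nsq := fun l hl hd => h.nsq l hl (by
        have hd' : l ^ 2 ∣ rX r * rP r * rT r := by rw [c.xpt]; exact hd
        refine hd'.trans ⟨rG r * rQ r * rR r, by ring⟩)
      smM := h.smM4
      smX := g3.trans hz2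
      D_lo := by
        show Y1 p N / zz p N ^ (4 * p.K) ≤ (|rD r| : ℝ)
        rw [abs_of_pos (by exact_mod_cast (by omega : (0 : ℤ) < rD r))]
        exact h.D_lo
      D_hi := by
        show (|rD r| : ℝ) ≤ Y2 p N * zz p N ^ (4 * p.K)
        rw [abs_of_pos (by exact_mod_cast (by omega : (0 : ℤ) < rD r))]
        exact h.D_hi
      G_lo := by
        show Y1 p N * Y3 p N ≤ 10 * (rX r : ℝ)
        have h1 : (0 : ℝ) ≤ rG r := by positivity
        have h2 : 3 * (rG r : ℝ) ≤ rX r := by exact_mod_cast hx1.le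
        linarith
      G_hi := by
        show (rX r : ℝ) ≤ 10 * (Y2 p N * Y4 p N * zz p N ^ (4 * p.K))
        have h2 : (rX r : ℝ) ≤ 7 * rG r := by exact_mod_cast hx2
        have : zz p N ^ (2 * p.K) * (Y2 p N * Y4 p N) ≤
            zz p N ^ (4 * p.K) * (Y2 p N * Y4 p N) :=
          mul_le_mul_of_nonneg_right hz2 (by positivity)
        have h0 : 0 ≤ zz p N ^ (4 * p.K) * (Y2 p N * Y4 p N) := by positivity
        linarith }
  refine small_of h.sml h.sml.1 ?_ ?_ ?_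
  · rw [r2]; exact (Dvd.dvd.neg_right h.sml.2.1)
  · show Nat.Coprime (rX r * rG r) (W0 p)
    rw [mul_comm]; exact h.sml.2.2.1
  · rw [eM]
    have e : M4 r ^ 2 - (rM r : ℤ) ^ 2 = rD r * (rP r * (rD r * rP r - 2 * rM r)) := by
      simp only [M4]; ring
    rw [e]
    exact Dvd.dvd.mul_right h.sml.1 _

lemma rg2 (hp : 0 < p.ζ) (hN : 8 * aa ≤ N) (h : InRP p e₁ N r) : InRG p N (role2 r) := by
  obtain ⟨y1, y2, y3, y4, hz⟩ := Y_nonneg (p := p) N
  obtain ⟨g1, g2, g3⟩ := G_size h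
  have c := h.crit hN
  have w := c.win
  have ok := c.ok
  obtain ⟨r1, r2, r3, r4⟩ := c.r2
  have hD1 : (1 : ℤ) ≤ rD r := w.D1
  have hDD : (1 : ℤ) ≤ D2 r := w.d2
  have hz1 : (1 : ℝ) ≤ zz p N ^ (2 * p.K) := one_le_pow₀ (one_le_zz hp (by have := aa_pos; omega))
  have hz2 := pow_le_pow_z (p := p) hp hN (by omega : 2 * p.K ≤ 4 * p.K)
  have hx1 := w.x_lo ok
  have hx2 := w.x_hi ok
  simp only [toRD_rX, toRD_rG] at hx1 hx2
  have m1 := w.M2_lo
  have m2 := w.M2_hi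
  obtain ⟨m3, m4⟩ := w.p2' ok
  rw [toRD_M2] at m1 m2
  rw [toRD_M2] at m3 m4
  simp only [toRD_rM, toRD_rD, toRD_rR] at m1 m2 m3 m4
  have hM : ((M2 r).natAbs : ℤ) = M2 r := Int.natAbs_of_nonneg c.M2_pos.le
  have eM : (rM (role2 r) : ℤ) = M2 r := hM
  have n1 := h.M_lo
  have n2 := h.M_hi
  have hp1 := h.p1
  have hp2 := h.p2
  refine
    { isR := r1
      sml := ?_
      M_lo := by omega
      M_hi := by omega
      p1 := by
        rw [eM]
        show M2 r ≤ 3 * (|rD r| * rR r)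
        rw [abs_of_pos (by omega)]
        linarith
      p2 := by
        rw [eM]
        show |rD r| * rR r ≤ 10 * M2 r
        rw [abs_of_pos (by omega)]
        linarith
      q1 := by
        rw [r2, abs_neg, abs_of_pos (by omega), eM]
        show D2 r * rQ r * M2 r ≤ 10 * (M2 r ^ 2 + aa)
        have e2 : D2 r * rQ r = M2 r - rM r := by simp only [M2]; ring
        rw [e2]
        nlinarith
      x1 := by show rG r ≤ 100 * rX r; omega
      x2 := by show rX r ≤ 100 * rG r; omega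
      sqG := h.sqX
      sqX := h.sqG
      dq := h.dq
      nsq := fun l hl hd => h.nsq l hl (by
        have hd' : l ^ 2 ∣ rX r * rR r * rQ r := by rw [c.xrq]; exact hd
        refine hd'.trans ⟨rG r * rP r * rT r, by ring⟩)
      smM := h.smM2
      smX := g3.trans hz2
      D_lo := by
        show Y1 p N / zz p N ^ (4 * p.K) ≤ (|rD r| : ℝ)
        rw [abs_of_pos (by exact_mod_cast (by omega : (0 : ℤ) < rD r))]
        exact h.D_lo
      D_hi := by
        show (|rD r| : ℝ) ≤ Y2 p N * zz p N ^ (4 * p.K)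
        rw [abs_of_pos (by exact_mod_cast (by omega : (0 : ℤ) < rD r))]
        exact h.D_hi
      G_lo := by
        show Y1 p N * Y3 p N ≤ 10 * (rX r : ℝ)
        have h1 : (0 : ℝ) ≤ rG r := by positivity
        have h2 : 3 * (rG r : ℝ) ≤ rX r := by exact_mod_cast hx1.le
        linarith
      G_hi := by
        show (rX r : ℝ) ≤ 10 * (Y2 p N * Y4 p N * zz p N ^ (4 * p.K))
        have h2 : (rX r : ℝ) ≤ 7 * rG r := by exact_mod_cast hx2
        have : zz p N ^ (2 * p.K) * (Y2 p N * Y4 p N) ≤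
            zz p N ^ (4 * p.K) * (Y2 p N * Y4 p N) :=
          mul_le_mul_of_nonneg_right hz2 (by positivity)
        have h0 : 0 ≤ zz p N ^ (4 * p.K) * (Y2 p N * Y4 p N) := by positivity
        linarith }
  refine small_of h.sml h.sml.1 ?_ ?_ ?_
  · rw [r2]; exact (Dvd.dvd.neg_right h.sml.2.1)
  · show Nat.Coprime (rX r * rG r) (W0 p)
    rw [mul_comm]; exact h.sml.2.2.1
  · rw [eM]
    have e : M2 r ^ 2 - (rM r : ℤ) ^ 2 = D2 r * (rQ r * (2 * rM r + D2 r * rQ r)) := by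
      simp only [M2]; ring
    rw [e]
    exact Dvd.dvd.mul_right h.sml.2.1 _

lemma rg3 (hp : 0 < p.ζ) (hN : 8 * aa ≤ N) (h : InRP p e₁ N r) : InRG p N (role3 r) := by
  obtain ⟨y1, y2, y3, y4, hz⟩ := Y_nonneg (p := p) N
  obtain ⟨g1, g2, g3⟩ := G_size h
  have c := h.crit hN
  have w := c.win
  have ok := c.ok
  obtain ⟨r1, r2, r3, r4⟩ := c.r3
  have hD1 : (1 : ℤ) ≤ rD r := w.D1
  have hDD : (1 : ℤ) ≤ D2 r := w.d2
  have hz1 : (1 : ℝ) ≤ zz p N ^ (2 * p.K) := one_le_pow₀ (one_le_zz hp (by have := aa_pos; omega))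
  have hz2 := pow_le_pow_z (p := p) hp hN (by omega : 2 * p.K ≤ 4 * p.K)
  have hx1 := w.x_lo ok
  have hx2 := w.x_hi ok
  simp only [toRD_rX, toRD_rG] at hx1 hx2
  have m1 := w.M4_lo
  have m2 := w.M4_hi
  have m3 := w.M3_lo ok
  have m4 := w.M3_hi ok
  obtain ⟨m5, m6⟩ := w.p3 ok
  rw [toRD_M4] at m1 m2
  rw [toRD_M3] at m3 m4 m5 m6
  simp only [toRD_rM, toRD_rD, toRD_rR] at m1 m2 m3 m4 m5 m6
  have hM : ((M3 r).natAbs : ℤ) = M3 r := Int.natAbs_of_nonneg c.M3_pos.le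
  have eM : (rM (role3 r) : ℤ) = M3 r := hM
  have n1 := h.M_lo
  have n2 := h.M_hi
  have hp1 := h.p1
  have hp2 := h.p2
  refine
    { isR := r1
      sml := ?_
      M_lo := by omega
      M_hi := by omega
      p1 := by
        rw [eM]
        show M3 r ≤ 3 * (|rD r| * rR r)
        rw [abs_of_pos (by omega)]
        linarith
      p2 := by
        rw [eM]
        show |rD r| * rR r ≤ 10 * M3 r
        rw [abs_of_pos (by omega)]
        linarith
      q1 := by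
        rw [r2, abs_of_pos (by omega), eM]
        show D2 r * rT r * M3 r ≤ 10 * (M3 r ^ 2 + aa)
        rw [c.d2t]
        nlinarith
      x1 := by show rX r ≤ 100 * rG r; omega
      x2 := by show rG r ≤ 100 * rX r; omega
      sqG := h.sqG
      sqX := h.sqX
      dq := by
        intro l hl hd hq
        refine h.dq l hl hd ?_
        have hq' : (l : ℤ) ∣ ((rT r : ℕ) : ℤ) := Int.natCast_dvd_natCast.2 hq
        have h1 : (l : ℤ) ∣ ((rQ r : ℕ) : ℤ) :=
          (ok.dvd_t_iff (Nat.prime_iff_prime_int.1 hl) hd).1 hq'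
        exact Int.natCast_dvd_natCast.1 h1
      nsq := fun l hl hd => h.nsq l hl (by
        have hd' : l ^ 2 ∣ rG r * rR r * rT r := by rw [c.grt]; exact hd
        refine hd'.trans ⟨rP r * rQ r * rX r, by ring⟩)
      smM := h.smM3
      smX := h.smX.trans (pow_le_pow_z hp hN (by omega))
      D_lo := by
        show Y1 p N / zz p N ^ (4 * p.K) ≤ (|rD r| : ℝ)
        rw [abs_of_pos (by exact_mod_cast (by omega : (0 : ℤ) < rD r))]
        exact h.D_lo
      D_hi := by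
        show (|rD r| : ℝ) ≤ Y2 p N * zz p N ^ (4 * p.K)
        rw [abs_of_pos (by exact_mod_cast (by omega : (0 : ℤ) < rD r))]
        exact h.D_hi
      G_lo := by
        show Y1 p N * Y3 p N ≤ 10 * (rG r : ℝ)
        have : (0 : ℝ) ≤ rG r := by positivity
        linarith
      G_hi := by
        show (rG r : ℝ) ≤ 10 * (Y2 p N * Y4 p N * zz p N ^ (4 * p.K))
        have : zz p N ^ (2 * p.K) * (Y2 p N * Y4 p N) ≤
            zz p N ^ (4 * p.K) * (Y2 p N * Y4 p N) :=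
          mul_le_mul_of_nonneg_right hz2 (by positivity)
        have h0 : 0 ≤ zz p N ^ (4 * p.K) * (Y2 p N * Y4 p N) := by positivity
        linarith }
  refine small_of h.sml h.sml.1 ?_ ?_ ?_
  · rw [r2]; exact h.sml.2.1
  · exact h.sml.2.2.1
  · rw [eM]
    have e : M3 r ^ 2 - (rM r : ℤ) ^ 2 = rD r * (rR r * (rD r * rR r - 2 * M2 r)) +
        D2 r * (rQ r * (2 * rM r + D2 r * rQ r)) := by
      simp only [M3, M2]; ring
    rw [e]
    exact dvd_add (Dvd.dvd.mul_right h.sml.1 _) (Dvd.dvd.mul_right h.sml.2.1 _)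

end roles

attribute [local irreducible] RG

theorem specA2 : SpecA2 := by
  intro e₁ _
  refine good_of fun p hp => ?_
  filter_upwards [eventually_ge_atTop (8 * aa)] with N hN
  refine ⟨fun r hr => mem_RG hN (rg1 hp hN (inRP hr)), ?_⟩
  intro ρ hρ
  simp only [List.mem_cons, List.not_mem_nil, or_false] at hρ
  rcases hρ with rfl | rfl | rfl
  · refine ⟨fun r hr s hs h => ?_, fun r hr => mem_RG hN (rg2 hp hN (inRP hr))⟩
    rw [← ((inRP hr).crit hN).role2_role2, ← ((inRP hs).crit hN).role2_role2, h]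
  · refine ⟨fun r hr s hs h => ?_, fun r hr => mem_RG hN (rg3 hp hN (inRP hr))⟩
    rw [← ((inRP hr).crit hN).role3_role3, ← ((inRP hs).crit hN).role3_role3, h]
  · refine ⟨fun r hr s hs h => ?_, fun r hr => mem_RG hN (rg4 hp hN (inRP hr))⟩
    rw [← ((inRP hr).crit hN).role4_role4, ← ((inRP hs).crit hN).role4_role4, h]

end A12

end Pool.Agent.Lib.MP391708.TF
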