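import Pool.Agent.Lib.MP_391708_nt.Eqd.Prime
import Pool.Agent.Lib.MP_391708_nt.T1.FuS
import Pool.Agent.Lib.MP_391708_nt.TF.Defs

/-!
# T1a, group F1, part S: Mertens for the split primes

`∑ 2/l` over the primes `l ≤ y` with `χ(l) = 1` is `log log y + O(1)`: half of the classes modulo
`4 a` prime to `4 a` have `χ = 1`.
-/

set_option autoImplicit false

namespace Pool.Agent.Lib.MP391708.TF1

open Finset
open Pool.Agent.Lib.MP391708.TF (aa spl)
open Pool.Agent.Lib.MP391708.T1 (one_lt_log3 loglog_floor)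
open scoped Classical

variable [Pool.Agent.Lib.MP391708.TF.Aa]

lemma aaP : 0 < aa := TF.Aa.ha

/-- half of the residue classes prime to `4 a` have `χ = 1` -/
lemma two_card_spl : 2 * ((range (4 * aa)).filter (fun c => TA.chz (aa : ℤ) c = 1)).card =
    (4 * aa).totient := by
  have ha : (aa : ℤ) ≠ 0 := by exact_mod_cast aaP.ne'
  have h0 := TA.sum_period ha (TA.nsq_of_pos (by exact_mod_cast aaP))
  rw [Int.natAbs_natCast] at h0
  have h1 : ∑ n ∈ range (4 * aa), TA.ch (aa : ℤ) n =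
      (((range (4 * aa)).filter (fun c => TA.chz (aa : ℤ) c = 1)).card : ℝ) -
      (((range (4 * aa)).filter (fun c => TA.chz (aa : ℤ) c = -1)).card : ℝ) := by
    rw [Finset.card_filter, Finset.card_filter]
    push_cast
    rw [← Finset.sum_sub_distrib]
    refine Finset.sum_congr rfl fun n _ => ?_
    unfold TA.ch
    rcases TA.chz_trichotomy (aa : ℤ) n with h | h | h <;> rw [h] <;> norm_num
  rw [h1, sub_eq_zero] at h0
  have h2 : ((range (4 * aa)).filter (fun c => TA.chz (aa : ℤ) c = 1)).card =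
      ((range (4 * aa)).filter (fun c => TA.chz (aa : ℤ) c = -1)).card := by exact_mod_cast h0
  have h3 : (4 * aa).totient = ((range (4 * aa)).filter (fun c => TA.chz (aa : ℤ) c = 1)).card +
      ((range (4 * aa)).filter (fun c => TA.chz (aa : ℤ) c = -1)).card := by
    rw [Nat.totient, ← Finset.card_union_of_disjoint, ← Finset.filter_or]
    · refine congrArg Finset.card (Finset.filter_congr fun n _ => ?_)
      constructor
      · intro h
        have hn : n ≠ 0 := by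
          rintro rfl
          rw [Nat.coprime_zero_right] at h
          have := aaP
          omega
        refine TA.chz_sq hn ?_
        rw [Int.natAbs_natCast]
        exact (Nat.Coprime.coprime_dvd_left (Dvd.intro_left 2 (by ring)) h).symm
      · intro h
        have hn : n ≠ 0 := by
          rintro rfl
          rw [TA.chz_zero] at h
          omega
        by_contra hc
        have h4 : ¬ n.Coprime (2 * (aa : ℤ).natAbs) := by
          rw [Int.natAbs_natCast]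
          intro h5
          apply hc
          rw [show 4 * aa = 2 * (2 * aa) by ring]
          exact (Nat.Coprime.mul_right (Nat.Coprime.coprime_mul_right_right h5) h5).symm
        rw [(TA.chz_eq_zero_iff hn).2 h4] at h
        omega
    · rw [Finset.disjoint_left]
      intro n h h'
      rw [Finset.mem_filter] at h h'
      have := h.2.symm.trans h'.2
      omega
  omega

/-- the split primes `l` with `x < l ≤ y` -/
noncomputable def P1F (x y : ℝ) : Finset ℕ :=
  (Ioc ⌊x⌋₊ ⌊y⌋₊).filter (fun l => l.Prime ∧ spl l)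

/-- `∑ 2/l` over the split primes `l` with `x < l ≤ y` -/
noncomputable def S1 (x y : ℝ) : ℝ := ∑ l ∈ P1F x y, 2 / (l : ℝ)

lemma mem_P1 {x y : ℝ} (hx : 0 ≤ x) {l : ℕ} :
    l ∈ P1F x y ↔ x < l ∧ (l : ℝ) ≤ y ∧ l.Prime ∧ spl l := by
  unfold P1F
  rw [mem_filter, mem_Ioc]
  constructor
  · rintro ⟨⟨h1, h2⟩, h3, h4⟩
    refine ⟨(Nat.floor_lt hx).1 h1, ?_, h3, h4⟩
    have hl : l ≠ 0 := by have := h3.pos; omega
    exact (Nat.le_floor_iff' hl).1 h2
  · rintro ⟨h1, h2, h3, h4⟩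
    exact ⟨⟨(Nat.floor_lt hx).2 h1, Nat.le_floor h2⟩, h3, h4⟩

lemma S1_nonneg (x y : ℝ) : 0 ≤ S1 x y := Finset.sum_nonneg fun _ _ => by positivity

/-- Mertens, natural bounds -/
theorem mertN : ∃ C : ℝ, 0 < C ∧ ∀ y : ℕ, 3 ≤ y →
    |∑ p ∈ (Icc 1 y).filter (fun p => p.Prime ∧ spl p), 2 / (p : ℝ) -
      Real.log (Real.log y)| ≤ C := by
  have hq : 0 < 4 * aa := by have := aaP; omega
  set R : Finset ℕ := (range (4 * aa)).filter (fun c => TA.chz (aa : ℤ) c = 1) with hR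
  have hcop : ∀ c ∈ R, c.Coprime (4 * aa) := by
    intro c hc
    rw [hR, Finset.mem_filter] at hc
    have hn : c ≠ 0 := by
      rintro rfl
      rw [TA.chz_zero] at hc
      exact absurd hc.2 (by norm_num)
    by_contra hcc
    have h4 : ¬ c.Coprime (2 * (aa : ℤ).natAbs) := by
      rw [Int.natAbs_natCast]
      intro h5
      apply hcc
      rw [show 4 * aa = 2 * (2 * aa) by ring]
      exact Nat.Coprime.mul_right (Nat.Coprime.coprime_mul_right_right h5) h5
    rw [(TA.chz_eq_zero_iff hn).2 h4] at hc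
    exact absurd hc.2 (by norm_num)
  have hall : ∀ c : ℕ, ∃ C : ℝ, 0 ≤ C ∧ (c ∈ R → ∀ y : ℕ, 3 ≤ y →
      |∑ p ∈ (Icc 1 y).filter (fun p => p.Prime ∧ p ≡ c [MOD 4 * aa]), 1 / (p : ℝ) -
        1 / ((4 * aa).totient : ℝ) * Real.log (Real.log y)| ≤ C) := by
    intro c
    by_cases hc : c ∈ R
    · obtain ⟨C, hC⟩ := Pool.Agent.Lib.MP391708.Eqd.specPrime (4 * aa) hq c (hcop c hc) 1 one_pos
      refine ⟨C, (norm_nonneg _).trans (hC 3 le_rfl 0 (by simp)), fun _ y hy => ?_⟩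
      have h := hC y hy 0 (by simp)
      have h1 : (∑ p ∈ (Icc 1 y).filter (fun p => p.Prime ∧ p ≡ c [MOD 4 * aa]),
          (p : ℂ) ^ (-1 + Complex.I * ((0 : ℝ) : ℂ))) =
          ((∑ p ∈ (Icc 1 y).filter (fun p => p.Prime ∧ p ≡ c [MOD 4 * aa]), 1 / (p : ℝ) : ℝ) : ℂ) := by
        push_cast
        refine Finset.sum_congr rfl fun p _ => ?_
        rw [mul_zero, add_zero, Complex.cpow_neg_one, one_div]
      rw [h1, ← Complex.ofReal_sub, Complex.norm_real, Real.norm_eq_abs] at h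
      have h2 : -Real.log (1 / Real.log y + |(0 : ℝ)|) = Real.log (Real.log y) := by
        rw [abs_zero, add_zero, one_div, Real.log_inv, neg_neg]
      rwa [h2] at h
    · exact ⟨0, le_rfl, fun h => absurd h hc⟩
  choose C hC0 hC using hall
  have hS0 : 0 ≤ ∑ c ∈ R, C c := Finset.sum_nonneg fun c _ => hC0 c
  refine ⟨2 * (∑ c ∈ R, C c) + 1, by positivity, fun y hy => ?_⟩
  have e : ∑ p ∈ (Icc 1 y).filter (fun p => p.Prime ∧ spl p), 2 / (p : ℝ) =
      2 * ∑ c ∈ R, ∑ p ∈ (Icc 1 y).filter (fun p => p.Prime ∧ p ≡ c [MOD 4 * aa]), 1 / (p : ℝ) := by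
    rw [← Finset.sum_fiberwise_of_maps_to (s := (Icc 1 y).filter (fun p => p.Prime ∧ spl p))
      (t := R) (g := fun p => p % (4 * aa)), Finset.mul_sum]
    · refine Finset.sum_congr rfl fun c hc => ?_
      rw [Finset.mul_sum, Finset.filter_filter]
      refine Finset.sum_congr (Finset.filter_congr fun p _ => ?_) fun p _ => by ring
      rw [hR, Finset.mem_filter, Finset.mem_range] at hc
      have hcm : c % (4 * aa) = c := Nat.mod_eq_of_lt hc.1
      constructor
      · rintro ⟨⟨h1, -⟩, h3⟩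
        exact ⟨h1, by rw [Nat.ModEq, h3, hcm]⟩
      · rintro ⟨h1, h2⟩
        rw [Nat.ModEq, hcm] at h2
        refine ⟨⟨h1, ?_⟩, h2⟩
        have h3 := TA.chz_mod (aa : ℤ) p
        rw [Int.natAbs_natCast, h2, hc.2] at h3
        exact h3.symm
    · intro p hp
      rw [Finset.mem_filter] at hp
      rw [hR, Finset.mem_filter, Finset.mem_range]
      refine ⟨Nat.mod_lt _ hq, ?_⟩
      have h3 := TA.chz_mod (aa : ℤ) p
      rw [Int.natAbs_natCast] at h3
      rw [h3]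
      exact hp.2.2
  have hcard : (R.card : ℝ) * (1 / ((4 * aa).totient : ℝ)) = 1 / 2 := by
    have h1 := two_card_spl
    rw [← hR] at h1
    have h2 : (0 : ℝ) < ((4 * aa).totient : ℝ) := by exact_mod_cast Nat.totient_pos.2 hq
    have h3 : 2 * (R.card : ℝ) = ((4 * aa).totient : ℝ) := by exact_mod_cast h1
    rw [mul_one_div, div_eq_iff h2.ne']
    linarith
  have e2 : 2 * ∑ c ∈ R, ∑ p ∈ (Icc 1 y).filter (fun p => p.Prime ∧ p ≡ c [MOD 4 * aa]), 1 / (p : ℝ)
      - Real.log (Real.log y) = 2 * ∑ c ∈ R,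
        (∑ p ∈ (Icc 1 y).filter (fun p => p.Prime ∧ p ≡ c [MOD 4 * aa]), 1 / (p : ℝ) -
          1 / ((4 * aa).totient : ℝ) * Real.log (Real.log y)) := by
    rw [Finset.sum_sub_distrib, Finset.sum_const, nsmul_eq_mul, ← mul_assoc, hcard]
    ring
  rw [e, e2, abs_mul, abs_of_pos (by norm_num : (0 : ℝ) < 2)]
  have h5 : |∑ c ∈ R, (∑ p ∈ (Icc 1 y).filter (fun p => p.Prime ∧ p ≡ c [MOD 4 * aa]), 1 / (p : ℝ) -
          1 / ((4 * aa).totient : ℝ) * Real.log (Real.log y))| ≤ ∑ c ∈ R, C c :=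
    (Finset.abs_sum_le_sum_abs _ _).trans (Finset.sum_le_sum fun c hc => hC c hc y hy)
  linarith

/-- Mertens in an interval -/
theorem S1_log : ∃ C : ℝ, 0 < C ∧ ∀ x y : ℝ, 3 ≤ x → x ≤ y →
    |S1 x y - (Real.log (Real.log y) - Real.log (Real.log x))| ≤ C := by
  obtain ⟨C, hC0, hC⟩ := mertN
  refine ⟨2 * C + 1, by positivity, fun x y hx hxy => ?_⟩
  have hy : 3 ≤ y := hx.trans hxy
  have hxn : (3 : ℕ) ≤ ⌊x⌋₊ := Nat.le_floor (by exact_mod_cast hx)
  have hyn : (3 : ℕ) ≤ ⌊y⌋₊ := Nat.le_floor (by exact_mod_cast hy)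
  have hle : ⌊x⌋₊ ≤ ⌊y⌋₊ := Nat.floor_mono hxy
  have h1 := hC _ hxn
  have h2 := hC _ hyn
  have e : ∑ p ∈ (Icc 1 ⌊y⌋₊).filter (fun p => p.Prime ∧ spl p), 2 / (p : ℝ) =
      ∑ p ∈ (Icc 1 ⌊x⌋₊).filter (fun p => p.Prime ∧ spl p), 2 / (p : ℝ) + S1 x y := by
    unfold S1 P1F
    rw [← Finset.sum_union]
    · refine Finset.sum_congr ?_ fun _ _ => rfl
      rw [← Finset.filter_union]
      congr 1
      ext p
      simp only [mem_Icc, mem_union, mem_Ioc]
      omega
    · rw [Finset.disjoint_left]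
      intro p hp hp'
      simp only [mem_filter, mem_Icc, mem_Ioc] at hp hp'
      omega
  obtain ⟨h3, h4⟩ := loglog_floor hx
  obtain ⟨h5, h6⟩ := loglog_floor hy
  rw [abs_le] at h1 h2 ⊢
  constructor <;> linarith [h1.1, h1.2, h2.1, h2.2]

/-- the sum over `(z^a, z^b]` -/
theorem S1_pow : ∃ C : ℝ, 0 < C ∧ ∀ z a b : ℝ, 3 ≤ z → 1 ≤ a → a ≤ b →
    |S1 (z ^ a) (z ^ b) - Real.log (b / a)| ≤ C := by
  obtain ⟨C, hC0, hC⟩ := S1_log
  refine ⟨C, hC0, fun z a b hz ha hab => ?_⟩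
  have hz0 : 0 < z := by linarith
  have h1 : 3 ≤ z ^ a := by
    calc (3 : ℝ) ≤ z := hz
      _ = z ^ (1 : ℝ) := (Real.rpow_one z).symm
      _ ≤ z ^ a := Real.rpow_le_rpow_of_exponent_le (by linarith) ha
  have h2 : z ^ a ≤ z ^ b := Real.rpow_le_rpow_of_exponent_le (by linarith) hab
  have h3 := hC _ _ h1 h2
  have hl : 0 < Real.log z := Real.log_pos (by linarith)
  rw [Real.log_rpow hz0, Real.log_rpow hz0, Real.log_mul (by linarith) hl.ne',
    Real.log_mul (by linarith) hl.ne'] at h3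
  rw [Real.log_div (by linarith) (by linarith)]
  have e : Real.log b + Real.log (Real.log z) - (Real.log a + Real.log (Real.log z)) =
      Real.log b - Real.log a := by ring
  rwa [e] at h3

/-- the difference between `∑ 2/(l+1)` and `∑ 2/l` -/
lemma S1_succ {x y : ℝ} (hx : 0 < x) : (1 - 1 / x) * S1 x y ≤ ∑ l ∈ P1F x y, 2 / ((l : ℝ) + 1) ∧
    ∑ l ∈ P1F x y, 2 / ((l : ℝ) + 1) ≤ S1 x y := by
  constructor
  · unfold S1
    rw [Finset.mul_sum]
    refine Finset.sum_le_sum fun l hl => ?_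
    obtain ⟨h1, -, h3, -⟩ := (mem_P1 hx.le).1 hl
    have hl0 : (0 : ℝ) < l := hx.trans h1
    have h4 : 1 / (l : ℝ) ≤ 1 / x := one_div_le_one_div_of_le hx h1.le
    have h5 : (1 - 1 / x) * (2 / (l : ℝ)) ≤ (1 - 1 / (l : ℝ)) * (2 / (l : ℝ)) :=
      mul_le_mul_of_nonneg_right (by linarith) (by positivity)
    refine h5.trans ?_
    rw [le_div_iff₀ (by linarith)]
    have : (1 - 1 / (l : ℝ)) * (2 / (l : ℝ)) * (l + 1) = 2 * (1 - 1 / (l : ℝ) ^ 2) := by
      field_simp
      ring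
    rw [this]
    have : 0 < 1 / (l : ℝ) ^ 2 := by positivity
    linarith
  · unfold S1
    refine Finset.sum_le_sum fun l hl => ?_
    obtain ⟨h1, -, h3, -⟩ := (mem_P1 hx.le).1 hl
    have hl0 : (0 : ℝ) < l := hx.trans h1
    exact div_le_div_of_nonneg_left (by norm_num) hl0 (by linarith)

lemma card_P1 {x y : ℝ} (hy : 0 ≤ y) : ((P1F x y).card : ℝ) ≤ y := by
  unfold P1F
  have h1 : ((Ioc ⌊x⌋₊ ⌊y⌋₊).filter (fun l => l.Prime ∧ spl l)).card ≤ ⌊y⌋₊ := by
    refine (Finset.card_filter_le _ _).trans ?_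
    rw [Nat.card_Ioc]
    exact Nat.sub_le _ _
  exact (Nat.cast_le.2 h1).trans (Nat.floor_le hy)

end Pool.Agent.Lib.MP391708.TF1
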