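import Pool.Agent.Lib.MP_391708_nt.T1.SlLoc
import Pool.Agent.Lib.MP_391708_nt.TF.BasF

/-!
# T1a, group D: local computations on unimodular pairs modulo `q`, form of determinant `a`

Densities of the conditions `q ∣ F(s v + t w)` on the pairs `(v, w)` modulo `q` with cross product
`-1`.  At a prime `l ∤ 2 a` the form is a hyperbolic plane modulo `l ^ k` as soon as there is a
primitive isotropic vector; no condition on `l` against the coefficients of the form is needed.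
-/

set_option autoImplicit false

namespace Pool.Agent.Lib.MP391708.TF1

open Finset
open Pool.Agent.Lib.MP391708.Eqd (V cross pairs res)
open Pool.Agent.Lib.MP391708.T1 (sl R4 lift res_lift Per mn mn_def mem_sl sl_card_pos mn_const mn_nonneg
  mn_mono mn_le_one mn_one_sub)
open Pool.Agent.Lib.MP391708.TF (Aa Frm aa nsq dot spl aa_pos)

variable [Pool.Agent.Lib.MP391708.TF.Aa] [Pool.Agent.Lib.MP391708.TF.Frm]

namespace Loc

export Pool.Agent.Lib.MP391708.T1.Loc (V2 cr lv mem_sl_cr prim card_fib card_first card_base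
  prim_of_unit isUnit_iff add_unit prim_iff card_isUnit card_not_isUnit card_prim card_sl isUnit_two
  zero_of_mul red res_lift_red red_mem card_red exists_red mn_level)

section general

variable {q : ℕ}

/-- the form modulo `q` -/
def nq (v : V2 q) : ZMod q :=
  (Frm.A : ZMod q) * v.1 ^ 2 + 2 * (Frm.B : ZMod q) * v.1 * v.2 + (Frm.C : ZMod q) * v.2 ^ 2

/-- its bilinear form modulo `q` -/
def dq (v w : V2 q) : ZMod q :=
  (Frm.A : ZMod q) * (v.1 * w.1) + (Frm.B : ZMod q) * (v.1 * w.2 + v.2 * w.1) +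
    (Frm.C : ZMod q) * (v.2 * w.2)

lemma det_cast : (Frm.A : ZMod q) * (Frm.C : ZMod q) - (Frm.B : ZMod q) ^ 2 = (aa : ZMod q) := by
  have h := congrArg (fun x : ℤ => (x : ZMod q)) Frm.det
  push_cast at h
  exact h

lemma nq_mul (v w : V2 q) : nq v * nq w = dq v w ^ 2 + aa * cr v w ^ 2 := by
  rw [← det_cast]
  simp only [nq, dq, cr]; ring

lemma nq_comb (v w : V2 q) (x y : ZMod q) :
    nq (x * v.1 + y * w.1, x * v.2 + y * w.2) = x ^ 2 * nq v + 2 * (x * y) * dq v w + y ^ 2 * nq w := by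
  simp only [nq, dq]; ring

omit [Pool.Agent.Lib.MP391708.TF.Aa] [Pool.Agent.Lib.MP391708.TF.Frm] in
/-- coordinates of `u` in the basis `(v, w)` -/
lemma coord {v w : V2 q} (h : cr v w = -1) (u : V2 q) :
    u = (-cr u w * v.1 + -cr v u * w.1, -cr u w * v.2 + -cr v u * w.2) := by
  simp only [cr] at h ⊢
  refine Prod.ext ?_ ?_
  · simp only; linear_combination u.1 * h
  · simp only; linear_combination u.2 * h

omit [Pool.Agent.Lib.MP391708.TF.Aa] [Pool.Agent.Lib.MP391708.TF.Frm] in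
lemma prim_smul {v : V2 q} (hv : prim v) {b : ZMod q} (hb : IsUnit b) :
    prim (b * v.1, b * v.2) := by
  obtain ⟨w, hw⟩ := hv
  obtain ⟨u, rfl⟩ := hb
  refine ⟨(((u⁻¹ : (ZMod q)ˣ) : ZMod q) * w.1, ((u⁻¹ : (ZMod q)ˣ) : ZMod q) * w.2), ?_⟩
  simp only [cr] at hw ⊢
  have h1 : (u : ZMod q) * ((u⁻¹ : (ZMod q)ˣ) : ZMod q) = 1 := Units.mul_inv u
  linear_combination (v.1 * w.2 - v.2 * w.1) * h1 + hw

lemma nq_smul (v : V2 q) (b : ZMod q) : nq (b * v.1, b * v.2) = b ^ 2 * nq v := by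
  simp only [nq]; ring

end general

/-! ### prime powers -/

section primepower

variable {l k : ℕ} [hl : Fact l.Prime] [hk : NeZero k]

omit [Pool.Agent.Lib.MP391708.TF.Aa] [Pool.Agent.Lib.MP391708.TF.Frm] in
lemma isUnit_nat {n : ℕ} (h : ¬ l ∣ n) : IsUnit (n : ZMod (l ^ k)) := by
  rw [isUnit_iff (NeZero.ne k), map_natCast, Ne, ZMod.natCast_eq_zero_iff]
  exact h

omit [Pool.Agent.Lib.MP391708.TF.Frm] in
lemma u2 (h2 : ¬ l ∣ 2 * aa) : IsUnit (2 : ZMod (l ^ k)) := by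
  have := isUnit_nat (l := l) (k := k) (n := 2) (fun h => h2 (h.mul_right _))
  exact_mod_cast this

omit [Pool.Agent.Lib.MP391708.TF.Frm] in
lemma uaa (h2 : ¬ l ∣ 2 * aa) : IsUnit (aa : ZMod (l ^ k)) := isUnit_nat (fun h => h2 (h.mul_left _))

omit [Pool.Agent.Lib.MP391708.TF.Aa] [Pool.Agent.Lib.MP391708.TF.Frm] in
lemma not_isUnit_zero' : ¬ IsUnit (0 : ZMod (l ^ k)) := by
  intro h
  have h8 := (isUnit_iff (NeZero.ne k) (0 : ZMod (l ^ k))).1 h
  rw [map_zero] at h8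
  exact h8 rfl

omit hl hk in
/-- `d² = -a` for an isotropic vector -/
lemma dq_sq {v w : V2 (l ^ k)} (h0 : nq v = 0) (hc : cr v w = -1) :
    dq v w ^ 2 = -(aa : ZMod (l ^ k)) := by
  have h5 := nq_mul v w
  rw [h0, hc, zero_mul] at h5
  linear_combination -h5

lemma dq_unit (h2 : ¬ l ∣ 2 * aa) {v w : V2 (l ^ k)} (h0 : nq v = 0) (hc : cr v w = -1) :
    IsUnit (dq v w) := by
  refine (isUnit_pow_iff two_ne_zero).1 ?_
  rw [dq_sq h0 hc]
  exact (uaa h2).neg

/-- an isotropic vector has an isotropic partner -/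
lemma exists_partner (h2 : ¬ l ∣ 2 * aa) {v : V2 (l ^ k)} (hp : prim v) (h0 : nq v = 0) :
    ∃ w, cr v w = -1 ∧ nq w = 0 := by
  obtain ⟨w0, hw0⟩ := hp
  obtain ⟨u, hu⟩ := (u2 (k := k) h2).mul (dq_unit h2 h0 hw0)
  set x : ZMod (l ^ k) := -(nq w0 * ((u⁻¹ : (ZMod (l ^ k))ˣ) : ZMod (l ^ k))) with hx
  have huu : (u : ZMod (l ^ k)) * ((u⁻¹ : (ZMod (l ^ k))ˣ) : ZMod (l ^ k)) = 1 := Units.mul_inv u
  refine ⟨(x * v.1 + 1 * w0.1, x * v.2 + 1 * w0.2), ?_, ?_⟩
  · simp only [cr] at hw0 ⊢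
    linear_combination hw0
  · rw [nq_comb, h0]
    rw [hu] at huu
    rw [hx]
    linear_combination -nq w0 * huu

lemma partner_unique (h2 : ¬ l ∣ 2 * aa) {v w w' : V2 (l ^ k)} (h3 : nq v = 0)
    (h1 : cr v w = -1) (h4 : nq w = 0) (h1' : cr v w' = -1) (h4' : nq w' = 0) : w = w' := by
  have e := coord h1 w'
  have e0 : -cr v w' = 1 := by rw [h1']; ring
  rw [e0] at e
  have h5 := nq_comb v w (-cr w' w) 1
  rw [← e, h4', h3, h4] at h5
  have h6 : (2 * dq v w) * (-cr w' w) = 0 := by linear_combination -h5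
  have h7 := (((u2 (k := k) h2).mul (dq_unit h2 h3 h1)).mul_right_eq_zero).1 h6
  rw [h7] at e
  rw [e]
  refine Prod.ext ?_ ?_
  · simp only; ring
  · simp only; ring

/-- a primitive isotropic vector is a unit multiple of `v` or of `w` -/
lemma iso_cases (h2 : ¬ l ∣ 2 * aa) {v w u : V2 (l ^ k)} (hw : cr v w = -1) (h0 : nq v = 0)
    (hw0 : nq w = 0) (hp : prim u) (hu : nq u = 0) :
    (∃ b, IsUnit b ∧ (b * v.1, b * v.2) = u) ∨ ∃ b, IsUnit b ∧ (b * w.1, b * w.2) = u := by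
  have e := coord hw u
  set x := -cr u w with hx
  set y := -cr v u with hy
  have h5 := nq_comb v w x y
  rw [← e, hu, h0, hw0] at h5
  have h6 : (2 * dq v w) * (x * y) = 0 := by linear_combination -h5
  have h7 : x * y = 0 := (((u2 (k := k) h2).mul (dq_unit h2 h0 hw)).mul_right_eq_zero).1 h6
  have hxy : IsUnit x ∨ IsUnit y := by
    obtain ⟨u', hu'⟩ := hp
    have h8 : IsUnit (x * cr v u' + y * cr w u') := by
      have h9 : x * cr v u' + y * cr w u' = cr u u' := by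
        conv_rhs => rw [e]
        simp only [cr]; ring
      rw [h9, hu']
      exact isUnit_one.neg
    rcases add_unit h8 with h | h
    · exact Or.inl (isUnit_of_mul_isUnit_left h)
    · exact Or.inr (isUnit_of_mul_isUnit_left h)
  rcases hxy with h | h
  · left
    have hy0 : y = 0 := h.mul_right_eq_zero.1 h7
    refine ⟨x, h, ?_⟩
    rw [e, hy0]
    refine Prod.ext ?_ ?_
    · simp only; ring
    · simp only; ring
  · right
    have hx0 : x = 0 := h.mul_left_eq_zero.1 h7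
    refine ⟨y, h, ?_⟩
    rw [e, hx0]
    refine Prod.ext ?_ ?_
    · simp only; ring
    · simp only; ring

open Classical in
/-- exact number of primitive isotropic vectors, if there is one -/
lemma card_iso_eq0 (h2 : ¬ l ∣ 2 * aa) {v : V2 (l ^ k)} (hp : prim v) (h0 : nq v = 0) :
    ((univ : Finset (V2 (l ^ k))).filter (fun v => prim v ∧ nq v = 0)).card =
      2 * (l ^ (k - 1) * (l - 1)) := by
  obtain ⟨w, hw, hw0⟩ := exists_partner h2 hp h0
  have hwp : prim w := ⟨(-v.1, -v.2), by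
    simp only [cr] at hw ⊢
    linear_combination hw⟩
  have h3 : (univ : Finset (V2 (l ^ k))).filter (fun v => prim v ∧ nq v = 0) =
      ((univ : Finset (ZMod (l ^ k))).filter IsUnit).image (fun b => (b * v.1, b * v.2)) ∪
      ((univ : Finset (ZMod (l ^ k))).filter IsUnit).image (fun b => (b * w.1, b * w.2)) := by
    ext u
    simp only [mem_filter, mem_univ, true_and, mem_union, mem_image]
    constructor
    · rintro ⟨hu, hu0⟩
      exact iso_cases h2 hw h0 hw0 hu hu0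
    · rintro (⟨b, hb, rfl⟩ | ⟨b, hb, rfl⟩)
      · exact ⟨prim_smul hp hb, by rw [nq_smul, h0, mul_zero]⟩
      · exact ⟨prim_smul hwp hb, by rw [nq_smul, hw0, mul_zero]⟩
  have hc : ∀ b : ZMod (l ^ k), cr (b * v.1, b * v.2) w = -b := by
    intro b
    simp only [cr] at hw ⊢
    linear_combination b * hw
  have hc' : ∀ b : ZMod (l ^ k), cr v (b * w.1, b * w.2) = -b := by
    intro b
    simp only [cr] at hw ⊢
    linear_combination b * hw
  rw [h3, Finset.card_union_of_disjoint, Finset.card_image_of_injective,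
    Finset.card_image_of_injective, card_isUnit, two_mul]
  · intro a b hab
    have h4 := congrArg (fun u => cr v u) hab
    simp only [hc'] at h4
    exact neg_injective h4
  · intro a b hab
    have h4 := congrArg (fun u => cr u w) hab
    simp only [hc] at h4
    exact neg_injective h4
  · rw [Finset.disjoint_left]
    intro u hu hu'
    obtain ⟨b, hb, rfl⟩ := Finset.mem_image.1 hu
    obtain ⟨c, hc1, hbc⟩ := Finset.mem_image.1 hu'
    have h4 : cr (c * w.1, c * w.2) w = 0 := by simp only [cr]; ring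
    have h5 := congrArg (fun u => cr u w) hbc
    simp only [hc, h4] at h5
    have h6 := (Finset.mem_filter.1 hb).2
    have h7 : b = 0 := by linear_combination h5
    rw [h7] at h6
    exact not_isUnit_zero' h6

open Classical in
lemma card_iso_le (h2 : ¬ l ∣ 2 * aa) : ((univ : Finset (V2 (l ^ k))).filter
    (fun v => prim v ∧ nq v = 0)).card ≤ 2 * (l ^ (k - 1) * (l - 1)) := by
  rcases Finset.eq_empty_or_nonempty ((univ : Finset (V2 (l ^ k))).filter
    (fun v => prim v ∧ nq v = 0)) with he | ⟨v, hv⟩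
  · rw [he]; simp
  · obtain ⟨-, hp, h0⟩ := Finset.mem_filter.1 hv
    exact (card_iso_eq0 h2 hp h0).le

/-- a vector with unit value -/
lemma exists_unit_value (h2 : ¬ l ∣ 2 * aa) : ∃ v w : V2 (l ^ k), cr v w = -1 ∧ IsUnit (nq v) := by
  by_cases hA : IsUnit (Frm.A : ZMod (l ^ k))
  · refine ⟨(1, 0), (0, -1), ?_, ?_⟩
    · simp only [cr]; ring
    · have : nq (q := l ^ k) (1, 0) = (Frm.A : ZMod (l ^ k)) := by simp only [nq]; ring
      rw [this]; exact hA
  by_cases hC : IsUnit (Frm.C : ZMod (l ^ k))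
  · refine ⟨(0, 1), (1, 0), ?_, ?_⟩
    · simp only [cr]; ring
    · have : nq (q := l ^ k) (0, 1) = (Frm.C : ZMod (l ^ k)) := by simp only [nq]; ring
      rw [this]; exact hC
  · refine ⟨(1, 1), (1, 0), ?_, ?_⟩
    · simp only [cr]; ring
    have hB : IsUnit (Frm.B : ZMod (l ^ k)) := by
      have h3 : IsUnit ((Frm.A : ZMod (l ^ k)) * Frm.C + -(Frm.B : ZMod (l ^ k)) ^ 2) := by
        have h4 := det_cast (q := l ^ k)
        have h5 : (Frm.A : ZMod (l ^ k)) * Frm.C + -(Frm.B : ZMod (l ^ k)) ^ 2 = aa := by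
          linear_combination h4
        rw [h5]; exact uaa h2
      rcases add_unit h3 with h | h
      · exact absurd (isUnit_of_mul_isUnit_left h) hA
      · exact (isUnit_pow_iff two_ne_zero).1 ((IsUnit.neg_iff _).1 h)
    have h6 : IsUnit (2 * (Frm.B : ZMod (l ^ k))) := (u2 h2).mul hB
    have h7 : 2 * (Frm.B : ZMod (l ^ k)) = nq (q := l ^ k) (1, 1) +
        (-(Frm.A : ZMod (l ^ k)) + -(Frm.C : ZMod (l ^ k))) := by
      simp only [nq]; ring
    rw [h7] at h6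
    rcases add_unit h6 with h | h
    · exact h
    · rcases add_unit h with h | h
      · exact absurd ((IsUnit.neg_iff _).1 h) hA
      · exact absurd ((IsUnit.neg_iff _).1 h) hC

/-- a primitive isotropic vector from a square root of `-a` -/
lemma exists_iso (h2 : ¬ l ∣ 2 * aa) {i : ZMod (l ^ k)} (hi : i ^ 2 = -(aa : ZMod (l ^ k))) :
    ∃ v : V2 (l ^ k), prim v ∧ nq v = 0 := by
  obtain ⟨v, w, hc, hu⟩ := exists_unit_value (l := l) (k := k) h2
  have h1 := nq_mul v w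
  rw [hc] at h1
  obtain ⟨u, hu⟩ := hu
  have huu : (u : ZMod (l ^ k)) * ((u⁻¹ : (ZMod (l ^ k))ˣ) : ZMod (l ^ k)) = 1 := Units.mul_inv u
  refine ⟨((i - dq v w) * v.1 + nq v * w.1, (i - dq v w) * v.2 + nq v * w.2),
    ⟨(-((u⁻¹ : (ZMod (l ^ k))ˣ) : ZMod (l ^ k)) * v.1,
      -((u⁻¹ : (ZMod (l ^ k))ˣ) : ZMod (l ^ k)) * v.2), ?_⟩, ?_⟩
  · rw [← hu]
    simp only [cr] at hc ⊢
    linear_combination (u : ZMod (l ^ k)) * ((u⁻¹ : (ZMod (l ^ k))ˣ) : ZMod (l ^ k)) * hc - huu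
  · rw [nq_comb]
    linear_combination nq v * hi + nq v * h1

open Classical in
/-- exact number of primitive isotropic vectors -/
lemma card_iso_eq (h2 : ¬ l ∣ 2 * aa) {i : ZMod (l ^ k)} (hi : i ^ 2 = -(aa : ZMod (l ^ k))) :
    ((univ : Finset (V2 (l ^ k))).filter (fun v => prim v ∧ nq v = 0)).card =
      2 * (l ^ (k - 1) * (l - 1)) := by
  obtain ⟨v, hp, h0⟩ := exists_iso h2 hi
  exact card_iso_eq0 h2 hp h0

/-- no primitive isotropic vectors if `-a` is not a square modulo `l` -/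
lemma card_iso_zero (h4 : ¬ IsSquare (-(aa : ZMod l))) (v : V2 (l ^ k)) (hp : prim v) :
    nq v ≠ 0 := by
  intro h0
  obtain ⟨w, hw⟩ := hp
  have h1 := dq_sq h0 hw
  apply h4
  refine ⟨ZMod.castHom (dvd_pow_self l (NeZero.ne k)) (ZMod l) (dq v w), ?_⟩
  rw [← map_mul, ← sq, h1, map_neg, map_natCast]

open Classical in
/-- two isotropic vectors: as many pairs as isotropic vectors -/
lemma card_iso2_eq (h2 : ¬ l ∣ 2 * aa) : ((sl (l ^ k)).filter
    (fun r => nq r.1 = 0 ∧ nq r.2 = 0)).card =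
    ((univ : Finset (V2 (l ^ k))).filter (fun v => prim v ∧ nq v = 0)).card := by
  refine Finset.card_bij (fun r _ => r.1) ?_ ?_ ?_
  · intro r hr
    obtain ⟨h1, h3, h4⟩ := Finset.mem_filter.1 hr
    exact Finset.mem_filter.2 ⟨Finset.mem_univ _, ⟨r.2, mem_sl_cr.1 h1⟩, h3⟩
  · intro r hr r' hr' h
    obtain ⟨h1, h3, h4⟩ := Finset.mem_filter.1 hr
    obtain ⟨h1', h3', h4'⟩ := Finset.mem_filter.1 hr'
    rw [mem_sl_cr] at h1 h1'
    have h' : r.1 = r'.1 := h
    rw [← h'] at h1'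
    exact Prod.ext h' (partner_unique h2 h3 h1 h4 h1' h4')
  · intro v hv
    obtain ⟨-, hp, h0⟩ := Finset.mem_filter.1 hv
    obtain ⟨w, hw, hw0⟩ := exists_partner h2 hp h0
    exact ⟨(v, w), Finset.mem_filter.2 ⟨mem_sl_cr.2 hw, h0, hw0⟩, rfl⟩

open Classical in
lemma card_iso2_le (h2 : ¬ l ∣ 2 * aa) : ((sl (l ^ k)).filter
    (fun r => nq r.1 = 0 ∧ nq r.2 = 0)).card ≤ 2 * (l ^ (k - 1) * (l - 1)) :=
  (card_iso2_eq h2).le.trans (card_iso_le h2)

end primepower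

end Loc

/-! ### means of the indicators of `q ∣ F(s v + t w)` -/

open Loc

/-- the indicator of `q ∣ F(s v + t w)` -/
noncomputable def ind (q : ℕ) (s t : ℤ) (x : V × V) : ℝ :=
  if (q : ℤ) ∣ nsq x.1 * s ^ 2 + 2 * dot x.1 x.2 * s * t + nsq x.2 * t ^ 2 then 1 else 0

lemma qf_cast (q : ℕ) (s t : ℤ) (x : V × V) :
    ((nsq x.1 * s ^ 2 + 2 * dot x.1 x.2 * s * t + nsq x.2 * t ^ 2 : ℤ) : ZMod q) =
      nq (lv (s : ZMod q) (t : ZMod q) (res q x)) := by
  simp only [nsq, dot, nq, lv, res]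
  push_cast
  ring

lemma dvd_qf_iff (q : ℕ) (s t : ℤ) (x : V × V) :
    (q : ℤ) ∣ nsq x.1 * s ^ 2 + 2 * dot x.1 x.2 * s * t + nsq x.2 * t ^ 2 ↔
      nq (lv (s : ZMod q) (t : ZMod q) (res q x)) = 0 := by
  rw [← qf_cast, ZMod.intCast_zmod_eq_zero_iff_dvd]

lemma per_ind (q : ℕ) (s t : ℤ) : Per q (ind q s t) := by
  intro x y h
  unfold ind
  exact if_congr (by rw [dvd_qf_iff, dvd_qf_iff, h]) rfl rfl

lemma ind_nonneg (q : ℕ) (s t : ℤ) (x : V × V) : 0 ≤ ind q s t x := by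
  unfold ind; split_ifs <;> norm_num

lemma ind_le_one (q : ℕ) (s t : ℤ) (x : V × V) : ind q s t x ≤ 1 := by
  unfold ind; split_ifs <;> norm_num

lemma ind_one (s t : ℤ) (x : V × V) : ind 1 s t x = 1 := by
  unfold ind
  rw [if_pos (by simp)]

open Classical in
lemma mn_ind (q : ℕ) [NeZero q] (s t : ℤ) : mn q (ind q s t) =
    (((sl q).filter (fun r => nq (lv (s : ZMod q) (t : ZMod q) r) = 0)).card : ℝ) /
      ((sl q).card : ℝ) := by
  rw [mn_def, Finset.card_filter, Nat.cast_sum]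
  congr 1
  refine Finset.sum_congr rfl fun r _ => ?_
  unfold ind
  rw [show ((if nq (lv (s : ZMod q) (t : ZMod q) r) = 0 then 1 else 0 : ℕ) : ℝ) =
    if nq (lv (s : ZMod q) (t : ZMod q) r) = 0 then (1 : ℝ) else 0 by split_ifs <;> simp]
  refine if_congr ?_ rfl rfl
  rw [dvd_qf_iff, res_lift]

open Classical in
lemma mn_ind2 (q : ℕ) [NeZero q] (s t s' t' : ℤ) : mn q (fun x => ind q s t x * ind q s' t' x) =
    (((sl q).filter (fun r => nq (lv (s : ZMod q) (t : ZMod q) r) = 0 ∧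
      nq (lv (s' : ZMod q) (t' : ZMod q) r) = 0)).card : ℝ) / ((sl q).card : ℝ) := by
  rw [mn_def, Finset.card_filter, Nat.cast_sum]
  congr 1
  refine Finset.sum_congr rfl fun r _ => ?_
  unfold ind
  simp only [dvd_qf_iff, res_lift]
  split_ifs <;> simp_all

section pp

variable {l k : ℕ} [hl : Fact l.Prime]

export Pool.Agent.Lib.MP391708.T1 (exists_compl real_card_sl)

open Classical in
lemma card_ind (hk : k ≠ 0) {s t : ℤ} (h : ¬ ((l : ℤ) ∣ s ∧ (l : ℤ) ∣ t))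
    [NeZero (l ^ k)] :
    ((sl (l ^ k)).filter
      (fun r => nq (lv (s : ZMod (l ^ k)) (t : ZMod (l ^ k)) r) = 0)).card =
      l ^ k * ((univ : Finset (V2 (l ^ k))).filter (fun v => prim v ∧ nq v = 0)).card := by
  obtain ⟨c, d, hcd⟩ := exists_compl hk h
  have h1 := card_base hcd (fun v _ => nq v = 0)
  have h2 := card_first (q := l ^ k) (fun v => nq v = 0)
  refine Eq.trans ?_ (h1.trans (Eq.trans ?_ (h2.trans ?_)))
  · congr!
  · congr!
  · congr!

lemma mn_ind_pow_le (h2 : ¬ l ∣ 2 * aa) (hk : k ≠ 0) {s t : ℤ}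
    (h : ¬ ((l : ℤ) ∣ s ∧ (l : ℤ) ∣ t)) :
    mn (l ^ k) (ind (l ^ k) s t) ≤ 2 / ((l : ℝ) ^ (k - 1) * (l + 1)) := by
  classical
  have : NeZero k := ⟨hk⟩
  have : NeZero (l ^ k) := ⟨pow_ne_zero _ hl.1.ne_zero⟩
  have hl1 : (1 : ℝ) < l := by exact_mod_cast hl.1.one_lt
  rw [mn_ind, card_ind hk h, real_card_sl hk, Nat.cast_mul, Nat.cast_pow]
  have h3 := card_iso_le (l := l) (k := k) h2
  have h4 : (((univ : Finset (V2 (l ^ k))).filter (fun v => prim v ∧ nq v = 0)).card : ℝ) ≤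
      2 * ((l : ℝ) ^ (k - 1) * ((l : ℝ) - 1)) := by
    have h5 : ((2 * (l ^ (k - 1) * (l - 1)) : ℕ) : ℝ) = 2 * ((l : ℝ) ^ (k - 1) * ((l : ℝ) - 1)) := by
      push_cast [Nat.cast_sub hl.1.one_le]
      ring
    rw [← h5]
    exact_mod_cast h3
  have hp : (0 : ℝ) < (l : ℝ) ^ (k - 1) := by positivity
  rw [mul_div_mul_left _ _ (by positivity : (l : ℝ) ^ k ≠ 0), div_le_div_iff₀ (by
    refine mul_pos (by positivity) (by nlinarith)) (by positivity)]
  have h6 : ((l : ℝ) ^ 2 - 1) = (l - 1) * (l + 1) := by ring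
  rw [h6]
  calc (((univ : Finset (V2 (l ^ k))).filter (fun v => prim v ∧ nq v = 0)).card : ℝ) *
        ((l : ℝ) ^ (k - 1) * (l + 1)) ≤
        2 * ((l : ℝ) ^ (k - 1) * ((l : ℝ) - 1)) * ((l : ℝ) ^ (k - 1) * (l + 1)) :=
      mul_le_mul_of_nonneg_right h4 (by positivity)
    _ = 2 * (((l : ℝ) ^ (k - 1)) ^ 2 * ((l - 1) * (l + 1))) := by ring

omit [Pool.Agent.Lib.MP391708.TF.Frm] in
/-- a split prime does not divide `2 a` -/
lemma spl_not_dvd (h4 : spl l) : ¬ l ∣ 2 * aa := by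
  intro h
  have h1 := TA.chz_dvd (a := (aa : ℤ)) hl.1 (by simpa using h)
  unfold spl at h4
  rw [h4] at h1
  exact one_ne_zero h1

omit [Pool.Agent.Lib.MP391708.TF.Frm] in
lemma spl_iff (h2 : ¬ l ∣ 2 * aa) : spl l ↔ IsSquare (-(aa : ZMod l)) := by
  have h3 : l ≠ 2 := by rintro rfl; exact h2 (Dvd.intro _ rfl)
  have h4 : ¬ (l : ℤ) ∣ (aa : ℤ) := fun h => h2 ((Int.natCast_dvd_natCast.1 h).mul_left _)
  unfold spl
  rw [TA.chz_prime_one hl.1 h3 h4]
  constructor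
  · rintro ⟨s, hs⟩
    refine ⟨(s : ZMod l), ?_⟩
    rw [← ZMod.intCast_zmod_eq_zero_iff_dvd] at hs
    push_cast at hs
    linear_combination -hs
  · rintro ⟨y, hy⟩
    refine ⟨(y.val : ℤ), ?_⟩
    rw [← ZMod.intCast_zmod_eq_zero_iff_dvd]
    push_cast
    rw [ZMod.natCast_zmod_val]
    linear_combination -hy

omit [Pool.Agent.Lib.MP391708.TF.Frm] in
lemma exists_root (h4 : spl l) : ∃ i : ZMod (l ^ 1), i ^ 2 = -(aa : ZMod (l ^ 1)) := by
  obtain ⟨i, hi⟩ := (spl_iff (spl_not_dvd h4)).1 h4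
  refine ⟨ZMod.ringEquivCongr (pow_one l).symm i, ?_⟩
  rw [sq, ← map_mul, ← hi, map_neg, map_natCast]

/-- exact mean of the indicator at a split prime -/
lemma mn_ind_eq (h4 : spl l) {s t : ℤ} (h : ¬ ((l : ℤ) ∣ s ∧ (l : ℤ) ∣ t)) :
    mn l (ind l s t) = 2 / ((l : ℝ) + 1) := by
  classical
  have h2 := spl_not_dvd h4
  have : NeZero (l ^ 1) := ⟨pow_ne_zero _ hl.1.ne_zero⟩
  have hl1 : (1 : ℝ) < l := by exact_mod_cast hl.1.one_lt
  obtain ⟨i, hi⟩ := exists_root h4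
  have h6 : mn (l ^ 1) (ind (l ^ 1) s t) = 2 / ((l : ℝ) + 1) := by
    rw [mn_ind, card_ind one_ne_zero h, real_card_sl one_ne_zero, card_iso_eq h2 hi]
    push_cast [Nat.cast_sub hl.1.one_le]
    have h7 : (l : ℝ) - 1 ≠ 0 := by linarith
    have h8 : (l : ℝ) + 1 ≠ 0 := by linarith
    have h9 : ((l : ℝ) ^ 2 - 1) = (l - 1) * (l + 1) := by ring
    rw [h9]
    simp only [pow_zero, one_pow, one_mul, pow_one]
    field_simp
  rw [pow_one] at h6
  exact h6

lemma mn_ind_zero (h2 : ¬ l ∣ 2 * aa) (h4 : ¬ spl l) (hk : k ≠ 0) {s t : ℤ}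
    (h : ¬ ((l : ℤ) ∣ s ∧ (l : ℤ) ∣ t)) : mn (l ^ k) (ind (l ^ k) s t) = 0 := by
  classical
  have : NeZero k := ⟨hk⟩
  have : NeZero (l ^ k) := ⟨pow_ne_zero _ hl.1.ne_zero⟩
  rw [mn_ind, card_ind hk h]
  have h1 : (univ : Finset (V2 (l ^ k))).filter (fun v => prim v ∧ nq v = 0) = ∅ := by
    rw [Finset.filter_eq_empty_iff]
    rintro v - ⟨hp, h0⟩
    exact card_iso_zero (fun hs => h4 ((spl_iff h2).2 hs)) v hp h0
  rw [h1]; simp

open Classical in
/-- two conditions with different points are equivalent to two isotropic vectors -/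
lemma card_ind2 (hk : k ≠ 0) [NeZero (l ^ k)] {s t s' t' : ℤ} (h : ¬ (l : ℤ) ∣ s * t' - t * s') :
    ((sl (l ^ k)).filter (fun r => nq (lv (s : ZMod (l ^ k)) (t : ZMod (l ^ k)) r) = 0 ∧
      nq (lv (s' : ZMod (l ^ k)) (t' : ZMod (l ^ k)) r) = 0)).card =
      ((sl (l ^ k)).filter (fun r => nq r.1 = 0 ∧ nq r.2 = 0)).card := by
  have hu : IsUnit ((s * t' - t * s' : ℤ) : ZMod (l ^ k)) := by
    rw [isUnit_iff hk, map_intCast, Ne, ZMod.intCast_zmod_eq_zero_iff_dvd]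
    exact h
  obtain ⟨u, hu⟩ := hu
  set ui : ZMod (l ^ k) := ((u⁻¹ : (ZMod (l ^ k))ˣ) : ZMod (l ^ k)) with hui
  have huu : (u : ZMod (l ^ k)) * ui = 1 := Units.mul_inv u
  have hdet : (s : ZMod (l ^ k)) * (ui * (t' : ZMod (l ^ k))) -
      (t : ZMod (l ^ k)) * (ui * (s' : ZMod (l ^ k))) = 1 := by
    have h3 : (u : ZMod (l ^ k)) = s * t' - t * s' := by rw [hu]; push_cast; ring
    rw [h3] at huu
    linear_combination huu
  have h5' := card_base hdet (fun v w => nq v = 0 ∧ nq w = 0)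
  refine Eq.trans ?_ (h5'.trans (by congr!))
  congr 1
  ext r
  simp only [mem_filter]
  refine and_congr_right fun _ => and_congr_right fun _ => ?_
  have h6 : nq (lv (ui * (s' : ZMod (l ^ k))) (ui * (t' : ZMod (l ^ k))) r) =
      ui ^ 2 * nq (lv (s' : ZMod (l ^ k)) (t' : ZMod (l ^ k)) r) := by
    simp only [nq, lv]; ring
  rw [h6]
  have h7 : IsUnit (ui ^ 2) := (Units.isUnit (u⁻¹)).pow 2
  exact (h7.mul_right_eq_zero).symm

/-- two conditions with different points -/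
lemma mn_ind2_pow_le (h2 : ¬ l ∣ 2 * aa) (hk : k ≠ 0) {s t s' t' : ℤ}
    (h : ¬ (l : ℤ) ∣ s * t' - t * s') :
    mn (l ^ k) (fun x => ind (l ^ k) s t x * ind (l ^ k) s' t' x) ≤
      2 / ((l : ℝ) ^ (2 * k - 1) * (l + 1)) := by
  classical
  have : NeZero k := ⟨hk⟩
  have : NeZero (l ^ k) := ⟨pow_ne_zero _ hl.1.ne_zero⟩
  have hl1 : (1 : ℝ) < l := by exact_mod_cast hl.1.one_lt
  rw [mn_ind2, real_card_sl hk, card_ind2 hk h]
  have h6 := card_iso2_le (l := l) (k := k) h2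
  have h7 : (((sl (l ^ k)).filter (fun r => nq r.1 = 0 ∧ nq r.2 = 0)).card : ℝ) ≤
      2 * ((l : ℝ) ^ (k - 1) * ((l : ℝ) - 1)) := by
    have h8 : ((2 * (l ^ (k - 1) * (l - 1)) : ℕ) : ℝ) = 2 * ((l : ℝ) ^ (k - 1) * ((l : ℝ) - 1)) := by
      push_cast [Nat.cast_sub hl.1.one_le]
      ring
    rw [← h8]
    exact_mod_cast h6
  obtain ⟨j, rfl⟩ := Nat.exists_eq_succ_of_ne_zero hk
  have e1 : 2 * j.succ - 1 = 2 * j + 1 := by omega
  rw [e1, Nat.succ_sub_one] at *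
  rw [div_le_div_iff₀ (by
    refine mul_pos (by positivity) (mul_pos (by positivity) (by nlinarith))) (by positivity)]
  have h9 : ((l : ℝ) ^ 2 - 1) = (l - 1) * (l + 1) := by ring
  rw [h9]
  calc (((sl (l ^ j.succ)).filter (fun r => nq r.1 = 0 ∧ nq r.2 = 0)).card : ℝ) *
        ((l : ℝ) ^ (2 * j + 1) * (l + 1)) ≤
        2 * ((l : ℝ) ^ j * ((l : ℝ) - 1)) * ((l : ℝ) ^ (2 * j + 1) * (l + 1)) :=
      mul_le_mul_of_nonneg_right h7 (by positivity)
    _ = 2 * ((l : ℝ) ^ j.succ * (((l : ℝ) ^ j) ^ 2 * ((l - 1) * (l + 1)))) := by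
      rw [Nat.succ_eq_add_one, pow_succ (l : ℝ) j, pow_succ (l : ℝ) (2 * j), pow_mul' (l : ℝ) 2 j]
      ring

/-- exact mean of the product of two indicators with different points at a split prime -/
lemma mn_ind2_eq (h4 : spl l) {s t s' t' : ℤ} (h : ¬ (l : ℤ) ∣ s * t' - t * s') :
    mn l (fun x => ind l s t x * ind l s' t' x) = 2 / ((l : ℝ) * (l + 1)) := by
  classical
  have h2 := spl_not_dvd h4
  have : NeZero (l ^ 1) := ⟨pow_ne_zero _ hl.1.ne_zero⟩
  have hl1 : (1 : ℝ) < l := by exact_mod_cast hl.1.one_lt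
  obtain ⟨i, hi⟩ := exists_root h4
  have h6 : mn (l ^ 1) (fun x => ind (l ^ 1) s t x * ind (l ^ 1) s' t' x) =
      2 / ((l : ℝ) * (l + 1)) := by
    rw [mn_ind2, real_card_sl one_ne_zero, card_ind2 one_ne_zero h, card_iso2_eq h2,
      card_iso_eq h2 hi]
    push_cast [Nat.cast_sub hl.1.one_le]
    have h7 : (l : ℝ) - 1 ≠ 0 := by linarith
    have h8 : (l : ℝ) + 1 ≠ 0 := by linarith
    have h9 : ((l : ℝ) ^ 2 - 1) = (l - 1) * (l + 1) := by ring
    rw [h9]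
    simp only [pow_zero, one_pow, one_mul, pow_one]
    field_simp
  rw [pow_one] at h6
  exact h6

lemma mn_ind_pow_le' (h2 : ¬ l ∣ 2 * aa) (hk : k ≠ 0) {s t : ℤ}
    (h : ¬ ((l : ℤ) ∣ s ∧ (l : ℤ) ∣ t)) : mn (l ^ k) (ind (l ^ k) s t) ≤ 2 / ((l ^ k : ℕ) : ℝ) := by
  refine (mn_ind_pow_le h2 hk h).trans ?_
  have hl1 : (1 : ℝ) < l := by exact_mod_cast hl.1.one_lt
  obtain ⟨j, rfl⟩ := Nat.exists_eq_succ_of_ne_zero hk
  rw [Nat.succ_sub_one, Nat.cast_pow, Nat.succ_eq_add_one, pow_succ]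
  refine div_le_div_of_nonneg_left (by norm_num) (by positivity) ?_
  exact mul_le_mul_of_nonneg_left (by linarith) (by positivity)

lemma mn_ind2_pow_le' (h2 : ¬ l ∣ 2 * aa) (hk : k ≠ 0) {s t s' t' : ℤ}
    (h : ¬ (l : ℤ) ∣ s * t' - t * s') :
    mn (l ^ k) (fun x => ind (l ^ k) s t x * ind (l ^ k) s' t' x) ≤ 2 / ((l ^ k : ℕ) : ℝ) ^ 2 := by
  refine (mn_ind2_pow_le h2 hk h).trans ?_
  have hl1 : (1 : ℝ) < l := by exact_mod_cast hl.1.one_lt
  obtain ⟨j, rfl⟩ := Nat.exists_eq_succ_of_ne_zero hk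
  have e1 : 2 * j.succ - 1 = 2 * j + 1 := by omega
  rw [e1, Nat.cast_pow]
  refine div_le_div_of_nonneg_left (by norm_num) (by positivity) ?_
  have e2 : ((l : ℝ) ^ j.succ) ^ 2 = (l : ℝ) ^ (2 * j + 1) * l := by
    rw [Nat.succ_eq_add_one, pow_succ (l : ℝ) j, pow_succ (l : ℝ) (2 * j), pow_mul' (l : ℝ) 2 j]
    ring
  rw [e2]
  exact mul_le_mul_of_nonneg_left (by linarith) (by positivity)

end pp

end Pool.Agent.Lib.MP391708.TF1
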