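import Pool.Agent.Lib.MP_391708_nt.TF1.A3An
import Pool.Agent.Lib.MP_391708_nt.TF1.RelB
import Pool.Agent.Lib.MP_391708_nt.T1.A3

/-!
# Positive proportion of both signs: the weights of the roles (SpecA3), `n² + a`
-/

set_option autoImplicit false
set_option linter.constructorNameAsVariable false

namespace Pool.Agent.Lib.MP391708.TF.A3

variable [Pool.Agent.Lib.MP391708.TF.Aa]

open Finset Filter Topology
open Pool.Agent.Lib.MP391708.TF
open scoped Classical

noncomputable section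

variable {p : Prm} {N : ℕ}

lemma PP_prime {l : ℕ} (hl : l ∈ PP p N) : l.Prime := (mem_filter.1 hl).2.1

/-- `om` is additive on products without squares of sieving primes -/
lemma om_mul {x y : ℕ} (h : ∀ l ∈ PP p N, ¬ l ^ 2 ∣ x * y) :
    om p N (x * y) = om p N x + om p N y := by
  unfold om
  rw [← Finset.card_union_of_disjoint]
  · congr 1
    ext l
    simp only [mem_filter, mem_union]
    constructor
    · rintro ⟨h1, h2⟩
      rcases (PP_prime h1).dvd_mul.1 h2 with h3 | h3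
      · exact Or.inl ⟨h1, h3⟩
      · exact Or.inr ⟨h1, h3⟩
    · rintro (⟨h1, h2⟩ | ⟨h1, h2⟩)
      · exact ⟨h1, h2.mul_right _⟩
      · exact ⟨h1, h2.mul_left _⟩
  · rw [Finset.disjoint_left]
    intro l h1 h2
    rw [mem_filter] at h1 h2
    refine h l h1.1 ?_
    rw [sq]
    exact mul_dvd_mul h1.2 h2.2

/-- the tilt of a relation without squares of sieving primes -/
lemma tilt_eq {r : Rl} (hr : IsR r) (bT bR : ℝ)
    (h : ∀ l ∈ PP p N, ¬ l ^ 2 ∣ (rM r ^ 2 + aa) * rX r * rT r * rR r) :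
    tilt p N bT bR r = bT ^ om p N (rT r) * bR ^ om p N (rR r) := by
  unfold tilt
  set S := (PP p N).filter (fun l => ¬ l ∣ (rM r ^ 2 + aa) * rX r) with hS
  have key : ∀ (F : ℤ) (m : ℕ) (c : ℝ), F = rX r * m →
      (∀ l ∈ PP p N, l ∣ m → ¬ l ∣ (rM r ^ 2 + aa) * rX r) →
      ∏ l ∈ S, (if (l : ℤ) ∣ F then c else 1) = c ^ om p N m := by
    intro F m c hF hm
    rw [← Finset.prod_filter, Finset.prod_const]
    congr 1
    unfold om
    congr 1
    ext l
    simp only [hS, mem_filter]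
    constructor
    · rintro ⟨⟨h1, h2⟩, h3⟩
      refine ⟨h1, ?_⟩
      rw [hF] at h3
      have h4 : l ∣ rX r * m := by exact_mod_cast h3
      rcases (PP_prime h1).dvd_mul.1 h4 with h5 | h5
      · exact absurd (h5.mul_left _) h2
      · exact h5
    · rintro ⟨h1, h2⟩
      refine ⟨⟨h1, hm l h1 h2⟩, ?_⟩
      rw [hF]
      exact_mod_cast h2.mul_left _
  rw [Finset.prod_mul_distrib, key _ (rT r) bT hr.F1_eq, key _ (rR r) bR hr.F2_eq]
  · intro l hl h1 h2
    refine h l hl ?_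
    rw [sq]
    have h3 : (rM r ^ 2 + aa) * rX r * rT r * rR r =
      ((rM r ^ 2 + aa) * rX r) * rT r * rR r := by ring
    rw [h3]
    exact mul_dvd_mul (h2.mul_right _) h1
  · intro l hl h1 h2
    refine h l hl ?_
    rw [sq]
    have h3 : (rM r ^ 2 + aa) * rX r * rT r * rR r =
      ((rM r ^ 2 + aa) * rX r) * rR r * rT r := by ring
    rw [h3]
    exact mul_dvd_mul (h2.mul_right _) h1

/-- the common value of the weights of the three roles -/
def VW (p : Prm) (N : ℕ) (r : Rl) : ℝ :=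
  Real.exp (3 / 2 * S0 p N) / rp (rD r).natAbs * (2 / 3 : ℝ) ^ om p N (rM r ^ 2 + aa) *
    (1 / 6 : ℝ) ^ (om p N (rX r) + om p N (rT r) + om p N (rR r))

section

variable {e₁ : ℝ} {r : Rl}

lemma om_M (h : InRP p e₁ N r) :
    om p N (rM r ^ 2 + aa) = om p N (rG r) + om p N (rP r) + om p N (rQ r) := by
  rw [← h.isR.gpq, om_mul, om_mul]
  · intro l hl h1
    refine h.nsq l hl ?_
    have : rG r * rP r * rQ r * rX r * rT r * rR r =
      (rG r * rP r) * (rQ r * rX r * rT r * rR r) := by ring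
    rw [this]
    exact h1.mul_right _
  · intro l hl h1
    refine h.nsq l hl ?_
    have : rG r * rP r * rQ r * rX r * rT r * rR r =
      (rG r * rP r * rQ r) * (rX r * rT r * rR r) := by ring
    rw [this]
    exact h1.mul_right _

lemma UW_role4 (h : InRP p e₁ N r) (hN : 8 * aa ≤ N) : UW p N w4 (role4 r) = VW p N r := by
  have hc := h.crit hN
  obtain ⟨h1, -, h3, h4⟩ := hc.r4
  have hM : rM (role4 r) = (M4 r).natAbs := rfl
  have hG : rG (role4 r) = rX r := rfl
  have hP : rP (role4 r) = rP r := rfl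
  have hQ : rQ (role4 r) = rT r := rfl
  have hD : rD (role4 r) = rD r := rfl
  have hX : rX (role4 r) = rG r := rfl
  unfold UW VW
  rw [tilt_eq h1 _ _ (fun l hl h2 => by
    rw [hM, ← hc.xpt, hX, h3, h4] at h2
    refine h.nsq l hl ?_
    have : rG r * rP r * rQ r * rX r * rT r * rR r =
      rX r * rP r * rT r * rG r * rQ r * rR r := by ring
    rwa [this]), h3, h4, hG, hP, hQ, hD, hX, om_M h]
  have hτ : w4.tau = 3 / 2 := by
    simp only [Pool.Agent.Lib.MP391708.T4.Wts.tau, w4]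
    norm_num
  rw [hτ]
  simp only [w4, pow_add]
  ring

lemma UW_role2 (h : InRP p e₁ N r) (hN : 8 * aa ≤ N) : UW p N w2 (role2 r) = VW p N r := by
  have hc := h.crit hN
  obtain ⟨h1, -, h3, h4⟩ := hc.r2
  have hM : rM (role2 r) = (M2 r).natAbs := rfl
  have hG : rG (role2 r) = rX r := rfl
  have hP : rP (role2 r) = rR r := rfl
  have hQ : rQ (role2 r) = rQ r := rfl
  have hD : rD (role2 r) = rD r := rfl
  have hX : rX (role2 r) = rG r := rfl
  unfold UW VW
  rw [tilt_eq h1 _ _ (fun l hl h2 => by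
    rw [hM, ← hc.xrq, hX, h3, h4] at h2
    refine h.nsq l hl ?_
    have : rG r * rP r * rQ r * rX r * rT r * rR r =
      rX r * rR r * rQ r * rG r * rT r * rP r := by ring
    rwa [this]), h3, h4, hG, hP, hQ, hD, hX, om_M h]
  have hτ : w2.tau = 3 / 2 := by
    simp only [Pool.Agent.Lib.MP391708.T4.Wts.tau, w2]
    norm_num
  rw [hτ]
  simp only [w2, pow_add]
  ring

lemma UW_role3 (h : InRP p e₁ N r) (hN : 8 * aa ≤ N) : UW p N w3 (role3 r) = VW p N r := by
  have hc := h.crit hN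
  obtain ⟨h1, -, h3, h4⟩ := hc.r3
  have hM : rM (role3 r) = (M3 r).natAbs := rfl
  have hG : rG (role3 r) = rG r := rfl
  have hP : rP (role3 r) = rR r := rfl
  have hQ : rQ (role3 r) = rT r := rfl
  have hD : rD (role3 r) = rD r := rfl
  have hX : rX (role3 r) = rX r := rfl
  unfold UW VW
  rw [tilt_eq h1 _ _ (fun l hl h2 => by
    rw [hM, ← hc.grt, hX, h3, h4] at h2
    refine h.nsq l hl ?_
    have : rG r * rP r * rQ r * rX r * rT r * rR r =
      rG r * rR r * rT r * rX r * rQ r * rP r := by ring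
    rwa [this]), h3, h4, hG, hP, hQ, hD, hX, om_M h]
  have hτ : w3.tau = 3 / 2 := by
    simp only [Pool.Agent.Lib.MP391708.T4.Wts.tau, w3]
    norm_num
  rw [hτ]
  simp only [w3, pow_add]
  ring

end

/-! ### numbers -/

export Pool.Agent.Lib.MP391708.T4.A3 (log_three_halves log_three log_six pow_le_exp box_D)

lemma S0_nonneg (p : Prm) (N : ℕ) : 0 ≤ S0 p N := Finset.sum_nonneg fun l _ => by positivity

attribute [local irreducible] RP

/-- **A3**, with an explicit bound for `e₁` -/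
theorem a3 (e₁ : ℝ) (he₀ : 0 < e₁) (he₁ : e₁ ≤ 1 / 100) (p : Prm) (hζ : 0 < p.ζ) :
    ∃ C : ℝ, 0 < C ∧ ∀ᶠ N : ℕ in atTop, ∀ r ∈ RP p e₁ N,
      WC p N r ≤ Real.exp (-(S0 p N / 20)) ∧
      ∀ t ∈ [(role2, w2), (role3, w3), (role4, w4)], UW p N t.2 (t.1 r) ≤ 1 ∧
        WC p N r * 2 ^ om p N (rM r ^ 2 + aa) / Real.log (zz p N) ≤ C * UW p N t.2 (t.1 r) := by
  obtain ⟨C, hC0, hC⟩ := exp_S0_le p hζ
  refine ⟨C, hC0, ?_⟩
  filter_upwards [hC, one_div_rp_le_exp p hζ (show (0 : ℝ) < 1 / 10 by norm_num),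
    eventually_ge_atTop (8 * aa)] with N hN hrp hN2 r hr
  have h := inRP hr
  have hbox : (rD r).natAbs ≤ 10000 * (N + 1) ^ 2 := by
    rw [RP, Finset.mem_filter] at hr
    obtain ⟨hr1, -⟩ := hr
    generalize 10000 * (N + 1) ^ 2 = B at hr1 ⊢
    exact box_D hr1
  have hrp1 := hrp _ hbox
  have hrp0 := rp_pos (rD r).natAbs
  have hS := S0_nonneg p N
  set S := S0 p N with hSdef
  set a := om p N (rM r ^ 2 + aa) with ha
  set b := om p N (rX r) + om p N (rT r) + om p N (rR r) with hb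
  have ha1 : (2 - e₁) * S ≤ (a : ℝ) := h.omM
  have hb1 : (1 / 2 - e₁) * S ≤ (b : ℝ) := by
    have := h.omX
    rw [hb]
    push_cast
    exact this
  have h6 : (1 / 6 : ℝ) ^ b ≤ Real.exp (-(178 / 100 * ((1 / 2 - e₁) * S))) :=
    pow_le_exp (by norm_num) (by norm_num) (by
      have := log_six
      norm_num at this ⊢
      exact this) hb1
  have h3 : (1 / 3 : ℝ) ^ a ≤ Real.exp (-(109 / 100 * ((2 - e₁) * S))) :=
    pow_le_exp (by norm_num) (by norm_num) (by
      have := log_three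
      norm_num at this ⊢
      exact this) ha1
  have h23 : (2 / 3 : ℝ) ^ a ≤ Real.exp (-(2 / 5 * ((2 - e₁) * S))) :=
    pow_le_exp (by norm_num) (by norm_num) (by
      have := log_three_halves
      norm_num at this ⊢
      exact this) ha1
  have hWC : WC p N r ≤ Real.exp (-(S / 20)) := by
    have e1 : WC p N r = Real.exp (5 / 2 * S) * (1 / rp (rD r).natAbs) * (1 / 3 : ℝ) ^ a *
        (1 / 6 : ℝ) ^ b := by
      unfold WC
      ring
    rw [e1]
    calc Real.exp (5 / 2 * S) * (1 / rp (rD r).natAbs) * (1 / 3 : ℝ) ^ a * (1 / 6 : ℝ) ^ b ≤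
        Real.exp (5 / 2 * S) * Real.exp (1 / 10 * S) * Real.exp (-(109 / 100 * ((2 - e₁) * S))) *
          Real.exp (-(178 / 100 * ((1 / 2 - e₁) * S))) := by gcongr
      _ = Real.exp ((5 / 2 + 1 / 10 - 109 / 100 * (2 - e₁) - 178 / 100 * (1 / 2 - e₁)) * S) := by
          rw [← Real.exp_add, ← Real.exp_add, ← Real.exp_add]
          congr 1
          ring
      _ ≤ Real.exp (-(S / 20)) := by
          apply Real.exp_le_exp.2
          nlinarith
  have hVW : VW p N r ≤ 1 := by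
    have e1 : VW p N r = Real.exp (3 / 2 * S) * (1 / rp (rD r).natAbs) * (2 / 3 : ℝ) ^ a *
        (1 / 6 : ℝ) ^ b := by
      unfold VW
      ring
    rw [e1]
    calc Real.exp (3 / 2 * S) * (1 / rp (rD r).natAbs) * (2 / 3 : ℝ) ^ a * (1 / 6 : ℝ) ^ b ≤
        Real.exp (3 / 2 * S) * Real.exp (1 / 10 * S) * Real.exp (-(2 / 5 * ((2 - e₁) * S))) *
          Real.exp (-(178 / 100 * ((1 / 2 - e₁) * S))) := by gcongr
      _ = Real.exp ((3 / 2 + 1 / 10 - 2 / 5 * (2 - e₁) - 178 / 100 * (1 / 2 - e₁)) * S) := by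
          rw [← Real.exp_add, ← Real.exp_add, ← Real.exp_add]
          congr 1
          ring
      _ ≤ 1 := by
          rw [Real.exp_le_one_iff]
          nlinarith
  have hcmp : WC p N r * 2 ^ a / Real.log (zz p N) ≤ C * VW p N r := by
    have hlog : 0 < Real.log (zz p N) := by linarith [hN.2.1]
    have hVW0 : 0 ≤ VW p N r := by
      unfold VW
      positivity
    have e1 : WC p N r * 2 ^ a = Real.exp S * VW p N r := by
      unfold WC VW
      have e2 : Real.exp (5 / 2 * S0 p N) = Real.exp S * Real.exp (3 / 2 * S0 p N) := by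
        rw [← Real.exp_add]
        congr 1
        rw [hSdef]
        ring
      have e3 : (2 / 3 : ℝ) ^ om p N (rM r ^ 2 + aa) = (1 / 3 : ℝ) ^ om p N (rM r ^ 2 + aa) * 2 ^ a := by
        rw [ha, ← mul_pow]
        norm_num
      rw [e2, e3]
      ring
    rw [e1, div_le_iff₀ hlog]
    have h7 := mul_le_mul_of_nonneg_right hN.1 hVW0
    linarith
  refine ⟨hWC, ?_⟩
  intro t ht
  have hall : UW p N t.2 (t.1 r) = VW p N r := by
    simp only [List.mem_cons, List.not_mem_nil, or_false] at ht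
    rcases ht with rfl | rfl | rfl
    · exact UW_role2 h hN2
    · exact UW_role3 h hN2
    · exact UW_role4 h hN2
  rw [hall]
  exact ⟨hVW, hcmp⟩

/-- **SpecA3** -/
theorem specA3 : SpecA3 := by
  refine ⟨1 / 100, by norm_num, fun e₁ he₀ he₁ => ?_⟩
  refine ⟨0, fun E _ => ⟨0, fun K _ => ⟨0, fun r _ => ⟨0, fun k _ => ⟨1, one_pos,
    fun ζ hζ _ => a3 e₁ he₀ he₁ ⟨E, K, r, k, ζ⟩ hζ⟩⟩⟩⟩⟩

end

end Pool.Agent.Lib.MP391708.TF.A3
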