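import Pool.Agent.Lib.MP_391708_nt.TF1.ESpecC
import Pool.Agent.Lib.MP_391708_nt.TA.RRB
import Pool.Agent.Lib.MP_391708_nt.T1.GoodL

/-!
# Theorem T1a, group E, module EI12: the sums over `(D, x)` of PHI for given smooth part `n`
-/

set_option autoImplicit false

namespace Pool.Agent.Lib.MP391708.TF1

open Finset Filter Topology
open scoped Classical
open TF (Aa aa spl cE Prm Good zz W0 PP sm Adm S1 S2 vh kp kpU S0)
open T1 (SDD Dm Locm F1 F2 wgt wgt0 SQ)
open TA (EX DD Rt PPs chz rr LL dens dm lm lmj Bm SpecRTS)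

noncomputable section

variable [Aa]

namespace EI12M

lemma pI_nonneg (M G P Q l : ℕ) (d e : ℤ) : 0 ≤ pI M G P Q l d e := by
  unfold pI T1.wgt0 T1.wgt
  split_ifs <;> norm_num

/-- the product of the local weights -/
def FI (p : Prm) (N M G P Q n : ℕ) (D D₂ : ℤ) : ℝ :=
  ∏ l ∈ (PE p N).filter (fun l => ¬ l ∣ n), pI M G P Q l D D₂

lemma FI_nonneg (p : Prm) (N M G P Q n : ℕ) (D D₂ : ℤ) : 0 ≤ FI p N M G P Q n D D₂ :=
  prod_nonneg fun _ _ => pI_nonneg _ _ _ _ _ _ _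

lemma t_nonneg (p : Prm) (N M G P Q n : ℕ) (D : ℕ) (x : ℕ) :
    0 ≤ rr aa x * FI p N M G P Q n D ((n * x - G) / D) :=
  mul_nonneg (TA.RRB.rr_nonneg _ _) (FI_nonneg _ _ _ _ _ _ _ _ _)

/-- the `x` for `m = 1` -/
lemma SX_one (p : Prm) (M G P Q ρ n D : ℕ) (c : ℕ → Prop) (hc : ∀ x, c x) :
    (tI p M G P Q ρ n 1 0).SX D = (KI p M G Q n D).filter c := by
  unfold TA.EX.SX KI tI
  ext x
  simp [hc, Nat.modEq_one]

lemma mem_SX (p : Prm) (M G P Q ρ n D l x : ℕ) :
    x ∈ (tI p M G P Q ρ n l 0).SX D ↔ x ∈ KI p M G Q n D ∧ l ∣ x := by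
  unfold TA.EX.SX KI tI
  simp only [mem_filter, Nat.modEq_zero_iff_dvd]
  tauto

lemma UI_eq (hRTS : SpecRTS) (p : Prm) (N M G P Q n : ℕ) (hn : 0 < n) (c : ℕ → Prop) :
    UI p N M G P Q n c = ∑ ρ ∈ Rt n M G P Q, ∑ D ∈ SDD (W0 p) n ρ G (2 * M / P) (3 * M / P),
      (1 / TA.rp aa D) * ∑ x ∈ (KI p M G Q n D).filter c,
        rr aa x * FI p N M G P Q n D ((n * x - G) / D) := by
  unfold UI
  exact hRTS.1 (W0 p) n G P Q (2 * M / P) (3 * M / P) M (fun D => (1 / TA.rp aa D) *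
    ∑ x ∈ (KI p M G Q n D).filter c, rr aa x * FI p N M G P Q n D ((n * x - G) / D)) hn

lemma S_one (p : Prm) (N M G P Q ρ n : ℕ) (c : ℕ → Prop) (hc : ∀ x, c x) :
    (tI p M G P Q ρ n 1 0).S aa (FI p N M G P Q n) =
    ∑ D ∈ SDD (W0 p) n ρ G (2 * M / P) (3 * M / P),
      (1 / TA.rp aa D) * ∑ x ∈ (KI p M G Q n D).filter c,
        rr aa x * FI p N M G P Q n D ((n * x - G) / D) := by
  unfold TA.EX.S
  refine sum_congr rfl fun D _ => ?_
  rw [SX_one _ _ _ _ _ _ _ _ c hc]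
  rfl

/-- the part with a prime of `n` dividing `x`, for given `D` -/
lemma sum_dvd (p : Prm) (M G P Q ρ n D : ℕ) (t : ℕ → ℝ) (ht : ∀ x, 0 ≤ t x) (hn : n ≠ 0) :
    ∑ x ∈ (KI p M G Q n D).filter (fun x => ∃ l : ℕ, l.Prime ∧ l ∣ n ∧ l ∣ x), t x ≤
    ∑ l ∈ n.primeFactors, ∑ x ∈ (tI p M G P Q ρ n l 0).SX D, t x := by
  have h2 : ∀ l ∈ n.primeFactors, ∑ x ∈ (tI p M G P Q ρ n l 0).SX D, t x =
      ∑ x ∈ KI p M G Q n D, if l ∣ x then t x else 0 := by
    intro l _
    rw [← sum_filter]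
    refine sum_congr ?_ fun _ _ => rfl
    ext x
    rw [mem_SX, mem_filter]
  rw [sum_congr rfl h2, sum_comm, sum_filter]
  refine sum_le_sum fun x _ => ?_
  split_ifs with h
  · obtain ⟨l, hl1, hl2, hl3⟩ := h
    have hmem : l ∈ n.primeFactors := Nat.mem_primeFactors.2 ⟨hl1, hl2, hn⟩
    have h3 := single_le_sum (f := fun l : ℕ => if l ∣ x then t x else 0)
      (s := n.primeFactors) (fun l _ => by
        show 0 ≤ if l ∣ x then t x else 0
        split_ifs
        · exact ht x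
        · exact le_rfl) hmem
    simp only [if_pos hl3] at h3
    exact h3
  · refine sum_nonneg fun l _ => ?_
    split_ifs
    · exact ht x
    · exact le_rfl

/-- the number of prime factors of `n ≤ z ^ K` -/
lemma card_pf {n K : ℕ} {z : ℝ} (hz : 1 ≤ z) (hn : n ≠ 0) (hnz : (n : ℝ) ≤ z ^ K) :
    (n.primeFactors.card : ℝ) ≤ 2 * K * z := by
  have h1 : 2 ^ n.primeFactors.card ≤ n := by
    calc 2 ^ n.primeFactors.card ≤ ∏ q ∈ n.primeFactors, q :=
          Finset.pow_card_le_prod _ _ _ fun q hq => (Nat.prime_of_mem_primeFactors hq).two_le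
      _ ≤ n := Nat.le_of_dvd (Nat.pos_of_ne_zero hn) (Nat.prod_primeFactors_dvd n)
  have h2 : (2 : ℝ) ^ n.primeFactors.card ≤ z ^ K := by
    refine le_trans ?_ hnz
    exact_mod_cast h1
  have h3 := Real.log_le_log (by positivity) h2
  rw [Real.log_pow, Real.log_pow] at h3
  have h4 : Real.log z ≤ z := by
    have := Real.log_le_sub_one_of_pos (show 0 < z by linarith)
    linarith
  have h5 : (1 / 2 : ℝ) ≤ Real.log 2 := by
    have := Real.log_two_gt_d9
    linarith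
  have h6 : (K : ℝ) * Real.log z ≤ K * z := mul_le_mul_of_nonneg_left h4 (Nat.cast_nonneg _)
  have h7 : (n.primeFactors.card : ℝ) * (1 / 2) ≤ n.primeFactors.card * Real.log 2 :=
    mul_le_mul_of_nonneg_left h5 (Nat.cast_nonneg _)
  linarith

end EI12M

open EI12M in
theorem specEI12 (hEIG : SpecEIG) (hRTS : SpecRTS) (hERR : SpecERR) : SpecEI12 := by
  intro ε hε
  refine ((hEIG ε hε).and (hERR (fun _ => 0))).mono fun p hp => ?_
  obtain ⟨hp1, hζ, hE, hK, hW, hWl, hp2⟩ := hp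
  have hzt : Tendsto (fun N : ℕ => zz p N) atTop atTop := by
    unfold T4.zz
    exact (tendsto_rpow_atTop hζ).comp tendsto_natCast_atTop_atTop
  filter_upwards [hp1, hp2, hzt.eventually_ge_atTop (4 * p.K : ℝ)] with N hN1 hN2 hN3 M G P Q n
    hAdm hn
  obtain ⟨hz2, -, hN2⟩ := hN2
  obtain ⟨hM0, hG0, hP0, hQ0, hG4, -, -, -, -, -⟩ := hN2 M G P Q hAdm
  set z := zz p N with hz
  have hn' := hn
  unfold T1.SQ at hn'
  rw [mem_filter, mem_Icc] at hn'
  obtain ⟨⟨hn1, hn2⟩, hnsf, hnp⟩ := hn'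
  have hn0 : n ≠ 0 := by omega
  have hnz : (n : ℝ) ≤ z ^ p.K := by
    exact (Nat.cast_le.2 hn2).trans (Nat.floor_le (by positivity))
  have hGPQ : (G : ℤ) * P * Q = (M : ℤ) ^ 2 + (aa : ℤ) := by
    have := hAdm.1
    exact_mod_cast this
  have hcond : ∀ l : ℕ, l.Prime → l ∣ n → (l : ℝ) < z ∧ chz aa l = 1 ∧
      ¬ (l : ℤ) ∣ (M : ℤ) ^ 2 + (aa : ℤ) := by
    intro l hl hln
    have h1 := hnp l hl hln
    rw [Finset.mem_sdiff] at h1
    obtain ⟨h2, h3⟩ := h1
    have h4 := h2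
    unfold TF.PP at h4
    rw [mem_filter, mem_range, Nat.lt_ceil] at h4
    refine ⟨h4.1, h4.2.2.1, fun h5 => h3 ?_⟩
    unfold P1
    rw [mem_filter]
    refine ⟨h2, ?_⟩
    exact_mod_cast h5
  have hcard : (Rt n M G P Q).card = 2 ^ n.primeFactors.card :=
    hRTS.2.2 aa n G P Q M hGPQ (by omega) fun l hl hln => (hcond l hl hln).2
  have hcardR : ((Rt n M G P Q).card : ℝ) = 2 ^ n.primeFactors.card := by
    rw [hcard]; push_cast; rfl
  set X := mI p M G P Q n * VI p N M G P Q n with hX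
  have hzpos : 0 < z := by linarith
  have hz1 : 1 ≤ z := by linarith
  have hGr : (0 : ℝ) ≤ G := Nat.cast_nonneg _
  constructor
  · -- part 1
    rw [UI_eq hRTS p N M G P Q n (by omega), ← hcardR, ← nsmul_eq_mul, ← nsmul_eq_mul, ← sum_const,
      ← sum_const, ← sum_sub_distrib]
    refine (abs_sum_le_sum_abs _ _).trans (sum_le_sum fun ρ hρ => ?_)
    unfold TA.Rt at hρ
    rw [mem_filter] at hρ
    have h1 := (hN1 M G P Q n ρ hAdm hn hρ.2.1).1
    have h3 : (G : ℝ) / z ^ (20 * p.K + 20) ≤ G / z ^ (20 * p.K + 10) :=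
      div_le_div_of_nonneg_left hGr (by positivity) (pow_le_pow_right₀ hz1 (by omega))
    have h4 : |(tI p M G P Q ρ n 1 0).S aa (FI p N M G P Q n) - X| ≤
        ε * X + G / z ^ (20 * p.K + 10) := by
      refine le_trans h1 ?_
      linarith
    rw [S_one p N M G P Q ρ n (fun _ => True) (fun _ => trivial)] at h4
    exact h4
  · -- part 2
    rw [UI_eq hRTS p N M G P Q n (by omega), ← hcardR, ← nsmul_eq_mul, ← sum_const]
    refine sum_le_sum fun ρ hρ => ?_
    unfold TA.Rt at hρ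
    rw [mem_filter] at hρ
    have h1 := (hN1 M G P Q n ρ hAdm hn hρ.2.1).2
    have h2 : ∑ D ∈ SDD (W0 p) n ρ G (2 * M / P) (3 * M / P), (1 / TA.rp aa D) *
        ∑ x ∈ (KI p M G Q n D).filter (fun x => ∃ l : ℕ, l.Prime ∧ l ∣ n ∧ l ∣ x),
          rr aa x * FI p N M G P Q n D ((n * x - G) / D) ≤
        ∑ l ∈ n.primeFactors, (tI p M G P Q ρ n l 0).S aa (FI p N M G P Q n) := by
      have h3 : ∀ D ∈ SDD (W0 p) n ρ G (2 * M / P) (3 * M / P), (1 / TA.rp aa D) *
          ∑ x ∈ (KI p M G Q n D).filter (fun x => ∃ l : ℕ, l.Prime ∧ l ∣ n ∧ l ∣ x),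
            rr aa x * FI p N M G P Q n D ((n * x - G) / D) ≤
          ∑ l ∈ n.primeFactors, (1 / TA.rp aa D) *
            ∑ x ∈ (tI p M G P Q ρ n l 0).SX D,
              rr aa x * FI p N M G P Q n D ((n * x - G) / D) := by
        intro D _
        have h4 := mul_le_mul_of_nonneg_left (sum_dvd p M G P Q ρ n D
          (fun x => rr aa x * FI p N M G P Q n D ((n * x - G) / D))
          (fun x => t_nonneg _ _ _ _ _ _ _ _ _)
          hn0) (div_nonneg zero_le_one (TA.rp_pos aa D).le)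
        refine h4.trans (le_of_eq ?_)
        rw [mul_sum]
      refine (sum_le_sum h3).trans (le_of_eq ?_)
      rw [sum_comm]
      rfl
    refine h2.trans ?_
    have h5 : ∀ l ∈ n.primeFactors, (tI p M G P Q ρ n l 0).S aa (FI p N M G P Q n) ≤
        1 / (l : ℝ) * (4 * X) + G / z ^ (20 * p.K + 20) := by
      intro l hl
      have h6 := h1 l 0 (Nat.prime_of_mem_primeFactors hl) (Nat.dvd_of_mem_primeFactors hl)
      have e : 4 * X / (l : ℝ) = 1 / (l : ℝ) * (4 * X) := by ring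
      rw [← e]
      exact h6
    refine (sum_le_sum h5).trans ?_
    rw [sum_add_distrib, ← sum_mul, sum_const, nsmul_eq_mul]
    have h10 : (n.primeFactors.card : ℝ) * (G / z ^ (20 * p.K + 20)) ≤
        G / z ^ (20 * p.K + 10) := by
      have h11 := card_pf hz1 hn0 hnz
      have hKr : (0 : ℝ) ≤ p.K := Nat.cast_nonneg _
      have h12 : (n.primeFactors.card : ℝ) ≤ z ^ 10 := by
        calc (n.primeFactors.card : ℝ) ≤ 2 * p.K * z := h11
          _ ≤ z * z := mul_le_mul_of_nonneg_right (by linarith) hzpos.le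
          _ = z ^ 2 := by ring
          _ ≤ z ^ 10 := pow_le_pow_right₀ hz1 (by norm_num)
      calc (n.primeFactors.card : ℝ) * (G / z ^ (20 * p.K + 20)) ≤
            z ^ 10 * (G / z ^ (20 * p.K + 20)) := mul_le_mul_of_nonneg_right h12 (by positivity)
        _ = G / z ^ (20 * p.K + 10) := by
            have : z ^ (20 * p.K + 20) = z ^ 10 * z ^ (20 * p.K + 10) := by
              rw [← pow_add]; congr 1; ring
            rw [this]
            field_simp
    linarith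

end

end Pool.Agent.Lib.MP391708.TF1
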