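import Pool.Agent.Lib.MP_391708_nt.TF1.ERR
import Pool.Agent.Lib.MP_391708_nt.TF1.ESpecC
import Pool.Agent.Lib.MP_391708_nt.TA.EBD
import Pool.Agent.Lib.MP_391708_nt.TA.RTS
import Pool.Agent.Lib.MP_391708_nt.TF.Basic

/-!
# Theorem T1a, group E, module EI3: bad primes `≥ z` in PHI
-/

set_option autoImplicit false

namespace Pool.Agent.Lib.MP391708.TF1

open Finset Filter Topology
open scoped Classical
open TF (Aa aa spl cE Prm Good zz W0 PP sm Adm S1 S2 vh kp kpU S0)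
open T1 (SDD SQ)
open TA (EX DD Rt chz rr LL)

noncomputable section

variable [Aa]

namespace EI3

lemma spl_of_primes (n : ℕ) : 0 < n → (∀ l : ℕ, l.Prime → l ∣ n → spl l) → spl n := by
  induction n using Nat.strong_induction_on with
  | _ n ih =>
  intro hn h
  by_cases h1 : n = 1
  · subst h1; exact TF.Bs.spl_one
  · have hp := Nat.minFac_prime h1
    obtain ⟨m, hm⟩ := n.minFac_dvd
    have hp1 := h _ hp n.minFac_dvd
    have hm0 : 0 < m := by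
      rcases Nat.eq_zero_or_pos m with h0 | h0
      · rw [h0, mul_zero] at hm; omega
      · exact h0
    have hmn : m < n := by
      have h2 := hp.two_le
      nlinarith
    have h3 := ih m hmn hm0 (fun l hl hlm => h l hl (hm ▸ Dvd.dvd.mul_left hlm _))
    rw [hm]
    exact TF.Bs.spl_mul hp1 h3

lemma W0_pos (p : Prm) : 0 < W0 p := pow_pos (primorial_pos _) _

lemma hI_nonneg (M Q : ℕ) : 0 ≤ hI M Q := by unfold hI; positivity

/-- the data of PHI are admissible -/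
lemma ok_tI (p : Prm) {M G P Q ρ n m : ℕ} (κ : ℕ) (h4W : 4 * aa ∣ W0 p) (hn : 0 < n)
    (hρ : n.Coprime ρ) (hn4 : spl n) (hm : m = 1 ∨ m.Prime) (hmn : ∀ l : ℕ, l.Prime → l ∣ m → l ∣ n)
    (hG : 0 < G) (hG4 : spl G) (hWn : (W0 p).Coprime n) (hWG : (W0 p).Coprime G)
    (hnG : n.Coprime G) (hM : 0 < M) (hP : 0 < P) (hQ : 0 < Q) (hrel : G * P * Q = M ^ 2 + aa) :
    (tI p M G P Q ρ n m κ).Ok aa := by
  refine ⟨W0_pos p, by rw [Int.natAbs_natCast]; exact h4W, hn, hρ, hn, hn4, hm, ?_, hG, hG4, hWn, hWG, hnG,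
    Nat.div_le_div_right (by omega), hI_nonneg M Q, ?_⟩
  · intro l hl hlm
    rcases (Nat.Prime.dvd_mul hl).1 hlm with h | h
    · exact h
    · exact hmn l hl h
  · intro D hD1 hD2
    show ⌈((G : ℝ) + D * hI M Q) / n⌉₊ - 1 ≤ ⌈((G : ℝ) + 2 * D * hI M Q) / n⌉₊ - 1 ∧
      ⌈((G : ℝ) + 2 * D * hI M Q) / n⌉₊ - 1 ≤ 7 * G / n ∧
      |(((⌈((G : ℝ) + 2 * D * hI M Q) / n⌉₊ - 1 : ℕ) : ℝ) - ((⌈((G : ℝ) + D * hI M Q) / n⌉₊ - 1 : ℕ) : ℝ)) -
        D * hI M Q / n| ≤ 1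
    have hD3 : D ≤ 3 * M / P := hD2
    have hD4 : D * P ≤ 3 * M := by rwa [Nat.le_div_iff_mul_le hP] at hD3
    have hh := hI_nonneg M Q
    have hn' : (0 : ℝ) < n := by exact_mod_cast hn
    have hG' : (0 : ℝ) < G := by exact_mod_cast hG
    have hM' : (0 : ℝ) < M := by exact_mod_cast hM
    have hP' : (0 : ℝ) < P := by exact_mod_cast hP
    have hQ' : (0 : ℝ) < Q := by exact_mod_cast hQ
    have hD4' : (D : ℝ) * P ≤ 3 * M := by exact_mod_cast hD4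
    have hrel' : (G : ℝ) * P * Q = (M : ℝ) ^ 2 + aa := by exact_mod_cast hrel
    have hDh : (D : ℝ) * hI M Q ≤ 3 * G := by
      unfold hI
      rw [← hrel', mul_div_assoc', div_le_iff₀ (by positivity)]
      have : (D : ℝ) * P * (G * Q) ≤ 3 * M * (G * Q) := mul_le_mul_of_nonneg_right hD4' (by positivity)
      nlinarith
    have hDh0 : 0 ≤ (D : ℝ) * hI M Q := by positivity
    obtain ⟨y₁, hy₁⟩ : ∃ y₁, y₁ = ((G : ℝ) + D * hI M Q) / n := ⟨_, rfl⟩
    obtain ⟨y₂, hy₂⟩ : ∃ y₂, y₂ = ((G : ℝ) + 2 * D * hI M Q) / n := ⟨_, rfl⟩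
    rw [← hy₁, ← hy₂]
    have hy₁0 : 0 < y₁ := by rw [hy₁]; positivity
    have hy12 : y₂ - y₁ = D * hI M Q / n := by
      rw [hy₁, hy₂, ← sub_div]
      congr 1
      ring
    have hy12' : y₁ ≤ y₂ := by
      have : 0 ≤ (D : ℝ) * hI M Q / n := by positivity
      linarith
    have hc1 : 1 ≤ ⌈y₁⌉₊ := Nat.one_le_ceil_iff.2 hy₁0
    have hc2 : 1 ≤ ⌈y₂⌉₊ := Nat.one_le_ceil_iff.2 (hy₁0.trans_le hy12')
    have ha1 := Nat.le_ceil y₁
    have ha2 := Nat.le_ceil y₂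
    have hb1 := Nat.ceil_lt_add_one hy₁0.le
    have hb2 := Nat.ceil_lt_add_one (hy₁0.le.trans hy12')
    refine ⟨Nat.sub_le_sub_right (Nat.ceil_le_ceil hy12') 1, ?_, ?_⟩
    · rw [Nat.le_div_iff_mul_le hn]
      have h1 : (((⌈y₂⌉₊ - 1 : ℕ) : ℝ)) < y₂ := by
        rw [Nat.cast_sub hc2]
        push_cast
        linarith
      have h2 : y₂ * n ≤ 7 * G := by
        rw [hy₂, div_mul_cancel₀ _ hn'.ne']
        linarith
      have h3 : (((⌈y₂⌉₊ - 1 : ℕ) : ℝ)) * n ≤ 7 * G :=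
        (mul_le_mul_of_nonneg_right h1.le hn'.le).trans h2
      exact_mod_cast h3
    · rw [Nat.cast_sub hc2, Nat.cast_sub hc1, ← hy12, abs_le]
      push_cast
      constructor <;> linarith

lemma SX_tI (p : Prm) (M G P Q ρ n D : ℕ) :
    (tI p M G P Q ρ n 1 0).SX D = KI p M G Q n D := by
  unfold EX.SX KI
  show (Ioc (⌈((G : ℝ) + D * hI M Q) / n⌉₊ - 1) (⌈((G : ℝ) + 2 * D * hI M Q) / n⌉₊ - 1)).filter _ = _
  refine filter_congr fun x _ => ?_
  show (((D * W0 p : ℕ) : ℤ) ∣ n * x - G ∧ x ≡ 0 [MOD 1]) ↔ _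
  simp [Nat.modEq_one]

/-- facts about the `n` in the sum -/
lemma SQ_facts (p : Prm) (N M G P Q n : ℕ) (Y : ℝ) (hWl : ∀ l : ℕ, l.Prime → (l ≤ p.E ↔ l ∣ W0 p))
    (hrel : G * P * Q = M ^ 2 + aa) (hn : n ∈ SQ (PP p N \ P1 p N M) Y) :
    1 ≤ n ∧ n ≤ ⌊Y⌋₊ ∧ Squarefree n ∧ spl n ∧ (W0 p).Coprime n ∧ n.Coprime G ∧
      (∀ l : ℕ, l.Prime → l ∣ n → l ∈ PP p N ∧ ¬ l ∣ M ^ 2 + aa) := by
  rw [SQ, mem_filter, mem_Icc] at hn
  obtain ⟨⟨h1, h2⟩, h3, h4⟩ := hn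
  have h5 : ∀ l : ℕ, l.Prime → l ∣ n → l ∈ PP p N ∧ ¬ l ∣ M ^ 2 + aa := by
    intro l hl hln
    have h6 := Finset.mem_sdiff.1 (h4 l hl hln)
    rw [P1, mem_filter] at h6
    exact ⟨h6.1, fun h7 => h6.2 ⟨h6.1, h7⟩⟩
  have h6 : ∀ l : ℕ, l ∈ PP p N → spl l ∧ p.E < l := fun l hl =>
    ⟨TF.Bs.spl_of_mem_PP hl, TF.Bs.E_lt_of_mem_PP hl⟩
  refine ⟨h1, h2, h3, spl_of_primes n h1 fun l hl hln => (h6 l (h5 l hl hln).1).1, ?_, ?_, h5⟩
  · refine Nat.Coprime.symm (Nat.coprime_of_dvd fun l hl hln hlW => ?_)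
    have h7 := (h6 l (h5 l hl hln).1).2
    have h8 := (hWl l hl).2 hlW
    omega
  · refine Nat.coprime_of_dvd fun l hl hln hlG => ?_
    apply (h5 l hl hln).2
    rw [← hrel, mul_assoc]
    exact Dvd.dvd.mul_right hlG _

lemma sum_inv_le (m : ℕ) : ∑ n ∈ Icc 1 m, (1 : ℝ) / n ≤ 1 + Real.log m := by
  have h := harmonic_le_one_add_log m
  rw [harmonic_eq_sum_Icc] at h
  push_cast at h
  simpa [one_div] using h

end EI3

open EI3

theorem specEI3 : SpecEI3 := by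
  have hR := TA.specRTS
  refine (specERR (fun K => 2 * K + 1)).mono ?_
  intro p hp
  obtain ⟨hζ, hE1000, hK, h4W, hWl, hev⟩ := hp
  obtain ⟨C, hC, hEBD⟩ := TA.specEBD (aa : ℤ) (by exact_mod_cast TF.Bs.aa_ne) TF.Bs.nsq_chz
    (p.ζ / 10) (by positivity)
  have hzt : Tendsto (fun N : ℕ => zz p N) atTop atTop :=
    (tendsto_rpow_atTop hζ).comp tendsto_natCast_atTop_atTop
  have h1 : ∀ᶠ N : ℕ in atTop, C * (40 + 280 * p.K) ≤ (zz p N) ^ (1 / 10 : ℝ) :=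
    ((tendsto_rpow_atTop (by norm_num : (0 : ℝ) < 1 / 10)).comp hzt).eventually_ge_atTop _
  filter_upwards [hev, h1, eventually_ge_atTop (W0 p), eventually_ge_atTop 1000] with N hN hN1 hN2 hN3
  obtain ⟨hz2, hzN, hadm⟩ := hN
  intro M G P Q hA
  obtain ⟨hM, hG, hP, hQ, hG4, hxN, hGN, hPM, hzG, herr⟩ := hadm M G P Q hA
  have hrel : G * P * Q = M ^ 2 + aa := hA.1
  have hGW : Nat.Coprime G (W0 p) := hA.2.2.2.1
  obtain ⟨z, hz⟩ : ∃ z, z = zz p N := ⟨_, rfl⟩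
  simp only [← hz] at hz2 hzN hPM hzG herr hN1 ⊢
  have hz0 : 0 < z := by linarith
  have hz1 : 1 ≤ z := by linarith
  obtain ⟨x, hx⟩ : ∃ x : ℝ, x = (M : ℝ) / P := ⟨_, rfl⟩
  have hM' : (0 : ℝ) < M := by exact_mod_cast hM
  have hP' : (0 : ℝ) < P := by exact_mod_cast hP
  have hG' : (1 : ℝ) ≤ G := by exact_mod_cast hG
  have hx0 : 0 < x := by rw [hx]; positivity
  have hzx : z ^ (2 * p.K + 1) ≤ x := by rw [hx, le_div_iff₀ hP']; exact hPM
  have hx1 : 1 ≤ x := (one_le_pow₀ hz1).trans hzx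
  rw [← hx] at hxN herr
  have hxG : x * Real.sqrt G * z ^ (2 * p.K + 1) ≤ G := by
    refine le_trans ?_ herr
    rw [mul_comm]
    refine mul_le_mul_of_nonneg_left ?_ (by positivity)
    have : 0 ≤ (G : ℝ) * P / M := by positivity
    nlinarith [sq_nonneg x]
  have hN1000 : (1000 : ℝ) ≤ N := by exact_mod_cast hN3
  -- `N^(3 η)`
  have hNη : ((N : ℝ) ^ 3) ^ (p.ζ / 10) = z ^ (3 / 10 : ℝ) := by
    rw [hz, zz, ← Real.rpow_mul (by positivity), ← Real.rpow_natCast, ← Real.rpow_mul (by positivity)]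
    congr 1
    push_cast
    ring
  have hN3' : (N : ℝ) ≤ (N : ℝ) ^ 3 := by
    have : (1 : ℝ) ≤ (N : ℝ) ^ 2 := one_le_pow₀ (by linarith)
    nlinarith
  have hN2' : 1000 * (N : ℝ) ^ 2 ≤ (N : ℝ) ^ 3 := by
    have : 0 ≤ (N : ℝ) ^ 2 := by positivity
    nlinarith
  have hNN : (N : ℝ) ≤ (N : ℝ) ^ 2 := by nlinarith
  -- for one `n`
  have key : ∀ n ∈ SQ (PP p N \ P1 p N M) (z ^ p.K), cI G n * UI3 p N M G P Q n ≤
      C * z ^ (3 / 10 : ℝ) * (28 / z * (1 / n) + 12 * (z ^ p.K / z ^ (2 * p.K + 1))) := by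
    intro n hn
    obtain ⟨hn1, hn2, hnsq, hn4, hWn, hnG, hnl⟩ := SQ_facts p N M G P Q n _ hWl hrel hn
    have hn0 : (0 : ℝ) < n := by exact_mod_cast hn1
    have hnz : (n : ℝ) ≤ z ^ p.K := by
      exact (Nat.le_floor_iff (by positivity)).1 hn2
    have hnz2 : (n : ℝ) ≤ z ^ (2 * p.K + 1) :=
      hnz.trans (pow_le_pow_right₀ hz1 (by omega))
    have hnx : (n : ℝ) ≤ x := hnz2.trans hzx
    -- fixed `ρ`
    have hρ : ∀ ρ ∈ Rt n M G P Q,
        ∑ D ∈ SDD (W0 p) n ρ G (2 * M / P) (3 * M / P), (1 / TA.rp aa D) *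
          ∑ x ∈ (KI p M G Q n D).filter (fun x : ℕ => ∃ l : ℕ, l.Prime ∧ zz p N ≤ (l : ℝ) ∧
            (l ^ 2 ∣ x ∨ (l ∣ x ∧ l ∣ G))), rr aa x ≤
        C * z ^ (3 / 10 : ℝ) * (28 * G / ((n : ℝ) ^ 2 * z) + 12 * (x * Real.sqrt G)) := by
      intro ρ hρ
      rw [Rt, mem_filter] at hρ
      have hok := ok_tI p (m := 1) 0 h4W hn1 hρ.2.1 hn4 (Or.inl rfl)
        (fun l hl h => absurd (Nat.dvd_one.1 h) hl.ne_one) hG hG4 hWn hGW.symm hnG hM hP hQ hrel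
      have hA1 : x ≤ ((2 * M / P : ℕ) : ℝ) := by
        have h2 : (2 * M / P : ℕ) = (((2 * M / P : ℕ) : ℝ)) := rfl
        have h3 : 2 * M < (2 * M / P + 1) * P := by
          have := Nat.lt_div_mul_add (a := 2 * M) hP
          rw [add_mul, one_mul]
          exact this
        have h4 : 2 * (M : ℝ) < (((2 * M / P : ℕ) : ℝ) + 1) * P := by exact_mod_cast h3
        have h5 : 2 * x < ((2 * M / P : ℕ) : ℝ) + 1 := by
          rw [hx, mul_div_assoc', div_lt_iff₀ hP']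
          exact h4
        linarith
      have hA2 : ((3 * M / P : ℕ) : ℝ) ≤ 3 * x := by
        refine Nat.cast_div_le.trans ?_
        push_cast
        rw [hx, mul_div_assoc]
      have hRR : ((7 * G / n : ℕ) : ℝ) ≤ 7 * G / n := by
        refine Nat.cast_div_le.trans ?_
        push_cast
        exact le_rfl
      have hn1' : (1 : ℝ) ≤ n := by exact_mod_cast hn1
      have hRG : ((7 * G / n : ℕ) : ℝ) ≤ 7 * G := by
        refine hRR.trans (div_le_self (by positivity) hn1')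
      have hLe : (tI p M G P Q ρ n 1 0).Le ((N : ℝ) ^ 3) := by
        refine ⟨?_, ?_, ?_, ?_, ?_, ?_, ?_⟩
        · have : ((W0 p : ℕ) : ℝ) ≤ N := by exact_mod_cast hN2
          exact this.trans hN3'
        · exact (hnz2.trans hzN).trans hN3'
        · exact (hnz2.trans hzN).trans hN3'
        · show ((1 : ℕ) : ℝ) ≤ (N : ℝ) ^ 3
          push_cast
          linarith
        · show (G : ℝ) ≤ (N : ℝ) ^ 3
          nlinarith [sq_nonneg (N : ℝ)]
        · show ((3 * M / P : ℕ) : ℝ) ≤ (N : ℝ) ^ 3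
          nlinarith
        · show ((7 * G / n : ℕ) : ℝ) ≤ (N : ℝ) ^ 3
          nlinarith [sq_nonneg (N : ℝ)]
      have hA1pos : 0 < (tI p M G P Q ρ n 1 0).A₁ := by
        show 0 < 2 * M / P
        have : (0 : ℝ) < ((2 * M / P : ℕ) : ℝ) := by linarith
        exact_mod_cast this
      have h2 := hEBD (tI p M G P Q ρ n 1 0) ((N : ℝ) ^ 3) z hok hz2
        (by linarith) hLe rfl hA1pos
      rw [hNη] at h2
      simp only [SX_tI] at h2
      have h3 : (tI p M G P Q ρ n 1 0).SD = SDD (W0 p) n ρ G (2 * M / P) (3 * M / P) := rfl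
      rw [h3] at h2
      rw [← hz]
      refine h2.trans (mul_le_mul_of_nonneg_left ?_ (by positivity))
      show ((7 * G / n : ℕ) : ℝ) / z * (((((3 * M / P : ℕ) : ℝ) - ((2 * M / P : ℕ) : ℝ)) / n + 1) /
        ((2 * M / P : ℕ) : ℝ)) + ((3 * M / P : ℕ) : ℝ) * (Real.sqrt ((7 * G / n : ℕ) : ℝ) + 1) ≤ _
      have h4 : (((((3 * M / P : ℕ) : ℝ) - ((2 * M / P : ℕ) : ℝ)) / n + 1) /
        ((2 * M / P : ℕ) : ℝ)) ≤ 4 / n := by
        have h5 : ((((3 * M / P : ℕ) : ℝ) - ((2 * M / P : ℕ) : ℝ)) / n + 1) ≤ 4 / n * x := by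
          have h6 : (((3 * M / P : ℕ) : ℝ) - ((2 * M / P : ℕ) : ℝ)) / n ≤ 3 * x / n :=
            div_le_div_of_nonneg_right (by linarith) hn0.le
          have h7 : 1 ≤ x / n := by rw [le_div_iff₀ hn0]; linarith
          have h8 : 4 / n * x = 3 * x / n + x / n := by ring
          linarith
        rw [div_le_iff₀ (by linarith)]
        exact h5.trans (mul_le_mul_of_nonneg_left hA1 (by positivity))
      have h5 : ((7 * G / n : ℕ) : ℝ) / z * (((((3 * M / P : ℕ) : ℝ) - ((2 * M / P : ℕ) : ℝ)) / n + 1) /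
        ((2 * M / P : ℕ) : ℝ)) ≤ 28 * G / ((n : ℝ) ^ 2 * z) := by
        calc _ ≤ ((7 * G / n : ℕ) : ℝ) / z * (4 / n) := mul_le_mul_of_nonneg_left h4 (by positivity)
          _ ≤ (7 * G / n) / z * (4 / n) := by gcongr
          _ = _ := by field_simp; ring
      have h6 : Real.sqrt ((7 * G / n : ℕ) : ℝ) ≤ 3 * Real.sqrt G := by
        rw [show (3 : ℝ) = Real.sqrt 9 by rw [show (9 : ℝ) = 3 ^ 2 by norm_num]; simp,
          ← Real.sqrt_mul (by norm_num)]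
        apply Real.sqrt_le_sqrt
        linarith
      have h7 : 1 ≤ Real.sqrt G := by rw [Real.one_le_sqrt]; exact hG'
      have h8 : ((3 * M / P : ℕ) : ℝ) * (Real.sqrt ((7 * G / n : ℕ) : ℝ) + 1) ≤
          12 * (x * Real.sqrt G) := by
        calc _ ≤ (3 * x) * (3 * Real.sqrt G + Real.sqrt G) := by gcongr
          _ = _ := by ring
      linarith
    -- the sum over `ρ`
    have h2 : UI3 p N M G P Q n ≤ 2 ^ n.primeFactors.card *
        (C * z ^ (3 / 10 : ℝ) * (28 * G / ((n : ℝ) ^ 2 * z) + 12 * (x * Real.sqrt G))) := by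
      unfold UI3
      rw [hR.1 (W0 p) n G P Q (2 * M / P) (3 * M / P) M _ hn1]
      refine (sum_le_card_nsmul _ _ _ hρ).trans ?_
      rw [nsmul_eq_mul]
      refine mul_le_mul_of_nonneg_right ?_ (by positivity)
      have h3 := hR.2.1 aa n G P Q M (by exact_mod_cast hrel) (by rw [Int.natAbs_natCast]; exact TF.Bs.coprime_of_spl hn4)
      exact_mod_cast h3
    have h3 : 0 ≤ cI G n := by unfold cI; positivity
    refine (mul_le_mul_of_nonneg_left h2 h3).trans ?_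
    unfold cI
    have h4 : (1 / 6 : ℝ) ^ n.primeFactors.card * 2 ^ n.primeFactors.card ≤ 1 := by
      rw [← mul_pow]
      exact pow_le_one₀ (by norm_num) (by norm_num)
    have h5 : (x * Real.sqrt G) / G ≤ 1 / z ^ (2 * p.K + 1) := by
      rw [div_le_div_iff₀ (by linarith) (by positivity)]
      linarith
    calc (1 / 6 : ℝ) ^ n.primeFactors.card * n / G * (2 ^ n.primeFactors.card *
          (C * z ^ (3 / 10 : ℝ) * (28 * G / ((n : ℝ) ^ 2 * z) + 12 * (x * Real.sqrt G))))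
        = ((1 / 6 : ℝ) ^ n.primeFactors.card * 2 ^ n.primeFactors.card) * (C * z ^ (3 / 10 : ℝ) *
          (28 / z * (1 / n) + 12 * (n * ((x * Real.sqrt G) / G)))) := by
          have hG0 : (G : ℝ) ≠ 0 := by positivity
          field_simp
      _ ≤ 1 * (C * z ^ (3 / 10 : ℝ) * (28 / z * (1 / n) + 12 * (n * ((x * Real.sqrt G) / G)))) :=
          mul_le_mul_of_nonneg_right h4 (by positivity)
      _ ≤ C * z ^ (3 / 10 : ℝ) * (28 / z * (1 / n) + 12 * (z ^ p.K * (1 / z ^ (2 * p.K + 1)))) := by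
          rw [one_mul]
          gcongr
      _ = _ := by rw [mul_one_div (z ^ p.K)]
  refine (sum_le_sum key).trans ?_
  rw [← mul_sum]
  have hY : (⌊z ^ p.K⌋₊ : ℝ) ≤ z ^ p.K := Nat.floor_le (by positivity)
  have h2 : ∑ n ∈ SQ (PP p N \ P1 p N M) (z ^ p.K), (28 / z * (1 / (n : ℝ)) +
      12 * (z ^ p.K / z ^ (2 * p.K + 1))) ≤ (40 + 28 * (p.K * Real.log z)) / z := by
    calc _ ≤ ∑ n ∈ Icc 1 ⌊z ^ p.K⌋₊, (28 / z * (1 / (n : ℝ)) + 12 * (z ^ p.K / z ^ (2 * p.K + 1))) := by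
          refine sum_le_sum_of_subset_of_nonneg (filter_subset _ _) fun n _ _ => by positivity
      _ = 28 / z * ∑ n ∈ Icc 1 ⌊z ^ p.K⌋₊, (1 / (n : ℝ)) +
          ⌊z ^ p.K⌋₊ * (12 * (z ^ p.K / z ^ (2 * p.K + 1))) := by
          rw [sum_add_distrib, ← mul_sum, sum_const, Nat.card_Icc, Nat.add_sub_cancel, nsmul_eq_mul]
      _ ≤ 28 / z * (1 + p.K * Real.log z) + z ^ p.K * (12 * (z ^ p.K / z ^ (2 * p.K + 1))) := by
          gcongr
          refine (sum_inv_le _).trans ?_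
          have h3 : 0 < ⌊z ^ p.K⌋₊ := Nat.floor_pos.2 (one_le_pow₀ hz1)
          have h4 : Real.log (⌊z ^ p.K⌋₊ : ℝ) ≤ Real.log (z ^ p.K) :=
            Real.log_le_log (by exact_mod_cast h3) hY
          rw [Real.log_pow] at h4
          linarith
      _ = _ := by
          have h3 : z ^ p.K * (12 * (z ^ p.K / z ^ (2 * p.K + 1))) = 12 / z := by
            rw [two_mul, pow_succ, pow_add]
            field_simp
          rw [h3]
          field_simp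
          ring
  have h3 : Real.log z ≤ 10 * z ^ (1 / 10 : ℝ) := by
    have := Real.log_le_rpow_div hz0.le (by norm_num : (0 : ℝ) < 1 / 10)
    linarith
  have h4 : (1 : ℝ) ≤ z ^ (1 / 10 : ℝ) := Real.one_le_rpow hz1 (by norm_num)
  have hKr : (0 : ℝ) ≤ p.K := Nat.cast_nonneg _
  have h5 : (40 + 28 * (p.K * Real.log z)) / z ≤ (40 + 280 * p.K) * z ^ (1 / 10 : ℝ) / z := by
    gcongr
    nlinarith [mul_le_mul_of_nonneg_left h3 hKr]
  have h6 : z ^ (3 / 10 : ℝ) * z ^ (1 / 10 : ℝ) * z ^ (1 / 10 : ℝ) = Real.sqrt z := by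
    rw [← Real.rpow_add hz0, ← Real.rpow_add hz0, Real.sqrt_eq_rpow]
    congr 1
    norm_num
  have h7 : Real.sqrt z * Real.sqrt z = z := Real.mul_self_sqrt hz0.le
  have h8 : 0 < Real.sqrt z := Real.sqrt_pos.2 hz0
  calc C * z ^ (3 / 10 : ℝ) * _ ≤ C * z ^ (3 / 10 : ℝ) * ((40 + 280 * p.K) * z ^ (1 / 10 : ℝ) / z) :=
        mul_le_mul_of_nonneg_left (h2.trans h5) (by positivity)
    _ = (C * (40 + 280 * p.K)) * (z ^ (3 / 10 : ℝ) * z ^ (1 / 10 : ℝ)) / z := by ring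
    _ ≤ z ^ (1 / 10 : ℝ) * (z ^ (3 / 10 : ℝ) * z ^ (1 / 10 : ℝ)) / z := by gcongr
    _ = Real.sqrt z / z := by rw [← h6]; ring
    _ = 1 / Real.sqrt z := by
        rw [div_eq_div_iff hz0.ne' h8.ne', h7, one_mul]

end

end Pool.Agent.Lib.MP391708.TF1
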