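import Pool.Agent.Lib.MP_391708_nt.TF1.ESpecC
import Pool.Agent.Lib.MP_391708_nt.TA.ELM
import Pool.Agent.Lib.MP_391708_nt.TA.LMJ
import Pool.Agent.Lib.MP_391708_nt.TA.LLX
import Pool.Agent.Lib.MP_391708_nt.T1.GoodL

/-!
# Theorem T1a, module EIG: the asymptotic formula for the sums over `(D, x)` in role 1

Port of `T1/EIG.lean`.
-/

set_option autoImplicit false
set_option linter.constructorNameAsVariable false

namespace Pool.Agent.Lib.MP391708.TF1

open Finset Filter Topology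
open scoped Classical
open TF (Aa aa spl cE Prm Good zz W0 PP sm Adm S1 S2 vh kp kpU S0)
open T1 (SDD Dm Locm F1 F2 wgt wgt0 SQ)
open TA (EX DD Rt PPs chz rr LL dens dm lm lmj Bm)

noncomputable section

variable [Aa]

namespace EIGM

/-! ## the local weights are periodic -/

omit [Aa] in
lemma dvd_congr {l a b : ℤ} (h : l ∣ a - b) : l ∣ a ↔ l ∣ b := by
  constructor
  · intro ha
    have := dvd_sub ha h
    rwa [sub_sub_cancel] at this
  · intro hb
    have := dvd_add h hb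
    rwa [sub_add_cancel] at this

lemma F1_congr {l : ℤ} (M : ℤ) (G P Q : ℕ) {d d' : ℤ} (h : l ∣ d - d') :
    l ∣ F1 M G P Q d ↔ l ∣ F1 M G P Q d' := by
  refine dvd_congr ?_
  have e : F1 M G P Q d - F1 M G P Q d' = (d - d') * (P * (d + d') - 2 * M) := by
    unfold F1; ring
  rw [e]
  exact dvd_mul_of_dvd_left h _

lemma F2_congr {l : ℤ} (M : ℤ) (G P Q : ℕ) {d d' : ℤ} (h : l ∣ d - d') :
    l ∣ F2 M G P Q d ↔ l ∣ F2 M G P Q d' := by
  refine dvd_congr ?_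
  have e : F2 M G P Q d - F2 M G P Q d' = (d - d') * (Q * (d + d') + 2 * M) := by
    unfold F2; ring
  rw [e]
  exact dvd_mul_of_dvd_left h _

lemma X_congr {l : ℤ} (G : ℤ) {d d' e e' : ℤ} (h : l ∣ d - d') (h' : l ∣ e - e') :
    l ∣ G + d * e ↔ l ∣ G + d' * e' := by
  refine dvd_congr ?_
  have e : G + d * e - (G + d' * e') = (d - d') * e + d' * (e - e') := by ring
  rw [e]
  exact dvd_add (dvd_mul_of_dvd_left h _) (dvd_mul_of_dvd_right h' _)

lemma locm_wgt (l : ℕ) (M : ℤ) (G P Q : ℕ) {bT bR : ℝ} (h1 : 0 ≤ bT) (h2 : bT ≤ 1)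
    (h3 : 0 ≤ bR) (h4 : bR ≤ 1) : Locm l (wgt l M G P Q bT bR) := by
  constructor
  · intro d e
    unfold wgt
    split_ifs
    · norm_num
    · exact ⟨mul_nonneg h1 h3, mul_le_one₀ h2 h3 h4⟩
    · exact ⟨by rw [mul_one]; exact h1, by rw [mul_one]; exact h2⟩
    · exact ⟨by rw [one_mul]; exact h3, by rw [one_mul]; exact h4⟩
    · norm_num
  · intro d d' e e' hd he
    unfold wgt
    rw [if_congr (X_congr (G : ℤ) hd he) rfl (congrArg₂ (· * ·)
      (if_congr (F1_congr M G P Q hd) rfl rfl) (if_congr (F2_congr M G P Q he) rfl rfl))]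

lemma locm_wgt0 (l : ℕ) (G Q : ℕ) : Locm l (wgt0 l G Q) := by
  constructor
  · intro d e
    unfold wgt0
    split_ifs <;> norm_num
  · intro d d' e e' hd he
    unfold wgt0
    rw [if_congr (or_congr (X_congr (G : ℤ) hd he) (and_congr (dvd_congr hd) Iff.rfl)) rfl rfl]

lemma locm_pI (M G P Q l : ℕ) : Locm l (pI M G P Q l) := by
  have e : pI M G P Q l = if (l : ℤ) ∣ (M : ℤ) ^ 2 + aa then wgt0 l G Q
      else if spl l then wgt l M G P Q (1 / 6) (1 / 6) else wgt l M G P Q 1 1 := by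
    funext d e
    unfold pI
    split_ifs <;> rfl
  rw [e]
  split_ifs
  · exact locm_wgt0 l G Q
  · exact locm_wgt l M G P Q (by norm_num) (by norm_num) (by norm_num) (by norm_num)
  · exact locm_wgt l M G P Q (by norm_num) (by norm_num) (by norm_num) (by norm_num)

/-- the local means of `pI` -/
lemma lm_pI {l M G P Q : ℕ} (hl : l.Prime) (h1000 : 1000 < l) (hla : ¬ l ∣ 4 * aa)
    (hGPQ : G * P * Q = M ^ 2 + aa) :
    1 - lm aa l G (pI M G P Q l) ≤ 10 / (l : ℝ) := by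
  have hGPQ' : (G : ℤ) * P * Q = (M : ℤ) ^ 2 + aa := by exact_mod_cast hGPQ
  have hl' : (1000 : ℝ) < l := by exact_mod_cast h1000
  have hl0 : (0 : ℝ) < l := by linarith
  have hla' : ¬ (l : ℤ) ∣ (aa : ℤ) := by
    intro h
    exact hla (dvd_mul_of_dvd_right (by exact_mod_cast h) _)
  have hsq : 100 / (l : ℝ) ^ 2 ≤ 1 / (10 * l) := by
    rw [div_le_div_iff₀ (by positivity) (by positivity)]
    nlinarith
  have e : pI M G P Q l = if (l : ℤ) ∣ (M : ℤ) ^ 2 + aa then wgt0 l G Q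
      else if spl l then wgt l M G P Q (1 / 6) (1 / 6) else wgt l M G P Q 1 1 := by
    funext d e
    unfold pI
    split_ifs <;> rfl
  rw [e]
  have hsp : chz aa l = 1 ∨ chz aa l = -1 := by
    refine TA.chz_sq hl.ne_zero ?_
    rw [hl.coprime_iff_not_dvd, Int.natAbs_natCast]
    intro h
    exact hla (by
      rw [show 4 * aa = 2 * (2 * aa) by ring]
      exact dvd_mul_of_dvd_right h _)
  split_ifs with h1 h2
  · obtain ⟨-, -, -, h4, -⟩ := TA.specELM aa l M G P Q 1 1 hl (by omega) hla' hGPQ' (by norm_num)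
      (by norm_num) (by norm_num) (by norm_num)
    exact (h4 h1).2
  · obtain ⟨-, h4, -⟩ := TA.specELM aa l M G P Q (1 / 6) (1 / 6) hl (by omega) hla' hGPQ'
      (by norm_num) (by norm_num) (by norm_num) (by norm_num)
    have h5 := (abs_le.1 (h4 h1 h2)).2
    have e1 : (6 - 2 * (1 / 6 : ℝ) - 2 * (1 / 6)) / (l : ℝ) = (16 / 3) * (1 / l) := by
      field_simp; norm_num
    have e2 : (10 : ℝ) / l = 10 * (1 / l) := by ring
    have e3 : (1 : ℝ) / (10 * l) = (1 / 10) * (1 / l) := by field_simp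
    have h6 : (0 : ℝ) < 1 / l := by positivity
    rw [e1] at h5
    rw [e3] at hsq
    rw [e2]
    linarith
  · obtain ⟨-, -, h4, -⟩ := TA.specELM aa l M G P Q 1 1 hl (by omega) hla' hGPQ' (by norm_num)
      (by norm_num) (by norm_num) (by norm_num)
    have h5 := (h4 (hsp.resolve_left h2)).1
    have e2 : (10 : ℝ) / l = 10 * (1 / l) := by ring
    have e3 : (1 : ℝ) / (10 * l) = (1 / 10) * (1 / l) := by field_simp
    have h6 : (0 : ℝ) < 1 / l := by positivity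
    have h7 : 2 / (l : ℝ) ^ 2 ≤ 100 / (l : ℝ) ^ 2 := div_le_div_of_nonneg_right (by norm_num)
      (by positivity)
    rw [e3] at hsq
    rw [e2]
    linarith

/-- a product of split primes is split -/
lemma chz_prod {n : ℕ} (hn : n ≠ 0) (h : ∀ l : ℕ, l.Prime → l ∣ n → chz aa l = 1) :
    chz aa n = 1 := by
  induction n using Nat.recOnPrimeCoprime with
  | zero => exact absurd rfl hn
  | prime_pow p k hp =>
    rcases Nat.eq_zero_or_pos k with rfl | hk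
    · rw [pow_zero]
      exact TA.chz_one _
    · have h1 := h p hp (dvd_pow_self p (by omega))
      rw [TA.chz_pow, h1, one_pow]
  | coprime a b ha hb _ iha ihb =>
    have h1 := iha (by omega) (fun l hl hd => h l hl (dvd_mul_of_dvd_left hd _))
    have h2 := ihb (by omega) (fun l hl hd => h l hl (dvd_mul_of_dvd_right hd _))
    rw [TA.chz_mul, h1, h2, mul_one]

/-- the density of a class modulo a split prime -/
lemma dm_bounds {l κ : ℕ} (hl : l.Prime) (h : chz aa l = 1) :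
    0 ≤ dm aa l κ ∧ dm aa l κ ≤ 2 / (l : ℝ) := by
  have hl1 : (1 : ℝ) ≤ l := by exact_mod_cast hl.one_le
  have hl0 : (0 : ℝ) < l := by linarith
  have hd : dens aa l 1 (κ : ℤ) = if (l : ℤ) ∣ (κ : ℤ) then 1 + TA.ch aa l * (1 - 1 / (l : ℝ))
      else 1 - TA.ch aa l / l := (TA.specLMJ aa l 1 1 hl le_rfl).2.2.2.2.2.2.2.1 _
  have hc : TA.ch aa l = 1 := by
    unfold TA.ch
    rw [h]
    norm_num
  rw [hc] at hd
  have h4 : (1 : ℝ) / l ≤ 1 := (div_le_one hl0).2 hl1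
  have h5 : (0 : ℝ) < 1 / l := by positivity
  have h6 : 0 ≤ dens aa l 1 (κ : ℤ) ∧ dens aa l 1 (κ : ℤ) ≤ 2 := by
    rw [hd]
    split_ifs
    · constructor <;> linarith
    · constructor <;> linarith
  unfold dm
  rw [if_neg hl.one_lt.ne']
  exact ⟨div_nonneg h6.1 hl0.le, div_le_div_of_nonneg_right h6.2 hl0.le⟩

omit [Aa] in
lemma ceil_diff {x y : ℝ} (hx : 0 < x) (hy : 0 ≤ y) :
    (⌈x⌉₊ - 1 : ℕ) ≤ ⌈x + y⌉₊ - 1 ∧
      |(((⌈x + y⌉₊ - 1 : ℕ) : ℝ) - ((⌈x⌉₊ - 1 : ℕ) : ℝ)) - y| ≤ 1 := by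
  have h1 : 1 ≤ ⌈x⌉₊ := Nat.one_le_ceil_iff.2 hx
  have h2 : 1 ≤ ⌈x + y⌉₊ := Nat.one_le_ceil_iff.2 (by linarith)
  have h3 : ⌈x⌉₊ ≤ ⌈x + y⌉₊ := Nat.ceil_mono (by linarith)
  refine ⟨by omega, ?_⟩
  rw [Nat.cast_sub h1, Nat.cast_sub h2, Nat.cast_one]
  have a1 := Nat.le_ceil x
  have a2 := Nat.ceil_lt_add_one hx.le
  have a3 := Nat.le_ceil (x + y)
  have a4 := Nat.ceil_lt_add_one (show 0 ≤ x + y by linarith)
  rw [abs_le]
  constructor <;> linarith

/-- membership in `SQ` of the sieving primes prime to `M² + a` -/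
lemma mem_SQ {p : Prm} {N M n : ℕ} (h : n ∈ SQ (PP p N \ P1 p N M) (zz p N ^ p.K)) :
    0 < n ∧ (n : ℝ) ≤ zz p N ^ p.K ∧ Squarefree n ∧ ∀ l : ℕ, l.Prime → l ∣ n →
      (l : ℝ) < zz p N ∧ chz aa l = 1 ∧ p.E < l ∧ ¬ l ∣ M ^ 2 + aa := by
  unfold SQ at h
  rw [mem_filter, mem_Icc] at h
  obtain ⟨⟨h1, h2⟩, h3, h4⟩ := h
  refine ⟨h1, ?_, h3, ?_⟩
  · by_cases h0 : 0 ≤ zz p N ^ p.K
    · exact le_trans (Nat.cast_le.2 h2) (Nat.floor_le h0)
    · rw [Nat.floor_of_nonpos (by linarith)] at h2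
      omega
  · intro l hl hd
    have h5 := h4 l hl hd
    obtain ⟨h6, h7⟩ := Finset.mem_sdiff.1 h5
    have h8 : l ∉ (PP p N).filter (fun l => l ∣ M ^ 2 + aa) := h7
    rw [mem_filter, not_and] at h8
    have h9 := h8 h6
    unfold TF.PP at h6
    rw [mem_filter, mem_range, Nat.lt_ceil] at h6
    exact ⟨h6.1, h6.2.2.1, h6.2.2.2, h9⟩

end EIGM

open EIGM in
theorem specEIG (h2 : TA.SpecE2g) (hR : SpecERR) : SpecEIG := by
  intro ε hε
  have haa : (0 : ℤ) < (aa : ℤ) := by exact_mod_cast Aa.ha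
  have hLL : 0 < LL aa := (TA.specLLX aa haa.ne' (TA.nsq_of_pos haa)).1
  obtain ⟨C₀, hC₀, h2⟩ := h2 aa haa.ne' (TA.nsq_of_pos haa) 10
  -- the choice of `a`
  obtain ⟨a, ha⟩ : ∃ a : ℕ, C₀ * Real.exp (-(a : ℝ)) ≤ min ε 1 := by
    have ht : Tendsto (fun a : ℕ => C₀ * Real.exp (-(a : ℝ))) atTop (𝓝 (C₀ * 0)) := by
      refine Tendsto.const_mul _ ?_
      exact Real.tendsto_exp_neg_atTop_nhds_zero.comp tendsto_natCast_atTop_atTop
    rw [mul_zero] at ht
    exact (ht.eventually (ge_mem_nhds (show (0 : ℝ) < min ε 1 by positivity))).exists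
  refine (hR (fun K => 20 * K + 24 * a + 100)).mono ?_
  rintro p ⟨hζ, hE1000, hK, h4W, hW, hN⟩
  obtain ⟨C, hC, h2'⟩ := h2 (p.ζ / 3) a (by positivity)
  have hz : Tendsto (fun N : ℕ => zz p N) atTop atTop :=
    (tendsto_rpow_atTop hζ).comp tendsto_natCast_atTop_atTop
  filter_upwards [hN, hz.eventually_ge_atTop C, hz.eventually_ge_atTop (9 * W0 p : ℝ),
    eventually_ge_atTop 1000] with N hN hzC hzW hN1000
  obtain ⟨hz2, hzN, hN⟩ := hN
  have hNr : (1000 : ℝ) ≤ N := by exact_mod_cast hN1000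
  have hz1 : (1 : ℝ) ≤ zz p N := by linarith
  have hz0 : (0 : ℝ) < zz p N := by linarith
  have hzN' : ∀ i : ℕ, i ≤ 20 * p.K + 24 * a + 100 → zz p N ^ i ≤ N := by
    intro i hi
    exact le_trans (pow_le_pow_right₀ hz1 hi) hzN
  intro M G P Q n ρ hadm hn hnρ
  obtain ⟨hM0, hG0, hP0, hQ0, hG4, hMP, hGN, hzP, hzG, hsize⟩ := hN M G P Q hadm
  have hGPQ : G * P * Q = M ^ 2 + aa := hadm.1
  have hGW : Nat.Coprime G (W0 p) := hadm.2.2.2.1
  obtain ⟨hn0, hnz, hnsq, hnp⟩ := mem_SQ hn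
  have hMr : (0 : ℝ) < M := by exact_mod_cast hM0
  have hGr : (0 : ℝ) < G := by exact_mod_cast hG0
  have hPr : (0 : ℝ) < P := by exact_mod_cast hP0
  have hQr : (0 : ℝ) < Q := by exact_mod_cast hQ0
  have hnr : (0 : ℝ) < n := by exact_mod_cast hn0
  have hn1 : (1 : ℝ) ≤ n := by exact_mod_cast hn0
  have hGPQr : (G : ℝ) * P * Q = (M : ℝ) ^ 2 + aa := by exact_mod_cast hGPQ
  have hh : hI M Q = G * P / M := by
    unfold hI
    rw [← hGPQr]
    field_simp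
  have hh0 : 0 ≤ hI M Q := by rw [hh]; positivity
  have hW0 : 0 < W0 p := by
    unfold T4.W0
    exact pow_pos (primorial_pos _) _
  have hWn : (W0 p).Coprime n := by
    refine Nat.coprime_of_dvd fun l hl h1 h2 => ?_
    have h3 := (hW l hl).2 h1
    have h4 := (hnp l hl h2).2.2.1
    omega
  have hnG : n.Coprime G := by
    refine Nat.coprime_of_dvd fun l hl h1 h2 => ?_
    refine (hnp l hl h1).2.2.2 ?_
    rw [← hGPQ]
    exact dvd_mul_of_dvd_left (dvd_mul_of_dvd_left h2 _) _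
  -- the data are admissible
  have hOk : ∀ (m κ : ℕ), (m = 1 ∨ m.Prime) → (∀ l : ℕ, l.Prime → l ∣ m → l ∣ n) →
      (tI p M G P Q ρ n m κ).Ok aa := by
    intro m κ hm hml
    refine ⟨hW0, by rw [Int.natAbs_natCast]; exact h4W, hn0, hnρ, hn0,
      chz_prod hn0.ne' (fun l hl hd => (hnp l hl hd).2.1), hm, ?_,
      hG0, hG4, hWn, hGW.symm, hnG, Nat.div_le_div_right (Nat.mul_le_mul_right _ (by norm_num)),
      hh0, ?_⟩
    · intro l hl hd
      rcases (hl.dvd_mul).1 hd with h1 | h1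
      · exact h1
      · exact hml l hl h1
    · intro D hD1 hD2
      have hD2' : (D : ℝ) * P ≤ 3 * M := by
        have := (Nat.le_div_iff_mul_le hP0).1 hD2
        exact_mod_cast this
      have hx : (0 : ℝ) < ((G : ℝ) + D * hI M Q) / n := by positivity
      have hy : (0 : ℝ) ≤ D * hI M Q / n := by positivity
      have e1 : ((G : ℝ) + 2 * D * hI M Q) / n = ((G : ℝ) + D * hI M Q) / n + D * hI M Q / n := by
        ring
      obtain ⟨c1, c2⟩ := ceil_diff hx hy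
      refine ⟨?_, ?_, ?_⟩
      · show ⌈((G : ℝ) + D * hI M Q) / n⌉₊ - 1 ≤ ⌈((G : ℝ) + 2 * D * hI M Q) / n⌉₊ - 1
        rw [e1]
        exact c1
      · show ⌈((G : ℝ) + 2 * D * hI M Q) / n⌉₊ - 1 ≤ 7 * G / n
        rw [Nat.le_div_iff_mul_le hn0]
        have hDh : (D : ℝ) * hI M Q ≤ 3 * G := by
          rw [hh]
          calc (D : ℝ) * (G * P / M) = G * (D * P) / M := by ring
            _ ≤ G * (3 * M) / M := by gcongr
            _ = 3 * G := by field_simp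
        have hc : ⌈((G : ℝ) + 2 * D * hI M Q) / n⌉₊ - 1 < ⌈((G : ℝ) + 2 * D * hI M Q) / n⌉₊ := by
          have : 1 ≤ ⌈((G : ℝ) + 2 * D * hI M Q) / n⌉₊ := Nat.one_le_ceil_iff.2 (by positivity)
          omega
        have hc2 := Nat.lt_ceil.1 hc
        rw [lt_div_iff₀ hnr] at hc2
        have hc3 : (((⌈((G : ℝ) + 2 * D * hI M Q) / n⌉₊ - 1) * n : ℕ) : ℝ) ≤ ((7 * G : ℕ) : ℝ) := by
          push_cast
          linarith
        exact_mod_cast hc3
      · show |(((⌈((G : ℝ) + 2 * D * hI M Q) / n⌉₊ - 1 : ℕ) : ℝ) -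
          ((⌈((G : ℝ) + D * hI M Q) / n⌉₊ - 1 : ℕ) : ℝ)) - D * hI M Q / n| ≤ 1
        rw [e1]
        exact c2
  -- sizes
  have hN3 : (N : ℝ) ≤ (N : ℝ) ^ 3 := by
    have : (N : ℝ) ^ 1 ≤ (N : ℝ) ^ 3 := pow_le_pow_right₀ (by linarith) (by norm_num)
    rwa [pow_one] at this
  have hN2 : 700 * (N : ℝ) ^ 2 ≤ (N : ℝ) ^ 3 := by
    have : (N : ℝ) ^ 3 = N * (N : ℝ) ^ 2 := by ring
    rw [this]
    refine mul_le_mul_of_nonneg_right (by linarith) (by positivity)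
  have hA2 : (((3 * M / P : ℕ) : ℕ) : ℝ) ≤ 3 * ((M : ℝ) / P) := by
    refine le_trans Nat.cast_div_le ?_
    push_cast
    exact le_of_eq (by ring)
  have hRr : (((7 * G / n : ℕ) : ℕ) : ℝ) ≤ 7 * G := by
    refine le_trans Nat.cast_div_le ?_
    push_cast
    exact div_le_self (by positivity) hn1
  have hnN : (n : ℝ) ≤ (N : ℝ) ^ 3 := le_trans hnz (le_trans (hzN' _ (by omega)) hN3)
  have hLe : ∀ (m κ : ℕ), m ≤ n → (tI p M G P Q ρ n m κ).Le ((N : ℝ) ^ 3) := by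
    intro m κ hm
    refine ⟨?_, hnN, hnN, ?_, ?_, ?_, ?_⟩
    · show (W0 p : ℝ) ≤ (N : ℝ) ^ 3
      have h1 : (W0 p : ℝ) ≤ zz p N := by
        have : (0 : ℝ) ≤ W0 p := by positivity
        linarith
      have h2 := hzN' 1 (by omega)
      rw [pow_one] at h2
      linarith
    · show (m : ℝ) ≤ (N : ℝ) ^ 3
      refine le_trans ?_ hnN
      exact_mod_cast hm
    · show (G : ℝ) ≤ (N : ℝ) ^ 3
      have : 0 ≤ (N : ℝ) ^ 2 := by positivity
      linarith
    · show (((3 * M / P : ℕ) : ℕ) : ℝ) ≤ (N : ℝ) ^ 3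
      have h1 : 3 * (N : ℝ) ≤ 700 * (N : ℝ) ^ 2 := by nlinarith
      linarith
    · show (((7 * G / n : ℕ) : ℕ) : ℝ) ≤ (N : ℝ) ^ 3
      linarith
  -- the error term
  set S : ℝ := (M : ℝ) / P * Real.sqrt G + ((M : ℝ) / P) ^ 2 + G * P / M with hS
  have hS0 : 0 ≤ S := by positivity
  have herr : ∀ (m κ : ℕ), (m : ℝ) ≤ zz p N → (tI p M G P Q ρ n m κ).err ≤ zz p N * (zz p N * S) := by
    intro m κ hmz
    show (W0 p : ℝ) * m * ((((3 * M / P : ℕ) : ℕ) : ℝ) * Real.sqrt (((7 * G / n : ℕ) : ℕ) : ℝ) +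
      ((((3 * M / P : ℕ) : ℕ) : ℝ)) ^ 2 + hI M Q) ≤ zz p N * (zz p N * S)
    have h1 : Real.sqrt (((7 * G / n : ℕ) : ℕ) : ℝ) ≤ 3 * Real.sqrt G := by
      rw [show (3 : ℝ) * Real.sqrt G = Real.sqrt (9 * G) by
        rw [Real.sqrt_mul (by norm_num), show (9 : ℝ) = 3 ^ 2 by norm_num,
          Real.sqrt_sq (by norm_num)]]
      exact Real.sqrt_le_sqrt (by linarith)
    have h2 : (((3 * M / P : ℕ) : ℕ) : ℝ) * Real.sqrt (((7 * G / n : ℕ) : ℕ) : ℝ) ≤
        (3 * ((M : ℝ) / P)) * (3 * Real.sqrt G) := mul_le_mul hA2 h1 (Real.sqrt_nonneg _) (by positivity)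
    have h3 : ((((3 * M / P : ℕ) : ℕ) : ℝ)) ^ 2 ≤ (3 * ((M : ℝ) / P)) ^ 2 := by gcongr
    have h4 : (((3 * M / P : ℕ) : ℕ) : ℝ) * Real.sqrt (((7 * G / n : ℕ) : ℕ) : ℝ) +
      ((((3 * M / P : ℕ) : ℕ) : ℝ)) ^ 2 + hI M Q ≤ 9 * S := by
      rw [hh, hS]
      have : 0 ≤ (G : ℝ) * P / M := by positivity
      nlinarith
    calc (W0 p : ℝ) * m * ((((3 * M / P : ℕ) : ℕ) : ℝ) * Real.sqrt (((7 * G / n : ℕ) : ℕ) : ℝ) +
      ((((3 * M / P : ℕ) : ℕ) : ℝ)) ^ 2 + hI M Q) ≤ (W0 p : ℝ) * m * (9 * S) :=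
          mul_le_mul_of_nonneg_left h4 (by positivity)
      _ = m * ((9 * W0 p : ℝ) * S) := by ring
      _ ≤ zz p N * (zz p N * S) := by
          refine mul_le_mul hmz (mul_le_mul_of_nonneg_right hzW hS0) (by positivity) hz0.le
  have hNη : ((N : ℝ) ^ 3) ^ (p.ζ / 3) = zz p N := by
    unfold T4.zz
    rw [← Real.rpow_natCast, ← Real.rpow_mul (by positivity)]
    congr 1
    push_cast
    ring
  have herr2 : ∀ (m κ : ℕ), (m : ℝ) ≤ zz p N → C * ((N : ℝ) ^ 3) ^ (p.ζ / 3) *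
      zz p N ^ (3 * (8 * a + 16) + 1) * ((∏ l ∈ (∅ : Finset ℕ), l ^ (1 : ℕ) : ℕ) : ℝ) ^ 2 *
        (tI p M G P Q ρ n m κ).err ≤ G / zz p N ^ (20 * p.K + 20) := by
    intro m κ hmz
    rw [hNη, prod_empty, Nat.cast_one, one_pow, mul_one]
    have h1 := herr m κ hmz
    have h2 : C * zz p N * zz p N ^ (3 * (8 * a + 16) + 1) * (tI p M G P Q ρ n m κ).err ≤
        zz p N * zz p N * zz p N ^ (3 * (8 * a + 16) + 1) * (zz p N * (zz p N * S)) := by
      have h5 : 0 ≤ zz p N * (zz p N * S) := by positivity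
      refine le_trans (mul_le_mul_of_nonneg_left h1 (by positivity)) ?_
      refine mul_le_mul_of_nonneg_right ?_ h5
      refine mul_le_mul_of_nonneg_right ?_ (by positivity)
      exact mul_le_mul_of_nonneg_right hzC hz0.le
    refine le_trans h2 ?_
    rw [le_div_iff₀ (by positivity)]
    calc zz p N * zz p N * zz p N ^ (3 * (8 * a + 16) + 1) * (zz p N * (zz p N * S)) *
          zz p N ^ (20 * p.K + 20)
        = zz p N ^ (20 * p.K + 24 * a + 73) * S := by ring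
      _ ≤ zz p N ^ (20 * p.K + 24 * a + 100) * S := by
          refine mul_le_mul_of_nonneg_right (pow_le_pow_right₀ hz1 (by omega)) hS0
      _ ≤ G := hsize
  -- the sieving primes
  set Pr : Finset ℕ := (PE p N).filter (fun l => ¬ l ∣ n) with hPr
  have hcond : ∀ l ∈ Pr, l.Prime ∧ (l : ℝ) < zz p N ∧ ¬ l ∣ (W0 p) * n ∧ l ∉ (∅ : Finset ℕ) ∧
      Locm l (pI M G P Q l) ∧ 1 - lm aa l G (pI M G P Q l) ≤ ((10 : ℕ) : ℝ) / (l : ℝ) ∧
      1 - lm aa l G (pI M G P Q l) ≤ 2 / 3 := by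
    intro l hl
    rw [hPr, mem_filter, PE, mem_filter, QPA.FL.mem_PB] at hl
    obtain ⟨⟨⟨l1, l2⟩, l3⟩, l4⟩ := hl
    have h1 := lm_pI l1 (by omega) (fun hd => by
      have := (hW l l1).2 (hd.trans h4W)
      omega) hGPQ
    have hl' : (1000 : ℝ) < l := by
      have : 1000 < l := by omega
      exact_mod_cast this
    refine ⟨l1, l2, ?_, notMem_empty _, locm_pI M G P Q l, by push_cast; exact h1, ?_⟩
    · intro hd
      rcases l1.dvd_mul.1 hd with h3 | h3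
      · have := (hW l l1).2 h3
        omega
      · exact l4 h3
    · refine le_trans h1 ?_
      rw [div_le_div_iff₀ (by linarith) (by norm_num)]
      linarith
  have hprod : ∏ l ∈ Pr, lm aa l G (pI M G P Q l) = VI p N M G P Q n := rfl
  have hVI0 : 0 ≤ VI p N M G P Q n := by
    rw [← hprod]
    refine prod_nonneg fun l hl => ?_
    have := (hcond l hl).2.2.2.2.2.2
    linarith
  have hmain : ∀ (m κ : ℕ), (tI p M G P Q ρ n m κ).main aa =
      mI p M G P Q n * dm aa m κ := by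
    intro m κ
    show 2 * LL aa * (((3 * M / P : ℕ) : ℝ) - ((2 * M / P : ℕ) : ℝ)) * hI M Q /
      ((W0 p : ℝ) ^ 2 * n * n) * dm aa m κ * ∏ l ∈ G.primeFactors, (1 - 1 / (l : ℝ)) = _
    unfold mI
    rw [show ((W0 p : ℝ) ^ 2 * n * n) = (W0 p : ℝ) ^ 2 * (n : ℝ) ^ 2 by ring]
    ring
  have hmI0 : 0 ≤ mI p M G P Q n := by
    unfold mI
    have hA : (0 : ℝ) ≤ ((3 * M / P : ℕ) : ℝ) - ((2 * M / P : ℕ) : ℝ) := by
      rw [sub_nonneg]
      exact_mod_cast Nat.div_le_div_right (Nat.mul_le_mul_right _ (by norm_num))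
    refine mul_nonneg (div_nonneg (mul_nonneg (mul_nonneg (by positivity) hA) hh0) (by positivity)) ?_
    refine prod_nonneg fun l hl => ?_
    have h2 : (1 : ℝ) ≤ l := by exact_mod_cast (Nat.prime_of_mem_primeFactors hl).one_le
    rw [sub_nonneg, div_le_one (by linarith)]
    exact h2
  have hMV0 : 0 ≤ mI p M G P Q n * VI p N M G P Q n := mul_nonneg hmI0 hVI0
  have key : ∀ (m κ : ℕ), (m = 1 ∨ m.Prime) → m ≤ n → (m : ℝ) ≤ zz p N →
      (∀ l : ℕ, l.Prime → l ∣ m → l ∣ n) → 0 ≤ dm aa m κ →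
      |(tI p M G P Q ρ n m κ).S aa (fun D D₂ => ∏ l ∈ Pr, pI M G P Q l D D₂) -
        mI p M G P Q n * VI p N M G P Q n * dm aa m κ| ≤
      min ε 1 * (mI p M G P Q n * VI p N M G P Q n * dm aa m κ) +
        G / zz p N ^ (20 * p.K + 20) := by
    intro m κ hm hmn hmz hml hdm
    have hzle : zz p N ^ (8 * a + 16) * ((∏ l ∈ (∅ : Finset ℕ), l ^ (1 : ℕ) : ℕ) : ℝ) ≤
        (N : ℝ) ^ 3 := by
      rw [prod_empty, Nat.cast_one, mul_one]
      exact le_trans (hzN' _ (by omega)) hN3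
    have h3 := h2' (tI p M G P Q ρ n m κ) ((N : ℝ) ^ 3) (zz p N) ∅ Pr (fun _ => 1)
      (fun l => pI M G P Q l) (hOk m κ hm hml) hz2 hzle (hLe m κ hmn)
      (fun l hl => absurd hl (notMem_empty _)) hcond
    have e1 : (tI p M G P Q ρ n m κ).S aa (fun D D₂ => (∏ l ∈ (∅ : Finset ℕ), pI M G P Q l D D₂) *
        ∏ l ∈ Pr, pI M G P Q l D D₂) =
        (tI p M G P Q ρ n m κ).S aa (fun D D₂ => ∏ l ∈ Pr, pI M G P Q l D D₂) := by
      congr 1
      funext D D₂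
      rw [prod_empty, one_mul]
    have e2 : (tI p M G P Q ρ n m κ).main aa * (∏ l ∈ (∅ : Finset ℕ),
        lmj aa l 1 (tI p M G P Q ρ n m κ).G (pI M G P Q l)) *
        ∏ l ∈ Pr, lm aa l (tI p M G P Q ρ n m κ).G (pI M G P Q l) =
        mI p M G P Q n * VI p N M G P Q n * dm aa m κ := by
      rw [prod_empty, mul_one, hmain m κ]
      have : ∏ l ∈ Pr, lm aa l (tI p M G P Q ρ n m κ).G (pI M G P Q l) =
        VI p N M G P Q n := hprod
      rw [this]
      ring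
    rw [e1, e2] at h3
    refine le_trans h3 (add_le_add ?_ (herr2 m κ hmz))
    have h5 : 0 ≤ mI p M G P Q n * VI p N M G P Q n * dm aa m κ := mul_nonneg hMV0 hdm
    exact mul_le_mul_of_nonneg_right ha h5
  refine ⟨?_, ?_⟩
  · have h1 : dm aa 1 0 = 1 := by unfold dm; rw [if_pos rfl]
    have h3 := key 1 0 (Or.inl rfl) hn0 (by rw [Nat.cast_one]; exact hz1)
      (fun l hl hd => absurd (Nat.dvd_one.1 hd) hl.one_lt.ne') (by rw [h1]; exact zero_le_one)
    rw [h1, mul_one] at h3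
    refine le_trans h3 (add_le_add ?_ le_rfl)
    exact mul_le_mul_of_nonneg_right (min_le_left _ _) hMV0
  · intro l₀ κ hl₀ hd
    obtain ⟨q1, q2, q3, -⟩ := hnp l₀ hl₀ hd
    obtain ⟨d1, d2⟩ := dm_bounds (κ := κ) hl₀ q2
    have h3 := key l₀ κ (Or.inr hl₀) (Nat.le_of_dvd hn0 hd) q1.le
      (fun l hl hd' => hd'.trans hd) d1
    have h4 := (abs_le.1 h3).2
    have h5 : 0 ≤ mI p M G P Q n * VI p N M G P Q n * dm aa l₀ κ := mul_nonneg hMV0 d1
    have h6 : min ε 1 * (mI p M G P Q n * VI p N M G P Q n * dm aa l₀ κ) ≤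
        1 * (mI p M G P Q n * VI p N M G P Q n * dm aa l₀ κ) :=
      mul_le_mul_of_nonneg_right (min_le_right _ _) h5
    have h7 : mI p M G P Q n * VI p N M G P Q n * dm aa l₀ κ ≤
        mI p M G P Q n * VI p N M G P Q n * (2 / (l₀ : ℝ)) := mul_le_mul_of_nonneg_left d2 hMV0
    have e : 4 * (mI p M G P Q n * VI p N M G P Q n) / (l₀ : ℝ) =
        2 * (mI p M G P Q n * VI p N M G P Q n * (2 / (l₀ : ℝ))) := by ring
    rw [e]
    linarith

end

end Pool.Agent.Lib.MP391708.TF1
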