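import Pool.Agent.Lib.MP_391708_nt.TF1.ESpecC
import Pool.Agent.Lib.MP_391708_nt.TF.Basic
import Pool.Agent.Lib.MP_391708_nt.TA.ELM
import Pool.Agent.Lib.MP_391708_nt.TA.LLX
import Pool.Agent.Lib.MP_391708_nt.T1.GoodL

/-!
# Theorem T1a, group E: the final assembly of `SpecPHI` (port of `T1/EPI.lean`)
-/

set_option autoImplicit false

namespace Pool.Agent.Lib.MP391708.TF1

open Finset Filter Topology
open scoped Classical
open TF (Aa aa spl cE Prm Good zz W0 PP sm Adm S1 S2 vh kp kpU S0)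
open T1 (SDD Dm Locm F1 F2 wgt wgt0 SQ)
open TA (EX DD Rt PPs chz rr LL dens dm lm lmj Bm)

variable [Aa]

namespace EPI

noncomputable section

/-- the local means -/
lemma loc {p : Prm} {N M G P Q : ℕ} (hE : 1000 ≤ p.E) (hEa : 2 * aa ≤ p.E)
    (hG : G * P * Q = M ^ 2 + aa) (l : ℕ) (hl : l.Prime) (hEl : p.E < l) (hlz : (l : ℝ) < zz p N) :
    0 ≤ 1 - lm aa l G (pI M G P Q l) ∧
    (l ∉ P1 p N M → chz aa l = 1 →
      |1 - lm aa l G (pI M G P Q l) - 16 / 3 / l| ≤ 100 / (l : ℝ) ^ 2) ∧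
    (l ∉ P1 p N M → chz aa l = -1 → 1 - lm aa l G (pI M G P Q l) ≤ 2 / (l : ℝ) ^ 2) ∧
    (l ∈ P1 p N M → 1 - lm aa l G (pI M G P Q l) ≤ 10 / l) := by
  have hG' : (G : ℤ) * P * Q = (M : ℤ) ^ 2 + aa := by exact_mod_cast hG
  have hl0 : (0 : ℝ) < l := by exact_mod_cast hl.pos
  have hl1000 : (1000 : ℝ) < l := by exact_mod_cast (by omega : 1000 < l)
  have ha0 : 0 < aa := TF.Bs.aa_pos
  have hla2 : ¬ l ∣ 2 * aa := TF.Bs.not_dvd_of_lt hEa hEl
  have hla : ¬ (l : ℤ) ∣ (aa : ℤ) := fun h =>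
    hla2 ((Int.natCast_dvd_natCast.1 h).mul_left 2)
  have hdv : (l : ℤ) ∣ (M : ℤ) ^ 2 + aa ↔ l ∣ M ^ 2 + aa := by
    have : ((M ^ 2 + aa : ℕ) : ℤ) = (M : ℤ) ^ 2 + aa := by push_cast; rfl
    rw [← this, Int.natCast_dvd_natCast]
  have hP1 : spl l → (l ∈ P1 p N M ↔ l ∣ M ^ 2 + aa) := by
    intro h4
    unfold P1
    rw [mem_filter, TF.Bs.mem_PP]
    exact ⟨fun h => h.2, fun h => ⟨⟨hlz, hl, h4, hEl⟩, h⟩⟩
  have h4 : chz aa l = 1 ∨ chz aa l = -1 :=
    TA.chz_big (b := (aa : ℤ)) (E := p.E) (by exact_mod_cast ha0.ne')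
      (by simpa using hEa) hl hEl
  obtain ⟨-, a1, -, a3, -⟩ := TA.specELM aa l M G P Q (1 / 6) (1 / 6) hl (by omega) hla hG'
    (by norm_num) (by norm_num) (by norm_num) (by norm_num)
  obtain ⟨-, -, b2, -⟩ := TA.specELM aa l M G P Q 1 1 hl (by omega) hla hG'
    (by norm_num) (by norm_num) (by norm_num) (by norm_num)
  by_cases hd : (l : ℤ) ∣ (M : ℤ) ^ 2 + aa
  · have hp : pI M G P Q l = wgt0 l G Q := by
      funext d e
      simp [pI, hd]
    have h41 : spl l := TF.Bs.spl_of_dvd_of_E hEa hl hEl (hdv.1 hd)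
    have hmem : l ∈ P1 p N M := (hP1 h41).2 (hdv.1 hd)
    rw [hp]
    exact ⟨(a3 hd).1, fun h => absurd hmem h, fun h => absurd hmem h, fun _ => (a3 hd).2⟩
  · have hnot : l ∉ P1 p N M := by
      intro h
      unfold P1 at h
      rw [mem_filter] at h
      exact hd (hdv.2 h.2)
    rcases h4 with h41 | h43
    · have hp : pI M G P Q l = wgt l M G P Q (1 / 6) (1 / 6) := by
        funext d e
        have h5 : spl l := h41
        simp [pI, hd, h5]
      rw [hp]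
      have a := a1 hd h41
      have e1 : (6 - 2 * (1 / 6) - 2 * (1 / 6) : ℝ) / l = 16 / 3 / l := by norm_num
      rw [e1] at a
      refine ⟨?_, fun _ _ => a, fun _ h => by rw [h41] at h; norm_num at h, fun h => absurd h hnot⟩
      have h1 := (abs_le.1 a).1
      have h2 : 100 / (l : ℝ) ^ 2 ≤ 16 / 3 / l := by
        rw [div_le_div_iff₀ (by positivity) hl0]
        nlinarith
      linarith
    · have hp : pI M G P Q l = wgt l M G P Q 1 1 := by
        funext d e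
        have h5 : ¬ spl l := by
          intro h
          have h6 : chz aa l = 1 := h
          rw [h43] at h6
          norm_num at h6
        simp [pI, hd, h5]
      rw [hp]
      have b := b2 h43
      exact ⟨b.2, fun _ h => by rw [h43] at h; norm_num at h, fun _ _ => b.1,
        fun h => absurd h hnot⟩

/-- the coefficients -/
def co (n : ℕ) : ℝ := (2 * (1 / 6)) ^ n.primeFactors.card / (n : ℝ)

def sqs (p : Prm) (N M : ℕ) : Finset ℕ := SQ (PP p N \ P1 p N M) (zz p N ^ p.K)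

def TT (p : Prm) (N M G P Q : ℕ) : ℝ := ∑ n ∈ sqs p N M, co n * VI p N M G P Q n

def TX (p : Prm) (N M G P Q : ℕ) : ℝ :=
  ∑ n ∈ sqs p N M, (∑ l ∈ n.primeFactors, 1 / (l : ℝ)) * (co n * VI p N M G P Q n)

def VV5 (p : Prm) (N : ℕ) : ℝ := ∏ l ∈ PPs aa p.E (zz p N), (1 - 5 / (l : ℝ))

lemma esn : ∃ C : ℝ, 0 < C ∧ ∀ (p : Prm) (N M G P Q : ℕ),
    1000 ≤ p.E → 2 * aa ≤ p.E → 2 ≤ zz p N → 1 ≤ p.K → G * P * Q = M ^ 2 + aa →
    TT p N M G P Q ≤ (1 + C / p.E) * Real.exp (C * ∑ l ∈ P1 p N M, 1 / (l : ℝ)) * VV5 p N ∧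
    (1 - C / p.E - C * Real.exp (-(p.K : ℝ) / 2) - C * ∑ l ∈ P1 p N M, 1 / (l : ℝ)) * VV5 p N ≤
      TT p N M G P Q ∧
    TX p N M G P Q ≤ C / p.E * Real.exp (C * ∑ l ∈ P1 p N M, 1 / (l : ℝ)) * VV5 p N := by
  obtain ⟨C, hC, h⟩ := TA.specESN
  refine ⟨C, hC, fun p N M G P Q hE hEa hz hK hG => ?_⟩
  have ha0 : 0 < aa := TF.Bs.aa_pos
  have h1 := h aa p.E (zz p N) p.K (1 / 6) (16 / 3) (fun l => 1 - lm aa l G (pI M G P Q l))
    (P1 p N M) (by exact_mod_cast ha0.ne') (by simpa using hEa) hE hz (by exact_mod_cast hK)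
    (by norm_num) (by norm_num) (by norm_num) (by norm_num)
    (fun l hl => by
      unfold P1 at hl
      rw [mem_filter, TF.Bs.mem_PP] at hl
      exact ⟨hl.1.2.1, hl.1.2.2.2, hl.1.1⟩)
    (fun l hl hEl hlz => loc hE hEa hG l hl hEl hlz)
  simp only [sub_sub_cancel, Real.rpow_natCast, PPs_eq] at h1
  have e5 : (16 / 3 - 2 * (1 / 6) : ℝ) = 5 := by norm_num
  simp only [e5] at h1
  have eV : VV5 p N = ∏ l ∈ PP p N, (1 - 5 / (l : ℝ)) := by
    unfold VV5
    rw [PPs_eq]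
  obtain ⟨c1, c2, -, c4⟩ := h1
  rw [eV]
  exact ⟨c1, c2, c4⟩

/-! ## The factor in front -/

omit [Aa] in
lemma div_bounds (m P : ℕ) (hP : 0 < P) :
    (m : ℝ) / P - 1 ≤ ((m / P : ℕ) : ℝ) ∧ ((m / P : ℕ) : ℝ) ≤ (m : ℝ) / P := by
  have hP' : (0 : ℝ) < P := by exact_mod_cast hP
  refine ⟨?_, Nat.cast_div_le⟩
  have h1 : m ≤ P * (m / P) + P := by
    have := Nat.div_add_mod m P
    have h2 := Nat.mod_lt m hP
    omega
  have h2 : (m : ℝ) ≤ P * ((m / P : ℕ) : ℝ) + P := by exact_mod_cast h1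
  rw [sub_le_iff_le_add, div_le_iff₀ hP']
  linarith

lemma LL_pos : 0 < LL aa :=
  (TA.specLLX aa (by exact_mod_cast TF.Bs.aa_ne) TF.Bs.nsq_chz).1

lemma cE_pos : 0 < cE := by
  unfold cE
  have := LL_pos
  positivity

/-- the factor in front -/
def Pf (p : Prm) (M G P Q : ℕ) : ℝ :=
  2 * LL aa * (((3 * M / P : ℕ) : ℝ) - ((2 * M / P : ℕ) : ℝ)) * hI M Q / (G * (W0 p : ℝ) ^ 2) *
    ∏ l ∈ G.primeFactors, (1 - 1 / (l : ℝ))

lemma term (p : Prm) (N M G P Q n : ℕ) (hG : 0 < G) (hn : 0 < n) (hW : 0 < W0 p) :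
    cI G n * (2 ^ n.primeFactors.card * (mI p M G P Q n * VI p N M G P Q n)) =
      Pf p M G P Q * (co n * VI p N M G P Q n) := by
  unfold cI mI Pf co
  have hG' : (G : ℝ) ≠ 0 := by exact_mod_cast hG.ne'
  have hn' : (n : ℝ) ≠ 0 := by exact_mod_cast hn.ne'
  have hW' : (W0 p : ℝ) ≠ 0 := by exact_mod_cast hW.ne'
  rw [mul_pow]
  field_simp

omit [Aa] in
lemma one_sub_sum_le (s : Finset ℕ) (f : ℕ → ℝ) (h0 : ∀ i ∈ s, 0 ≤ f i) (h1 : ∀ i ∈ s, f i ≤ 1) :
    1 - ∑ i ∈ s, f i ≤ ∏ i ∈ s, (1 - f i) := by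
  induction s using Finset.induction_on with
  | empty => simp
  | insert a s ha ih =>
    rw [sum_insert ha, prod_insert ha]
    have h2 := ih (fun i hi => h0 i (mem_insert_of_mem hi)) (fun i hi => h1 i (mem_insert_of_mem hi))
    have h3 := h0 a (mem_insert_self _ _)
    have h4 := h1 a (mem_insert_self _ _)
    have h5 : 0 ≤ ∑ i ∈ s, f i := sum_nonneg fun i hi => h0 i (mem_insert_of_mem hi)
    have h6 : ∏ i ∈ s, (1 - f i) ≤ 1 := prod_le_one
      (fun i hi => by linarith [h1 i (mem_insert_of_mem hi)])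
      (fun i hi => by linarith [h0 i (mem_insert_of_mem hi)])
    have h7 : 0 ≤ ∏ i ∈ s, (1 - f i) :=
      prod_nonneg fun i hi => by linarith [h1 i (mem_insert_of_mem hi)]
    nlinarith

omit [Aa] in
/-- at most `3/ζ` primes `≥ z` divide `G` -/
lemma card_large {z : ℝ} (hz : 2 ≤ z) {G : ℕ} (hG : 0 < G) {B : ℝ} (hGB : Real.log G ≤ B) :
    ((G.primeFactors.filter (fun l : ℕ => z ≤ (l : ℝ))).card : ℝ) * Real.log z ≤ B := by
  refine le_trans ?_ hGB
  have h1 : z ^ (G.primeFactors.filter (fun l : ℕ => z ≤ (l : ℝ))).card ≤ G := by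
    calc z ^ (G.primeFactors.filter (fun l : ℕ => z ≤ (l : ℝ))).card =
          ∏ _l ∈ G.primeFactors.filter (fun l : ℕ => z ≤ (l : ℝ)), z := by rw [prod_const]
      _ ≤ ∏ l ∈ G.primeFactors.filter (fun l : ℕ => z ≤ (l : ℝ)), (l : ℝ) :=
          prod_le_prod (fun _ _ => by linarith) fun l hl => (mem_filter.1 hl).2
      _ ≤ G := by
          have h2 : (∏ l ∈ G.primeFactors.filter (fun l : ℕ => z ≤ (l : ℝ)), l) ∣ G :=
            (prod_dvd_prod_of_subset _ _ _ (filter_subset _ _)).trans (Nat.prod_primeFactors_dvd G)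
          have h3 := Nat.le_of_dvd hG h2
          have h4 : ((∏ l ∈ G.primeFactors.filter (fun l : ℕ => z ≤ (l : ℝ)), l : ℕ) : ℝ) ≤ G := by
            exact_mod_cast h3
          rwa [Nat.cast_prod] at h4
  have h2 := Real.log_le_log (by positivity) h1
  rwa [Real.log_pow] at h2

/-- the factor `∏_{l ∣ G} (1 - 1/l)` -/
lemma prod_G {p : Prm} {N M G P Q : ℕ} (hz : 2 ≤ zz p N) (hEa : 2 * aa ≤ p.E)
    (hW : ∀ l : ℕ, l.Prime → (l ≤ p.E ↔ l ∣ W0 p)) (hGW : Nat.Coprime G (W0 p)) (hG : 0 < G)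
    (hGPQ : G * P * Q = M ^ 2 + aa) {B : ℝ} (hGB : Real.log G ≤ B) :
    1 - ∑ l ∈ P1 p N M, 1 / (l : ℝ) - B / (Real.log (zz p N) * zz p N) ≤
      ∏ l ∈ G.primeFactors, (1 - 1 / (l : ℝ)) := by
  refine le_trans ?_ (one_sub_sum_le G.primeFactors (fun l => 1 / (l : ℝ))
    (fun l _ => by positivity) (fun l hl => by
      have h1 : (1 : ℝ) ≤ l := by exact_mod_cast (Nat.prime_of_mem_primeFactors hl).one_lt.le
      rw [div_le_one (by linarith)]
      exact h1))
  have hz0 : 0 < zz p N := by linarith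
  have hlz : 0 < Real.log (zz p N) := Real.log_pos (by linarith)
  have h1 : ∑ l ∈ G.primeFactors, 1 / (l : ℝ) =
      ∑ l ∈ G.primeFactors.filter (fun l : ℕ => zz p N ≤ (l : ℝ)), 1 / (l : ℝ) +
      ∑ l ∈ G.primeFactors.filter (fun l : ℕ => ¬ zz p N ≤ (l : ℝ)), 1 / (l : ℝ) :=
    (sum_filter_add_sum_filter_not _ _ _).symm
  have h2 : ∑ l ∈ G.primeFactors.filter (fun l : ℕ => zz p N ≤ (l : ℝ)), 1 / (l : ℝ) ≤
      B / (Real.log (zz p N) * zz p N) := by
    calc ∑ l ∈ G.primeFactors.filter (fun l : ℕ => zz p N ≤ (l : ℝ)), 1 / (l : ℝ) ≤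
          ∑ _l ∈ G.primeFactors.filter (fun l : ℕ => zz p N ≤ (l : ℝ)), 1 / zz p N :=
          sum_le_sum fun l hl => one_div_le_one_div_of_le hz0 (mem_filter.1 hl).2
      _ = ((G.primeFactors.filter (fun l : ℕ => zz p N ≤ (l : ℝ))).card : ℝ) * (1 / zz p N) := by
          rw [sum_const, nsmul_eq_mul]
      _ ≤ B / Real.log (zz p N) * (1 / zz p N) := by
          refine mul_le_mul_of_nonneg_right ?_ (by positivity)
          rw [le_div_iff₀ hlz]
          exact card_large hz hG hGB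
      _ = B / (Real.log (zz p N) * zz p N) := by
          rw [div_mul_div_comm, mul_one]
  have h3 : ∑ l ∈ G.primeFactors.filter (fun l : ℕ => ¬ zz p N ≤ (l : ℝ)), 1 / (l : ℝ) ≤
      ∑ l ∈ P1 p N M, 1 / (l : ℝ) := by
    refine sum_le_sum_of_subset_of_nonneg ?_ fun _ _ _ => by positivity
    intro l hl
    rw [mem_filter] at hl
    have hp := Nat.prime_of_mem_primeFactors hl.1
    have hd := Nat.dvd_of_mem_primeFactors hl.1
    have hdM : l ∣ M ^ 2 + aa := by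
      rw [← hGPQ, mul_assoc]
      exact hd.mul_right _
    have hEl : p.E < l := by
      by_contra hcon
      have h4 := (hW l hp).1 (by omega)
      exact hp.one_lt.ne' (Nat.dvd_one.1 (hGW ▸ Nat.dvd_gcd hd h4))
    have h4 : spl l := TF.Bs.spl_of_dvd_of_E hEa hp hEl hdM
    unfold P1
    rw [mem_filter, TF.Bs.mem_PP]
    exact ⟨⟨not_le.1 hl.2, hp, h4, hEl⟩, hdM⟩
  linarith

/-- the factor in front -/
lemma Pf_bounds {p : Prm} {M G P Q : ℕ} {x y : ℝ} (hG : 0 < G) (hP : 0 < P) (hQ : 0 < Q)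
    (hM : 0 < M) (hW : 0 < W0 p) (hGPQ : G * P * Q = M ^ 2 + aa) (hx : (P : ℝ) / M ≤ x)
    (hx1 : x ≤ 1) (hy : 1 - y ≤ ∏ l ∈ G.primeFactors, (1 - 1 / (l : ℝ))) (hy1 : y ≤ 1) :
    cE / (W0 p : ℝ) ^ 2 * ((1 - x) * (1 - y)) ≤ Pf p M G P Q ∧
      Pf p M G P Q ≤ cE / (W0 p : ℝ) ^ 2 * (1 + x) := by
  have hG' : (0 : ℝ) < G := by exact_mod_cast hG
  have hP' : (0 : ℝ) < P := by exact_mod_cast hP
  have hQ' : (0 : ℝ) < Q := by exact_mod_cast hQ
  have hM' : (0 : ℝ) < M := by exact_mod_cast hM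
  have hW' : (0 : ℝ) < W0 p := by exact_mod_cast hW
  have hpi : 0 < LL aa := LL_pos
  obtain ⟨Pg, hPg⟩ : ∃ Pg : ℝ, Pg = ∏ l ∈ G.primeFactors, (1 - 1 / (l : ℝ)) := ⟨_, rfl⟩
  have hPg1 : Pg ≤ 1 := by
    rw [hPg]
    refine prod_le_one (fun l hl => ?_) fun l hl => ?_
    · have h1 : (1 : ℝ) ≤ l := by exact_mod_cast (Nat.prime_of_mem_primeFactors hl).one_lt.le
      have : 1 / (l : ℝ) ≤ 1 := by
        rw [div_le_one (by linarith)]
        exact h1
      linarith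
    · have : 0 ≤ 1 / (l : ℝ) := by positivity
      linarith
  obtain ⟨u1, u2⟩ := div_bounds (3 * M) P hP
  obtain ⟨v1, v2⟩ := div_bounds (2 * M) P hP
  push_cast at u1 u2 v1 v2
  obtain ⟨A, hA⟩ : ∃ A : ℝ, A = ((3 * M / P : ℕ) : ℝ) - ((2 * M / P : ℕ) : ℝ) := ⟨_, rfl⟩
  have hA1 : (M : ℝ) / P - 1 ≤ A := by
    rw [hA]
    have : (3 : ℝ) * M / P - 2 * M / P = M / P := by ring
    linarith
  have hA2 : A ≤ (M : ℝ) / P + 1 := by
    rw [hA]
    have : (3 : ℝ) * M / P - 2 * M / P = M / P := by ring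
    linarith
  have hh : hI M Q = G * P / M := by
    unfold hI
    have h1 : (M : ℝ) ^ 2 + aa = G * P * Q := by exact_mod_cast hGPQ.symm
    rw [h1]
    field_simp
  have hPf : Pf p M G P Q = cE / (W0 p : ℝ) ^ 2 * (A * (P / M) * Pg) := by
    unfold Pf cE
    rw [hh, ← hA, ← hPg]
    field_simp
  have hAP1 : 1 - x ≤ A * (P / M) := by
    have h1 : ((M : ℝ) / P - 1) * (P / M) ≤ A * (P / M) :=
      mul_le_mul_of_nonneg_right hA1 (by positivity)
    have h2 : ((M : ℝ) / P - 1) * (P / M) = 1 - P / M := by field_simp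
    linarith
  have hAP2 : A * (P / M) ≤ 1 + x := by
    have h1 : A * (P / M) ≤ ((M : ℝ) / P + 1) * (P / M) :=
      mul_le_mul_of_nonneg_right hA2 (by positivity)
    have h2 : ((M : ℝ) / P + 1) * (P / M) = 1 + P / M := by field_simp
    linarith
  rw [← hPg] at hy
  have hx0 : 0 ≤ x := le_trans (by positivity) hx
  have hc : 0 ≤ cE / (W0 p : ℝ) ^ 2 := by
    have := cE_pos
    positivity
  rw [hPf]
  refine ⟨mul_le_mul_of_nonneg_left ?_ hc, mul_le_mul_of_nonneg_left ?_ hc⟩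
  · exact mul_le_mul hAP1 hy (by linarith) (by linarith)
  · have h0 : 0 ≤ A * (P / M) := by linarith
    calc A * (P / M) * Pg ≤ A * (P / M) * 1 := mul_le_mul_of_nonneg_left hPg1 h0
      _ ≤ 1 + x := by linarith

/-- the sum of the errors -/
lemma err_sum (p : Prm) (N M G : ℕ) (hz : 2 ≤ zz p N) (hG : 0 < G) (hK : 1 ≤ p.K) :
    ∑ n ∈ sqs p N M, cI G n * (2 ^ n.primeFactors.card * ((G : ℝ) / zz p N ^ (20 * p.K + 10))) ≤
      1 / zz p N := by
  have hz0 : 0 < zz p N := by linarith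
  have hz1 : 1 ≤ zz p N := by linarith
  have hG' : (G : ℝ) ≠ 0 := by exact_mod_cast hG.ne'
  have h1 : ∀ n ∈ sqs p N M, cI G n * (2 ^ n.primeFactors.card *
      ((G : ℝ) / zz p N ^ (20 * p.K + 10))) ≤ zz p N ^ p.K / zz p N ^ (20 * p.K + 10) := by
    intro n hn
    unfold sqs SQ at hn
    rw [mem_filter, mem_Icc] at hn
    have hn1 : (n : ℝ) ≤ zz p N ^ p.K :=
      (Nat.cast_le.2 hn.1.2).trans (Nat.floor_le (by positivity))
    have h2 : cI G n * (2 ^ n.primeFactors.card * ((G : ℝ) / zz p N ^ (20 * p.K + 10))) =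
        (1 / 3) ^ n.primeFactors.card * n / zz p N ^ (20 * p.K + 10) := by
      unfold cI
      have : (1 / 3 : ℝ) ^ n.primeFactors.card = (1 / 6) ^ n.primeFactors.card *
          2 ^ n.primeFactors.card := by
        rw [← mul_pow]
        norm_num
      rw [this]
      field_simp
    rw [h2]
    refine div_le_div_of_nonneg_right ?_ (by positivity)
    have h3 : (1 / 3 : ℝ) ^ n.primeFactors.card ≤ 1 := pow_le_one₀ (by norm_num) (by norm_num)
    calc (1 / 3 : ℝ) ^ n.primeFactors.card * n ≤ 1 * n :=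
          mul_le_mul_of_nonneg_right h3 (by positivity)
      _ ≤ _ := by linarith
  have hcard : ((sqs p N M).card : ℝ) ≤ zz p N ^ p.K := by
    have h2 : (sqs p N M).card ≤ ⌊zz p N ^ p.K⌋₊ := by
      unfold sqs SQ
      refine (card_filter_le _ _).trans ?_
      rw [Nat.card_Icc]
      omega
    exact (Nat.cast_le.2 h2).trans (Nat.floor_le (by positivity))
  calc ∑ n ∈ sqs p N M, cI G n * (2 ^ n.primeFactors.card *
        ((G : ℝ) / zz p N ^ (20 * p.K + 10))) ≤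
        ∑ _n ∈ sqs p N M, zz p N ^ p.K / zz p N ^ (20 * p.K + 10) := sum_le_sum h1
    _ = (sqs p N M).card * (zz p N ^ p.K / zz p N ^ (20 * p.K + 10)) := by
        rw [sum_const, nsmul_eq_mul]
    _ ≤ zz p N ^ p.K * (zz p N ^ p.K / zz p N ^ (20 * p.K + 10)) :=
        mul_le_mul_of_nonneg_right hcard (by positivity)
    _ ≤ 1 / zz p N := by
        rw [mul_div_assoc', div_le_div_iff₀ (by positivity) hz0, one_mul, ← pow_add, ← pow_succ]
        exact pow_le_pow_right₀ hz1 (by omega)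

omit [Aa] in
lemma cI_nonneg (G n : ℕ) : 0 ≤ cI G n := by
  unfold cI
  positivity

omit [Aa] in
/-- the inequalities at the end -/
lemma fin {η k c c0 e F V T X Er E3 S : ℝ} (h0 : 0 < η) (h1 : η ≤ 1 / 100) (hk : 0 ≤ k)
    (hc : 0 ≤ c) (hc0 : 0 ≤ c0) (he : 0 ≤ e) (hce : c0 * e = c * k)
    (hF1 : c0 * ((1 - η) * (1 - 2 * η)) ≤ F) (hF2 : F ≤ c0 * (1 + η))
    (hV1 : (1 - η) * e ≤ V) (hV2 : V ≤ e)
    (hT1 : T ≤ (1 + η) * (1 + η) * V) (hT2 : (1 - 3 * η) * V ≤ T) (hX : X ≤ η * (1 + η) * V)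
    (hEr : Er ≤ η * k) (hE3 : E3 ≤ η * k) (hS1 : S ≤ (1 + η) * (F * T) + Er)
    (hS2 : (1 - η) * (F * T) - 4 * (F * X) - 2 * Er - E3 ≤ S) :
    |S - c * k| ≤ (13 * c + 3) * η * k := by
  have a1 : 0 ≤ (1 - η) * (1 - 2 * η) := by nlinarith
  have hF0 : 0 ≤ F := (mul_nonneg hc0 a1).trans hF1
  have hV0 : 0 ≤ V := (mul_nonneg (by linarith) he).trans hV1
  have hpk : 0 ≤ c * k := by positivity
  have hηk : 0 ≤ η * k := by positivity
  have hηck : 0 ≤ η * (c * k) := by positivity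
  have hFV1 : F * V ≤ (1 + η) * (c * k) := by
    calc F * V ≤ c0 * (1 + η) * e := mul_le_mul hF2 hV2 hV0 (by positivity)
      _ = (1 + η) * (c * k) := by rw [← hce]; ring
  have hFV2 : (1 - 4 * η) * (c * k) ≤ F * V := by
    calc (1 - 4 * η) * (c * k) ≤ (1 - η) * (1 - 2 * η) * (1 - η) * (c * k) := by
          refine mul_le_mul_of_nonneg_right ?_ hpk
          nlinarith [mul_nonneg h0.le h0.le]
      _ = c0 * ((1 - η) * (1 - 2 * η)) * ((1 - η) * e) := by rw [← hce]; ring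
      _ ≤ F * V := mul_le_mul hF1 hV1 (mul_nonneg (by linarith) he) hF0
  have hFV0 : 0 ≤ F * V := mul_nonneg hF0 hV0
  rw [abs_le]
  constructor
  · have b1 : (1 - 3 * η) * (F * V) ≤ F * T := by
      calc (1 - 3 * η) * (F * V) = F * ((1 - 3 * η) * V) := by ring
        _ ≤ F * T := mul_le_mul_of_nonneg_left hT2 hF0
    have b2 : F * X ≤ η * (1 + η) * (F * V) := by
      calc F * X ≤ F * (η * (1 + η) * V) := mul_le_mul_of_nonneg_left hX hF0
        _ = _ := by ring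
    have b3 : (1 - 9 * η) * (F * V) ≤ (1 - η) * (F * T) - 4 * (F * X) := by
      have c1 : (1 - η) * ((1 - 3 * η) * (F * V)) ≤ (1 - η) * (F * T) :=
        mul_le_mul_of_nonneg_left b1 (by linarith)
      have c2 : η * η * (F * V) ≤ η * (F * V) := by
        refine mul_le_mul_of_nonneg_right ?_ hFV0
        nlinarith
      nlinarith
    have b4 : (1 - 9 * η) * ((1 - 4 * η) * (c * k)) ≤ (1 - 9 * η) * (F * V) :=
      mul_le_mul_of_nonneg_left hFV2 (by linarith)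
    have b5 : (1 - 13 * η) * (c * k) ≤ (1 - 9 * η) * ((1 - 4 * η) * (c * k)) := by
      have : 0 ≤ η * η * (c * k) := by positivity
      nlinarith
    nlinarith
  · have b1 : F * T ≤ (1 + η) * (1 + η) * (F * V) := by
      calc F * T ≤ F * ((1 + η) * (1 + η) * V) := mul_le_mul_of_nonneg_left hT1 hF0
        _ = _ := by ring
    have b2 : F * T ≤ (1 + η) * (1 + η) * ((1 + η) * (c * k)) :=
      b1.trans (mul_le_mul_of_nonneg_left hFV1 (by positivity))
    have b3 : (1 + η) * (F * T) ≤ (1 + η) * ((1 + η) * (1 + η) * ((1 + η) * (c * k))) :=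
      mul_le_mul_of_nonneg_left b2 (by positivity)
    have b4 : (1 + η) * ((1 + η) * (1 + η) * ((1 + η) * (c * k))) ≤
        (1 + 5 * η) * (c * k) := by
      have c1 : (1 + η) * ((1 + η) * (1 + η) * (1 + η)) ≤ 1 + 5 * η := by
        have d1 : η * η ≤ η / 100 := by nlinarith
        have d2 : η * η * η ≤ η / 100 := by nlinarith
        have d3 : η * η * η * η ≤ η / 100 := by nlinarith
        nlinarith
      calc (1 + η) * ((1 + η) * (1 + η) * ((1 + η) * (c * k))) =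
            (1 + η) * ((1 + η) * (1 + η) * (1 + η)) * (c * k) := by ring
        _ ≤ _ := mul_le_mul_of_nonneg_right c1 hpk
    nlinarith

lemma small_kp {p : Prm} {N : ℕ} {η : ℝ} (hη : 0 < η) (hW : 0 < W0 p)
    (h1 : (W0 p : ℝ) ^ 4 * Real.exp (10 * S0 p N) ≤ zz p N) (h2 : ((W0 p : ℝ) / η) ^ 4 ≤ zz p N) :
    1 / Real.sqrt (zz p N) ≤ η * kp p N (5 / 2) := by
  have hW' : (0 : ℝ) < W0 p := by exact_mod_cast hW
  have hz0 : 0 < zz p N := lt_of_lt_of_le (by positivity) h1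
  obtain ⟨s, hs⟩ : ∃ s : ℝ, s = Real.sqrt (Real.sqrt (zz p N)) := ⟨_, rfl⟩
  have hs0 : 0 < s := by rw [hs]; positivity
  have hs2 : s ^ 2 = Real.sqrt (zz p N) := by
    rw [hs, Real.sq_sqrt (Real.sqrt_nonneg _)]
  have hs4 : s ^ 4 = zz p N := by
    rw [show s ^ 4 = (s ^ 2) ^ 2 by ring, hs2, Real.sq_sqrt hz0.le]
  have a1 : (W0 p : ℝ) * Real.exp (5 / 2 * S0 p N) ≤ s := by
    refine le_of_pow_le_pow_left₀ (n := 4) (by norm_num) hs0.le ?_
    rw [hs4, mul_pow, ← Real.exp_nat_mul]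
    refine le_trans (le_of_eq ?_) h1
    congr 2
    push_cast
    ring
  have a2 : (W0 p : ℝ) / η ≤ s := by
    refine le_of_pow_le_pow_left₀ (n := 4) (by norm_num) hs0.le ?_
    rw [hs4]
    exact h2
  unfold kp
  rw [← hs2, Real.exp_neg, div_le_iff₀ (by positivity)]
  have a3 : (W0 p : ℝ) * Real.exp (5 / 2 * S0 p N) * ((W0 p : ℝ) / η) ≤ s * s :=
    mul_le_mul a1 a2 (by positivity) hs0.le
  have a4 : η * ((Real.exp (5 / 2 * S0 p N))⁻¹ / (W0 p : ℝ) ^ 2) * s ^ 2 =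
      (s * s) / ((W0 p : ℝ) * Real.exp (5 / 2 * S0 p N) * ((W0 p : ℝ) / η)) := by
    field_simp
  rw [a4, le_div_iff₀ (by positivity), one_mul]
  exact a3

end

end EPI

open EPI in
/-- **PHI** from its modules -/
theorem specPHI_of (hDI : SpecEDI) (h12 : SpecEI12) (h3 : SpecEI3) (hV : SpecEVS)
    (hR : SpecERR) (hR2 : SpecERR2) : TF.SpecPHI := by
  intro ε hε
  have hcE : 0 < cE := cE_pos
  obtain ⟨C, hC, hesn⟩ := esn
  obtain ⟨η, hηdef⟩ : ∃ η : ℝ, η = min (1 / 100) (ε / (13 * cE + 3)) := ⟨_, rfl⟩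
  have hη0 : 0 < η := by
    rw [hηdef]
    positivity
  have hη1 : η ≤ 1 / 100 := by
    rw [hηdef]
    exact min_le_left _ _
  have hηε : (13 * cE + 3) * η ≤ ε := by
    have : η ≤ ε / (13 * cE + 3) := by
      rw [hηdef]
      exact min_le_right _ _
    rw [le_div_iff₀ (by positivity)] at this
    linarith
  have hlogη : 0 < Real.log (1 + η) := Real.log_pos (by linarith)
  refine ⟨min η (Real.log (1 + η) / C), by positivity, ?_⟩
  have g1 := h12 η hη0
  have g2 := hR (fun _ => 1)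
  have g3 := hV.2 10
  have g4 := Good.large_E (max 1000 ⌈(C + 40) / η⌉₊)
  have g5 := Good.large_K (fun _ => ⌈2 * C / η⌉₊)
  refine ((((g1.and h3).and (g2.and hR2)).and g3).and (g4.and g5)).mono ?_
  rintro p ⟨⟨⟨⟨a1, a2⟩, a3, hEa4, a7⟩, a4⟩, a5, a6⟩
  have hEa : 2 * aa ≤ p.E := by omega
  obtain ⟨hζ, -, hK1, h4W, hWl, a3⟩ := a3
  have hz : Tendsto (fun N : ℕ => zz p N) atTop atTop :=
    (tendsto_rpow_atTop hζ).comp tendsto_natCast_atTop_atTop
  have hE : 1000 ≤ p.E := (le_max_left _ _).trans a5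
  have hE0 : (0 : ℝ) < p.E := by exact_mod_cast (by omega : 0 < p.E)
  have hEC : (C + 40) / p.E ≤ η := by
    have h1 : (C + 40) / η ≤ p.E :=
      (Nat.le_ceil _).trans (by exact_mod_cast (le_max_right _ _).trans a5)
    rw [div_le_iff₀ hη0] at h1
    rw [div_le_iff₀ hE0]
    linarith
  have hCE : C / p.E ≤ η := by
    refine le_trans ?_ hEC
    gcongr
    linarith
  have h40E : 40 / (p.E : ℝ) ≤ η := by
    refine le_trans ?_ hEC
    gcongr
    linarith
  have hK : C * Real.exp (-(p.K : ℝ) / 2) ≤ η := by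
    have h1 : 2 * C / η ≤ p.K := (Nat.le_ceil _).trans (by exact_mod_cast a6)
    have h2 : Real.exp (-(p.K : ℝ) / 2) ≤ 1 / ((p.K : ℝ) / 2 + 1) := by
      rw [neg_div, Real.exp_neg, ← one_div]
      exact one_div_le_one_div_of_le (by positivity) (Real.add_one_le_exp _)
    calc C * Real.exp (-(p.K : ℝ) / 2) ≤ C * (1 / ((p.K : ℝ) / 2 + 1)) :=
          mul_le_mul_of_nonneg_left h2 hC.le
      _ = C / ((p.K : ℝ) / 2 + 1) := by ring
      _ ≤ η := by
          rw [div_le_iff₀ (by positivity)]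
          rw [div_le_iff₀ hη0] at h1
          nlinarith
  have hW0 : 0 < W0 p := pow_pos (primorial_pos _) _
  filter_upwards [a1, a2, a3, a4, hz.eventually_ge_atTop (1 / η + 3 / (p.ζ * η) +
    ((W0 p : ℝ) / η) ^ 4), eventually_ge_atTop 100, a7] with N b1 b2 b3 b4 b5 b6 b7
  intro M G P Q hA hσ
  obtain ⟨hz2, -, b3⟩ := b3
  obtain ⟨hM0, hG0, hP0, hQ0, -, -, hGN, hzP, -, -⟩ := b3 M G P Q hA
  have hGPQ : G * P * Q = M ^ 2 + aa := hA.1
  have hGW : Nat.Coprime G (W0 p) := hA.2.2.2.1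
  have hz0 : 0 < zz p N := by linarith
  have hM' : (0 : ℝ) < M := by exact_mod_cast hM0
  have hG' : (0 : ℝ) < G := by exact_mod_cast hG0
  have hN' : (100 : ℝ) ≤ N := by exact_mod_cast b6
  have hζη : 0 < p.ζ * η := by positivity
  have hz1 : 1 / η ≤ zz p N := by
    have : 0 < 3 / (p.ζ * η) := by positivity
    have : 0 ≤ ((W0 p : ℝ) / η) ^ 4 := by positivity
    linarith
  have hz3 : 3 / (p.ζ * η) ≤ zz p N := by
    have : 0 < 1 / η := by positivity
    have : 0 ≤ ((W0 p : ℝ) / η) ^ 4 := by positivity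
    linarith
  have hzW : ((W0 p : ℝ) / η) ^ 4 ≤ zz p N := by
    have : 0 < 1 / η := by positivity
    have : 0 < 3 / (p.ζ * η) := by positivity
    linarith
  -- the sum over the primes of `M² + 1`
  have hσ' : ∑ l ∈ P1 p N M, 1 / (l : ℝ) ≤ min η (Real.log (1 + η) / C) := hσ
  obtain ⟨σ, hσdef⟩ : ∃ σ : ℝ, σ = ∑ l ∈ P1 p N M, 1 / (l : ℝ) := ⟨_, rfl⟩
  rw [← hσdef] at hσ'
  have hση : σ ≤ η := hσ'.trans (min_le_left _ _)
  have hCσ : C * σ ≤ Real.log (1 + η) := by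
    have := hσ'.trans (min_le_right _ _)
    rw [le_div_iff₀ hC] at this
    linarith
  have hCσ' : C * σ ≤ η := by
    refine hCσ.trans ?_
    have := Real.log_le_sub_one_of_pos (by linarith : 0 < 1 + η)
    linarith
  have hexpσ : Real.exp (C * σ) ≤ 1 + η := by
    calc Real.exp (C * σ) ≤ Real.exp (Real.log (1 + η)) := Real.exp_le_exp.2 hCσ
      _ = 1 + η := Real.exp_log (by linarith)
  -- the pieces
  have hzη : 1 / zz p N ≤ η := by
    rw [div_le_iff₀ hz0]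
    rw [div_le_iff₀ hη0] at hz1
    linarith
  have hPM : (P : ℝ) / M ≤ η := by
    refine le_trans ?_ hzη
    rw [div_le_div_iff₀ hM' hz0, one_mul]
    simp only [pow_one] at hzP
    linarith
  have hlogN : 0 < Real.log N := Real.log_pos (by linarith)
  have hlogz : Real.log (zz p N) = p.ζ * Real.log N := by
    unfold zz
    rw [Real.log_rpow (by linarith)]
  have hGB : Real.log G ≤ 3 * Real.log N := by
    calc Real.log G ≤ Real.log (100 * (N : ℝ) ^ 2) := Real.log_le_log hG' hGN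
      _ = Real.log 100 + 2 * Real.log N := by
          rw [Real.log_mul (by norm_num) (by positivity), Real.log_pow]
          push_cast
          ring
      _ ≤ 3 * Real.log N := by
          have := Real.log_le_log (by norm_num) hN'
          linarith
  have haM : aa ≤ M := b7 M G P Q hA
  have hprod := prod_G hz2 hEa hWl hGW hG0 hGPQ hGB
  rw [← hσdef] at hprod
  have hB : 3 * Real.log N / (Real.log (zz p N) * zz p N) ≤ η := by
    rw [hlogz]
    have e1 : 3 * Real.log N / (p.ζ * Real.log N * zz p N) = 3 / (p.ζ * zz p N) := by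
      field_simp
    rw [e1, div_le_iff₀ (by positivity)]
    rw [div_le_iff₀ hζη] at hz3
    linarith
  obtain ⟨f1, f2⟩ := Pf_bounds (p := p) (x := η) (y := 2 * η) hG0 hP0 hQ0 hM0 hW0 hGPQ hPM
    (by linarith) (by linarith) (by linarith)
  obtain ⟨v1, v2⟩ := hV.1 p N 5 (by omega) (by norm_num) (by norm_num)
  obtain ⟨t1, t2, t3⟩ := hesn p N M G P Q hE hEa hz2 hK1 hGPQ
  rw [← hσdef] at t1 t2 t3
  have hkp : kp p N (5 / 2) = Real.exp (-(5 / 2 * S0 p N)) / (W0 p : ℝ) ^ 2 := rfl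
  have hk0 : 0 ≤ kp p N (5 / 2) := by
    rw [hkp]
    positivity
  have hV0 : 0 ≤ VV5 p N := by
    refine le_trans ?_ v1
    exact mul_nonneg (by linarith) (Real.exp_pos _).le
  have hsq := small_kp hη0 hW0 b4 hzW
  have hsqz : 1 / zz p N ≤ 1 / Real.sqrt (zz p N) := by
    refine one_div_le_one_div_of_le (Real.sqrt_pos.2 hz0) ?_
    rw [Real.sqrt_le_left hz0.le]
    nlinarith
  have herr := (err_sum p N M G hz2 hG0 hK1).trans (hsqz.trans hsq)
  have he3 := (b2 M G P Q hA).trans hsq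
  obtain ⟨d1, d2⟩ := hDI p N M G P Q h4W hWl hz2 hA hM0 hG0 hP0 hQ0 haM
  have hcI : ∀ n, 0 ≤ cI G n := cI_nonneg G
  have hnpos : ∀ n ∈ sqs p N M, 0 < n := fun n hn => by
    unfold sqs SQ at hn
    rw [mem_filter, mem_Icc] at hn
    omega
  have hres := fin (η := η) (k := kp p N (5 / 2)) (c := cE) (c0 := cE / (W0 p : ℝ) ^ 2)
    (e := Real.exp (-(5 / 2 * S0 p N))) (F := Pf p M G P Q) (V := VV5 p N)
    (T := TT p N M G P Q) (X := TX p N M G P Q)
    (Er := ∑ n ∈ sqs p N M, cI G n * (2 ^ n.primeFactors.card *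
      ((G : ℝ) / zz p N ^ (20 * p.K + 10))))
    (E3 := ∑ n ∈ sqs p N M, cI G n * UI3 p N M G P Q n)
    (S := ∑ t ∈ S1 p N M G P Q, (t.2 : ℝ) / G * vh p N (1 / 6) (1 / 6) (1 / 6) (M, G, P, Q, t))
    hη0 hη1 hk0 hcE.le (by positivity) (Real.exp_pos _).le
    (by rw [hkp]; ring) f1 f2
    (by
      refine le_trans ?_ v1
      exact mul_le_mul_of_nonneg_right (by linarith) (Real.exp_pos _).le)
    v2
    (by
      refine t1.trans (mul_le_mul_of_nonneg_right ?_ hV0)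
      exact mul_le_mul (by linarith) hexpσ (Real.exp_pos _).le (by linarith))
    (by
      refine le_trans (mul_le_mul_of_nonneg_right ?_ hV0) t2
      linarith)
    (by
      refine t3.trans (mul_le_mul_of_nonneg_right ?_ hV0)
      exact mul_le_mul hCE hexpσ (Real.exp_pos _).le hη0.le)
    herr he3
    (by
      refine d1.trans ?_
      unfold TT
      rw [mul_sum, mul_sum, ← sum_add_distrib]
      refine sum_le_sum fun n hn => ?_
      obtain ⟨c1, -⟩ := b1 M G P Q n hA hn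
      have c2 := (abs_le.1 c1).2
      have c3 := term p N M G P Q n hG0 (hnpos n hn) hW0
      have c4 : UI p N M G P Q n (fun _ => True) ≤
          (1 + η) * (2 ^ n.primeFactors.card * (mI p M G P Q n * VI p N M G P Q n)) +
            2 ^ n.primeFactors.card * ((G : ℝ) / zz p N ^ (20 * p.K + 10)) := by
        linarith
      calc cI G n * UI p N M G P Q n (fun _ => True) ≤ cI G n *
            ((1 + η) * (2 ^ n.primeFactors.card * (mI p M G P Q n * VI p N M G P Q n)) +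
            2 ^ n.primeFactors.card * ((G : ℝ) / zz p N ^ (20 * p.K + 10))) :=
            mul_le_mul_of_nonneg_left c4 (hcI n)
        _ = (1 + η) * (cI G n * (2 ^ n.primeFactors.card *
              (mI p M G P Q n * VI p N M G P Q n))) +
            cI G n * (2 ^ n.primeFactors.card * ((G : ℝ) / zz p N ^ (20 * p.K + 10))) := by ring
        _ = _ := by rw [c3])
    (by
      refine le_trans ?_ d2
      unfold TT TX
      rw [mul_sum, mul_sum, mul_sum, mul_sum, mul_sum, ← sum_sub_distrib, ← sum_sub_distrib,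
        ← sum_sub_distrib]
      refine sum_le_sum fun n hn => ?_
      obtain ⟨c1, c5⟩ := b1 M G P Q n hA hn
      have c2 := (abs_le.1 c1).1
      have c3 := term p N M G P Q n hG0 (hnpos n hn) hW0
      obtain ⟨w, hw⟩ : ∃ w : ℝ, w = 2 ^ n.primeFactors.card *
        (mI p M G P Q n * VI p N M G P Q n) := ⟨_, rfl⟩
      obtain ⟨g, hg⟩ : ∃ g : ℝ, g = 2 ^ n.primeFactors.card *
        ((G : ℝ) / zz p N ^ (20 * p.K + 10)) := ⟨_, rfl⟩
      obtain ⟨sn, hsn⟩ : ∃ sn : ℝ, sn = ∑ l ∈ n.primeFactors, 1 / (l : ℝ) := ⟨_, rfl⟩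
      have c4 : (1 - η) * w - g ≤ UI p N M G P Q n (fun _ => True) := by
        rw [hw, hg]
        linarith
      have c6 : UI p N M G P Q n (fun x => ∃ l : ℕ, l.Prime ∧ l ∣ n ∧ l ∣ x) ≤
          4 * (sn * w) + g := by
        rw [hw, hg, hsn]
        refine c5.trans (le_of_eq ?_)
        ring
      rw [← hw] at c3
      rw [← hg, ← c3, ← hsn]
      have e1 : Pf p M G P Q * (sn * (co n * VI p N M G P Q n)) = sn * (cI G n * w) := by
        rw [c3]
        ring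
      rw [e1]
      have c7 : cI G n * ((1 - η) * w - g - (4 * (sn * w) + g) - UI3 p N M G P Q n) ≤
          cI G n * (UI p N M G P Q n (fun _ => True) -
            UI p N M G P Q n (fun x => ∃ l : ℕ, l.Prime ∧ l ∣ n ∧ l ∣ x) -
            UI3 p N M G P Q n) :=
        mul_le_mul_of_nonneg_left (by linarith) (hcI n)
      refine le_trans (le_of_eq ?_) c7
      ring)
  exact hres.trans (mul_le_mul_of_nonneg_right hηε hk0)

end Pool.Agent.Lib.MP391708.TF1
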