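import Pool.Agent.Lib.MP_391708_nt.TF1.EVS

/-!
# Theorem T1a, module ERR: sizes and error terms
-/

set_option autoImplicit false

namespace Pool.Agent.Lib.MP391708.TF1

open Finset Filter Topology
open scoped Classical
open TF (Aa aa spl Prm Good zz W0 PP Adm S0 Y1 Y2 Y3 Y4)
open T1.EVS (sum_inv_sq_le prod_bounds prod_ge log_pow_le zz_tendsto zz_large zpow_le_N)

variable [Aa]

namespace ERRM

omit [Aa] in
/-- every `n ≤ E` divides `W0` -/
lemma dvd_W0 {p : Prm} {n : ℕ} (hn : 0 < n) (h : n ≤ p.E) : n ∣ W0 p := by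
  unfold W0
  have h1 : n ∣ (∏ l ∈ n.primeFactors, l) ^ p.E := by
    rw [← Finset.prod_pow]
    conv_lhs => rw [← Nat.prod_factorization_pow_eq_self hn.ne']
    rw [Finsupp.prod, Nat.support_factorization]
    refine Finset.prod_dvd_prod_of_dvd _ _ fun l _ => pow_dvd_pow _ ?_
    exact ((Nat.factorization_lt l hn.ne').le).trans h
  refine h1.trans (pow_dvd_pow_of_dvd ?_ _)
  unfold primorial
  refine Finset.prod_dvd_prod_of_subset _ _ _ fun l hl => ?_
  have hl' := Nat.prime_of_mem_primeFactors hl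
  have := Nat.le_of_dvd hn (Nat.dvd_of_mem_primeFactors hl)
  rw [mem_filter, mem_range]
  exact ⟨by omega, hl'⟩

end ERRM

open EVS ERRM in
/-- **ERR** -/
theorem specERR : SpecERR := by
  intro c
  refine ((((((T4.Good.large_E (1000 + 4 * aa)).and (T4.Good.large_K (fun _ => 1))).and
    (T4.Good.large_r (fun _ _ => 1))).and
    (T4.Good.large_k (fun _ K _ => c K + 4 * K + 1))).and
    (((err_small (fun _ K _ => c K)).and (size_le (fun _ _ _ _ => 0))).and
    ((zz_large (fun _ _ _ _ => 10)).and (zpow_le_N (fun _ K _ _ => c K))))).and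
    T4.Good.zeta_pos).mono fun p hp => ?_
  obtain ⟨⟨⟨⟨⟨hE, hK⟩, hr⟩, hk⟩, ⟨herr, hsize⟩, hz10, hzN⟩, hζ⟩ := hp
  have ha := aa_pos
  have hpr : ∀ l : ℕ, l.Prime → (l ≤ p.E ↔ l ∣ W0 p) := by
    intro l hl
    refine ⟨fun h => dvd_W0 hl.pos h, fun h => ?_⟩
    unfold W0 at h
    exact hl.dvd_primorial_iff.1 (hl.dvd_of_dvd_pow h)
  refine ⟨hζ, by omega, hK, dvd_W0 (by omega) (by omega), hpr, ?_⟩
  filter_upwards [herr, hsize, hz10, hzN, eventually_ge_atTop (aa + 1)]
    with N herr hsize hz10 hzN hN1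
  refine ⟨by linarith, hzN, fun M G P Q hA => ?_⟩
  have herr := herr M G P Q hA
  have hsize := (hsize M G P Q hA).2.2
  obtain ⟨h1, h2, h3, h4, h5, h6, h7, h8, h9⟩ := hA
  set z := zz p N with hzdef
  have hz0 : 0 < z := by linarith
  have hz1 : 1 ≤ z := by linarith
  have hM0 : 0 < M := by omega
  have hMr : (0 : ℝ) < M := by exact_mod_cast hM0
  have hprod : 0 < G * P * Q := by rw [h1]; positivity
  have hG0 : 0 < G := Nat.pos_of_ne_zero fun h => by simp [h] at hprod
  have hP0 : 0 < P := Nat.pos_of_ne_zero fun h => by simp [h] at hprod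
  have hQ0 : 0 < Q := Nat.pos_of_ne_zero fun h => by simp [h] at hprod
  have hGr : (0 : ℝ) < G := by exact_mod_cast hG0
  have hPr : (0 : ℝ) < P := by exact_mod_cast hP0
  have hQr : (0 : ℝ) < Q := by exact_mod_cast hQ0
  have hGd : G ∣ M ^ 2 + aa := ⟨P * Q, by rw [← h1]; ring⟩
  refine ⟨hM0, hG0, hP0, hQ0, ?_, ?_, ?_, ?_, ?_, ?_⟩
  · unfold spl
    refine chz_one_of hG0 fun l hl hlG => spl_of_dvd hl ?_ (hlG.trans hGd)
    by_contra hle
    have h10 : l ∣ W0 p := (hpr l hl).1 (by omega)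
    have h11 := Nat.dvd_gcd hlG h10
    rw [h4] at h11
    exact hl.one_lt.ne' (Nat.dvd_one.1 h11)
  · have h10 := hsize ((M : ℝ) / P) (by rw [div_mul_cancel₀ _ hPr.ne']; linarith)
    rwa [pow_zero, one_mul] at h10
  · have h10 : G ≤ M ^ 2 + aa := Nat.le_of_dvd (by positivity) hGd
    have h11 : G ≤ 100 * N ^ 2 := by nlinarith
    exact_mod_cast h11
  · have h10 : z ^ c p.K * P * z ^ p.k ≤ M * z ^ p.k := by
      calc z ^ c p.K * P * z ^ p.k = z ^ c p.K * (P * Y1 p N) := by unfold Y1; ring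
        _ ≤ z ^ c p.K * (10 * M * z ^ (4 * p.K)) := by gcongr
        _ ≤ z ^ c p.K * (z * M * z ^ (4 * p.K)) := by gcongr
        _ = M * z ^ (c p.K + 4 * p.K + 1) := by ring
        _ ≤ M * z ^ p.k := by
          refine mul_le_mul_of_nonneg_left (pow_le_pow_right₀ hz1 hk) hMr.le
    exact le_of_mul_le_mul_right h10 (by positivity)
  · have hrk : 1 * p.k ≤ p.r * p.k := Nat.mul_le_mul_right _ hr
    have h10 : z ^ c p.K * z ≤ G * z := by
      calc z ^ c p.K * z = z ^ (c p.K + 1) := by ring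
        _ ≤ z ^ (p.k + 10 * p.r * p.k) := pow_le_pow_right₀ hz1 (by nlinarith)
        _ = Y1 p N * Y3 p N := by unfold Y1 Y3; ring
        _ ≤ 10 * G := h8
        _ ≤ G * z := by nlinarith
    exact le_of_mul_le_mul_right h10 hz0
  · have h10 := herr ((M : ℝ) / P) G (G * P / M) (by positivity)
      (by rw [div_mul_cancel₀ _ hPr.ne']; linarith) hGr.le (by linarith) (by positivity) ?_
    · exact h10
    · have h11 : (G : ℝ) * P * Q = (M : ℝ) ^ 2 + aa := by exact_mod_cast h1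
      calc (G : ℝ) * P / M * Q * M = G * P * Q := by field_simp
        _ = (M : ℝ) ^ 2 + aa := h11
        _ ≤ 20 * ((M : ℝ) ^ 2 + aa) := by
            have : (0 : ℝ) ≤ aa := Nat.cast_nonneg _
            nlinarith [sq_nonneg (M : ℝ)]

/-- **ERR2** -/
theorem specERR2 : SpecERR2 := by
  refine (T4.Good.large_E (4 * aa)).mono fun p hE => ⟨hE, ?_⟩
  filter_upwards [eventually_ge_atTop (2 * aa)] with N hN M G P Q hA
  have := hA.2.1
  omega

end Pool.Agent.Lib.MP391708.TF1
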