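import Pool.Agent.Lib.MP_391708_nt.TF1.ESpecC
import Pool.Agent.Lib.MP_391708_nt.TA.ELM
import Pool.Agent.Lib.MP_391708_nt.TA.RTS
import Pool.Agent.Lib.MP_391708_nt.TA.RRB
import Pool.Agent.Lib.MP_391708_nt.T1.GoodL

/-!
# Theorem T1a, group E: PHU, case `q² ∣ F₁` (x-form of `T1/EUCA.lean`)

`UU_le`: the sum `UU` with a condition is at most the sum over the classes `(ρ, κ)` of a finite set
which contains the classes of all `(D, x)` with the condition.  `κ` is a class of `x` modulo `m`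
(`m = 1` or prime), with the density `dm aa m κ ≤ δ`.
-/

set_option autoImplicit false
set_option linter.unusedSectionVars false

namespace Pool.Agent.Lib.MP391708.TF1

open Finset Filter Topology
open scoped Classical
open TF (Aa aa spl Prm Good zz W0 PP sm Adm S1 S2 vh kp kpU S0)
open T1 (SDD Dm Locm F1 F2 wgt wgt0 SQ)
open TA (EX DD Rt chz rr dens dm lm lmj LU tU wU UU VU EUC SpecEUG SpecEUCA SpecEUCA')

noncomputable section

variable [Aa]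

namespace EUCA

lemma rr_nonneg (x : ℕ) : 0 ≤ rr (aa : ℤ) x := TA.RRB.rr_nonneg _ x

lemma rp_pos (D : ℕ) : 0 < TA.rp (aa : ℤ) D := TA.rp_pos _ D

lemma wgt_nonneg (l : ℕ) (M : ℤ) (G P Q : ℕ) {bT bR : ℝ} (hT : 0 ≤ bT) (hR : 0 ≤ bR) (d e : ℤ) :
    0 ≤ wgt l M G P Q bT bR d e := by
  unfold wgt
  split_ifs <;> positivity

lemma wgt_le_one (l : ℕ) (M : ℤ) (G P Q : ℕ) {bT bR : ℝ} (hR : 0 ≤ bR)
    (hT1 : bT ≤ 1) (hR1 : bR ≤ 1) (d e : ℤ) : wgt l M G P Q bT bR d e ≤ 1 := by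
  unfold wgt
  split_ifs
  · norm_num
  · exact mul_le_one₀ hT1 hR hR1
  · simpa using hT1
  · simpa using hR1
  · norm_num

/-- the local weights, with modulus `n'` -/
def FF (p : Prm) (N M : ℕ) (s : ℤ) (G P Q n' : ℕ) (bT bR : ℝ) (D D₂ : ℤ) : ℝ :=
  ∏ l ∈ (PP p N).filter (fun l : ℕ => ¬ l ∣ n' ∧ ¬ (l : ℤ) ∣ (M : ℤ) ^ 2 + aa),
    wgt l (s * M) G P Q bT bR D D₂

lemma FF_nonneg (p : Prm) (N M : ℕ) (s : ℤ) (G P Q n' : ℕ) {bT bR : ℝ} (hT : 0 ≤ bT)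
    (hR : 0 ≤ bR) (D D₂ : ℤ) : 0 ≤ FF p N M s G P Q n' bT bR D D₂ :=
  prod_nonneg fun l _ => wgt_nonneg l _ G P Q hT hR D D₂

lemma sM_sq {s : ℤ} (hs : s = 1 ∨ s = -1) (M : ℕ) : (s * (M : ℤ)) ^ 2 + aa = (M : ℤ) ^ 2 + aa := by
  rcases hs with rfl | rfl <;> ring

lemma wU_le {p : Prm} {N M : ℕ} {s : ℤ} {G P Q n n' : ℕ} {bT bR : ℝ} (hs : s = 1 ∨ s = -1)
    (hT0 : 0 ≤ bT) (hT1 : bT ≤ 1) (hR0 : 0 ≤ bR) (hR1 : bR ≤ 1) (hnn : n ∣ n') (D D₂ : ℤ) :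
    wU p N (s * M) G P Q n bT bR D D₂ ≤ FF p N M s G P Q n' bT bR D D₂ := by
  unfold wU FF
  rw [sM_sq hs]
  refine prod_le_prod_of_subset_of_le_one ?_ ?_ ?_
  · intro l hl
    rw [mem_filter] at hl ⊢
    exact ⟨hl.1, fun h => hl.2.1 (h.trans hnn), hl.2.2⟩
  · exact fun l _ => wgt_nonneg l _ G P Q hT0 hR0 D D₂
  · exact fun l _ _ => wgt_le_one l _ G P Q hR0 hT1 hR1 D D₂

/-- the sum with a condition is at most the sum over the classes in `T` -/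
lemma UU_le {p : Prm} {N M : ℕ} {s : ℤ} {G P Q n n' m : ℕ} {bT bR : ℝ} {c : ℤ → ℤ → ℤ → Prop}
    (hs : s = 1 ∨ s = -1) (hT0 : 0 ≤ bT) (hT1 : bT ≤ 1) (hR0 : 0 ≤ bR) (hR1 : bR ≤ 1)
    (hnn : n ∣ n') (T : Finset (ℕ × ℕ))
    (hT : ∀ D ∈ DD (W0 p) n (s * M) G P Q ((M - 1) / (3 * P)) (10 * M / P), ∀ x : ℕ,
      ((D * W0 p : ℕ) : ℤ) ∣ (n : ℤ) * x - G →
      c (F1 (s * M) G P Q D) (F2 (s * M) G P Q (((n : ℤ) * x - G) / D)) ((n : ℤ) * x) →
      ∃ t ∈ T, D ≡ t.1 [MOD n'] ∧ x ≡ t.2 [MOD m]) :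
    UU p N M s G P Q n bT bR c ≤
      ∑ t ∈ T, (tU p M G P n' t.1 n m t.2).S aa (FF p N M s G P Q n' bT bR) := by
  set F := FF p N M s G P Q n' bT bR with hF
  have hF0 : ∀ D D₂, 0 ≤ F D D₂ := FF_nonneg p N M s G P Q n' hT0 hR0
  set DS := DD (W0 p) n (s * M) G P Q ((M - 1) / (3 * P)) (10 * M / P) with hDS
  -- the inner sums
  have h1 : ∀ D ∈ DS, (1 / TA.rp (aa : ℤ) D) *
      ∑ x ∈ (Ioc 0 ⌊(D : ℝ) * LU M G P / n⌋₊).filter (fun x : ℕ =>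
        ((D * W0 p : ℕ) : ℤ) ∣ (n : ℤ) * x - G ∧
        c (F1 (s * M) G P Q D) (F2 (s * M) G P Q (((n : ℤ) * x - G) / D)) ((n : ℤ) * x)),
      rr (aa : ℤ) x * wU p N (s * M) G P Q n bT bR D (((n : ℤ) * x - G) / D) ≤
      ∑ t ∈ T, (if D ≡ t.1 [MOD n'] then (1 / TA.rp (aa : ℤ) D) *
        ∑ x ∈ (tU p M G P n' t.1 n m t.2).SX D,
        rr (aa : ℤ) x * F (D : ℤ) (((n : ℤ) * x - G) / (D : ℤ)) else 0) := by
    intro D hD
    have hrp : 0 ≤ 1 / TA.rp (aa : ℤ) D := by have := rp_pos D; positivity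
    have h2 : ∀ x ∈ (Ioc 0 ⌊(D : ℝ) * LU M G P / n⌋₊).filter (fun x : ℕ =>
        ((D * W0 p : ℕ) : ℤ) ∣ (n : ℤ) * x - G ∧
        c (F1 (s * M) G P Q D) (F2 (s * M) G P Q (((n : ℤ) * x - G) / D)) ((n : ℤ) * x)),
        rr (aa : ℤ) x * wU p N (s * M) G P Q n bT bR D (((n : ℤ) * x - G) / D) ≤
        ∑ t ∈ T, (if D ≡ t.1 [MOD n'] ∧ x ≡ t.2 [MOD m] then
          rr (aa : ℤ) x * F (D : ℤ) (((n : ℤ) * x - G) / (D : ℤ)) else 0) := by
      intro x hx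
      rw [mem_filter] at hx
      obtain ⟨-, hx1, hx2⟩ := hx
      obtain ⟨t, ht, ht1⟩ := hT D hD x hx1 hx2
      calc rr (aa : ℤ) x * wU p N (s * M) G P Q n bT bR D (((n : ℤ) * x - G) / D) ≤
            rr (aa : ℤ) x * F (D : ℤ) (((n : ℤ) * x - G) / (D : ℤ)) :=
            mul_le_mul_of_nonneg_left (wU_le hs hT0 hT1 hR0 hR1 hnn _ _) (rr_nonneg x)
        _ = (if D ≡ t.1 [MOD n'] ∧ x ≡ t.2 [MOD m] then
          rr (aa : ℤ) x * F (D : ℤ) (((n : ℤ) * x - G) / (D : ℤ)) else 0) := by rw [if_pos ht1]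
        _ ≤ _ := single_le_sum (f := fun t : ℕ × ℕ =>
            (if D ≡ t.1 [MOD n'] ∧ x ≡ t.2 [MOD m] then
          rr (aa : ℤ) x * F (D : ℤ) (((n : ℤ) * x - G) / (D : ℤ)) else 0)) (fun t _ => by
            split_ifs
            · exact mul_nonneg (rr_nonneg x) (hF0 _ _)
            · exact le_rfl) ht
    refine (mul_le_mul_of_nonneg_left (sum_le_sum h2) hrp).trans ?_
    rw [sum_comm, mul_sum]
    refine sum_le_sum fun t _ => ?_
    by_cases hDt : D ≡ t.1 [MOD n']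
    · rw [if_pos hDt]
      refine mul_le_mul_of_nonneg_left ?_ hrp
      rw [← sum_filter, filter_filter]
      refine sum_le_sum_of_subset_of_nonneg ?_ fun x _ _ => mul_nonneg (rr_nonneg x) (hF0 _ _)
      intro x hx
      rw [mem_filter] at hx
      unfold EX.SX tU
      simp only []
      rw [mem_filter]
      exact ⟨hx.1, hx.2.1.1, hx.2.2.2⟩
    · rw [if_neg hDt]
      simp [hDt]
  unfold UU
  refine (sum_le_sum h1).trans ?_
  rw [sum_comm]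
  refine sum_le_sum fun t _ => ?_
  rw [← sum_filter]
  unfold EX.S
  refine sum_le_sum_of_subset_of_nonneg ?_ fun D _ _ => ?_
  · intro D hD
    rw [mem_filter, hDS] at hD
    unfold DD at hD
    rw [mem_filter] at hD
    unfold EX.SD tU SDD
    simp only []
    rw [mem_filter]
    exact ⟨hD.1.1, hD.1.2.1, hD.2, hD.1.2.2.1⟩
  · have := rp_pos D
    exact mul_nonneg (by positivity) (sum_nonneg fun x _ => mul_nonneg (rr_nonneg x) (hF0 _ _))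

/-- `SpecEUG` for `S = ∅` -/
def EUG0 (C : ℝ) (p : Prm) (N : ℕ) : Prop :=
  ∀ (M G P Q : ℕ) (s : ℤ) (bT bR : ℝ) (n n' ρ m κ : ℕ), Adm p N M G P Q →
    (s = 1 ∨ s = -1) → 0 ≤ bT → bT ≤ 1 → 0 ≤ bR → bR ≤ 1 →
    n ∈ SQ (PP p N) (zz p N ^ (4 * p.K)) → n ∣ n' → 0 < n' →
    (n' : ℝ) ≤ zz p N ^ (4 * p.K + 2) → (∀ l : ℕ, l.Prime → l ∣ n' → l ∈ PP p N ∧ ¬ l ∣ G) →
    n'.Coprime ρ → (m = 1 ∨ m.Prime) → (m : ℝ) ≤ zz p N → (∀ l : ℕ, l.Prime → l ∣ m → l ∣ n') →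
    (tU p M G P n' ρ n m κ).S aa (FF p N M s G P Q n' bT bR) ≤
      C * (G / ((W0 p : ℝ) ^ 2 * n' * n)) * dm aa m κ * VU p N M s G P Q n' bT bR +
        G / zz p N ^ (20 * p.K + 20)

lemma eug0 (hG : SpecEUG) :
    ∃ C : ℝ, 0 < C ∧ Good (fun p => ∀ᶠ N : ℕ in atTop, EUG0 C p N) := by
  obtain ⟨C, hC, hG⟩ := hG
  refine ⟨C, hC, hG.mono fun p hp => ?_⟩
  filter_upwards [hp] with N h
  intro M G P Q s bT bR n n' ρ m κ hA hs hT0 hT1 hR0 hR1 hn hnn hn0 hnz hnl hcop hm0 hmz hml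
  have h1 := h M G P Q s bT bR n n' ρ m κ ∅ (fun _ => 1) (fun _ _ _ => 1) hA hs hT0 hT1 hR0 hR1
    hn hnn hn0 hnz hnl hcop hm0 hmz hml (by simp) (by simp)
  simp only [notMem_empty, not_false_eq_true, and_true, prod_empty, one_mul, mul_one] at h1
  exact h1

lemma spl_cop {l : ℕ} (hl : l ≠ 0) (h : spl l) : l.Coprime (2 * (aa : ℤ).natAbs) := by
  by_contra h1
  have h2 := (TA.chz_eq_zero_iff hl).2 h1
  unfold spl at h
  rw [h] at h2
  exact one_ne_zero h2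

lemma spl_not_dvd {l : ℕ} (hl : l.Prime) (h : spl l) : ¬ (l : ℤ) ∣ (aa : ℤ) := by
  intro h1
  have h2 : l ∣ 2 * (aa : ℤ).natAbs := by
    rw [Int.natAbs_natCast]
    exact (Int.natCast_dvd_natCast.1 h1).mul_left 2
  have h3 := Nat.dvd_gcd dvd_rfl h2
  rw [spl_cop hl.ne_zero h] at h3
  exact hl.one_lt.ne' (Nat.dvd_one.1 h3)

lemma spl_ne_two {l : ℕ} (hl : l.Prime) (h : spl l) : l ≠ 2 := by
  rintro rfl
  have h3 := Nat.dvd_gcd dvd_rfl (Dvd.intro (aa : ℤ).natAbs rfl : (2 : ℕ) ∣ 2 * (aa : ℤ).natAbs)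
  rw [spl_cop hl.ne_zero h] at h3
  exact hl.one_lt.ne' (Nat.dvd_one.1 h3)

lemma lm_ge {l : ℕ} {M : ℤ} {G P Q : ℕ} {bT bR : ℝ} (hl : l.Prime) (h4 : spl l)
    (hl1 : 1000 ≤ l) (hGPQ : (G : ℤ) * P * Q = M ^ 2 + aa) (hM : ¬ (l : ℤ) ∣ M ^ 2 + aa)
    (hT0 : 0 ≤ bT) (hT1 : bT ≤ 1) (hR0 : 0 ≤ bR) (hR1 : bR ≤ 1) :
    1 / 2 ≤ lm aa l G (wgt l M G P Q bT bR) := by
  have h1 := (TA.specELM (aa : ℤ) l M G P Q bT bR hl (by omega) (spl_not_dvd hl h4) hGPQ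
    hT0 hT1 hR0 hR1).2.1 hM h4
  have hl' : (1000 : ℝ) ≤ l := by exact_mod_cast hl1
  have hl0 : (0 : ℝ) < l := by linarith
  have h2 := (abs_le.1 h1).2
  have h3 : 100 / (l : ℝ) ^ 2 ≤ 1 / 10 := by
    rw [div_le_div_iff₀ (by positivity) (by norm_num)]
    nlinarith
  have h4 : (6 - 2 * bT - 2 * bR) / (l : ℝ) ≤ 1 / 10 := by
    rw [div_le_div_iff₀ hl0 (by norm_num)]
    nlinarith
  linarith

lemma mem_PP {p : Prm} {N l : ℕ} :
    l ∈ PP p N ↔ (l : ℝ) < zz p N ∧ l.Prime ∧ spl l ∧ p.E < l := by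
  unfold PP
  rw [mem_filter, mem_range, Nat.lt_ceil]

lemma GPQ_of {p : Prm} {N M G P Q : ℕ} {s : ℤ} (hA : Adm p N M G P Q) (hs : s = 1 ∨ s = -1) :
    (G : ℤ) * P * Q = (s * M) ^ 2 + aa := by
  rw [sM_sq hs]
  exact_mod_cast hA.1

lemma VU_nonneg {p : Prm} {N M G P Q : ℕ} {s : ℤ} {bT bR : ℝ} (hE : 1000 ≤ p.E)
    (hA : Adm p N M G P Q) (hs : s = 1 ∨ s = -1)
    (hT0 : 0 ≤ bT) (hT1 : bT ≤ 1) (hR0 : 0 ≤ bR) (hR1 : bR ≤ 1) (n : ℕ) :
    0 ≤ VU p N M s G P Q n bT bR := by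
  unfold VU
  refine prod_nonneg fun l hl => ?_
  rw [mem_filter, mem_PP] at hl
  have h1 : ¬ (l : ℤ) ∣ (s * (M : ℤ)) ^ 2 + aa := by rw [sM_sq hs]; exact hl.2.2
  have := lm_ge (P := P) (Q := Q) hl.1.2.1 hl.1.2.2.1 (by omega) (GPQ_of hA hs) h1 hT0 hT1 hR0 hR1
  linarith

/-- the sum over the classes in `T`; `δ` bounds the density of the class `κ` -/
lemma sum_le {C : ℝ} (hC : 0 ≤ C) {p : Prm} {N : ℕ} (hU : EUG0 C p N) (hE : 1000 ≤ p.E)
    {M G P Q : ℕ} {s : ℤ} {bT bR : ℝ}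
    {n n' m : ℕ} {c : ℤ → ℤ → ℤ → Prop} (hA : Adm p N M G P Q)
    (hs : s = 1 ∨ s = -1) (hT0 : 0 ≤ bT) (hT1 : bT ≤ 1) (hR0 : 0 ≤ bR) (hR1 : bR ≤ 1)
    (hn : n ∈ SQ (PP p N) (zz p N ^ (4 * p.K))) (hnn : n ∣ n') (hn0 : 0 < n')
    (hnz : (n' : ℝ) ≤ zz p N ^ (4 * p.K + 2))
    (hnl : ∀ l : ℕ, l.Prime → l ∣ n' → l ∈ PP p N ∧ ¬ l ∣ G) (hm0 : m = 1 ∨ m.Prime)
    (hmz : (m : ℝ) ≤ zz p N) (hml : ∀ l : ℕ, l.Prime → l ∣ m → l ∣ n')
    (T : Finset (ℕ × ℕ)) (δ : ℝ) (hδ : ∀ t ∈ T, dm aa m t.2 ≤ δ) (hTc : ∀ t ∈ T, n'.Coprime t.1)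
    (hT : ∀ D ∈ DD (W0 p) n (s * M) G P Q ((M - 1) / (3 * P)) (10 * M / P), ∀ x : ℕ,
      ((D * W0 p : ℕ) : ℤ) ∣ (n : ℤ) * x - G →
      c (F1 (s * M) G P Q D) (F2 (s * M) G P Q (((n : ℤ) * x - G) / D)) ((n : ℤ) * x) →
      ∃ t ∈ T, D ≡ t.1 [MOD n'] ∧ x ≡ t.2 [MOD m]) :
    UU p N M s G P Q n bT bR c ≤ (T.card : ℝ) *
      (C * (G / ((W0 p : ℝ) ^ 2 * n' * n)) * δ * VU p N M s G P Q n' bT bR +
        G / zz p N ^ (20 * p.K + 20)) := by
  have hV := VU_nonneg hE hA hs hT0 hT1 hR0 hR1 n'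
  refine (UU_le hs hT0 hT1 hR0 hR1 hnn T hT).trans ?_
  have h1 : ∀ t ∈ T, (tU p M G P n' t.1 n m t.2).S aa (FF p N M s G P Q n' bT bR) ≤
      C * (G / ((W0 p : ℝ) ^ 2 * n' * n)) * δ * VU p N M s G P Q n' bT bR +
        G / zz p N ^ (20 * p.K + 20) := by
    intro t ht
    refine (hU M G P Q s bT bR n n' t.1 m t.2 hA hs hT0 hT1 hR0 hR1 hn hnn
      hn0 hnz hnl (hTc t ht) hm0 hmz hml).trans ?_
    have h2 : C * (G / ((W0 p : ℝ) ^ 2 * n' * n)) * dm aa m t.2 ≤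
        C * (G / ((W0 p : ℝ) ^ 2 * n' * n)) * δ :=
      mul_le_mul_of_nonneg_left (hδ t ht) (by positivity)
    have h3 := mul_le_mul_of_nonneg_right h2 hV
    linarith
  refine (sum_le_sum h1).trans ?_
  rw [sum_const, nsmul_eq_mul]

lemma dm_one (κ : ℕ) : dm (aa : ℤ) 1 κ = 1 := by
  unfold dm
  rw [if_pos rfl]

/-- dropping one prime -/
lemma VU_drop {p : Prm} {N M G P Q : ℕ} {s : ℤ} {bT bR : ℝ} (hE : 1000 ≤ p.E)
    (hA : Adm p N M G P Q) (hs : s = 1 ∨ s = -1)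
    (hT0 : 0 ≤ bT) (hT1 : bT ≤ 1) (hR0 : 0 ≤ bR) (hR1 : bR ≤ 1) {n n' q : ℕ} (hq : q ∈ PP p N)
    (hqn : ¬ q ∣ n) (hqM : ¬ q ∣ M ^ 2 + aa)
    (hn' : ∀ l : ℕ, l.Prime → (l ∣ n' ↔ l ∣ n ∨ l = q)) :
    VU p N M s G P Q n' bT bR ≤ 2 * VU p N M s G P Q n bT bR := by
  have hq' := mem_PP.1 hq
  have hqM' : ¬ (q : ℤ) ∣ (M : ℤ) ^ 2 + aa := by
    intro h
    exact hqM (by exact_mod_cast h)
  have h0 := VU_nonneg hE hA hs hT0 hT1 hR0 hR1 n'
  have h1 : VU p N M s G P Q n bT bR =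
      lm aa q G (wgt q (s * M) G P Q bT bR) * VU p N M s G P Q n' bT bR := by
    unfold VU
    have h2 : (PP p N).filter (fun l : ℕ => ¬ l ∣ n ∧ ¬ (l : ℤ) ∣ (M : ℤ) ^ 2 + aa) =
        insert q ((PP p N).filter (fun l : ℕ => ¬ l ∣ n' ∧ ¬ (l : ℤ) ∣ (M : ℤ) ^ 2 + aa)) := by
      ext l
      rw [mem_insert, mem_filter, mem_filter]
      constructor
      · rintro ⟨hl, h3, h4⟩
        by_cases hlq : l = q
        · exact Or.inl hlq
        · refine Or.inr ⟨hl, fun h5 => ?_, h4⟩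
          rcases (hn' l (mem_PP.1 hl).2.1).1 h5 with h6 | h6
          · exact h3 h6
          · exact hlq h6
      · rintro (rfl | ⟨hl, h3, h4⟩)
        · exact ⟨hq, hqn, hqM'⟩
        · exact ⟨hl, fun h5 => h3 ((hn' l (mem_PP.1 hl).2.1).2 (Or.inl h5)), h4⟩
    rw [h2, prod_insert]
    rw [mem_filter]
    exact fun h => h.2.1 ((hn' q hq'.2.1).2 (Or.inr rfl))
  have h3 : ¬ (q : ℤ) ∣ (s * (M : ℤ)) ^ 2 + aa := by rw [sM_sq hs]; exact hqM'
  have h4 := lm_ge (P := P) (Q := Q) hq'.2.1 hq'.2.2.1 (by omega) (GPQ_of hA hs) h3 hT0 hT1 hR0 hR1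
  rw [h1]
  nlinarith

lemma VU_same {p : Prm} {N M G P Q : ℕ} {s : ℤ} {bT bR : ℝ} {n n' : ℕ}
    (hn' : ∀ l : ℕ, l.Prime → (l ∣ n' ↔ l ∣ n)) :
    VU p N M s G P Q n' bT bR = VU p N M s G P Q n bT bR := by
  unfold VU
  have h2 : (PP p N).filter (fun l : ℕ => ¬ l ∣ n ∧ ¬ (l : ℤ) ∣ (M : ℤ) ^ 2 + aa) =
      (PP p N).filter (fun l : ℕ => ¬ l ∣ n' ∧ ¬ (l : ℤ) ∣ (M : ℤ) ^ 2 + aa) := by
    refine filter_congr fun l hl => ?_
    rw [hn' l (mem_PP.1 hl).2.1]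
  rw [h2]

/-- facts on `n` -/
lemma SQ_facts {p : Prm} {N n : ℕ} (hn : n ∈ SQ (PP p N) (zz p N ^ (4 * p.K))) :
    0 < n ∧ (n : ℝ) ≤ zz p N ^ (4 * p.K) ∧ Squarefree n ∧
      ∀ l : ℕ, l.Prime → l ∣ n → l ∈ PP p N := by
  unfold SQ at hn
  rw [mem_filter, mem_Icc] at hn
  refine ⟨hn.1.1, ?_, hn.2.1, hn.2.2⟩
  have h1 : 0 ≤ zz p N ^ (4 * p.K) := by
    by_contra h
    push Not at h
    rw [Nat.floor_of_nonpos h.le] at hn
    omega
  exact (Nat.le_floor_iff h1).1 hn.1.2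

lemma dvd_sub_mod (D m : ℕ) : (m : ℤ) ∣ (D : ℤ) - ((D % m : ℕ) : ℤ) := by
  refine ⟨((D / m : ℕ) : ℤ), ?_⟩
  have h : ((m * (D / m) + D % m : ℕ) : ℤ) = D := by rw [Nat.div_add_mod]
  rw [Nat.cast_add, Nat.cast_mul] at h
  linarith

lemma cop_of {p : Prm} {N n : ℕ} (h : ∀ l : ℕ, l.Prime → l ∣ n → l ∈ PP p N) :
    n.Coprime (2 * (aa : ℤ).natAbs) := by
  refine Nat.coprime_of_dvd fun l hl h1 h2 => ?_
  have h3 := mem_PP.1 (h l hl h1)
  have h4 := Nat.dvd_gcd dvd_rfl h2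
  rw [spl_cop hl.ne_zero h3.2.2.1] at h4
  exact hl.one_lt.ne' (Nat.dvd_one.1 h4)

end EUCA

open EUCA

/-- **EUCA**: `q ∤ n`, `q² ∣ F₁` -/
theorem specEUCA (hG : SpecEUG) (hE : SpecERR) : SpecEUCA := by
  have hR := TA.specRTS
  obtain ⟨C, hC, hG⟩ := eug0 hG
  refine ⟨4 * C, by positivity, (hG.and (hE (fun _ => 0))).mono fun p hp => ?_⟩
  obtain ⟨hp1, -, hE1, hK, -, -, hp2⟩ := hp
  filter_upwards [hp1, hp2] with N hU h2
  obtain ⟨hz2, -, h2⟩ := h2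
  intro M G P Q s bT bR n q hA hs hT0 hT1 hR0 hR1 hn hnG hH
  obtain ⟨hq, hqn, hqM⟩ := hH
  obtain ⟨hn0, hnz, hnsq, hnl⟩ := SQ_facts hn
  have hq' := mem_PP.1 hq
  have hq0 : 0 < q := hq'.2.1.pos
  have hqG : ¬ q ∣ G := by
    intro h
    apply hqM
    rw [← hA.1]
    exact (h.mul_right P).mul_right Q
  have hprimes : ∀ l : ℕ, l.Prime → (l ∣ n * q ^ 2 ↔ l ∣ n ∨ l = q) := by
    intro l hl
    rw [hl.dvd_mul, hl.prime.dvd_pow_iff_dvd two_ne_zero, Nat.prime_dvd_prime_iff_eq hl hq'.2.1]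
  have hnl' : ∀ l : ℕ, l.Prime → l ∣ n * q ^ 2 → l ∈ PP p N ∧ ¬ l ∣ G := by
    intro l hl h
    rcases (hprimes l hl).1 h with h | rfl
    · refine ⟨hnl l hl h, fun h' => ?_⟩
      have := Nat.dvd_gcd h h'
      rw [hnG] at this
      exact hl.one_lt.ne' (Nat.dvd_one.1 this)
    · exact ⟨hq, hqG⟩
  have hz0 : 0 < zz p N := by linarith
  have hn'z : ((n * q ^ 2 : ℕ) : ℝ) ≤ zz p N ^ (4 * p.K + 2) := by
    push_cast
    rw [pow_add]
    exact mul_le_mul hnz (pow_le_pow_left₀ (by positivity) hq'.1.le 2) (by positivity)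
      (by positivity)
  have hGPQ := GPQ_of hA hs
  set T : Finset (ℕ × ℕ) := (Rt (n * q ^ 2) (s * M) G P Q).image (fun ρ => (ρ, 0))
    with hT
  have h3 := sum_le (c := fun f₁ _ _ => (q : ℤ) ^ 2 ∣ f₁) hC.le hU hE1 hA hs hT0 hT1 hR0 hR1 hn
    (Dvd.intro _ rfl) (by positivity) hn'z hnl'
    (Or.inl rfl) (by push_cast; linarith) (fun l hl h => by
      have := Nat.dvd_one.1 h
      exact absurd this hl.one_lt.ne') T 1 (fun t _ => (dm_one t.2).le) (by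
      intro t ht
      rw [hT, mem_image] at ht
      obtain ⟨ρ, hρ, rfl⟩ := ht
      unfold Rt at hρ
      rw [mem_filter] at hρ
      exact hρ.2.1) (by
      intro D hD x hx hc
      unfold DD at hD
      rw [mem_filter] at hD
      obtain ⟨-, -, -, hDn, hDF⟩ := hD
      refine ⟨(D % (n * q ^ 2), 0), ?_, (Nat.mod_modEq _ _).symm, Nat.modEq_one⟩
      rw [hT, mem_image]
      refine ⟨_, ?_, rfl⟩
      unfold Rt
      have hn'0 : 0 < n * q ^ 2 := by positivity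
      have hcop : (n * q ^ 2).Coprime D := by
        refine Nat.Coprime.mul_left hDn.symm ?_
        refine Nat.Coprime.pow_left 2 ?_
        rw [Nat.Prime.coprime_iff_not_dvd hq'.2.1]
        rintro ⟨e, he⟩
        have h5 : (q : ℤ) ∣ G * Q := by
          have h6 : (q : ℤ) ∣ F1 (s * M) G P Q D := (dvd_pow_self _ two_ne_zero).trans hc
          unfold F1 at h6
          obtain ⟨f, hf⟩ := h6
          refine ⟨f - P * e * D + 2 * (s * M) * e, ?_⟩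
          have he' : (D : ℤ) = q * e := by exact_mod_cast he
          linear_combination hf + (-(P : ℤ) * D + 2 * (s * M)) * he'
        apply hqM
        have h6 : q ∣ G * Q := by exact_mod_cast h5
        rw [← hA.1]
        have h7 : G * P * Q = G * Q * P := by ring
        rw [h7]
        exact h6.mul_right P
      rw [mem_filter, mem_range]
      refine ⟨Nat.mod_lt _ hn'0, ?_, ?_⟩
      · rw [Nat.coprime_iff_gcd_eq_one, Nat.gcd_comm, ← Nat.gcd_rec]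
        exact hcop
      · have h5 : ((n * q ^ 2 : ℕ) : ℤ) ∣ F1 (s * M) G P Q D := by
          push_cast
          refine IsCoprime.mul_dvd ?_ hDF hc
          have : Nat.Coprime n (q ^ 2) := by
            refine Nat.Coprime.pow_right 2 ?_
            exact ((Nat.Prime.coprime_iff_not_dvd hq'.2.1).2 hqn).symm
          exact_mod_cast Nat.isCoprime_iff_coprime.2 this
        have h6 : ((n * q ^ 2 : ℕ) : ℤ) ∣ (D : ℤ) - ((D % (n * q ^ 2) : ℕ) : ℤ) :=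
          dvd_sub_mod D _
        obtain ⟨e, he⟩ := h6
        obtain ⟨f, hf⟩ := h5
        unfold F1 at hf ⊢
        refine ⟨f - e * (P * (D + ((D % (n * q ^ 2) : ℕ) : ℤ)) - 2 * (s * M)), ?_⟩
        linear_combination hf - (P * (D + ((D % (n * q ^ 2) : ℕ) : ℤ)) - 2 * (s * M)) * he)
  refine h3.trans ?_
  have hcard : (T.card : ℝ) ≤ 2 * 2 ^ n.primeFactors.card := by
    have h5 : T.card ≤ (Rt (n * q ^ 2) (s * M) G P Q).card := card_image_le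
    have h6 := hR.2.1 (aa : ℤ) (n * q ^ 2) G P Q (s * M) hGPQ (cop_of fun l hl h => (hnl' l hl h).1)
    have h7 : (n * q ^ 2).primeFactors.card ≤ n.primeFactors.card + 1 := by
      have h8 : (n * q ^ 2).primeFactors ⊆ insert q n.primeFactors := by
        intro l hl
        have hl' := Nat.prime_of_mem_primeFactors hl
        rcases (hprimes l hl').1 (Nat.dvd_of_mem_primeFactors hl) with h | h
        · exact mem_insert_of_mem (Nat.mem_primeFactors.2 ⟨hl', h, hn0.ne'⟩)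
        · rw [h]; exact mem_insert_self _ _
      exact (card_le_card h8).trans (card_insert_le _ _)
    have h8 : (2 : ℕ) ^ (n * q ^ 2).primeFactors.card ≤ 2 * 2 ^ n.primeFactors.card := by
      calc (2 : ℕ) ^ (n * q ^ 2).primeFactors.card ≤ 2 ^ (n.primeFactors.card + 1) :=
            Nat.pow_le_pow_right (by norm_num) h7
        _ = _ := by rw [pow_succ]; ring
    exact_mod_cast (h5.trans h6).trans h8
  have hV := VU_drop hE1 hA hs hT0 hT1 hR0 hR1 hq hqn hqM hprimes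
  have hV0 := VU_nonneg hE1 hA hs hT0 hT1 hR0 hR1 n
  have hV1 := VU_nonneg hE1 hA hs hT0 hT1 hR0 hR1 (n * q ^ 2)
  obtain ⟨-, hG0, -⟩ := h2 M G P Q hA
  have hW : (0 : ℝ) < W0 p := by
    have : 0 < W0 p := by unfold W0; exact pow_pos (primorial_pos _) _
    exact_mod_cast this
  have hnR : (0 : ℝ) < n := by exact_mod_cast hn0
  have hqR : (0 : ℝ) < q := by exact_mod_cast hq0
  have hGR : (0 : ℝ) < G := by exact_mod_cast hG0
  have e1 : (G : ℝ) / ((W0 p : ℝ) ^ 2 * ((n * q ^ 2 : ℕ) : ℝ) * n) =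
      1 / (q : ℝ) ^ 2 * (G / ((W0 p : ℝ) ^ 2 * (n : ℝ) ^ 2)) := by
    push_cast
    field_simp
  have e2 : 2 * ((G : ℝ) / zz p N ^ (20 * p.K + 20)) ≤ G / zz p N ^ (20 * p.K + 10) := by
    have h5 : (2 : ℝ) ≤ zz p N ^ 10 := by
      calc (2 : ℝ) ≤ 2 ^ 10 := by norm_num
        _ ≤ zz p N ^ 10 := pow_le_pow_left₀ (by norm_num) hz2 10
    rw [show 20 * p.K + 20 = (20 * p.K + 10) + 10 by ring, pow_add (zz p N) (20 * p.K + 10) 10]
    rw [mul_div_assoc', div_le_div_iff₀ (by positivity) (by positivity)]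
    have h6 : 0 < zz p N ^ (20 * p.K + 10) := by positivity
    nlinarith [mul_le_mul_of_nonneg_left h5 (mul_nonneg hGR.le h6.le)]
  rw [e1]
  set A := 1 / (q : ℝ) ^ 2 * (G / ((W0 p : ℝ) ^ 2 * (n : ℝ) ^ 2)) with hAdef
  have hA0 : 0 ≤ A := by positivity
  have hB0 : 0 ≤ C * A * 1 * VU p N M s G P Q (n * q ^ 2) bT bR +
      G / zz p N ^ (20 * p.K + 20) := by
    positivity
  calc (T.card : ℝ) * (C * A * 1 * VU p N M s G P Q (n * q ^ 2) bT bR +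
        G / zz p N ^ (20 * p.K + 20)) ≤ (2 * 2 ^ n.primeFactors.card) *
        (C * A * 1 * VU p N M s G P Q (n * q ^ 2) bT bR + G / zz p N ^ (20 * p.K + 20)) :=
        mul_le_mul_of_nonneg_right hcard hB0
    _ = 2 ^ n.primeFactors.card * (2 * (C * A * VU p N M s G P Q (n * q ^ 2) bT bR) +
        2 * (G / zz p N ^ (20 * p.K + 20))) := by ring
    _ ≤ 2 ^ n.primeFactors.card * (4 * C * A * VU p N M s G P Q n bT bR +
        G / zz p N ^ (20 * p.K + 10)) := by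
        refine mul_le_mul_of_nonneg_left (add_le_add ?_ e2) (by positivity)
        have h5 : 0 ≤ 2 * (C * A) := by positivity
        calc 2 * (C * A * VU p N M s G P Q (n * q ^ 2) bT bR) =
              2 * (C * A) * VU p N M s G P Q (n * q ^ 2) bT bR := by ring
          _ ≤ 2 * (C * A) * (2 * VU p N M s G P Q n bT bR) := mul_le_mul_of_nonneg_left hV h5
          _ = _ := by ring
    _ = _ := by rw [hAdef]; ring

/-- **EUCA'**: `q ∣ n`, `q² ∣ F₁` -/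
theorem specEUCA' (hG : SpecEUG) (hE : SpecERR) : SpecEUCA' := by
  have hR := TA.specRTS
  obtain ⟨C, hC, hG⟩ := eug0 hG
  refine ⟨C, hC, (hG.and (hE (fun _ => 0))).mono fun p hp => ?_⟩
  obtain ⟨hp1, -, hE1, hK, -, -, hp2⟩ := hp
  filter_upwards [hp1, hp2] with N hU h2
  obtain ⟨hz2, -, h2⟩ := h2
  intro M G P Q s bT bR n q hA hs hT0 hT1 hR0 hR1 hn hnG hH
  obtain ⟨hq, hqn, hqM⟩ := hH
  obtain ⟨hn0, hnz, hnsq, hnl⟩ := SQ_facts hn
  have hq' := mem_PP.1 hq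
  have hq0 : 0 < q := hq'.2.1.pos
  have hprimes : ∀ l : ℕ, l.Prime → (l ∣ n * q ↔ l ∣ n) := by
    intro l hl
    rw [hl.dvd_mul, Nat.prime_dvd_prime_iff_eq hl hq'.2.1]
    constructor
    · rintro (h | rfl)
      · exact h
      · exact hqn
    · exact Or.inl
  have hnl' : ∀ l : ℕ, l.Prime → l ∣ n * q → l ∈ PP p N ∧ ¬ l ∣ G := by
    intro l hl h
    have h := (hprimes l hl).1 h
    refine ⟨hnl l hl h, fun h' => ?_⟩
    have := Nat.dvd_gcd h h'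
    rw [hnG] at this
    exact hl.one_lt.ne' (Nat.dvd_one.1 this)
  have hz0 : 0 < zz p N := by linarith
  have hn'z : ((n * q : ℕ) : ℝ) ≤ zz p N ^ (4 * p.K + 2) := by
    push_cast
    rw [pow_add]
    have h5 : (q : ℝ) ≤ zz p N ^ 2 := by nlinarith [hq'.1]
    exact mul_le_mul hnz h5 (by positivity) (by positivity)
  have hGPQ := GPQ_of hA hs
  have hn'0 : 0 < n * q := by positivity
  have hnq : ∀ D : ℕ, D.Coprime n → (n * q).Coprime D := fun D h =>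
    Nat.Coprime.mul_left h.symm ((Nat.Coprime.coprime_dvd_right hqn h).symm)
  set T : Finset (ℕ × ℕ) := (Rt (n * q) (s * M) G P Q).image (fun ρ => (ρ, 0))
    with hT
  have h3 := sum_le (c := fun f₁ _ _ => (q : ℤ) ^ 2 ∣ f₁) hC.le hU hE1 hA hs hT0 hT1 hR0 hR1 hn
    (Dvd.intro _ rfl) hn'0 hn'z hnl'
    (Or.inl rfl) (by push_cast; linarith) (fun l hl h => by
      have := Nat.dvd_one.1 h
      exact absurd this hl.one_lt.ne') T 1 (fun t _ => (dm_one t.2).le) (by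
      intro t ht
      rw [hT, mem_image] at ht
      obtain ⟨ρ, hρ, rfl⟩ := ht
      unfold Rt at hρ
      rw [mem_filter] at hρ
      exact hρ.2.1) (by
      intro D hD x hx hc
      unfold DD at hD
      rw [mem_filter] at hD
      obtain ⟨-, -, -, hDn, hDF⟩ := hD
      refine ⟨(D % (n * q), 0), ?_, (Nat.mod_modEq _ _).symm, Nat.modEq_one⟩
      rw [hT, mem_image]
      refine ⟨_, ?_, rfl⟩
      unfold Rt
      rw [mem_filter, mem_range]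
      refine ⟨Nat.mod_lt _ hn'0, ?_, ?_⟩
      · rw [Nat.coprime_iff_gcd_eq_one, Nat.gcd_comm, ← Nat.gcd_rec]
        exact hnq D hDn
      · have h5 : ((n * q : ℕ) : ℤ) ∣ F1 (s * M) G P Q D := by
          obtain ⟨n₀, rfl⟩ := hqn
          have hcop : Nat.Coprime q n₀ := Nat.coprime_of_squarefree_mul hnsq
          have h6 : ((q * n₀ * q : ℕ) : ℤ) = (q : ℤ) ^ 2 * n₀ := by push_cast; ring
          rw [h6]
          refine IsCoprime.mul_dvd ?_ hc ?_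
          · have : Nat.Coprime (q ^ 2) n₀ := Nat.Coprime.pow_left 2 hcop
            exact_mod_cast Nat.isCoprime_iff_coprime.2 this
          · refine dvd_trans ?_ hDF
            exact ⟨q, by push_cast; ring⟩
        obtain ⟨e, he⟩ := dvd_sub_mod D (n * q)
        obtain ⟨f, hf⟩ := h5
        unfold F1 at hf ⊢
        refine ⟨f - e * (P * (D + ((D % (n * q) : ℕ) : ℤ)) - 2 * (s * M)), ?_⟩
        linear_combination hf - (P * (D + ((D % (n * q) : ℕ) : ℤ)) - 2 * (s * M)) * he)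
  refine h3.trans ?_
  have hcard : (T.card : ℝ) ≤ 2 ^ n.primeFactors.card := by
    have h5 : T.card ≤ (Rt (n * q) (s * M) G P Q).card := card_image_le
    have h6 := hR.2.1 (aa : ℤ) (n * q) G P Q (s * M) hGPQ (cop_of fun l hl h => (hnl' l hl h).1)
    have h7 : (n * q).primeFactors.card ≤ n.primeFactors.card := by
      refine card_le_card fun l hl => ?_
      have hl' := Nat.prime_of_mem_primeFactors hl
      exact Nat.mem_primeFactors.2 ⟨hl', (hprimes l hl').1 (Nat.dvd_of_mem_primeFactors hl),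
        hn0.ne'⟩
    have h8 : (2 : ℕ) ^ (n * q).primeFactors.card ≤ 2 ^ n.primeFactors.card :=
      Nat.pow_le_pow_right (by norm_num) h7
    exact_mod_cast (h5.trans h6).trans h8
  have hV : VU p N M s G P Q (n * q) bT bR = VU p N M s G P Q n bT bR := VU_same hprimes
  have hV0 := VU_nonneg hE1 hA hs hT0 hT1 hR0 hR1 n
  obtain ⟨-, hG0, -⟩ := h2 M G P Q hA
  have hW : (0 : ℝ) < W0 p := by
    have : 0 < W0 p := by unfold W0; exact pow_pos (primorial_pos _) _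
    exact_mod_cast this
  have hnR : (0 : ℝ) < n := by exact_mod_cast hn0
  have hqR : (0 : ℝ) < q := by exact_mod_cast hq0
  have hGR : (0 : ℝ) < G := by exact_mod_cast hG0
  have e1 : (G : ℝ) / ((W0 p : ℝ) ^ 2 * ((n * q : ℕ) : ℝ) * n) =
      1 / (q : ℝ) * (G / ((W0 p : ℝ) ^ 2 * (n : ℝ) ^ 2)) := by
    push_cast
    field_simp
  have e2 : (G : ℝ) / zz p N ^ (20 * p.K + 20) ≤ G / zz p N ^ (20 * p.K + 10) := by
    refine div_le_div_of_nonneg_left hGR.le (by positivity) ?_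
    exact pow_le_pow_right₀ (by linarith) (by omega)
  rw [e1, hV]
  refine (mul_le_mul_of_nonneg_right hcard (by positivity)).trans ?_
  refine mul_le_mul_of_nonneg_left (add_le_add (le_of_eq ?_) e2) (by positivity)
  ring

end

end Pool.Agent.Lib.MP391708.TF1
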