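import Pool.Agent.Lib.MP_391708_nt.TF1.ESpecC
import Pool.Agent.Lib.MP_391708_nt.TA.LMJ
import Pool.Agent.Lib.MP_391708_nt.TA.ELM
import Pool.Agent.Lib.MP_391708_nt.TA.LLX
import Pool.Agent.Lib.MP_391708_nt.TF.Basic
import Pool.Agent.Lib.MP_391708_nt.T1.EUG

/-!
# Theorem T1a, module EUG: the general upper bound for the sums over `(D, x)`
-/

set_option autoImplicit false

namespace Pool.Agent.Lib.MP391708.TA

open Finset Filter Topology
open scoped Classical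
open T1 (F1 F2 wgt wgt0 Locm SQ)
open T1.EUG (wgt_loc A2_le sizes)
open T4 (Prm Good zz W0)
open TF (PP sm Adm S1 S2 vh kp kpU S0 Aa aa)
open TF.Bs (mem_PP)

noncomputable section

variable [Aa]

namespace EUG

omit [Aa] in
lemma chz_prod {a : ℤ} (s : Finset ℕ) (h : ∀ l ∈ s, chz a l = 1) : chz a (∏ l ∈ s, l) = 1 := by
  induction s using Finset.induction_on with
  | empty => rw [prod_empty, chz_one]
  | insert x s hx ih =>
    rw [prod_insert hx, chz_mul, h x (mem_insert_self _ _), one_mul]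
    exact ih fun l hl => h l (mem_insert_of_mem hl)

omit [Aa] in
lemma chz_sqf {a : ℤ} {n : ℕ} (hn : Squarefree n)
    (h : ∀ l : ℕ, l.Prime → l ∣ n → chz a l = 1) : chz a n = 1 := by
  rw [← Nat.prod_primeFactors_of_squarefree hn]
  exact chz_prod _ fun l hl => h l (Nat.prime_of_mem_primeFactors hl)
    (Nat.dvd_of_mem_primeFactors hl)

/-- the sizes of the data -/
lemma tU_ok {p : Prm} {M G P n' ρ n m κ : ℕ} (h4 : 4 * aa ∣ W0 p) (hW : 0 < W0 p)
    (hn' : 0 < n') (hρ : n'.Coprime ρ) (hn : 0 < n) (hn4 : chz aa n = 1) (hm : m = 1 ∨ m.Prime)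
    (hnm : ∀ l : ℕ, l.Prime → l ∣ n * m → l ∣ n') (hG : 0 < G) (hG4 : chz aa G = 1)
    (hWn : (W0 p).Coprime n') (hWG : (W0 p).Coprime G) (hnG : n'.Coprime G) (hM : 0 < M)
    (hP : 0 < P) : (tU p M G P n' ρ n m κ).Ok aa := by
  refine ⟨hW, by rw [Int.natAbs_natCast]; exact h4, hn', hρ, hn, hn4, hm, hnm, hG, hG4, hWn, hWG,
    hnG, ?_, ?_, ?_⟩
  · show (M - 1) / (3 * P) ≤ 10 * M / P
    calc (M - 1) / (3 * P) ≤ M / P := by
          apply Nat.div_le_div (by omega) (by omega) (by omega)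
      _ ≤ 10 * M / P := Nat.div_le_div_right (by omega)
  · show 0 ≤ LU M G P
    unfold LU
    positivity
  · intro D h1 h2
    change D ≤ 10 * M / P at h2
    show 0 ≤ ⌊(D : ℝ) * LU M G P / n⌋₊ ∧ ⌊(D : ℝ) * LU M G P / n⌋₊ ≤ 3000 * G ∧
      |((⌊(D : ℝ) * LU M G P / n⌋₊ : ℕ) : ℝ) - ((0 : ℕ) : ℝ) - D * LU M G P / n| ≤ 1
    have hMr : (0 : ℝ) < M := by exact_mod_cast hM
    have hPr : (0 : ℝ) < P := by exact_mod_cast hP
    have hnr : (1 : ℝ) ≤ n := by exact_mod_cast hn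
    have hL : 0 ≤ LU M G P := by unfold LU; positivity
    have hD : (D : ℝ) * P ≤ 10 * M := by
      have := (Nat.le_div_iff_mul_le hP).1 h2
      exact_mod_cast this
    have h3 : 0 ≤ (D : ℝ) * LU M G P / n := by positivity
    refine ⟨Nat.zero_le _, ?_, ?_⟩
    · have h4 : (D : ℝ) * LU M G P / n ≤ ((3000 * G : ℕ) : ℝ) := by
        refine (div_le_self (by positivity) hnr).trans ?_
        unfold LU
        have e : (D : ℝ) * (300 * G * P / M) = (D * P) * (300 * G / M) := by ring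
        rw [e]
        calc (D : ℝ) * P * (300 * G / M) ≤ 10 * M * (300 * G / M) :=
              mul_le_mul_of_nonneg_right hD (by positivity)
          _ = ((3000 * G : ℕ) : ℝ) := by push_cast; field_simp; ring
      exact_mod_cast (Nat.floor_le_floor h4).trans (by rw [Nat.floor_natCast])
    · have h4 := Nat.floor_le h3
      have h5 := Nat.lt_floor_add_one ((D : ℝ) * LU M G P / n)
      rw [Nat.cast_zero, sub_zero, abs_le]
      constructor <;> linarith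

/-- the main term -/
lemma tU_main_le {p : Prm} {M G P n' ρ n m κ : ℕ} (hL : 0 ≤ LL aa) (hd : 0 ≤ dm aa m κ)
    (hM : 0 < M) (hP : 0 < P) :
    (tU p M G P n' ρ n m κ).main aa ≤
      6000 * LL aa * (G / ((W0 p : ℝ) ^ 2 * n' * n)) * dm aa m κ := by
  have hMr : (0 : ℝ) < M := by exact_mod_cast hM
  have hPr : (0 : ℝ) < P := by exact_mod_cast hP
  have hpr : ∏ l ∈ G.primeFactors, (1 - 1 / (l : ℝ)) ≤ 1 := by
    refine prod_le_one (fun l hl => ?_) fun l hl => ?_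
    · have : (1 : ℝ) ≤ l := by exact_mod_cast (Nat.prime_of_mem_primeFactors hl).one_lt.le
      rw [sub_nonneg, div_le_one (by linarith)]
      exact this
    · have : 0 ≤ 1 / (l : ℝ) := by positivity
      linarith
  have hAL : (((10 * M / P : ℕ) : ℝ) - (((M - 1) / (3 * P) : ℕ) : ℝ)) * LU M G P ≤ 3000 * G := by
    have h1 := A2_le (M := M) hP
    have h2 : (0 : ℝ) ≤ (((M - 1) / (3 * P) : ℕ) : ℝ) := Nat.cast_nonneg _
    have hL : 0 ≤ LU M G P := by unfold LU; positivity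
    calc _ ≤ 10 * ((M : ℝ) / P) * LU M G P := mul_le_mul_of_nonneg_right (by linarith) hL
      _ = 3000 * G := by unfold LU; field_simp; ring
  show 2 * LL aa * (((10 * M / P : ℕ) : ℝ) - (((M - 1) / (3 * P) : ℕ) : ℝ)) * LU M G P /
      ((W0 p : ℝ) ^ 2 * n' * n) * dm aa m κ * ∏ l ∈ G.primeFactors, (1 - 1 / (l : ℝ)) ≤ _
  have hAL0 : 0 ≤ (((10 * M / P : ℕ) : ℝ) - (((M - 1) / (3 * P) : ℕ) : ℝ)) * LU M G P := by
    apply mul_nonneg
    · rw [sub_nonneg]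
      have : (M - 1) / (3 * P) ≤ 10 * M / P := by
        calc (M - 1) / (3 * P) ≤ M / P := Nat.div_le_div (by omega) (by omega) (by omega)
          _ ≤ 10 * M / P := Nat.div_le_div_right (by omega)
      exact_mod_cast this
    · unfold LU; positivity
  have e : 2 * LL aa * (((10 * M / P : ℕ) : ℝ) - (((M - 1) / (3 * P) : ℕ) : ℝ)) * LU M G P /
      ((W0 p : ℝ) ^ 2 * n' * n) * dm aa m κ = 2 * LL aa * dm aa m κ /
      ((W0 p : ℝ) ^ 2 * n' * n) *
      ((((10 * M / P : ℕ) : ℝ) - (((M - 1) / (3 * P) : ℕ) : ℝ)) * LU M G P) := by ring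
  rw [e]
  have h0 : 0 ≤ 2 * LL aa * dm aa m κ / ((W0 p : ℝ) ^ 2 * n' * n) :=
    div_nonneg (mul_nonneg (mul_nonneg (by norm_num) hL) hd) (by positivity)
  calc _ ≤ 2 * LL aa * dm aa m κ / ((W0 p : ℝ) ^ 2 * n' * n) *
      ((((10 * M / P : ℕ) : ℝ) - (((M - 1) / (3 * P) : ℕ) : ℝ)) * LU M G P) * 1 :=
        mul_le_mul_of_nonneg_left hpr (mul_nonneg h0 hAL0)
    _ ≤ 2 * LL aa * dm aa m κ / ((W0 p : ℝ) ^ 2 * n' * n) * (3000 * G) := by
        rw [mul_one]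
        exact mul_le_mul_of_nonneg_left hAL h0
    _ = _ := by ring

omit [Aa] in
/-- the error term -/
lemma tU_err_le {p : Prm} {M G P n' ρ n m κ : ℕ} (hM : 0 < M) (hP : 0 < P) :
    (tU p M G P n' ρ n m κ).err ≤
      W0 p * m * (600 * ((M : ℝ) / P * Real.sqrt G + ((M : ℝ) / P) ^ 2 + G * P / M)) := by
  have hMr : (0 : ℝ) < M := by exact_mod_cast hM
  have hPr : (0 : ℝ) < P := by exact_mod_cast hP
  show (W0 p : ℝ) * m * (((10 * M / P : ℕ) : ℝ) * Real.sqrt ((3000 * G : ℕ) : ℝ) +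
    ((10 * M / P : ℕ) : ℝ) ^ 2 + LU M G P) ≤ _
  apply mul_le_mul_of_nonneg_left _ (by positivity)
  have h1 := A2_le (M := M) hP
  have h0 : (0 : ℝ) ≤ ((10 * M / P : ℕ) : ℝ) := Nat.cast_nonneg _
  have h2 : Real.sqrt ((3000 * G : ℕ) : ℝ) ≤ 60 * Real.sqrt G := by
    rw [Real.sqrt_le_left (by positivity), mul_pow, Real.sq_sqrt (Nat.cast_nonneg _)]
    push_cast
    have : (0 : ℝ) ≤ G := Nat.cast_nonneg _
    nlinarith
  have h3 : ((10 * M / P : ℕ) : ℝ) * Real.sqrt ((3000 * G : ℕ) : ℝ) ≤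
      10 * ((M : ℝ) / P) * (60 * Real.sqrt G) :=
    mul_le_mul h1 h2 (Real.sqrt_nonneg _) (by positivity)
  have h4 : ((10 * M / P : ℕ) : ℝ) ^ 2 ≤ (10 * ((M : ℝ) / P)) ^ 2 := pow_le_pow_left₀ h0 h1 2
  have h5 : LU M G P = 300 * (G * P / M) := by unfold LU; ring
  have h6 : 0 ≤ ((M : ℝ) / P) ^ 2 := by positivity
  have h7 : 0 ≤ (G : ℝ) * P / M := by positivity
  rw [h5]
  nlinarith

end EUG

open EUG in
/-- **EUG** -/
theorem specEUG (h2 : SpecE2g) (hr : TF1.SpecERR) : SpecEUG := by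
  have hane : (aa : ℤ) ≠ 0 := TF.Bs.aa_pos_int.ne'
  have hLL : 0 < LL aa := (specLLX (aa : ℤ) hane TF.Bs.nsq_chz).1
  have hj := specLMJ
  have hE := specELM
  obtain ⟨C₀, hC₀, H⟩ := h2 aa hane TF.Bs.nsq_chz 10
  refine ⟨(1 + C₀) * (6000 * LL aa), by positivity, ?_⟩
  refine T4.Good.mono (hr (fun K => 100 * K + 200)) fun p hp => ?_
  obtain ⟨hζ, hE0, hK, h4, hpr, hev⟩ := hp
  obtain ⟨C, hC, H⟩ := H (p.ζ / 3) 0 (by positivity)
  have hzt : Tendsto (fun N : ℕ => zz p N) atTop atTop :=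
    (tendsto_rpow_atTop hζ).comp tendsto_natCast_atTop_atTop
  filter_upwards [hev, hzt.eventually_ge_atTop (C + 600 * W0 p + 2), eventually_ge_atTop (W0 p),
    eventually_ge_atTop 300000, eventually_ge_atTop 1] with N hN hzC hNW hN3 hN1
  obtain ⟨hz2, hzN, hN⟩ := hN
  intro M G P Q s bT bR n n' ρ m κ S j ψ hadm hs hT0 hT1 hR0 hR1 hn hnn' hn'0 hn'le hn' hρ hm hmz
    hmn' hScard hS
  obtain ⟨hM, hG, hP, hQ, hG4, hMPN, hGN, hzP, hzG, herr⟩ := hN M G P Q hadm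
  set z := zz p N with hz
  have hz0 : (0 : ℝ) < z := by linarith
  have hz1 : (1 : ℝ) ≤ z := by linarith
  have hN1' : (1 : ℝ) ≤ N := by exact_mod_cast hN1
  have hN0 : (0 : ℝ) < N := by linarith
  have hN3' : (300000 : ℝ) ≤ N := by exact_mod_cast hN3
  have hMr : (0 : ℝ) < M := by exact_mod_cast hM
  have hPr : (0 : ℝ) < P := by exact_mod_cast hP
  have hGr : (0 : ℝ) < G := by exact_mod_cast hG
  have hE0' : (1000 : ℝ) ≤ p.E := by exact_mod_cast hE0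
  -- facts on `n`
  unfold SQ at hn
  rw [mem_filter, mem_Icc] at hn
  obtain ⟨⟨hn1, hn2⟩, hnsq, hnP⟩ := hn
  have hn4 : chz aa n = 1 := chz_sqf hnsq fun l hl hln => (mem_PP.1 (hnP l hl hln)).2.2.1
  have hnr : (n : ℝ) ≤ z ^ (4 * p.K) := by
    refine (Nat.cast_le.2 hn2).trans (Nat.floor_le (by positivity)) |>.trans ?_
    exact le_of_eq (by norm_cast)
  have hWpos : 0 < W0 p := Nat.pos_of_ne_zero fun h => by
    have h5 : ∃ l : ℕ, l.Prime ∧ p.E < l := by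
      obtain ⟨l, hl1, hl2⟩ := Nat.exists_infinite_primes (p.E + 1)
      exact ⟨l, hl2, by omega⟩
    obtain ⟨l, hl1, hl2⟩ := h5
    have h6 := (hpr l hl1).2 (by rw [h]; exact dvd_zero l)
    omega
  have hPW : ∀ l ∈ PP p N, ¬ l ∣ W0 p := by
    intro l hl h
    obtain ⟨_, h5, _, h6⟩ := mem_PP.1 hl
    have := (hpr l h5).2 h
    omega
  have hWn' : (W0 p).Coprime n' := by
    rw [Nat.coprime_iff_gcd_eq_one]
    by_contra hne
    obtain ⟨l, hl, h1⟩ := Nat.exists_prime_and_dvd hne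
    exact hPW l (hn' l hl (h1.trans (Nat.gcd_dvd_right _ _))).1 (h1.trans (Nat.gcd_dvd_left _ _))
  have hn'G : n'.Coprime G := by
    rw [Nat.coprime_iff_gcd_eq_one]
    by_contra hne
    obtain ⟨l, hl, h1⟩ := Nat.exists_prime_and_dvd hne
    exact (hn' l hl (h1.trans (Nat.gcd_dvd_left _ _))).2 (h1.trans (Nat.gcd_dvd_right _ _))
  have hWG : (W0 p).Coprime G := hadm.2.2.2.1.symm
  have hok : (tU p M G P n' ρ n m κ).Ok aa := tU_ok h4 hWpos hn'0 hρ (by omega) hn4 hm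
    (fun l hl h => (hl.dvd_mul.1 h).elim (fun h' => h'.trans hnn') (fun h' => hmn' l hl h'))
    hG hG4 hWn' hWG hn'G hM hP
  -- the primes
  set Pr := (PP p N).filter (fun l : ℕ => ¬ l ∣ n' ∧ ¬ (l : ℤ) ∣ (M : ℤ) ^ 2 + aa ∧ l ∉ S) with hPr'
  have hrel : (G : ℤ) * P * Q = (s * M) ^ 2 + aa := by
    have h1 : (G : ℤ) * P * Q = (M : ℤ) ^ 2 + aa := by exact_mod_cast hadm.1
    rcases hs with rfl | rfl
    · rw [h1]; ring
    · rw [h1]; ring
  have hrel2 : (s * (M : ℤ)) ^ 2 + aa = (M : ℤ) ^ 2 + aa := by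
    rcases hs with rfl | rfl <;> ring
  have hnln : ∀ l, ¬ l ∣ n' → ¬ l ∣ n := fun l h h' => h (h'.trans hnn')
  set ψ' : ℕ → ℤ → ℤ → ℝ := fun l => if l ∈ S then ψ l else wgt l (s * M) G P Q bT bR with hψ'
  have hψS : ∀ l ∈ S, ψ' l = ψ l := fun l hl => by simp only [hψ']; rw [if_pos hl]
  have hψP : ∀ l ∈ Pr, ψ' l = wgt l (s * M) G P Q bT bR := fun l hl => by
    simp only [hψ']; rw [if_neg (mem_filter.1 hl).2.2.2]
  have hSc : ∀ l ∈ S, l.Prime ∧ ¬ l ∣ W0 p * n' ∧ 1 ≤ j l ∧ Locm (l ^ j l) (ψ' l) := by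
    intro l hl
    obtain ⟨h1, h3, h5, _, h6⟩ := hS l hl
    have hlp := (mem_PP.1 h1).2.1
    refine ⟨hlp, ?_, h5, by rw [hψS l hl]; exact h6⟩
    intro h
    rcases hlp.dvd_mul.1 h with h | h
    · exact hPW l h1 h
    · exact h3 h
  have hmean : ∀ l ∈ Pr, 0 ≤ 1 - lm aa l G (wgt l (s * M) G P Q bT bR) ∧
      1 - lm aa l G (wgt l (s * M) G P Q bT bR) ≤ 10 / (l : ℝ) ∧
      1 - lm aa l G (wgt l (s * M) G P Q bT bR) ≤ 2 / 3 := by
    intro l hl
    obtain ⟨h1, h3, h5, h6⟩ := mem_filter.1 hl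
    obtain ⟨_, hlp, hl4, hlE⟩ := mem_PP.1 h1
    have hlr : (1000 : ℝ) ≤ l := by
      have : 1000 ≤ l := by omega
      exact_mod_cast this
    have hla : ¬ (l : ℤ) ∣ (aa : ℤ) := by
      rw [Int.natCast_dvd_natCast]
      exact TF.Bs.not_dvd_aa_of_spl hlp hl4
    obtain ⟨_, h7, _⟩ := hE aa l (s * M) G P Q bT bR hlp (by omega) hla hrel hT0 hT1 hR0 hR1
    have h8 := abs_le.1 (h7 (by rw [hrel2]; exact h5) hl4)
    have h9 : 100 / (l : ℝ) ^ 2 ≤ 1 / (l : ℝ) := by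
      rw [div_le_div_iff₀ (by positivity) (by positivity)]
      nlinarith
    have h10 : (6 - 2 * bT - 2 * bR) / (l : ℝ) ≤ 6 / (l : ℝ) :=
      div_le_div_of_nonneg_right (by linarith) (by linarith)
    have h11 : 2 / (l : ℝ) ≤ (6 - 2 * bT - 2 * bR) / (l : ℝ) :=
      div_le_div_of_nonneg_right (by linarith) (by linarith)
    have h12 : 6 / (l : ℝ) + 1 / l = 7 / l := by ring
    have h13 : 7 / (l : ℝ) ≤ 10 / l := div_le_div_of_nonneg_right (by norm_num) (by linarith)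
    have h14 : 10 / (l : ℝ) ≤ 2 / 3 := by
      rw [div_le_div_iff₀ (by linarith) (by norm_num)]
      linarith
    have h15 : 1 / (l : ℝ) ≤ 2 / l := div_le_div_of_nonneg_right (by norm_num) (by linarith)
    refine ⟨by linarith [h8.1], by linarith [h8.2], by linarith [h8.2]⟩
  have hPc : ∀ l ∈ Pr, l.Prime ∧ (l : ℝ) < z ∧ ¬ l ∣ W0 p * n' ∧ l ∉ S ∧ Locm l (ψ' l) ∧
      1 - lm aa l G (ψ' l) ≤ (10 : ℕ) / (l : ℝ) ∧ 1 - lm aa l G (ψ' l) ≤ 2 / 3 := by
    intro l hl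
    obtain ⟨h1, h3, h5, h6⟩ := mem_filter.1 hl
    obtain ⟨hlz, hlp, hl4, hlE⟩ := mem_PP.1 h1
    rw [hψP l hl]
    refine ⟨hlp, hlz, ?_, h6, wgt_loc l _ G P Q hT0 hT1 hR0 hR1, ?_, (hmean l hl).2.2⟩
    · intro h
      rcases hlp.dvd_mul.1 h with h | h
      · exact hPW l h1 h
      · exact h3 h
    · exact_mod_cast (hmean l hl).2.1
  -- the size of the special modulus
  have hQS : ((∏ l ∈ S, l ^ j l : ℕ) : ℝ) ≤ z ^ 2 := by
    rcases Nat.eq_zero_or_pos S.card with h | h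
    · rw [card_eq_zero.1 h, prod_empty, Nat.cast_one]
      exact one_le_pow₀ hz1
    · obtain ⟨l, hl⟩ := card_eq_one.1 (le_antisymm hScard h)
      have hlS : l ∈ S := by rw [hl]; exact mem_singleton_self l
      obtain ⟨h1, _, _, h5, _⟩ := hS l hlS
      rw [hl, prod_singleton]
      push_cast
      have hlz := (mem_PP.1 h1).1
      have hl1 : (1 : ℝ) ≤ l := by exact_mod_cast (mem_PP.1 h1).2.1.one_lt.le
      calc (l : ℝ) ^ j l ≤ (l : ℝ) ^ 2 := pow_le_pow_right₀ hl1 h5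
        _ ≤ z ^ 2 := pow_le_pow_left₀ (by linarith) hlz.le 2
  have hQS0 : (0 : ℝ) ≤ ((∏ l ∈ S, l ^ j l : ℕ) : ℝ) := Nat.cast_nonneg _
  -- the sizes
  have hNcube : (N : ℝ) ≤ (N : ℝ) ^ 3 := by
    calc (N : ℝ) = (N : ℝ) ^ 1 := (pow_one _).symm
      _ ≤ (N : ℝ) ^ 3 := pow_le_pow_right₀ hN1' (by norm_num)
  have hzK : ∀ i : ℕ, i ≤ 100 * p.K + 200 → z ^ i ≤ (N : ℝ) := fun i hi =>
    (pow_le_pow_right₀ hz1 hi).trans hzN
  have hle : (tU p M G P n' ρ n m κ).Le ((N : ℝ) ^ 3) := by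
    refine ⟨?_, ?_, ?_, ?_, ?_, ?_, ?_⟩
    · exact (by exact_mod_cast hNW : (W0 p : ℝ) ≤ N).trans hNcube
    · exact (hn'le.trans (hzK _ (by omega))).trans hNcube
    · exact (hnr.trans (hzK _ (by omega))).trans hNcube
    · exact (hmz.trans ((by simpa using hzK 1 (by omega)) : z ≤ N)).trans hNcube
    · exact (sizes hN3' hGN hMPN).1
    · exact (A2_le hP).trans (sizes hN3' hGN hMPN).2.1
    · show ((3000 * G : ℕ) : ℝ) ≤ (N : ℝ) ^ 3
      push_cast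
      exact (sizes hN3' hGN hMPN).2.2
  have hmain := H (tU p M G P n' ρ n m κ) ((N : ℝ) ^ 3) z S Pr j ψ' hok hz2 (by
    calc z ^ (8 * 0 + 16) * ((∏ l ∈ S, l ^ j l : ℕ) : ℝ) ≤ z ^ (8 * 0 + 16) * z ^ 2 :=
          mul_le_mul_of_nonneg_left hQS (by positivity)
      _ = z ^ 18 := by ring
      _ ≤ N := hzK 18 (by omega)
      _ ≤ _ := hNcube) hle hSc hPc
  -- rewrite the functions
  have hprodS : ∀ D D₂ : ℤ, ∏ l ∈ S, ψ' l D D₂ = ∏ l ∈ S, ψ l D D₂ := fun D D₂ =>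
    prod_congr rfl fun l hl => by rw [hψS l hl]
  have hprodP : ∀ D D₂ : ℤ, ∏ l ∈ Pr, ψ' l D D₂ = ∏ l ∈ Pr, wgt l (s * M) G P Q bT bR D D₂ :=
    fun D D₂ => prod_congr rfl fun l hl => by rw [hψP l hl]
  have hmS : ∏ l ∈ S, lmj aa l (j l) G (ψ' l) = ∏ l ∈ S, lmj aa l (j l) G (ψ l) :=
    prod_congr rfl fun l hl => by rw [hψS l hl]
  have hmP : ∏ l ∈ Pr, lm aa l G (ψ' l) = ∏ l ∈ Pr, lm aa l G (wgt l (s * M) G P Q bT bR) :=
    prod_congr rfl fun l hl => by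
      obtain ⟨h1, h3, h5, h6⟩ := mem_filter.1 hl
      rw [hψP l hl]
  simp only [hprodS, hprodP] at hmain
  change |(tU p M G P n' ρ n m κ).S aa (fun D D₂ => (∏ l ∈ S, ψ l D D₂) *
      ∏ l ∈ Pr, wgt l (s * M) G P Q bT bR D D₂) - (tU p M G P n' ρ n m κ).main aa *
        (∏ l ∈ S, lmj aa l (j l) G (ψ' l)) * ∏ l ∈ Pr, lm aa l G (ψ' l)| ≤
      C₀ * Real.exp (-((0 : ℕ) : ℝ)) * ((tU p M G P n' ρ n m κ).main aa *
        (∏ l ∈ S, lmj aa l (j l) G (ψ' l)) * ∏ l ∈ Pr, lm aa l G (ψ' l)) + _ at hmain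
  rw [hmS, hmP] at hmain
  set XS := ∏ l ∈ S, lmj aa l (j l) G (ψ l) with hXS
  set XP := ∏ l ∈ Pr, lm aa l G (wgt l (s * M) G P Q bT bR) with hXP
  have hXP0 : 0 ≤ XP := by
    rw [← hmP]
    refine prod_nonneg fun l hl => ?_
    rw [hψP l hl]
    have := (hmean l hl).2.2
    linarith
  have hXS0 : 0 ≤ XS := by
    refine prod_nonneg fun l hl => ?_
    obtain ⟨h1, h3, h5, _, h6⟩ := hS l hl
    obtain ⟨hc1, _, _, hc4, _⟩ := hj aa l (j l) G (mem_PP.1 h1).2.1 h5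
    have h7 := hc4 (fun _ _ => 0) (ψ l) fun d e => (h6.1 d e).1
    rwa [hc1 0] at h7
  have hup := (abs_le.1 hmain).2
  have hdm : 0 ≤ dm aa m κ := by
    unfold dm
    split_ifs with hm1
    · norm_num
    · exact div_nonneg ((hj aa m 1 G (hm.resolve_left hm1) le_rfl).2.2.2.2.2.2.1 _).1
        (Nat.cast_nonneg _)
  have hmn : (tU p M G P n' ρ n m κ).main aa * XS * XP ≤
      6000 * LL aa * (G / ((W0 p : ℝ) ^ 2 * n' * n)) * dm aa m κ * XS * XP :=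
    mul_le_mul_of_nonneg_right (mul_le_mul_of_nonneg_right (tU_main_le hLL.le hdm hM hP) hXS0) hXP0
  have hexp : Real.exp (-((0 : ℕ) : ℝ)) = 1 := by simp
  rw [hexp, mul_one] at hup
  have hN3η : ((N : ℝ) ^ 3) ^ (p.ζ / 3) = z := by
    rw [← Real.rpow_natCast, ← Real.rpow_mul hN0.le, hz]
    unfold zz
    congr 1
    push_cast
    ring
  rw [hN3η] at hup
  -- the error term
  have herr' : C * z * z ^ (3 * (8 * 0 + 16) + 1) * ((∏ l ∈ S, l ^ j l : ℕ) : ℝ) ^ 2 *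
      (tU p M G P n' ρ n m κ).err ≤ G / z ^ (20 * p.K + 20) := by
    have h1 := tU_err_le (p := p) (n' := n') (ρ := ρ) (n := n) (m := m) (κ := κ) (G := G) hM hP
    have h0 : 0 ≤ (tU p M G P n' ρ n m κ).err := by
      show 0 ≤ (W0 p : ℝ) * m * (((10 * M / P : ℕ) : ℝ) * Real.sqrt ((3000 * G : ℕ) : ℝ) +
        ((10 * M / P : ℕ) : ℝ) ^ 2 + LU M G P)
      have : 0 ≤ LU M G P := by unfold LU; positivity
      positivity
    have h3 : W0 p * m * (600 * ((M : ℝ) / P * Real.sqrt G + ((M : ℝ) / P) ^ 2 + G * P / M)) ≤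
        z * z * (G / z ^ (100 * p.K + 200)) := by
      have h5 : (M : ℝ) / P * Real.sqrt G + ((M : ℝ) / P) ^ 2 + G * P / M ≤
          G / z ^ (100 * p.K + 200) := by
        rw [le_div_iff₀ (by positivity), mul_comm]
        exact herr
      have h6 : 0 ≤ (M : ℝ) / P * Real.sqrt G + ((M : ℝ) / P) ^ 2 + G * P / M := by positivity
      have h7 : 600 * (W0 p : ℝ) * m ≤ z * z :=
        mul_le_mul (by linarith) hmz (Nat.cast_nonneg _) hz0.le
      calc _ = 600 * (W0 p : ℝ) * m * ((M : ℝ) / P * Real.sqrt G + ((M : ℝ) / P) ^ 2 +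
            G * P / M) := by ring
        _ ≤ z * z * (G / z ^ (100 * p.K + 200)) := mul_le_mul h7 h5 h6 (by positivity)
    have h5 : ((∏ l ∈ S, l ^ j l : ℕ) : ℝ) ^ 2 ≤ (z ^ 2) ^ 2 := pow_le_pow_left₀ hQS0 hQS 2
    have h6 : C ≤ z := by
      have : (0 : ℝ) ≤ W0 p := Nat.cast_nonneg _
      linarith
    calc C * z * z ^ (3 * (8 * 0 + 16) + 1) * ((∏ l ∈ S, l ^ j l : ℕ) : ℝ) ^ 2 *
          (tU p M G P n' ρ n m κ).err ≤ z * z * z ^ (3 * (8 * 0 + 16) + 1) * (z ^ 2) ^ 2 *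
          (z * z * (G / z ^ (100 * p.K + 200))) := by
          refine mul_le_mul ?_ (h1.trans h3) h0 (by positivity)
          refine mul_le_mul ?_ h5 (by positivity) (by positivity)
          exact mul_le_mul_of_nonneg_right (mul_le_mul_of_nonneg_right h6 hz0.le) (by positivity)
      _ = z ^ 57 * (G / z ^ (100 * p.K + 200)) := by ring
      _ ≤ G / z ^ (20 * p.K + 20) := by
          rw [← mul_div_assoc, div_le_div_iff₀ (by positivity) (by positivity)]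
          have e : z ^ 57 * G * z ^ (20 * p.K + 20) = G * z ^ (20 * p.K + 77) := by ring
          rw [e]
          exact mul_le_mul_of_nonneg_left (pow_le_pow_right₀ hz1 (by omega)) hGr.le
  have hfin : (1 + C₀) * (6000 * LL aa) * (G / ((W0 p : ℝ) ^ 2 * n' * n)) * dm aa m κ * XS * XP =
      6000 * LL aa * (G / ((W0 p : ℝ) ^ 2 * n' * n)) * dm aa m κ * XS * XP +
      C₀ * (6000 * LL aa * (G / ((W0 p : ℝ) ^ 2 * n' * n)) * dm aa m κ * XS * XP) := by ring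
  have hmn2 := mul_le_mul_of_nonneg_left hmn hC₀.le
  rw [hfin]
  exact (sub_le_iff_le_add.1 hup).trans
    (le_of_le_of_eq (add_le_add (add_le_add hmn2 herr') hmn) (by ring))

end

end Pool.Agent.Lib.MP391708.TA
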