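import Pool.Agent.Lib.MP_391708_nt.TF1.ESpecC
import Pool.Agent.Lib.MP_391708_nt.TA.A3An
import Pool.Agent.Lib.MP_391708_nt.T1.EVS

/-!
# Theorem T1a, module EVS: bridges, the product over the sieving primes, the size of the errors
-/

set_option autoImplicit false

namespace Pool.Agent.Lib.MP391708.TF1

open Finset Filter Topology
open scoped Classical
open TF (Aa aa spl Prm Good zz W0 PP Adm S0 Y1 Y2 Y3 Y4)
open T1.EVS (sum_inv_sq_le prod_bounds prod_ge log_pow_le zz_tendsto zz_large zpow_le_N)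

variable [Aa]

lemma aa_pos : 0 < aa := Aa.ha

lemma aa_ne : (aa : ℤ) ≠ 0 := by
  have := aa_pos
  omega

lemma nsq_aa : TA.Nsq (aa : ℤ) := TA.nsq_of_pos (by have := aa_pos; omega)

namespace EVS

/-! ## Bridges -/

lemma mem_PP {p : Prm} {N l : ℕ} :
    l ∈ PP p N ↔ (l : ℝ) < zz p N ∧ l.Prime ∧ spl l ∧ p.E < l := by
  unfold PP
  rw [mem_filter, mem_range, Nat.lt_ceil]

theorem PPf_eq (p : Prm) (N : ℕ) : TA.A3.PPf (aa : ℤ) p.E (zz p N) = PP p N := by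
  ext l
  rw [mem_PP]
  unfold TA.A3.PPf spl
  rw [mem_filter, mem_range, Nat.lt_ceil]

theorem S0f_eq (p : Prm) (N : ℕ) : TA.A3.S0f (aa : ℤ) p.E (zz p N) = S0 p N := by
  unfold TA.A3.S0f S0
  rw [PPf_eq]

lemma S0_eq (p : Prm) (N : ℕ) : S0 p N = 2 * ∑ l ∈ PP p N, 1 / (l : ℝ) := by
  unfold S0
  rw [mul_sum]
  exact sum_congr rfl fun l _ => by ring

lemma S0_nonneg (p : Prm) (N : ℕ) : 0 ≤ S0 p N := sum_nonneg fun _ _ => by positivity

/-- a prime `> E ≥ 2a` is split or inert -/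
lemma spl_or {p : Prm} (hE : 2 * aa ≤ p.E) {l : ℕ} (hl : l.Prime) (h : p.E < l) :
    spl l ∨ TA.chz (aa : ℤ) l = -1 := by
  refine TA.chz_big aa_ne ?_ hl h
  rw [Int.natAbs_natCast]
  exact hE

/-- a prime `> 2a` dividing `M² + a` is split -/
lemma spl_of_dvd {l M : ℕ} (hl : l.Prime) (h2 : 2 * aa < l) (h : l ∣ M ^ 2 + aa) : spl l := by
  have ha := aa_pos
  refine (TA.chz_prime_one hl (by omega) ?_).2 ⟨M, by exact_mod_cast h⟩
  intro h3
  have h4 : l ∣ aa := by exact_mod_cast h3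
  have := Nat.le_of_dvd ha h4
  omega

/-- a number all of whose primes are split has `χ = 1` -/
lemma chz_one_of {n : ℕ} (hn : 0 < n) (h : ∀ l : ℕ, l.Prime → l ∣ n → spl l) :
    TA.chz (aa : ℤ) n = 1 := by
  induction n using induction_on_primes with
  | zero => omega
  | one => exact TA.chz_one _
  | prime_mul q b hq ih =>
    have hb : 0 < b := Nat.pos_of_ne_zero fun h0 => by simp [h0] at hn
    rw [TA.chz_mul, ih hb fun l hl hla => h l hl (hla.mul_left q), h q hq (dvd_mul_right q b),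
      one_mul]

/-! ## The product -/

/-- the product over the sieving primes, `0 ≤ c ≤ 6` -/
theorem prod_PP (p : Prm) (N : ℕ) (c : ℝ) (hE : 100 ≤ p.E) (h0 : 0 ≤ c) (h6 : c ≤ 6) :
    (1 - 40 / (p.E : ℝ)) * Real.exp (-(c / 2 * S0 p N)) ≤ ∏ l ∈ PP p N, (1 - c / (l : ℝ)) ∧
      ∏ l ∈ PP p N, (1 - c / (l : ℝ)) ≤ Real.exp (-(c / 2 * S0 p N)) := by
  have h1 : c / 2 * S0 p N = c * ∑ l ∈ PP p N, 1 / (l : ℝ) := by
    rw [S0_eq]
    ring
  rw [h1]
  have hP : ∀ l ∈ PP p N, p.E < l := fun l hl => (mem_PP.1 hl).2.2.2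
  exact ⟨prod_ge hE hP h0 h6, (prod_bounds (by omega) hP h0 h6).2⟩

/-- `exp S0 ≍ log z` -/
theorem exp_S0_le (p : Prm) (hζ : 0 < p.ζ) : ∃ C : ℝ, 0 < C ∧ ∀ᶠ N : ℕ in atTop,
    Real.exp (S0 p N) ≤ C * Real.log (zz p N) ∧ 1 < Real.log (zz p N) ∧
      Real.log (zz p N) ≤ C * Real.exp (S0 p N) := by
  obtain ⟨C, hC0, hC⟩ := TA.A3.exp_S0_le aa_ne nsq_aa p.E
  refine ⟨C, hC0, ?_⟩
  filter_upwards [(zz_tendsto hζ).eventually_ge_atTop 9] with N hN
  rw [← S0f_eq]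
  exact hC (zz p N) hN

/-- for every `c, C`: `C e^(c S0) ≤ z` -/
theorem exp_S0_small (p : Prm) (hζ : 0 < p.ζ) (c C' : ℝ) (hC' : 0 ≤ C') :
    ∀ᶠ N : ℕ in atTop, C' * Real.exp (c * S0 p N) ≤ zz p N := by
  obtain ⟨C, hC0, hC⟩ := exp_S0_le p hζ
  set n := ⌈|c|⌉₊ with hn
  filter_upwards [hC, (zz_tendsto hζ).eventually (log_pow_le (C' * C ^ n) n)] with N hN hz
  obtain ⟨h1, h2, -⟩ := hN
  have h3 : Real.exp (c * S0 p N) ≤ (C * Real.log (zz p N)) ^ n := by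
    calc Real.exp (c * S0 p N) ≤ Real.exp (n * S0 p N) := by
          refine Real.exp_le_exp.2 (mul_le_mul_of_nonneg_right ?_ (S0_nonneg p N))
          exact (le_abs_self c).trans (Nat.le_ceil _)
      _ = Real.exp (S0 p N) ^ n := Real.exp_nat_mul _ _
      _ ≤ (C * Real.log (zz p N)) ^ n := pow_le_pow_left₀ (Real.exp_pos _).le h1 n
  calc C' * Real.exp (c * S0 p N) ≤ C' * (C * Real.log (zz p N)) ^ n :=
        mul_le_mul_of_nonneg_left h3 hC'
    _ = C' * C ^ n * Real.log (zz p N) ^ n := by rw [mul_pow]; ring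
    _ ≤ zz p N := hz

/-! ## The error terms -/

/-- **ERR**: the error terms are small.  `A ≍ M/P` bounds `D`, `R ≍ G`, `L ≍ M/Q`. -/
theorem err_small (g : ℕ → ℕ → ℕ → ℕ) : Good (fun p => ∀ᶠ N : ℕ in atTop, ∀ M G P Q : ℕ,
    Adm p N M G P Q → ∀ A R L : ℝ, 0 ≤ A → A * P ≤ 10 * M → 0 ≤ R → R ≤ 100 * G → 0 ≤ L →
    L * Q * M ≤ 20 * ((M : ℝ) ^ 2 + aa) →
    zz p N ^ g p.E p.K p.r * (A * Real.sqrt R + A ^ 2 + L) ≤ G) := by
  refine ((((T4.Good.large_k (fun E K r => 2 * g E K r + 8 * K + 20)).and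
    (T4.Good.large_r (fun _ _ => 1))).and (zz_large (fun _ _ _ _ => 1000))).and
    T4.Good.zeta_pos).mono fun p hp => ?_
  obtain ⟨⟨⟨hk, hr⟩, hz⟩, hζ⟩ := hp
  filter_upwards [hz, eventually_ge_atTop 1] with N hz hN M G P Q hA A R L hA0 hAP hR0 hR hL0 hL
  obtain ⟨h1, h2, h3, h4, h5, h6, h7, h8, h9⟩ := hA
  set z := zz p N with hzdef
  set γ := g p.E p.K p.r with hγ
  have hz0 : 0 < z := by linarith
  have hz1 : 1 ≤ z := by linarith
  have hM0 : 0 < M := by omega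
  have hMr : (0 : ℝ) < M := by exact_mod_cast hM0
  have hprod : 0 < G * P * Q := by rw [h1]; positivity
  have hG0 : 0 < G := Nat.pos_of_ne_zero fun h => by simp [h] at hprod
  have hP0 : 0 < P := Nat.pos_of_ne_zero fun h => by simp [h] at hprod
  have hQ0 : 0 < Q := Nat.pos_of_ne_zero fun h => by simp [h] at hprod
  have hGr : (0 : ℝ) < G := by exact_mod_cast hG0
  have hPr : (0 : ℝ) < P := by exact_mod_cast hP0
  have hQr : (0 : ℝ) < Q := by exact_mod_cast hQ0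
  have hY1 : Y1 p N = z ^ p.k := rfl
  have hY2 : Y2 p N = z ^ (p.r * p.k) := rfl
  have hY3 : Y3 p N = z ^ (10 * p.r * p.k) := rfl
  -- `A ≤ z^(rk + 4K + 1)`
  have hAle : A ≤ z ^ (p.r * p.k + 4 * p.K + 1) := by
    have e1 : A * P ≤ 100 * (Y2 p N * z ^ (4 * p.K)) * P := by
      calc A * P ≤ 10 * M := hAP
        _ ≤ 10 * (10 * P * (Y2 p N * z ^ (4 * p.K))) := by linarith
        _ = 100 * (Y2 p N * z ^ (4 * p.K)) * P := by ring
    have e2 : A ≤ 100 * (Y2 p N * z ^ (4 * p.K)) := le_of_mul_le_mul_right e1 hPr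
    calc A ≤ 100 * (Y2 p N * z ^ (4 * p.K)) := e2
      _ ≤ z * (Y2 p N * z ^ (4 * p.K)) := by
          refine mul_le_mul_of_nonneg_right (by linarith) ?_
          rw [hY2]
          positivity
      _ = z ^ (p.r * p.k + 4 * p.K + 1) := by rw [hY2]; ring
  -- `z^(k + 10 r k - 1) ≤ G`
  have hGge : z ^ (p.k + 10 * (p.r * p.k)) ≤ z * G := by
    calc z ^ (p.k + 10 * (p.r * p.k)) = Y1 p N * Y3 p N := by rw [hY1, hY3]; ring
      _ ≤ 10 * G := h8
      _ ≤ z * G := mul_le_mul_of_nonneg_right (by linarith) hGr.le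
  have hrk : 1 * p.k ≤ p.r * p.k := Nat.mul_le_mul_right _ hr
  -- the three terms
  have hsq : (1000 * z ^ γ * z ^ (p.r * p.k + 4 * p.K + 1)) ^ 2 ≤ G := by
    have e1 : (1000 * z ^ γ * z ^ (p.r * p.k + 4 * p.K + 1)) ^ 2 * z ≤
        z ^ (p.k + 10 * (p.r * p.k) - 1) * z := by
      calc (1000 * z ^ γ * z ^ (p.r * p.k + 4 * p.K + 1)) ^ 2 * z
          ≤ (z * z ^ γ * z ^ (p.r * p.k + 4 * p.K + 1)) ^ 2 * z := by
            refine mul_le_mul_of_nonneg_right (pow_le_pow_left₀ (by positivity) ?_ 2) hz0.le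
            gcongr
        _ = z ^ (2 * γ + 2 * (p.r * p.k) + 8 * p.K + 5) := by ring
        _ ≤ z ^ (p.k + 10 * (p.r * p.k)) := pow_le_pow_right₀ hz1 (by omega)
        _ = z ^ (p.k + 10 * (p.r * p.k) - 1) * z := by
          rw [← pow_succ]
          congr 1
          omega
    have e2 : z ^ (p.k + 10 * (p.r * p.k) - 1) * z ≤ G * z := by
      rw [← pow_succ, show p.k + 10 * (p.r * p.k) - 1 + 1 = p.k + 10 * (p.r * p.k) by omega]
      linarith
    exact le_of_mul_le_mul_right (e1.trans e2) hz0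
  have hT1 : z ^ γ * (A * Real.sqrt R) ≤ G / 4 := by
    have e1 : Real.sqrt R ≤ 10 * Real.sqrt G := by
      calc Real.sqrt R ≤ Real.sqrt (100 * G) := Real.sqrt_le_sqrt hR
        _ = 10 * Real.sqrt G := by
          rw [Real.sqrt_mul (by norm_num), show (100 : ℝ) = 10 ^ 2 by norm_num,
            Real.sqrt_sq (by norm_num)]
    have e2 : 1000 * z ^ γ * z ^ (p.r * p.k + 4 * p.K + 1) ≤ Real.sqrt G :=
      Real.le_sqrt_of_sq_le hsq
    have e3 : Real.sqrt G * Real.sqrt G = G := Real.mul_self_sqrt hGr.le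
    calc z ^ γ * (A * Real.sqrt R) ≤
        z ^ γ * (z ^ (p.r * p.k + 4 * p.K + 1) * (10 * Real.sqrt G)) := by gcongr
      _ = (1000 * z ^ γ * z ^ (p.r * p.k + 4 * p.K + 1)) * Real.sqrt G / 100 := by ring
      _ ≤ Real.sqrt G * Real.sqrt G / 100 := by gcongr
      _ = G / 100 := by rw [e3]
      _ ≤ G / 4 := by linarith
  have hT2 : z ^ γ * A ^ 2 ≤ G / 4 := by
    calc z ^ γ * A ^ 2 ≤ z ^ γ * (z ^ (p.r * p.k + 4 * p.K + 1)) ^ 2 := by gcongr
      _ ≤ (1000 * z ^ γ * z ^ (p.r * p.k + 4 * p.K + 1)) ^ 2 / 4 := by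
        have e1 : 1 ≤ z ^ γ := one_le_pow₀ hz1
        have e2 : z ^ γ ≤ (z ^ γ) ^ 2 := by nlinarith
        have e3 : 0 ≤ (z ^ (p.r * p.k + 4 * p.K + 1)) ^ 2 := by positivity
        nlinarith [mul_le_mul_of_nonneg_right e2 e3,
          mul_nonneg (sq_nonneg (z ^ γ)) e3]
      _ ≤ G / 4 := by linarith
  have hT3 : z ^ γ * L ≤ G / 4 := by
    -- `L Q M ≤ 20 G P Q`
    have e0 : (G : ℝ) * P * Q = (M : ℝ) ^ 2 + aa := by exact_mod_cast h1
    have e1 : L * M * Q ≤ 20 * G * P * Q := by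
      calc L * M * Q = L * Q * M := by ring
        _ ≤ 20 * ((M : ℝ) ^ 2 + aa) := hL
        _ = 20 * G * P * Q := by rw [← e0]; ring
    have e2 : L * M ≤ 20 * G * P := le_of_mul_le_mul_right e1 hQr
    have e3 : L * M * Y1 p N ≤ 200 * G * M * z ^ (4 * p.K) := by
      calc L * M * Y1 p N ≤ 20 * G * P * Y1 p N := by
            refine mul_le_mul_of_nonneg_right e2 ?_
            rw [hY1]
            positivity
        _ = 20 * G * (P * Y1 p N) := by ring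
        _ ≤ 20 * G * (10 * M * z ^ (4 * p.K)) := by gcongr
        _ = 200 * G * M * z ^ (4 * p.K) := by ring
    have e4 : L * Y1 p N ≤ 200 * G * z ^ (4 * p.K) := by
      refine le_of_mul_le_mul_right ?_ hMr
      linarith
    have e5 : z ^ γ * L * z ^ p.k ≤ G / 4 * z ^ p.k := by
      calc z ^ γ * L * z ^ p.k = z ^ γ * (L * Y1 p N) := by rw [hY1]; ring
        _ ≤ z ^ γ * (200 * G * z ^ (4 * p.K)) := by gcongr
        _ = G / 4 * (800 * z ^ (γ + 4 * p.K)) := by ring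
        _ ≤ G / 4 * (z * z ^ (γ + 4 * p.K)) := by
            have : 0 ≤ z ^ (γ + 4 * p.K) := by positivity
            have : 800 * z ^ (γ + 4 * p.K) ≤ z * z ^ (γ + 4 * p.K) := by nlinarith
            exact mul_le_mul_of_nonneg_left this (by positivity)
        _ = G / 4 * z ^ (γ + 4 * p.K + 1) := by ring
        _ ≤ G / 4 * z ^ p.k := by
            refine mul_le_mul_of_nonneg_left (pow_le_pow_right₀ hz1 (by omega)) (by positivity)
    exact le_of_mul_le_mul_right e5 (by positivity)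
  calc z ^ γ * (A * Real.sqrt R + A ^ 2 + L)
      = z ^ γ * (A * Real.sqrt R) + z ^ γ * A ^ 2 + z ^ γ * L := by ring
    _ ≤ (G : ℝ) := by linarith

/-- all data are at most `N` -/
theorem size_le (g : ℕ → ℕ → ℕ → ℕ → ℕ) : Good (fun p => ∀ᶠ N : ℕ in atTop, ∀ M G P Q : ℕ,
    Adm p N M G P Q → ((W0 p : ℕ) : ℝ) ≤ N ∧ zz p N ^ g p.E p.K p.r p.k * (G : ℝ) ≤ N ∧
      ∀ A : ℝ, A * P ≤ 10 * M → zz p N ^ g p.E p.K p.r p.k * A ≤ N) := by
  refine (((zpow_le_N (fun E K r k => g E K r k + r * k + 10 * r ^ 2 * k + 4 * K + 1)).and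
    (zz_large (fun _ _ _ _ => 1000))).and (zz_large (fun _ _ _ _ => 1000))).mono fun p hp => ?_
  obtain ⟨⟨hN, hz⟩, -⟩ := hp
  have hW : ∀ᶠ N : ℕ in atTop, ((W0 p : ℕ) : ℝ) ≤ N :=
    tendsto_natCast_atTop_atTop.eventually_ge_atTop _
  filter_upwards [hN, hz, hW, eventually_ge_atTop 1] with N hN hz hW hN1 M G P Q hA
  obtain ⟨h1, h2, h3, h4, h5, h6, h7, h8, h9⟩ := hA
  set z := zz p N with hzdef
  set γ := g p.E p.K p.r p.k with hγ
  have hz0 : 0 < z := by linarith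
  have hz1 : 1 ≤ z := by linarith
  have hM0 : 0 < M := by omega
  have hprod : 0 < G * P * Q := by rw [h1]; positivity
  have hP0 : 0 < P := Nat.pos_of_ne_zero fun h => by simp [h] at hprod
  have hPr : (0 : ℝ) < P := by exact_mod_cast hP0
  refine ⟨hW, ?_, fun A hAP => ?_⟩
  · calc z ^ γ * (G : ℝ) ≤ z ^ γ * (10 * (Y2 p N * Y4 p N * z ^ (4 * p.K))) := by gcongr
      _ ≤ z ^ γ * (z * (Y2 p N * Y4 p N * z ^ (4 * p.K))) := by
          have : 0 ≤ Y2 p N * Y4 p N * z ^ (4 * p.K) := by unfold Y2 Y4; positivity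
          gcongr
          linarith
      _ = z ^ (γ + p.r * p.k + 10 * p.r ^ 2 * p.k + 4 * p.K + 1) := by unfold Y2 Y4; ring
      _ ≤ N := hN
  · have e1 : A * P ≤ 100 * (Y2 p N * z ^ (4 * p.K)) * P := by
      calc A * P ≤ 10 * M := hAP
        _ ≤ 10 * (10 * P * (Y2 p N * z ^ (4 * p.K))) := by linarith
        _ = 100 * (Y2 p N * z ^ (4 * p.K)) * P := by ring
    have e2 : A ≤ 100 * (Y2 p N * z ^ (4 * p.K)) := le_of_mul_le_mul_right e1 hPr
    have e3 : 0 ≤ Y2 p N * z ^ (4 * p.K) := by unfold Y2; positivity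
    calc z ^ γ * A ≤ z ^ γ * (z * (Y2 p N * z ^ (4 * p.K))) := by
          have : A ≤ z * (Y2 p N * z ^ (4 * p.K)) := by nlinarith
          gcongr
      _ = z ^ (γ + p.r * p.k + 4 * p.K + 1) := by unfold Y2; ring
      _ ≤ z ^ (γ + p.r * p.k + 10 * p.r ^ 2 * p.k + 4 * p.K + 1) :=
          pow_le_pow_right₀ hz1 (by omega)
      _ ≤ N := hN

end EVS

open EVS in
/-- **EVS** -/
theorem specEVS : SpecEVS := by
  refine ⟨fun p N c hE h0 h6 => ?_, fun c => T4.Good.zeta_pos.mono fun p hζ => ?_⟩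
  · rw [PPs_eq]
    exact prod_PP p N c hE h0 h6
  · exact exp_S0_small p hζ c _ (by positivity)

end Pool.Agent.Lib.MP391708.TF1
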