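import Pool.Agent.Lib.MP_391708_nt.TF1.FuA
import Pool.Agent.Lib.MP_391708_nt.TF1.FuS
import Pool.Agent.Lib.MP_391708_nt.TF.FSpecA
import Pool.Agent.Lib.MP_391708_nt.TF.BasF
import Pool.Agent.Lib.MP_391708_nt.T1.FuC
import Pool.Agent.Lib.MP_391708_nt.T4.BrA

/-!
# T1a, group F1, part C: the moments of `T_u T_v`

a-form of `T1/FuC.lean`, `T1/FuD.lean`.
-/

set_option autoImplicit false

namespace Pool.Agent.Lib.MP391708.TF

open Finset Filter Topology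
open Pool.Agent.Lib.MP391708.Eqd (V cross pairs res)
open Pool.Agent.Lib.MP391708.TF1 (iv iw nv nw)
open Pool.Agent.Lib.MP391708.T1 (EqR mn)
open Pool.Agent.Lib.MP391708.T4 (per_iff mean_eq)
open scoped Classical

export Pool.Agent.Lib.MP391708.T4 (zz_tendsto zz_pow card_le_of sum_succ prod_ratio)

variable [Aa] [Frm]

/-! ## The probability that a split prime divides a value of the form -/

omit [Aa] [Frm] in
/-- the zeros of a product of two independent linear forms over a finite field -/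
lemma card_split {k : Type*} [Field k] [Fintype k] (a₁ b₁ a₂ b₂ u : k)
    (hD : a₁ * b₂ - a₂ * b₁ ≠ 0) (hu : u ≠ 0) (F : k × k → k)
    (hF : ∀ v, u * F v = (a₁ * v.1 + b₁ * v.2) * (a₂ * v.1 + b₂ * v.2)) :
    (((univ : Finset (k × k)).filter (fun v => (v.1 ≠ 0 ∨ v.2 ≠ 0) ∧ F v = 0)).card : ℝ) =
      2 * ((Fintype.card k : ℝ) - 1) := by
  have h1 : ((univ : Finset (k × k)).filter (fun v => (v.1 ≠ 0 ∨ v.2 ≠ 0) ∧ F v = 0)).card =
      ((univ : Finset (k × k)).filter (fun v => (v.1 ≠ 0 ∨ v.2 ≠ 0) ∧ v.1 * v.2 = 0)).card := by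
    refine Finset.card_bij (fun v _ => (a₁ * v.1 + b₁ * v.2, a₂ * v.1 + b₂ * v.2)) ?_ ?_ ?_
    · intro v hv
      rw [Finset.mem_filter] at hv ⊢
      refine ⟨Finset.mem_univ _, ?_, ?_⟩
      · by_contra hc
        push Not at hc
        obtain ⟨h2, h3⟩ := hc
        simp only at h2 h3
        have h4 : (a₁ * b₂ - a₂ * b₁) * v.1 = 0 := by linear_combination b₂ * h2 - b₁ * h3
        have h5 : (a₁ * b₂ - a₂ * b₁) * v.2 = 0 := by linear_combination a₁ * h3 - a₂ * h2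
        rcases hv.2.1 with h6 | h6
        · exact (mul_ne_zero hD h6) h4
        · exact (mul_ne_zero hD h6) h5
      · simp only
        rw [← hF, hv.2.2, mul_zero]
    · intro v _ w _ h
      have h2 : a₁ * v.1 + b₁ * v.2 = a₁ * w.1 + b₁ * w.2 := (Prod.ext_iff.1 h).1
      have h3 : a₂ * v.1 + b₂ * v.2 = a₂ * w.1 + b₂ * w.2 := (Prod.ext_iff.1 h).2
      refine Prod.ext (mul_left_cancel₀ hD ?_) (mul_left_cancel₀ hD ?_)
      · linear_combination b₂ * h2 - b₁ * h3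
      · linear_combination a₁ * h3 - a₂ * h2
    · intro y hy
      rw [Finset.mem_filter] at hy
      refine ⟨((b₂ * y.1 - b₁ * y.2) / (a₁ * b₂ - a₂ * b₁),
        (a₁ * y.2 - a₂ * y.1) / (a₁ * b₂ - a₂ * b₁)), ?_, ?_⟩
      · have e1 : a₁ * ((b₂ * y.1 - b₁ * y.2) / (a₁ * b₂ - a₂ * b₁)) +
            b₁ * ((a₁ * y.2 - a₂ * y.1) / (a₁ * b₂ - a₂ * b₁)) = y.1 := by
          rw [mul_div_assoc', mul_div_assoc', ← add_div, div_eq_iff hD]; ring
        have e2 : a₂ * ((b₂ * y.1 - b₁ * y.2) / (a₁ * b₂ - a₂ * b₁)) +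
            b₂ * ((a₁ * y.2 - a₂ * y.1) / (a₁ * b₂ - a₂ * b₁)) = y.2 := by
          rw [mul_div_assoc', mul_div_assoc', ← add_div, div_eq_iff hD]; ring
        rw [Finset.mem_filter]
        refine ⟨Finset.mem_univ _, ?_, ?_⟩
        · by_contra hc
          push Not at hc
          obtain ⟨h2, h3⟩ := hc
          simp only at h2 h3
          rw [h2, h3] at e1 e2
          rcases hy.2.1 with h6 | h6
          · exact h6 (by rw [← e1]; ring)
          · exact h6 (by rw [← e2]; ring)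
        · have h2 := hF ((b₂ * y.1 - b₁ * y.2) / (a₁ * b₂ - a₂ * b₁),
            (a₁ * y.2 - a₂ * y.1) / (a₁ * b₂ - a₂ * b₁))
          simp only at h2
          rw [e1, e2, hy.2.2] at h2
          exact (mul_eq_zero.1 h2).resolve_left hu
      · refine Prod.ext ?_ ?_
        · simp only
          rw [mul_div_assoc', mul_div_assoc', ← add_div, div_eq_iff hD]; ring
        · simp only
          rw [mul_div_assoc', mul_div_assoc', ← add_div, div_eq_iff hD]; ring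
  have h2 : ((univ : Finset (k × k)).filter (fun v => (v.1 ≠ 0 ∨ v.2 ≠ 0) ∧ v.1 * v.2 = 0)) =
      (((univ : Finset k).erase 0).image (fun x => (x, (0 : k)))) ∪
        (((univ : Finset k).erase 0).image (fun x => ((0 : k), x))) := by
    ext v
    simp only [Finset.mem_filter, Finset.mem_univ, true_and, Finset.mem_union, Finset.mem_image,
      Finset.mem_erase, and_true, mul_eq_zero]
    constructor
    · rintro ⟨h2, h3 | h3⟩
      · right
        exact ⟨v.2, by tauto, Prod.ext h3.symm rfl⟩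
      · left
        exact ⟨v.1, by tauto, Prod.ext rfl h3.symm⟩
    · rintro (⟨x, hx, rfl⟩ | ⟨x, hx, rfl⟩)
      · exact ⟨Or.inl hx, Or.inr rfl⟩
      · exact ⟨Or.inr hx, Or.inl rfl⟩
  rw [h1, h2, Finset.card_union_of_disjoint, Finset.card_image_of_injective,
    Finset.card_image_of_injective, Finset.card_erase_of_mem (Finset.mem_univ _), Finset.card_univ]
  · have h3 : 1 ≤ Fintype.card k := Fintype.card_pos
    push_cast [Nat.cast_sub h3]
    ring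
  · intro x y h
    exact (Prod.ext_iff.1 h).2
  · intro x y h
    exact (Prod.ext_iff.1 h).1
  · rw [Finset.disjoint_left]
    intro v hv hv'
    rw [Finset.mem_image] at hv hv'
    obtain ⟨x, hx, rfl⟩ := hv
    obtain ⟨y, hy, h⟩ := hv'
    exact (Finset.mem_erase.1 hx).1 (Prod.ext_iff.1 h).1.symm

omit [Frm] in
/-- a split prime does not divide `2 a`, and `-a` is a square -/
lemma spl_sq {l : ℕ} (hl : l.Prime) (hs : spl l) :
    l ≠ 2 ∧ ¬ (l : ℤ) ∣ (aa : ℤ) ∧ ∃ i : ℤ, (l : ℤ) ∣ i ^ 2 + aa := by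
  have h1 : ¬ l ∣ 2 * (aa : ℤ).natAbs := by
    intro h
    have h2 := TA.chz_dvd hl h
    rw [show TA.chz (aa : ℤ) l = 1 from hs] at h2
    norm_num at h2
  rw [Int.natAbs_natCast] at h1
  have h2 : l ≠ 2 := fun h => h1 (by rw [h]; exact dvd_mul_right _ _)
  have h3 : ¬ (l : ℤ) ∣ (aa : ℤ) := fun h =>
    h1 ((Int.natCast_dvd_natCast.1 h).mul_left 2)
  exact ⟨h2, h3, (TA.chz_prime_one hl h2 h3).1 hs⟩

/-- primitive zeros of the form modulo a split prime -/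
lemma card_zeroF {q : ℕ} [Fact q.Prime] (hs : spl q) :
    (((univ : Finset (ZMod q × ZMod q)).filter (fun v => (v.1 ≠ 0 ∨ v.2 ≠ 0) ∧
      (Frm.A : ZMod q) * v.1 ^ 2 + 2 * (Frm.B : ZMod q) * v.1 * v.2 + (Frm.C : ZMod q) * v.2 ^ 2 = 0)).card : ℝ) =
      2 * ((q : ℝ) - 1) := by
  obtain ⟨h2, ha, i, hi⟩ := spl_sq (Fact.out : q.Prime) hs
  have hi' : (i : ZMod q) ^ 2 + ((aa : ℤ) : ZMod q) = 0 := by
    rw [← ZMod.intCast_zmod_eq_zero_iff_dvd] at hi
    push_cast at hi ⊢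
    exact hi
  have ha' : ((aa : ℤ) : ZMod q) ≠ 0 := by
    intro h
    exact ha ((ZMod.intCast_zmod_eq_zero_iff_dvd _ _).1 h)
  have hdet : (Frm.A : ZMod q) * (Frm.C : ZMod q) - (Frm.B : ZMod q) ^ 2 = ((aa : ℤ) : ZMod q) := by
    have := congrArg (fun n : ℤ => (n : ZMod q)) (Frm.det)
    push_cast at this ⊢
    exact this
  have hi0 : (i : ZMod q) ≠ 0 := by
    intro h
    rw [h] at hi'
    apply ha'
    linear_combination hi'
  have h20 : (2 : ZMod q) ≠ 0 := by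
    intro h
    have h3 : ((2 : ℕ) : ZMod q) = 0 := by exact_mod_cast h
    rw [ZMod.natCast_eq_zero_iff] at h3
    exact h2 ((Nat.prime_dvd_prime_iff_eq (Fact.out : q.Prime) Nat.prime_two).1 h3)
  by_cases hA : (Frm.A : ZMod q) = 0
  · have hB : (Frm.B : ZMod q) ≠ 0 := by
      intro h
      rw [hA, h] at hdet
      apply ha'
      linear_combination -hdet
    have h := card_split (0 : ZMod q) 1 (2 * (Frm.B : ZMod q)) (Frm.C : ZMod q) 1
      (by
        have : (2 * (Frm.B : ZMod q)) ≠ 0 := mul_ne_zero h20 hB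
        intro h
        apply this
        linear_combination -h) one_ne_zero
      (fun v => (Frm.A : ZMod q) * v.1 ^ 2 + 2 * (Frm.B : ZMod q) * v.1 * v.2 +
        (Frm.C : ZMod q) * v.2 ^ 2) (by
        intro v
        rw [hA]
        ring)
    rw [ZMod.card] at h
    convert h
  · have h := card_split (Frm.A : ZMod q) ((Frm.B : ZMod q) + i) (Frm.A : ZMod q)
      ((Frm.B : ZMod q) - i) (Frm.A : ZMod q)
      (by
        have : 2 * (Frm.A : ZMod q) * (i : ZMod q) ≠ 0 := mul_ne_zero (mul_ne_zero h20 hA) hi0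
        intro h
        apply this
        linear_combination -h) hA
      (fun v => (Frm.A : ZMod q) * v.1 ^ 2 + 2 * (Frm.B : ZMod q) * v.1 * v.2 +
        (Frm.C : ZMod q) * v.2 ^ 2) (by
        intro v
        linear_combination v.2 ^ 2 * hdet + v.2 ^ 2 * hi')
    rw [ZMod.card] at h
    convert h

lemma dvd_nsq_res {q : ℕ} (v : V) : (q : ℤ) ∣ nsq v ↔
    (Frm.A : ZMod q) * (v.1 : ZMod q) ^ 2 + 2 * (Frm.B : ZMod q) * (v.1 : ZMod q) * (v.2 : ZMod q) +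
      (Frm.C : ZMod q) * (v.2 : ZMod q) ^ 2 = 0 := by
  rw [← ZMod.intCast_zmod_eq_zero_iff_dvd]
  simp only [nsq]
  push_cast
  rfl

omit [Aa] [Frm] in
lemma prim_eq {q : ℕ} [Fact q.Prime] : T1.LocM.prim q =
    (univ : Finset (ZMod q × ZMod q)).filter (fun v => v.1 ≠ 0 ∨ v.2 ≠ 0) := by
  unfold T1.LocM.prim
  refine Finset.filter_congr fun v _ => ?_
  rw [isUnit_iff_ne_zero, isUnit_iff_ne_zero]

lemma mean_zeroF {l : ℕ} (hl : l.Prime) (hs : spl l) [NeZero (l ^ 1)] :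
    (∑ r ∈ T1.sl (l ^ 1), (if (Frm.A : ZMod (l ^ 1)) * r.1.1 ^ 2 + 2 * (Frm.B : ZMod (l ^ 1)) * r.1.1 * r.1.2 +
      (Frm.C : ZMod (l ^ 1)) * r.1.2 ^ 2 = 0 then (1 : ℝ) else 0)) / ((T1.sl (l ^ 1)).card : ℝ) =
      2 / ((l : ℝ) + 1) := by
  have hF : Fact (Nat.Prime (l ^ 1)) := ⟨by rw [pow_one]; exact hl⟩
  have h := T1.LocM.sum_sl_fst hl one_pos (fun v => if (Frm.A : ZMod (l ^ 1)) * v.1 ^ 2 +
    2 * (Frm.B : ZMod (l ^ 1)) * v.1 * v.2 + (Frm.C : ZMod (l ^ 1)) * v.2 ^ 2 = 0 then (1 : ℝ) else 0)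
  have hs' : spl (l ^ 1) := by rw [pow_one]; exact hs
  rw [h, T1.LocM.card_sl hl one_pos, ← Finset.sum_filter, Finset.sum_const, nsmul_eq_mul, mul_one,
    prim_eq, Finset.filter_filter, card_zeroF hs']
  have hl1 : (1 : ℝ) < l := by exact_mod_cast hl.one_lt
  have h1 : ((l : ℝ)) ^ 2 - 1 ≠ 0 := by nlinarith
  push_cast
  rw [pow_one]
  have e : (l : ℝ) ^ 3 * (1 - 1 / (l : ℝ) ^ 2) = l * ((l : ℝ) - 1) * (l + 1) := by
    have : (l : ℝ) ≠ 0 := by linarith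
    field_simp
    ring
  rw [e]
  have h2 : (l : ℝ) - 1 ≠ 0 := by linarith
  have h3 : (l : ℝ) ≠ 0 := by linarith
  have h4 : (l : ℝ) + 1 ≠ 0 := by linarith
  field_simp

/-- equidistribution over the critical window in the language of `T1` -/
def EqG : Prop :=
  ∃ c : ℝ, 0 < c ∧ ∀ᶠ N : ℕ in atTop, EqR (Gam N 1 3) ⌊(N : ℝ) ^ c⌋₊ ((N : ℝ) ^ (1 - c))

lemma mn_iv {l : ℕ} (hl : l.Prime) (hs : spl l) : mn l (iv l) = 2 / ((l : ℝ) + 1) := by
  have h0 : NeZero (l ^ 1) := ⟨pow_ne_zero _ hl.ne_zero⟩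
  have h := mean_zeroF hl hs
  have e : mn (l ^ 1) (iv (l ^ 1)) = 2 / ((l : ℝ) + 1) := by
    rw [← h, T1.mn_def]
    congr 1
    refine Finset.sum_congr rfl fun r _ => ?_
    unfold TF1.iv
    have h1 := T1.res_lift (l ^ 1) r
    have h2 : (((T1.lift (l ^ 1) r).1.1 : ℤ) : ZMod (l ^ 1)) = r.1.1 := congrArg (fun t => t.1.1) h1
    have h3 : (((T1.lift (l ^ 1) r).1.2 : ℤ) : ZMod (l ^ 1)) = r.1.2 := congrArg (fun t => t.1.2) h1
    refine if_congr ?_ rfl rfl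
    rw [dvd_nsq_res, h2, h3]
  rwa [pow_one] at e

lemma mn_iw {l : ℕ} (hl : l.Prime) (hs : spl l) : mn l (iw l) = 2 / ((l : ℝ) + 1) := by
  have h0 : NeZero (l ^ 1) := ⟨pow_ne_zero _ hl.ne_zero⟩
  have h := mean_zeroF hl hs
  have h5 := T1.LocM.sum_lin (q := l ^ 1) (s := 0) (t := 1) (Or.inr isUnit_one)
    (fun v => if (Frm.A : ZMod (l ^ 1)) * v.1 ^ 2 +
    2 * (Frm.B : ZMod (l ^ 1)) * v.1 * v.2 + (Frm.C : ZMod (l ^ 1)) * v.2 ^ 2 = 0 then (1 : ℝ) else 0)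
  simp only [zero_mul, one_mul, zero_add] at h5
  rw [← h5] at h
  have e : mn (l ^ 1) (iw (l ^ 1)) = 2 / ((l : ℝ) + 1) := by
    rw [← h, T1.mn_def]
    congr 1
    refine Finset.sum_congr rfl fun r _ => ?_
    unfold TF1.iw
    have h1 := T1.res_lift (l ^ 1) r
    have h2 : (((T1.lift (l ^ 1) r).2.1 : ℤ) : ZMod (l ^ 1)) = r.2.1 := congrArg (fun t => t.2.1) h1
    have h3 : (((T1.lift (l ^ 1) r).2.2 : ℤ) : ZMod (l ^ 1)) = r.2.2 := congrArg (fun t => t.2.2) h1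
    refine if_congr ?_ rfl rfl
    rw [dvd_nsq_res, h2, h3]
  rwa [pow_one] at e

omit [Frm] in
lemma mem_Uu {p : Prm} {N u : ℕ} :
    u ∈ Uu p N ↔ u.Prime ∧ spl u ∧ Y1 p N ≤ (u : ℝ) ∧ (u : ℝ) ≤ Y2 p N := by
  unfold Uu
  rw [mem_filter, mem_range]
  constructor
  · rintro ⟨-, h⟩; exact h
  · intro h
    exact ⟨Nat.lt_succ_of_le (Nat.le_floor h.2.2.2), h⟩

omit [Frm] in
lemma mem_Vv {p : Prm} {N u : ℕ} :
    u ∈ Vv p N ↔ u.Prime ∧ spl u ∧ Y3 p N ≤ (u : ℝ) ∧ (u : ℝ) ≤ Y4 p N := by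
  unfold Vv
  rw [mem_filter, mem_range]
  constructor
  · rintro ⟨-, h⟩; exact h
  · intro h
    exact ⟨Nat.lt_succ_of_le (Nat.le_floor h.2.2.2), h⟩

omit [Frm] in
lemma S1_le_Su {p : Prm} {N : ℕ} (h : 0 ≤ Y1 p N) : TF1.S1 (Y1 p N) (Y2 p N) ≤ Su p N := by
  unfold TF1.S1 Su
  refine Finset.sum_le_sum_of_subset_of_nonneg ?_ fun _ _ _ => by positivity
  intro l hl
  obtain ⟨h1, h2, h3, h4⟩ := (TF1.mem_P1 h).1 hl
  exact mem_Uu.2 ⟨h3, h4, h1.le, h2⟩

omit [Frm] in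
lemma S1_le_Sv {p : Prm} {N : ℕ} (h : 0 ≤ Y3 p N) : TF1.S1 (Y3 p N) (Y4 p N) ≤ Sv p N := by
  unfold TF1.S1 Sv
  refine Finset.sum_le_sum_of_subset_of_nonneg ?_ fun _ _ _ => by positivity
  intro l hl
  obtain ⟨h1, h2, h3, h4⟩ := (TF1.mem_P1 h).1 hl
  exact mem_Vv.2 ⟨h3, h4, h1.le, h2⟩

theorem tm_of_eq (hEq : EqG) (hC : SpecCNT) : SpecTM := by
  intro ε j hε
  obtain ⟨c, hc, hEq⟩ := hEq
  obtain ⟨-, c₁, hc₁, hCN⟩ := hC
  obtain ⟨C, hC0, hS1⟩ := TF1.S1_pow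
  -- choice of `L`
  have hlim : Tendsto (fun L : ℝ => (1 + (j : ℝ) / L) ^ (2 * j)) atTop (𝓝 1) := by
    have h1 : Tendsto (fun L : ℝ => 1 + (j : ℝ) / L) atTop (𝓝 (1 + 0)) :=
      tendsto_const_nhds.add (tendsto_const_nhds.div_atTop tendsto_id)
    have h2 := h1.pow (2 * j)
    simpa using h2
  obtain ⟨L, hL1, hLε, hLj⟩ : ∃ L : ℝ, 1 ≤ L ∧ 1 / ε ≤ L ∧
      (1 + (j : ℝ) / L) ^ (2 * j) ≤ 1 + ε / 2 := by
    have h1 := (hlim.eventually_le_const (show (1 : ℝ) < 1 + ε / 2 by linarith)).and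
      ((eventually_ge_atTop (1 : ℝ)).and (eventually_ge_atTop (1 / ε)))
    obtain ⟨L, h1, h2, h3⟩ := h1.exists
    exact ⟨L, h2, h3, h1⟩
  have hL0 : 0 < L := by linarith
  obtain ⟨r₀, hr₀⟩ := exists_nat_ge (Real.exp (L + C))
  have hgood := ((T4.Good.large_r (fun _ _ => r₀ + 1)).and (T4.Good.large_k (fun _ _ _ => 1))).and
    (T4.Good.zeta_pos.and (T4.Good.zeta_le (fun _ _ r k =>
      c / 2 / (((r * k + 10 * r ^ 2 * k) * (j + 1) + 1 : ℕ) : ℝ))
      (fun _ _ r k => by positivity)))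
  refine hgood.mono ?_
  rintro p ⟨⟨hr, hk⟩, hζ, hζ'⟩
  replace hr : r₀ + 1 ≤ p.r := hr
  replace hk : 1 ≤ p.k := hk
  have hr1 : 1 ≤ p.r := by omega
  have hrR : Real.exp (L + C) ≤ (p.r : ℝ) := by
    have : (r₀ : ℝ) ≤ (p.r : ℝ) := by exact_mod_cast (show r₀ ≤ p.r by omega)
    linarith
  have hlogr : L + C ≤ Real.log p.r := by
    rw [Real.le_log_iff_exp_le (lt_of_lt_of_le (Real.exp_pos _) hrR)]
    exact hrR
  -- large `N`
  have hz := zz_tendsto hζ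
  have hNc : Tendsto (fun N : ℕ => (N : ℝ) ^ (-(c / 2))) atTop (𝓝 0) :=
    (tendsto_rpow_neg_atTop (by positivity)).comp tendsto_natCast_atTop_atTop
  filter_upwards [hEq, hCN, hz.eventually_ge_atTop 3, hz.eventually_ge_atTop (8 / ε + 1),
    hNc.eventually_le_const (show 0 < ε * c₁ / 4 by positivity), eventually_ge_atTop 2]
    with N hEqN hCNN hz3 hzε hNcN hN2
  have hN0 : (0 : ℝ) < N := by positivity
  have hN1 : (1 : ℝ) ≤ N := by exact_mod_cast (show 1 ≤ N by omega)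
  have hz1 : 1 ≤ zz p N := by linarith
  have hz0 : 0 < zz p N := by linarith
  -- the sizes
  have hY1 : zz p N ≤ Y1 p N := by
    unfold Y1
    calc zz p N = zz p N ^ 1 := (pow_one _).symm
      _ ≤ zz p N ^ p.k := pow_le_pow_right₀ hz1 hk
  have hY1p : 0 < Y1 p N := by unfold Y1; positivity
  have hY2p : 0 < Y2 p N := by unfold Y2; positivity
  have hY3p : 0 < Y3 p N := by unfold Y3; positivity
  have hY4p : 0 < Y4 p N := by unfold Y4; positivity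
  have hrk : 1 ≤ p.r * p.k := Nat.mul_pos (by omega) (by omega)
  have hY23 : Y2 p N < Y3 p N := by
    unfold Y2 Y3
    refine pow_lt_pow_right₀ (by linarith) ?_
    nlinarith
  have hY3 : zz p N ≤ Y3 p N := by
    unfold Y3
    calc zz p N = zz p N ^ 1 := (pow_one _).symm
      _ ≤ _ := pow_le_pow_right₀ hz1 (by nlinarith)
  have hY24 : Y2 p N ≤ Y4 p N := by
    unfold Y2 Y4
    refine pow_le_pow_right₀ hz1 ?_
    nlinarith
  -- `Su`, `Sv`
  have hSu : L ≤ Su p N := by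
    have h1 := hS1 (zz p N) p.k ((p.r * p.k : ℕ) : ℝ) hz3 (by exact_mod_cast hk)
      (by exact_mod_cast Nat.le_mul_of_pos_left _ (by omega))
    rw [Real.rpow_natCast, Real.rpow_natCast] at h1
    have h2 : (((p.r * p.k : ℕ) : ℝ) / (p.k : ℝ)) = p.r := by
      have : (p.k : ℝ) ≠ 0 := by positivity
      push_cast
      field_simp
    rw [h2] at h1
    have h3 := (abs_le.1 h1).1
    have h4 : TF1.S1 (zz p N ^ p.k) (zz p N ^ (p.r * p.k)) ≤ Su p N := S1_le_Su hY1p.le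
    linarith
  have hSv : L ≤ Sv p N := by
    have h1 := hS1 (zz p N) ((10 * p.r * p.k : ℕ) : ℝ) ((10 * p.r ^ 2 * p.k : ℕ) : ℝ) hz3
      (by exact_mod_cast (show 1 ≤ 10 * p.r * p.k by nlinarith))
      (by exact_mod_cast (show 10 * p.r * p.k ≤ 10 * p.r ^ 2 * p.k by nlinarith))
    rw [Real.rpow_natCast, Real.rpow_natCast] at h1
    have h2 : (((10 * p.r ^ 2 * p.k : ℕ) : ℝ) / ((10 * p.r * p.k : ℕ) : ℝ)) = p.r := by
      have h3 : (p.k : ℝ) ≠ 0 := by positivity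
      have h4 : (p.r : ℝ) ≠ 0 := by positivity
      push_cast
      field_simp
    rw [h2] at h1
    have h3 := (abs_le.1 h1).1
    have h4 : TF1.S1 (zz p N ^ (10 * p.r * p.k)) (zz p N ^ (10 * p.r ^ 2 * p.k)) ≤ Sv p N :=
      S1_le_Sv hY3p.le
    linarith
  have hSu0 : 0 < Su p N := by linarith
  have hSv0 : 0 < Sv p N := by linarith
  -- hypotheses of `momk`
  have hU : ∀ u ∈ Uu p N, u.Prime ∧ u ≤ ⌊Y2 p N⌋₊ ∧ mn u (iv u) = 2 / ((u : ℝ) + 1) := by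
    intro u hu
    obtain ⟨h1, h2, h3, h4⟩ := mem_Uu.1 hu
    exact ⟨h1, Nat.le_floor h4, mn_iv h1 h2⟩
  have hV : ∀ u ∈ Vv p N, u.Prime ∧ u ≤ ⌊Y4 p N⌋₊ ∧ mn u (iw u) = 2 / ((u : ℝ) + 1) := by
    intro u hu
    obtain ⟨h1, h2, h3, h4⟩ := mem_Vv.1 hu
    exact ⟨h1, Nat.le_floor h4, mn_iw h1 h2⟩
  have hUV : Disjoint (Uu p N) (Vv p N) := by
    rw [Finset.disjoint_left]
    intro u hu hu'
    have h1 := (mem_Uu.1 hu).2.2.2
    have h2 := (mem_Vv.1 hu').2.2.1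
    linarith
  -- the product of the sizes
  have hsz : (Y2 p N) ^ (j + 1) * (Y4 p N) ^ (j + 1) ≤ (N : ℝ) ^ (c / 2) := by
    have e1 : (Y2 p N) ^ (j + 1) * (Y4 p N) ^ (j + 1) =
        zz p N ^ ((p.r * p.k + 10 * p.r ^ 2 * p.k) * (j + 1)) := by
      unfold Y2 Y4
      rw [← mul_pow, ← pow_add, ← pow_mul]
    rw [e1, zz_pow]
    refine Real.rpow_le_rpow_of_exponent_le hN1 ?_
    set m : ℕ := (p.r * p.k + 10 * p.r ^ 2 * p.k) * (j + 1) with hm
    have h2 : p.ζ * (m : ℝ) ≤ c / 2 / (((m + 1 : ℕ) : ℝ)) * (m : ℝ) :=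
      mul_le_mul_of_nonneg_right hζ' (Nat.cast_nonneg _)
    refine h2.trans ?_
    rw [div_mul_eq_mul_div, div_le_iff₀ (by positivity)]
    push_cast
    nlinarith
  have hY2one : 1 ≤ Y2 p N := by
    unfold Y2; exact one_le_pow₀ hz1
  have hY4one : 1 ≤ Y4 p N := by
    unfold Y4; exact one_le_pow₀ hz1
  have hBa : 1 ≤ ⌊Y2 p N⌋₊ := Nat.le_floor (by push_cast; exact hY2one)
  have hBb : 1 ≤ ⌊Y4 p N⌋₊ := Nat.le_floor (by push_cast; exact hY4one)
  have hsz' : ∀ i : ℕ, i ≤ j + 1 → (Y2 p N) ^ i * (Y4 p N) ^ i ≤ (N : ℝ) ^ (c / 2) := by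
    intro i hi
    refine le_trans ?_ hsz
    exact mul_le_mul (pow_le_pow_right₀ hY2one hi) (pow_le_pow_right₀ hY4one hi) (by positivity)
      (by positivity)
  have hQ : ∀ i : ℕ, i ≤ j + 1 → ⌊Y2 p N⌋₊ ^ i * ⌊Y4 p N⌋₊ ^ i ≤ ⌊(N : ℝ) ^ c⌋₊ := by
    intro i hi
    refine Nat.le_floor ?_
    push_cast
    have h1 : (⌊Y2 p N⌋₊ : ℝ) ^ i * (⌊Y4 p N⌋₊ : ℝ) ^ i ≤ (Y2 p N) ^ i * (Y4 p N) ^ i := by
      have h2 := pow_le_pow_left₀ (Nat.cast_nonneg _) (Nat.floor_le hY2p.le) i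
      have h3 := pow_le_pow_left₀ (Nat.cast_nonneg _) (Nat.floor_le hY4p.le) i
      exact mul_le_mul h2 h3 (by positivity) (by positivity)
    refine h1.trans ((hsz' i hi).trans ?_)
    exact Real.rpow_le_rpow_of_exponent_le hN1 (by linarith)
  have hcU : ((Uu p N).card : ℝ) ≤ Y2 p N :=
    card_le_of hY2p.le fun u hu => ⟨(mem_Uu.1 hu).1, (mem_Uu.1 hu).2.2.2⟩
  have hcV : ((Vv p N).card : ℝ) ≤ Y4 p N :=
    card_le_of hY4p.le fun u hu => ⟨(mem_Vv.1 hu).1, (mem_Vv.1 hu).2.2.2⟩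
  -- the error
  have herr : ∀ i : ℕ, i ≤ j + 1 → ((Uu p N).card : ℝ) ^ i * ((Vv p N).card : ℝ) ^ i *
      (N : ℝ) ^ (1 - c) ≤ ε / 4 * ((Gam N 1 3).card : ℝ) := by
    intro i hi
    have h2 := pow_le_pow_left₀ (Nat.cast_nonneg _) hcU i
    have h3 := pow_le_pow_left₀ (Nat.cast_nonneg _) hcV i
    have h4 : ((Uu p N).card : ℝ) ^ i * ((Vv p N).card : ℝ) ^ i ≤ (N : ℝ) ^ (c / 2) :=
      (mul_le_mul h2 h3 (by positivity) (by positivity)).trans (hsz' i hi)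
    have h5 : (N : ℝ) ^ (c / 2) * (N : ℝ) ^ (1 - c) = (N : ℝ) ^ (-(c / 2)) * N := by
      rw [← Real.rpow_add hN0, ← Real.rpow_add_one hN0.ne']
      congr 1; ring
    calc _ ≤ (N : ℝ) ^ (c / 2) * (N : ℝ) ^ (1 - c) :=
          mul_le_mul_of_nonneg_right h4 (by positivity)
      _ = (N : ℝ) ^ (-(c / 2)) * N := h5
      _ ≤ (ε * c₁ / 4) * N := mul_le_mul_of_nonneg_right hNcN hN0.le
      _ = ε / 4 * (c₁ * N) := by ring
      _ ≤ ε / 4 * ((Gam N 1 3).card : ℝ) := mul_le_mul_of_nonneg_left hCNN (by positivity)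
  set A : ℝ := ∑ u ∈ Uu p N, 2 / ((u : ℝ) + 1) with hA
  set B : ℝ := ∑ v ∈ Vv p N, 2 / ((v : ℝ) + 1) with hB
  obtain ⟨hA1, hA2⟩ := sum_succ hY1p (fun u hu => (mem_Uu.1 hu).2.2.1 : ∀ u ∈ Uu p N, _)
  obtain ⟨hB1, hB2⟩ := sum_succ hY3p (fun u hu => (mem_Vv.1 hu).2.2.1 : ∀ u ∈ Vv p N, _)
  rw [← hA] at hA1 hA2
  rw [← hB] at hB1 hB2
  change A ≤ Su p N at hA2
  change B ≤ Sv p N at hB2
  change (1 - 1 / Y1 p N) * Su p N ≤ A at hA1
  change (1 - 1 / Y3 p N) * Sv p N ≤ B at hB1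
  have hA0 : 0 ≤ A := Finset.sum_nonneg fun _ _ => by positivity
  have hB0 : 0 ≤ B := Finset.sum_nonneg fun _ _ => by positivity
  have hTuv : ∀ (i : ℕ) (x : VV), (Tu p N x * Tv p N x) ^ i =
      nv (Uu p N) x ^ i * nw (Vv p N) x ^ i / (Su p N * Sv p N) ^ i := by
    intro i x
    have e1 : Tu p N x = nv (Uu p N) x / Su p N := rfl
    have e2 : Tv p N x = nw (Vv p N) x / Sv p N := rfl
    rw [e1, e2, div_mul_div_comm, div_pow, mul_pow]
  have hSS : 1 ≤ Su p N * Sv p N := one_le_mul_of_one_le_of_one_le (by linarith) (by linarith)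
  have hR0 : (0 : ℝ) ≤ ((Gam N 1 3).card : ℝ) := Nat.cast_nonneg _
  refine ⟨by linarith, by linarith, ?_, ?_⟩
  · -- first moment
    have h1 := TF1.mom1 hEqN hU hV hUV (by simpa using hQ 1 (by omega))
    rw [← hA, ← hB] at h1
    have h2 := (abs_le.1 h1).1
    have h3 := herr 1 (by omega)
    rw [pow_one, pow_one] at h3
    have e1 : ∑ x ∈ Gam N 1 3, Tu p N x * Tv p N x =
        (∑ x ∈ Gam N 1 3, nv (Uu p N) x * nw (Vv p N) x) / (Su p N * Sv p N) := by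
      rw [Finset.sum_div]
      refine Finset.sum_congr rfl fun x _ => ?_
      have := hTuv 1 x
      simpa using this
    rw [e1, le_div_iff₀ (by positivity)]
    have h4 : 1 / Y1 p N ≤ ε / 8 := by
      rw [div_le_iff₀ hY1p]
      have h5 : 8 / ε ≤ Y1 p N := by linarith
      rw [div_le_iff₀ hε] at h5
      linarith
    have h5 : 1 / Y3 p N ≤ ε / 8 := by
      rw [div_le_iff₀ hY3p]
      have h5 : 8 / ε ≤ Y3 p N := by linarith
      rw [div_le_iff₀ hε] at h5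
      linarith
    -- `A B ≥ (1 - ε/4) Su Sv`
    have h6 : (1 - ε / 4) * (Su p N * Sv p N) ≤ A * B := by
      have h7 : Su p N - A ≤ ε / 8 * Su p N := by nlinarith
      have h8 : Sv p N - B ≤ ε / 8 * Sv p N := by nlinarith
      have h9 : Su p N * Sv p N - A * B = (Su p N - A) * Sv p N + A * (Sv p N - B) := by ring
      have h10 : (Su p N - A) * Sv p N ≤ ε / 8 * Su p N * Sv p N :=
        mul_le_mul_of_nonneg_right h7 hSv0.le
      have h11 : A * (Sv p N - B) ≤ Su p N * (ε / 8 * Sv p N) :=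
        mul_le_mul hA2 h8 (by linarith) hSu0.le
      nlinarith
    have h7 := mul_le_mul_of_nonneg_left h6 hR0
    have h8 : ε / 4 * ((Gam N 1 3).card : ℝ) ≤
        ε / 4 * ((Gam N 1 3).card : ℝ) * (Su p N * Sv p N) :=
      le_mul_of_one_le_right (by positivity) hSS
    nlinarith [mul_nonneg (mul_nonneg hε.le hR0) (by positivity : 0 ≤ Su p N * Sv p N)]
  · -- `j`-th moment
    have h1 := TF1.momk hEqN hU hV hUV j j hBa hBb (hQ j (by omega))
    rw [← hA, ← hB] at h1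
    have h2 := prod_ratio (j := j) hA0 hA2 hL0 hSu
    have h3 := prod_ratio (j := j) hB0 hB2 hL0 hSv
    have h4 := herr j (by omega)
    have e1 : ∑ x ∈ Gam N 1 3, (Tu p N x * Tv p N x) ^ j =
        (∑ x ∈ Gam N 1 3, nv (Uu p N) x ^ j * nw (Vv p N) x ^ j) / (Su p N * Sv p N) ^ j := by
      rw [Finset.sum_div]
      exact Finset.sum_congr rfl fun x _ => hTuv j x
    have hSj : 1 ≤ (Su p N * Sv p N) ^ j := one_le_pow₀ hSS
    rw [e1, div_le_iff₀ (by positivity)]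
    have h5 : (∏ t ∈ range j, (A + (t : ℝ))) * ∏ t ∈ range j, (B + (t : ℝ)) ≤
        (1 + ε / 2) * (Su p N * Sv p N) ^ j := by
      calc _ ≤ (Su p N ^ j * (1 + j / L) ^ j) * (Sv p N ^ j * (1 + j / L) ^ j) :=
            mul_le_mul h2 h3 (Finset.prod_nonneg fun t _ => by positivity) (by positivity)
        _ = (1 + j / L) ^ (2 * j) * (Su p N * Sv p N) ^ j := by
            rw [two_mul, pow_add, mul_pow]; ring
        _ ≤ _ := mul_le_mul_of_nonneg_right hLj (by positivity)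
    have h6 := mul_le_mul_of_nonneg_left h5 hR0
    have h7 : ε / 4 * ((Gam N 1 3).card : ℝ) ≤
        ε / 4 * ((Gam N 1 3).card : ℝ) * (Su p N * Sv p N) ^ j :=
      le_mul_of_one_le_right (by positivity) hSj
    have h8 : 0 ≤ ε * (((Gam N 1 3).card : ℝ) * (Su p N * Sv p N) ^ j) := by positivity
    nlinarith

theorem eqG_of (hEQ : SpecEQ) : EqG := by
  obtain ⟨c, hc, h⟩ := hEQ
  refine ⟨c, hc, ?_⟩
  filter_upwards [h, eventually_ge_atTop 1] with N hN hN1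
  intro q hq hqle F hF hF01
  have hNR : (1 : ℝ) ≤ N := by exact_mod_cast hN1
  have h1 : (q : ℝ) ≤ (N : ℝ) ^ c :=
    (Nat.cast_le.2 hqle).trans (Nat.floor_le (by positivity))
  have h2 := hN q F 1 3 (Nat.pos_of_ne_zero hq) h1 (per_iff.2 hF) (fun x => (hF01 x).1)
    (fun x => (hF01 x).2) (Real.rpow_le_one_of_one_le_of_nonpos hNR (by linarith)) (by norm_num)
    (by norm_num)
  rwa [mean_eq (Nat.pos_of_ne_zero hq)] at h2

theorem specTM (hEQ : SpecEQ) (hC : SpecCNT) : SpecTM := tm_of_eq (eqG_of hEQ) hC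

lemma pf_nonneg (p : Prm) (N : ℕ) {C : ℝ} (hC : 0 ≤ C) (x : VV) :
    0 ≤ ∏ l ∈ (PP p N).filter (fun l => l ∣ (mm x).natAbs ^ 2 + aa), (1 + C / l) :=
  Finset.prod_nonneg fun _ _ => by positivity

lemma TT_nonneg (p : Prm) (N : ℕ) (x : VV) : 0 ≤ Tu p N x * Tv p N x := by
  unfold Tu Tv Su Sv
  refine mul_nonneg (div_nonneg ?_ ?_) (div_nonneg ?_ ?_)
  · exact Finset.sum_nonneg fun _ _ => by split_ifs <;> norm_num
  · exact Finset.sum_nonneg fun _ _ => by positivity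
  · exact Finset.sum_nonneg fun _ _ => by split_ifs <;> norm_num
  · exact Finset.sum_nonneg fun _ _ => by positivity

theorem specPMT (hTM : SpecTM) (hPM : SpecPM) : SpecPMT := by
  intro C i j hC
  obtain ⟨C', hC', hP⟩ := hPM C (2 * j) hC
  refine ⟨2 + C', by positivity, ?_⟩
  refine ((hTM 1 (2 * i) one_pos).and hP).mono ?_
  rintro p ⟨h1, h2⟩
  filter_upwards [h1, h2] with N h3 h4
  obtain ⟨-, -, -, h3⟩ := h3
  have h5 : ∀ x ∈ Gam N 1 3, (Tu p N x * Tv p N x) ^ i *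
      (∏ l ∈ (PP p N).filter (fun l => l ∣ (mm x).natAbs ^ 2 + aa), (1 + C / l)) ^ j ≤
      (Tu p N x * Tv p N x) ^ (2 * i) +
      (∏ l ∈ (PP p N).filter (fun l => l ∣ (mm x).natAbs ^ 2 + aa), (1 + C / l)) ^ (2 * j) := by
    intro x _
    set a := (Tu p N x * Tv p N x) ^ i
    set b := (∏ l ∈ (PP p N).filter (fun l => l ∣ (mm x).natAbs ^ 2 + aa), (1 + C / l)) ^ j
    have e1 : (Tu p N x * Tv p N x) ^ (2 * i) = a ^ 2 := by rw [mul_comm 2 i, pow_mul]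
    have e2 : (∏ l ∈ (PP p N).filter (fun l => l ∣ (mm x).natAbs ^ 2 + aa), (1 + C / l)) ^ (2 * j) =
        b ^ 2 := by rw [mul_comm 2 j, pow_mul]
    rw [e1, e2]
    nlinarith [sq_nonneg (a - b), sq_nonneg a, sq_nonneg b]
  refine (Finset.sum_le_sum h5).trans ?_
  rw [Finset.sum_add_distrib]
  linarith

end Pool.Agent.Lib.MP391708.TF
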