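import Pool.Agent.Lib.MP_391708_nt.TF1.NGF1
import Pool.Agent.Lib.MP_391708_nt.T1.NGR
import Pool.Agent.Lib.MP_391708_nt.TF1.NGF0
import Pool.Agent.Lib.MP_391708_nt.TA.NGC
import Pool.Agent.Lib.MP_391708_nt.TA.EqfQ
import Pool.Agent.Lib.MP_391708_nt.T1.GoodL

/-!
# T1a, group NG: `SpecNG` (a-form of `T1/NGF.lean`)
-/

set_option autoImplicit false
set_option linter.constructorNameAsVariable false
set_option linter.unusedSectionVars false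

namespace Pool.Agent.Lib.MP391708.TF1.NG

open Pool.Agent.Lib.MP391708.TF
open Pool.Agent.Lib.MP391708.T1.NG (PS XS mem_XS Cd Dt Wt wt SumRdl sum1 sum_rdl)
open Pool.Agent.Lib.MP391708.TA.NG (Pts CNT EquidF cntA)

variable [Pool.Agent.Lib.MP391708.TF.Aa]


open Finset Filter Topology
open scoped Classical

attribute [local irreducible] RG

lemma sumRdl : SumRdl := by
  intro c hc η hη
  obtain ⟨C, hC, h⟩ := sum_rdl c hc η hη
  refine ⟨C, hC, fun U hU S hS => h U hU S fun a ha => ?_⟩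
  obtain ⟨⟨h1, h2⟩, ⟨h3, h4⟩, ⟨h5, h6⟩, ⟨h7, h8⟩, h9⟩ := hS a ha
  exact ⟨h1, h2, h3, h4, h5, h6, h7, h8, h9⟩

lemma zz_pow {p : Prm} {N : ℕ} (n : ℕ) (m : ℝ) (hN : 1 ≤ (N : ℝ)) (h : p.ζ * n ≤ m) :
    zz p N ^ n ≤ (N : ℝ) ^ m := by
  unfold zz
  rw [← Real.rpow_natCast, ← Real.rpow_mul (by linarith)]
  exact Real.rpow_le_rpow_of_exponent_le hN h

/-- **the pairs of the first kind** -/
theorem part1 (hcnt : CNT aa) : Good (fun p => ∀ᶠ N : ℕ in atTop,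
    ((NG1 p N).card : ℝ) ≤ N * zz p N ^ (-(1 / 2) : ℝ) / 3) := by
  refine ⟨2 * aa, fun E hE => ⟨0, fun K _ => ⟨1, fun r hr => ⟨24 * K + 10, fun k hk => ?_⟩⟩⟩⟩
  set c : ℕ := r * k + 10 * r ^ 2 * k + 4 * K + 1 with hc
  have hc1 : 1 ≤ c := by omega
  set η : ℝ := 1 / (10 * (c + 1)) with hη
  have hη0 : 0 < η := by positivity
  obtain ⟨C, hC, hcore⟩ := core1 (hcnt (1 / 4) 100 (by norm_num) (by norm_num)) sumRdl c hc1 η hη0
  refine ⟨1 / (40 * (92 * (c + 1) + 1)), by positivity, fun ζ h0 h1 => ?_⟩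
  set p : Prm := ⟨E, K, r, k, ζ⟩ with hp
  have hzt : Tendsto (fun N : ℕ => zz p N) atTop atTop :=
    (tendsto_rpow_atTop h0).comp tendsto_natCast_atTop_atTop
  have hzt2 : Tendsto (fun N : ℕ => zz p N ^ (2 / 5 : ℝ)) atTop atTop :=
    (tendsto_rpow_atTop (by norm_num)).comp hzt
  have hNt : Tendsto (fun N : ℕ => (N : ℝ) ^ (1 / 40 : ℝ)) atTop atTop :=
    (tendsto_rpow_atTop (by norm_num)).comp tendsto_natCast_atTop_atTop
  filter_upwards [hzt.eventually_ge_atTop 2000, hzt2.eventually_ge_atTop (66 * C),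
    hNt.eventually_ge_atTop (6 * C), eventually_ge_atTop 1] with N z1 z2 n1 hN1
  have hNr : (1 : ℝ) ≤ N := by exact_mod_cast hN1
  have hN0 : (0 : ℝ) < N := by linarith
  set z : ℝ := zz p N with hz
  have hz0 : 0 < z := by linarith
  have hz1 : 1 < z := by linarith
  have hzz1 : 1 ≤ z := hz1.le
  have hZ : Y2 p N * zz p N ^ (4 * p.K) = z ^ (r * k + 4 * K) := by
    rw [Y2, ← hz, ← pow_add]
  have hY24 : Y2 p N * Y4 p N * zz p N ^ (4 * p.K) = z ^ (r * k + 10 * r ^ 2 * k + 4 * K) := by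
    rw [Y2, Y4, ← hz, ← pow_add, ← pow_add]
  have hY13 : Y1 p N * Y3 p N = z ^ (k + 10 * r * k) := by
    rw [Y1, Y3, ← hz, ← pow_add]
  set U : ℕ := ⌈z ^ c⌉₊ with hU
  have hU1 : z ^ c ≤ U := Nat.le_ceil _
  have hzc1 : 1 ≤ z ^ c := one_le_pow₀ hzz1
  have hU2 : (U : ℝ) ≤ z ^ (c + 1) := by
    have e1 : (U : ℝ) ≤ z ^ c + 1 := (Nat.ceil_lt_add_one (by positivity)).le
    have e2 : z ^ (c + 1) = z ^ c * z := pow_succ _ _
    nlinarith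
  have hζ : ζ * (40 * (92 * (c + 1) + 1)) ≤ 1 := by
    rw [le_div_iff₀ (by positivity)] at h1
    exact h1
  have hcr : (1 : ℝ) ≤ c := by exact_mod_cast hc1
  have zN : ∀ n : ℕ, n ≤ 92 * (c + 1) + 1 → z ^ n ≤ (N : ℝ) ^ (1 / 40 : ℝ) := by
    intro n hn
    refine zz_pow n (1 / 40) hNr ?_
    have e1 : (n : ℝ) ≤ 92 * (c + 1) + 1 := by exact_mod_cast hn
    have e2 : ζ * n ≤ ζ * (92 * (c + 1) + 1) := mul_le_mul_of_nonneg_left e1 h0.le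
    have e3 : ζ * (92 * (c + 1) + 1) ≤ 1 / 40 := by
      have : ζ * (40 * (92 * (c + 1) + 1)) = 40 * (ζ * (92 * (c + 1) + 1)) := by ring
      rw [this] at hζ
      linarith
    exact e2.trans e3
  have hN40 : (N : ℝ) ^ (1 / 40 : ℝ) ≤ N := by
    calc (N : ℝ) ^ (1 / 40 : ℝ) ≤ (N : ℝ) ^ (1 : ℝ) :=
          Real.rpow_le_rpow_of_exponent_le hNr (by norm_num)
      _ = N := Real.rpow_one _
  have hr1 : 1 ≤ r := hr
  have hrk : k ≤ r * k := Nat.le_mul_of_pos_left _ hr1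
  have hrk2 : 10 * r * k = 10 * (r * k) := by ring
  have a1 : zz p N ^ c = z ^ c := rfl
  have a2 : Y2 p N * zz p N ^ (4 * p.K) ≤ z ^ c := by
    rw [hZ]
    exact pow_le_pow_right₀ hzz1 (by rw [hc]; nlinarith [Nat.zero_le (10 * r ^ 2 * k)])
  have a3 : 100 * (10 * (Y2 p N * Y4 p N * zz p N ^ (4 * p.K))) ≤ U := by
    refine le_trans ?_ hU1
    have e0 : z ^ c = z ^ (r * k + 10 * r ^ 2 * k + 4 * K) * z := by rw [hc]; exact pow_succ _ _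
    rw [hY24, e0]
    have e1 : 0 < z ^ (r * k + 10 * r ^ 2 * k + 4 * K) := by positivity
    have e2 := mul_le_mul_of_nonneg_left z1 e1.le
    linarith
  have a4 : Y2 p N * zz p N ^ (4 * p.K) ≤ U := a2.trans hU1
  have a5 : 6 * U ≤ N := by
    have e1 : 6 * (U : ℝ) ≤ N := by
      calc 6 * (U : ℝ) ≤ z * z ^ (c + 1) :=
            mul_le_mul (by linarith) hU2 (Nat.cast_nonneg _) hz0.le
        _ = z ^ (c + 2) := by ring
        _ ≤ (N : ℝ) ^ (1 / 40 : ℝ) := zN _ (by omega)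
        _ ≤ N := hN40
    exact_mod_cast e1
  have a6 : 3 ≤ U := by
    have e1 : z ≤ z ^ c := le_self_pow₀ hzz1 (by omega)
    have e2 : (3 : ℝ) ≤ U := by linarith
    exact_mod_cast e2
  set Zr : ℝ := z ^ (r * k + 4 * K) with hZr
  have hZr1 : 1 ≤ Zr := one_le_pow₀ hzz1
  have hfl : (⌊Y2 p N * zz p N ^ (4 * p.K)⌋₊ : ℝ) ≤ Zr := by
    rw [hZ]; exact Nat.floor_le (by positivity)
  have hce : z ^ (k + 10 * r * k) / 10 ≤ (⌈Y1 p N * Y3 p N / 10⌉₊ : ℝ) := by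
    rw [hY13]; exact Nat.le_ceil _
  have hG0 : 0 < z ^ (k + 10 * r * k) / 10 := by positivity
  have a7 : 200 * ⌊Y2 p N * zz p N ^ (4 * p.K)⌋₊ ^ 2 ≤ ⌈Y1 p N * Y3 p N / 10⌉₊ := by
    have e1 : 200 * (⌊Y2 p N * zz p N ^ (4 * p.K)⌋₊ : ℝ) ^ 2 ≤ (⌈Y1 p N * Y3 p N / 10⌉₊ : ℝ) := by
      refine le_trans ?_ hce
      have e2 : (⌊Y2 p N * zz p N ^ (4 * p.K)⌋₊ : ℝ) ^ 2 ≤ Zr ^ 2 :=
        pow_le_pow_left₀ (Nat.cast_nonneg _) hfl 2
      have e3 : z * Zr ^ 2 ≤ z ^ (k + 10 * r * k) := by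
        rw [hZr, ← pow_mul, ← pow_succ']
        exact pow_le_pow_right₀ hzz1 (by rw [hrk2]; omega)
      have e4 : 2000 * Zr ^ 2 ≤ z * Zr ^ 2 := mul_le_mul_of_nonneg_right z1 (by positivity)
      linarith
    exact_mod_cast e1
  have main := hcore p N U hE hz1 a2 a3 a4 a5 a6 a7
  refine main.trans ?_
  -- the main term
  have b1 : 1 / (⌈zz p N⌉₊ : ℝ) ≤ 1 / z := by
    refine one_div_le_one_div_of_le hz0 (Nat.le_ceil _)
  have b2 : (⌊Y2 p N * zz p N ^ (4 * p.K)⌋₊ : ℝ) ^ 6 / ⌈Y1 p N * Y3 p N / 10⌉₊ ≤ 10 / z := by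
    calc (⌊Y2 p N * zz p N ^ (4 * p.K)⌋₊ : ℝ) ^ 6 / ⌈Y1 p N * Y3 p N / 10⌉₊
        ≤ Zr ^ 6 / (z ^ (k + 10 * r * k) / 10) :=
          div_le_div₀ (by positivity) (pow_le_pow_left₀ (Nat.cast_nonneg _) hfl 6) hG0 hce
      _ = 10 * Zr ^ 6 / z ^ (k + 10 * r * k) := by field_simp
      _ ≤ 10 / z := by
          rw [div_le_div_iff₀ (by positivity) hz0]
          have e3 : Zr ^ 6 * z ≤ z ^ (k + 10 * r * k) := by
            rw [hZr, ← pow_mul, ← pow_succ]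
            exact pow_le_pow_right₀ hzz1 (by rw [hrk2]; omega)
          linarith
  have b3 : (U : ℝ) ^ η ≤ z ^ (1 / 10 : ℝ) := by
    calc (U : ℝ) ^ η ≤ (z ^ (c + 1)) ^ η := Real.rpow_le_rpow (Nat.cast_nonneg _) hU2 hη0.le
      _ = z ^ (1 / 10 : ℝ) := by
          rw [← Real.rpow_natCast z (c + 1), ← Real.rpow_mul hz0.le]
          congr 1
          rw [hη]; push_cast; field_simp
  have b4 : C * N * (U : ℝ) ^ η * (1 / ⌈zz p N⌉₊ +
        (⌊Y2 p N * zz p N ^ (4 * p.K)⌋₊ : ℝ) ^ 6 / ⌈Y1 p N * Y3 p N / 10⌉₊) ≤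
      N * z ^ (-(1 / 2) : ℝ) / 6 := by
    have e1 : z ^ (1 / 10 : ℝ) * (11 / z) = 11 * (z ^ (-(1 / 2) : ℝ) * z ^ (-(2 / 5) : ℝ)) := by
      have : (11 : ℝ) / z = 11 * z ^ (-1 : ℝ) := by rw [Real.rpow_neg_one]; ring
      rw [this, ← Real.rpow_add hz0]
      have : z ^ (1 / 10 : ℝ) * (11 * z ^ (-1 : ℝ)) = 11 * (z ^ (1 / 10 : ℝ) * z ^ (-1 : ℝ)) := by
        ring
      rw [this, ← Real.rpow_add hz0]
      norm_num
    have e2 : C * z ^ (-(2 / 5) : ℝ) ≤ 1 / 66 := by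
      rw [Real.rpow_neg hz0.le, ← div_eq_mul_inv, div_le_div_iff₀ (by positivity) (by norm_num)]
      linarith
    calc _ ≤ C * N * z ^ (1 / 10 : ℝ) * (1 / z + 10 / z) := by
            refine mul_le_mul (mul_le_mul_of_nonneg_left b3 (by positivity)) (add_le_add b1 b2)
              (by positivity) (by positivity)
      _ = C * N * (z ^ (1 / 10 : ℝ) * (11 / z)) := by ring
      _ = 11 * N * z ^ (-(1 / 2) : ℝ) * (C * z ^ (-(2 / 5) : ℝ)) := by rw [e1]; ring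
      _ ≤ 11 * N * z ^ (-(1 / 2) : ℝ) * (1 / 66) := by gcongr
      _ = _ := by ring
  have b5 : C * (U : ℝ) ^ 91 * (N : ℝ) ^ (19 / 20 : ℝ) ≤ N * z ^ (-(1 / 2) : ℝ) / 6 := by
    have e1 : (U : ℝ) ^ 91 ≤ z ^ (91 * (c + 1)) := by
      calc (U : ℝ) ^ 91 ≤ (z ^ (c + 1)) ^ 91 := pow_le_pow_left₀ (Nat.cast_nonneg _) hU2 91
        _ = z ^ (91 * (c + 1)) := by rw [← pow_mul]; congr 1; ring
    have e2 : z ^ (1 / 2 : ℝ) ≤ z := by
      calc z ^ (1 / 2 : ℝ) ≤ z ^ (1 : ℝ) := Real.rpow_le_rpow_of_exponent_le hzz1 (by norm_num)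
        _ = z := Real.rpow_one _
    have e3 : z ^ (91 * (c + 1)) * z ^ (1 / 2 : ℝ) ≤ (N : ℝ) ^ (1 / 40 : ℝ) := by
      calc z ^ (91 * (c + 1)) * z ^ (1 / 2 : ℝ) ≤ z ^ (91 * (c + 1)) * z := by gcongr
        _ = z ^ (91 * (c + 1) + 1) := (pow_succ _ _).symm
        _ ≤ _ := zN _ (by omega)
    have e4 : z ^ (1 / 2 : ℝ) * z ^ (-(1 / 2) : ℝ) = 1 := by
      rw [← Real.rpow_add hz0]; norm_num
    have e5 : (N : ℝ) ^ (1 / 40 : ℝ) * (N : ℝ) ^ (1 / 40 : ℝ) * (N : ℝ) ^ (19 / 20 : ℝ) = N := by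
      rw [← Real.rpow_add hN0, ← Real.rpow_add hN0]; norm_num
    have e6 : 0 < z ^ (-(1 / 2) : ℝ) := by positivity
    have e7 : 0 < (N : ℝ) ^ (19 / 20 : ℝ) := by positivity
    calc C * (U : ℝ) ^ 91 * (N : ℝ) ^ (19 / 20 : ℝ)
        ≤ C * z ^ (91 * (c + 1)) * (N : ℝ) ^ (19 / 20 : ℝ) := by gcongr
      _ = C * (z ^ (91 * (c + 1)) * z ^ (1 / 2 : ℝ)) * (N : ℝ) ^ (19 / 20 : ℝ) *
          z ^ (-(1 / 2) : ℝ) := by
          have : C * z ^ (91 * (c + 1)) * (N : ℝ) ^ (19 / 20 : ℝ) =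
            C * z ^ (91 * (c + 1)) * (N : ℝ) ^ (19 / 20 : ℝ) *
              (z ^ (1 / 2 : ℝ) * z ^ (-(1 / 2) : ℝ)) := by rw [e4, mul_one]
          rw [this]; ring
      _ ≤ C * (N : ℝ) ^ (1 / 40 : ℝ) * (N : ℝ) ^ (19 / 20 : ℝ) * z ^ (-(1 / 2) : ℝ) := by gcongr
      _ ≤ ((N : ℝ) ^ (1 / 40 : ℝ) / 6) * (N : ℝ) ^ (1 / 40 : ℝ) * (N : ℝ) ^ (19 / 20 : ℝ) *
          z ^ (-(1 / 2) : ℝ) := by
          have : C ≤ (N : ℝ) ^ (1 / 40 : ℝ) / 6 := by linarith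
          gcongr
      _ = ((N : ℝ) ^ (1 / 40 : ℝ) * (N : ℝ) ^ (1 / 40 : ℝ) * (N : ℝ) ^ (19 / 20 : ℝ)) *
          z ^ (-(1 / 2) : ℝ) / 6 := by ring
      _ = _ := by rw [e5]
  linarith

lemma swap_mem {p : Prm} {N : ℕ} {t : Rl × Rl} (h : t ∈ NGp p N) : t.swap ∈ NGp p N := by
  obtain ⟨h1, h2, hM, hne, hep, ⟨n, n', n0, n0', nZ, nZ', e⟩, l, hl, hz, hd⟩ := mem_NGp h
  rw [NGp, mem_filter, mem_product]
  exact ⟨⟨h2, h1⟩, hM.symm, hne.symm, hep.symm, ⟨n', n, n0', n0, nZ', nZ, e.symm⟩, l, hl, hz,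
    hd.symm⟩

/-- **CNT** for the determinant `a` -/
theorem cntAA : CNT aa := by
  refine cntA Aa.ha fun A B C hA h => ?_
  have h0 : 0 < A * C - B ^ 2 := by
    rw [h]
    have : 0 < aa := Aa.ha
    exact_mod_cast this
  exact TA.specEquidQ A B C hA h0

/-- **NG** -/
theorem specNG : SpecNG := by
  refine ((part0 cntAA).and (part1 cntAA)).mono fun p hp => ?_
  filter_upwards [hp.1, hp.2] with N h0 h1
  set S0 := (NGp p N).filter (fun t => ((rP t.1 / Nat.gcd (rP t.1) (rP t.2) : ℕ) : ℤ) * rD t.1 =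
      ((rP t.2 / Nat.gcd (rP t.1) (rP t.2) : ℕ) : ℤ) * rD t.2) with hS0
  have hsub : NGp p N ⊆ S0 ∪ (NG1 p N ∪ (NG1 p N).image Prod.swap) := by
    intro t ht
    by_cases hΔ : ((rP t.1 / Nat.gcd (rP t.1) (rP t.2) : ℕ) : ℤ) * rD t.1 =
      ((rP t.2 / Nat.gcd (rP t.1) (rP t.2) : ℕ) : ℤ) * rD t.2
    · exact mem_union_left _ (mem_filter.mpr ⟨ht, hΔ⟩)
    · refine mem_union_right _ ?_
      obtain ⟨-, -, -, -, -, -, l, hl, hz, hd⟩ := mem_NGp ht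
      rcases hd with ⟨l1, l2⟩ | ⟨l1, l2⟩
      · refine mem_union_left _ ?_
        rw [NG1, mem_filter]
        exact ⟨ht, sub_ne_zero.mpr hΔ, l, hl, hz, l1, l2⟩
      · refine mem_union_right _ (mem_image.mpr ⟨t.swap, ?_, Prod.swap_swap t⟩)
        rw [NG1, mem_filter]
        refine ⟨swap_mem ht, ?_, l, hl, hz, l1, l2⟩
        have e1 : cA t.swap = rP t.2 / Nat.gcd (rP t.1) (rP t.2) := by
          rw [Nat.gcd_comm]; rfl
        have e2 : cB t.swap = rP t.1 / Nat.gcd (rP t.1) (rP t.2) := by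
          rw [Nat.gcd_comm]; rfl
        rw [e1, e2]
        exact sub_ne_zero.mpr (fun h => hΔ h.symm)
  have hc : ((NGp p N).card : ℝ) ≤ S0.card + ((NG1 p N).card + (NG1 p N).card) := by
    have e1 := card_le_card hsub
    have e2 := card_union_le S0 (NG1 p N ∪ (NG1 p N).image Prod.swap)
    have e3 := card_union_le (NG1 p N) ((NG1 p N).image Prod.swap)
    have e4 : ((NG1 p N).image Prod.swap).card ≤ (NG1 p N).card := card_image_le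
    exact_mod_cast (by omega : (NGp p N).card ≤ S0.card + ((NG1 p N).card + (NG1 p N).card))
  linarith

end Pool.Agent.Lib.MP391708.TF1.NG
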