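import Pool.Agent.Lib.MP_391708_nt.TF1.NuC

/-!
# Theorem T1, group J, module J3: the proof
-/

set_option autoImplicit false

namespace Pool.Agent.Lib.MP391708.TF

variable [Pool.Agent.Lib.MP391708.TF.Aa] [Pool.Agent.Lib.MP391708.TF.Frm]

open Finset Filter Topology
open Pool.Agent.Lib.MP391708.Eqd (V cross pairs)
open Pool.Agent.Lib.MP391708.TF1.NuSum (fC cf)
open scoped Classical

noncomputable section

lemma prod_if_half (S : Finset ℕ) (P : ℕ → Prop) [DecidablePred P] (a : ℝ) :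
    ∏ l ∈ S, (if P l then a else 1) = a ^ (S.filter P).card := by
  rw [prod_ite, prod_const, prod_const_one, mul_one]

lemma fC_mul_eq {b b' : ℕ} (h : b.Coprime b') (h4 : ∀ l ∈ (b * b').primeFactors, spl l) :
    fC b * fC b' = ∏ l ∈ (b * b').primeFactors, (1 + 4 / (l : ℝ)) := by
  unfold fC
  rw [← Pool.Agent.Lib.MP_391708_nt.Many.F_mul h]
  unfold Pool.Agent.Lib.MP_391708_nt.Many.F
  refine prod_congr rfl fun l hl => ?_
  unfold cf
  rw [if_pos (h4 l hl)]

/-- the bound for the product of the local factors -/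
lemma prod_local {C : ℝ} (hC : ∀ (p : Prm) (N : ℕ) (w : ℝ), 4 ≤ w → w ≤ zz p N →
    Real.log (Real.log w) - C - 2 * p.E ≤
      ∑ l ∈ (PP p N).filter (fun l : ℕ => (l : ℝ) < w), 2 / (l : ℝ))
    (p : Prm) (hE : 4 ≤ p.E) (N m : ℕ) {w : ℝ} (hw : 4 ≤ w) (hwz : w ≤ zz p N) (hm : m.primeFactors ⊆ PP p N)
    (hl : ∀ l ∈ m.primeFactors, (l : ℝ) < w) (hm0 : m ≠ 0) (μ : ℕ → ℝ)
    (h0 : ∀ l ∈ PP p N, μ l ≤ 1) (h1 : ∀ l ∈ PP p N, 0 ≤ μ l)
    (h2 : ∀ l ∈ PP p N, (l : ℝ) < w → 2 / (l : ℝ) - 3 * (1 / (l : ℝ) ^ 2) ≤ μ l) :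
    ∏ l ∈ (PP p N).filter (fun l => ¬ l ∣ m), (1 - μ l) ≤
      Real.exp 3 * Real.exp (C + 2 * p.E) / Real.log w *
        ∏ l ∈ m.primeFactors, (1 + 4 / (l : ℝ)) := by
  set A := (PP p N).filter (fun l : ℕ => (l : ℝ) < w) with hA
  have hlw : 0 < Real.log w := Real.log_pos (by linarith)
  have e1 : m.primeFactors = A.filter (fun l => l ∣ m) := by
    ext l
    rw [hA, mem_filter, mem_filter]
    constructor
    · intro h
      exact ⟨⟨hm h, hl l h⟩, Nat.dvd_of_mem_primeFactors h⟩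
    · rintro ⟨⟨h3, _⟩, h4⟩
      exact Nat.mem_primeFactors.2 ⟨(mem_PP.1 h3).2.1, h4, hm0⟩
  have h3 : ∏ l ∈ (PP p N).filter (fun l => ¬ l ∣ m), (1 - μ l) ≤
      ∏ l ∈ A.filter (fun l => ¬ l ∣ m), Real.exp (-(2 / (l : ℝ)) + 3 * (1 / (l : ℝ) ^ 2)) := by
    have e2 : A.filter (fun l => ¬ l ∣ m) =
        ((PP p N).filter (fun l => ¬ l ∣ m)).filter (fun l : ℕ => (l : ℝ) < w) := by
      rw [hA, filter_filter, filter_filter]
      exact filter_congr fun l _ => and_comm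
    rw [e2, prod_filter (fun l : ℕ => (l : ℝ) < w)]
    refine prod_le_prod (fun l hl' => ?_) fun l hl' => ?_
    · have := h0 l (mem_filter.1 hl').1
      linarith
    · have hl0 := (mem_filter.1 hl').1
      split_ifs with h4
      · have h5 := h2 l hl0 h4
        have h6 := Real.add_one_le_exp (-(2 / (l : ℝ)) + 3 * (1 / (l : ℝ) ^ 2))
        linarith
      · have := h1 l hl0
        linarith
  refine h3.trans ?_
  rw [← Real.exp_sum, sum_add_distrib, ← mul_sum]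
  have h4 := hC p N w hw hwz
  rw [← hA] at h4
  have h5 : ∑ l ∈ A.filter (fun l => ¬ l ∣ m), 1 / (l : ℝ) ^ 2 ≤ 1 :=
    sum_sq_PP p N _ ((filter_subset _ _).trans (filter_subset _ _))
  have h6 : ∑ l ∈ A, 2 / (l : ℝ) = ∑ l ∈ A.filter (fun l => ¬ l ∣ m), 2 / (l : ℝ) +
      ∑ l ∈ m.primeFactors, 2 / (l : ℝ) := by
    rw [e1, add_comm, sum_filter_add_sum_filter_not]
  have h7 : ∑ l ∈ A.filter (fun l => ¬ l ∣ m), -(2 / (l : ℝ)) =
      -∑ l ∈ A, 2 / (l : ℝ) + ∑ l ∈ m.primeFactors, 2 / (l : ℝ) := by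
    rw [h6, sum_neg_distrib]
    ring
  have h8 : ∏ l ∈ m.primeFactors, Real.exp (2 / (l : ℝ)) ≤
      ∏ l ∈ m.primeFactors, (1 + 4 / (l : ℝ)) := by
    refine prod_le_prod (fun l _ => (Real.exp_pos _).le) fun l hl' => ?_
    have h9 := mem_PP.1 (hm hl')
    have h10 : (5 : ℝ) ≤ l := by
      have : 5 ≤ l := by
        have := h9.2.2.2
        omega
      exact_mod_cast this
    have h11 : 0 ≤ 2 / (l : ℝ) := by positivity
    have h12 : 2 / (l : ℝ) ≤ 1 := by
      rw [div_le_one (by linarith)]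
      linarith
    have h13 := (abs_le.1 (Real.abs_exp_sub_one_sub_id_le
      (x := 2 / (l : ℝ)) (by rw [abs_of_nonneg h11]; exact h12))).2
    have h14 : (2 / (l : ℝ)) ^ 2 ≤ 2 / (l : ℝ) := by nlinarith
    have h15 : 4 / (l : ℝ) = 2 * (2 / (l : ℝ)) := by ring
    rw [h15]
    linarith
  calc Real.exp (∑ l ∈ A.filter (fun l => ¬ l ∣ m), -(2 / (l : ℝ)) +
        3 * ∑ l ∈ A.filter (fun l => ¬ l ∣ m), 1 / (l : ℝ) ^ 2) ≤
        Real.exp (3 + (C + 2 * p.E) + -Real.log (Real.log w) +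
          ∑ l ∈ m.primeFactors, 2 / (l : ℝ)) := by
        apply Real.exp_le_exp.2
        rw [h7]
        linarith
    _ = Real.exp 3 * Real.exp (C + 2 * p.E) / Real.log w *
        ∏ l ∈ m.primeFactors, Real.exp (2 / (l : ℝ)) := by
        rw [Real.exp_add, Real.exp_add, Real.exp_add, Real.exp_sum, Real.exp_neg,
          Real.exp_log hlw]
        ring
    _ ≤ _ := mul_le_mul_of_nonneg_left h8 (by positivity)

theorem specJ3 (hFL : SpecFL) (h1 : SpecLM1) (h2 : SpecLM2) : SpecJ3 := by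
  obtain ⟨c, hc, hFL⟩ := hFL
  obtain ⟨CM, hCM⟩ := sum_PP_lower
  refine ⟨c, hc, ?_⟩
  refine (((hFL 2 1 one_pos).and (T4.Good.large_E 4)).and T4.Good.zeta_pos).mono fun p hp => ?_
  obtain ⟨⟨hp1, hE⟩, hζ⟩ := hp
  refine ⟨2 * (Real.exp 3 * Real.exp (CM + 2 * p.E)), by positivity, ?_⟩
  filter_upwards [hp1, eventually_ge_atTop 1] with N hN hN1 w hw1 hw2 t ht hl
  unfold bps at ht
  rw [mem_filter, mem_product, mem_Icc, mem_Icc] at ht
  obtain ⟨⟨⟨hb1, hb2⟩, hb3, hb4⟩, hcop, _, _, hpf⟩ := ht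
  set b := t.1 with hb
  set b' := t.2 with hb'
  set m := b * b' with hm
  have hN1' : (1 : ℝ) ≤ N := by exact_mod_cast hN1
  have hz1 : 1 ≤ zz p N := Real.one_le_rpow hN1' hζ.le
  have hm0 : 0 < m := Nat.mul_pos (by omega) (by omega)
  have hw4 : 4 ≤ w := by
    have : (4 : ℝ) ≤ p.E := by exact_mod_cast hE
    linarith
  have hlw : 0 < Real.log w := Real.log_pos (by linarith)
  have hbR : (b : ℝ) ≤ zz p N ^ (2 * p.K) :=
    (Nat.cast_le.2 hb2).trans (Nat.floor_le (by positivity))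
  have hbR' : (b' : ℝ) ≤ zz p N ^ (2 * p.K) :=
    (Nat.cast_le.2 hb4).trans (Nat.floor_le (by positivity))
  have hmML : (m : ℝ) ≤ ML p N := by
    unfold ML
    calc (m : ℝ) = (b : ℝ) * b' := by rw [hm]; push_cast; ring
      _ ≤ zz p N ^ (2 * p.K) * zz p N ^ (2 * p.K) :=
          mul_le_mul hbR hbR' (Nat.cast_nonneg _) (by positivity)
      _ = zz p N ^ (4 * p.K) := by rw [← pow_add]; congr 1; ring
      _ ≤ _ := by
          apply pow_le_pow_right₀ hz1
          have h3 : 1 ≤ (p.r + 1) ^ 2 * (p.k + 1) := Nat.succ_le_of_lt (by positivity)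
          calc 4 * p.K ≤ 1000 * (p.K + 1) * 1 := by omega
            _ ≤ 1000 * (p.K + 1) * ((p.r + 1) ^ 2 * (p.k + 1)) := Nat.mul_le_mul_left _ h3
            _ = _ := by ring
  -- primes of m
  have hP : ∀ l ∈ m.primeFactors, l ∈ PP p N := fun l h => hpf h
  have h4 : ∀ l ∈ m.primeFactors, spl l := fun l h => (mem_PP.1 (hpf h)).2.2.1
  -- the local functions
  set F : VV → ℝ := fun x => if b ∣ (dd x).natAbs ∧ b' ∣ (ee x).natAbs then 1 else 0 with hF
  set f : ℕ → VV → ℝ := fun l x => if (l : ℝ) < w ∧ l ∣ mq x then 1 / 2 else 1 with hf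
  have hf1 : ∀ l : ℕ, (l : ℝ) < w → (fun x => 1 - f l x) =
      fun x => (1 / 2 : ℝ) * (if l ∣ mq x then 1 else 0) := by
    intro l hlw
    funext x
    simp only [hf]
    by_cases h : l ∣ mq x
    · rw [if_pos ⟨hlw, h⟩, if_pos h]; norm_num
    · rw [if_neg (fun h' => h h'.2), if_neg h]; norm_num
  have hf2 : ∀ l : ℕ, ¬ (l : ℝ) < w → (fun x => 1 - f l x) = fun _ => 0 := by
    intro l hlw
    funext x
    simp only [hf]
    rw [if_neg (fun h' => hlw h'.1)]
    norm_num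
  have hμ : ∀ l ∈ PP p N, 0 ≤ mean l (fun x => 1 - f l x) ∧
      mean l (fun x => 1 - f l x) ≤ 2 / (l : ℝ) ∧
      ((l : ℝ) < w → 2 / (l : ℝ) - 3 * (1 / (l : ℝ) ^ 2) ≤ mean l (fun x => 1 - f l x)) := by
    intro l hlP
    obtain ⟨_, hlp, hl4, _⟩ := mem_PP.1 hlP
    have hl0 : (0 : ℝ) < l := by exact_mod_cast hlp.pos
    have hl1 : (1 : ℝ) ≤ l := by exact_mod_cast hlp.one_lt.le
    by_cases hlw : (l : ℝ) < w
    · rw [hf1 l hlw, mean_mul_left, h1 l hlp hl4]
      refine ⟨?_, ?_, fun _ => ?_⟩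
      · apply mul_nonneg (by norm_num)
        apply div_nonneg _ (by positivity)
        linarith
      · rw [mul_div_assoc', div_le_div_iff₀ (by positivity) hl0]
        nlinarith
      · have e : 1 / 2 * ((4 * (l : ℝ) - 2) / (l * (l + 1))) =
            2 / (l : ℝ) - 3 * (1 / ((l : ℝ) * (l + 1))) := by
          field_simp
          ring
        rw [e]
        have : 1 / ((l : ℝ) * (l + 1)) ≤ 1 / (l : ℝ) ^ 2 :=
          one_div_le_one_div_of_le (by positivity) (by nlinarith)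
        linarith
    · rw [hf2 l hlw, mean_zero]
      exact ⟨le_rfl, by positivity, fun h => absurd h hlw⟩
  have hloc : Loc (PP p N) ((2 : ℕ) : ℝ) m
      (fun x => F x * ∏ l ∈ (PP p N).filter (fun l => ¬ l ∣ m), f l x) F f := by
    refine ⟨fun x _ => rfl, ?_, ?_, ?_, ?_, ?_, ?_, ?_⟩
    · intro x y hxy
      simp only [hF]
      exact if_congr (and_congr (cg_dvd_dd (Dvd.intro b' hm.symm) hxy)
        (cg_dvd_ee (Dvd.intro_left b hm.symm) hxy)) rfl rfl
    · intro x; simp only [hF]; split_ifs <;> norm_num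
    · intro x; simp only [hF]; split_ifs <;> norm_num
    · intro l _ _ x y hxy
      simp only [hf]
      exact if_congr (and_congr_right fun _ => cg_dvd_mq hxy) rfl rfl
    · intro l _ _ x; simp only [hf]; split_ifs <;> norm_num
    · intro l _ _ x; simp only [hf]; split_ifs <;> norm_num
    · intro l hl' _
      exact_mod_cast (hμ l hl').2.1
  have hmain := hN N m _ F f 1 3 (by omega) (by omega) hm0 hmML hloc
    (Real.rpow_le_one_of_one_le_of_nonpos hN1' (by linarith)) (by norm_num) (by norm_num)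
  have hup := (abs_le.1 hmain).2
  rw [one_mul] at hup
  -- the product
  have hprod := prod_local hCM p hE N m hw4 hw2 hpf hl hm0.ne' (fun l => mean l (fun x => 1 - f l x))
    (fun l hl' => by
      have h5 := (hμ l hl').2.1
      have h6 : (2 : ℝ) ≤ l := by exact_mod_cast (mem_PP.1 hl').2.1.two_le
      have h7 : 2 / (l : ℝ) ≤ 1 := by
        rw [div_le_one (by linarith)]
        exact h6
      linarith) (fun l hl' => (hμ l hl').1) (fun l hl' => (hμ l hl').2.2)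
  have hmF : mean m F ≤ 2 ^ wn m / ((b : ℝ) * b') := by
    refine h2 b b' (by omega) (by omega) hcop fun l hlp hld => ?_
    exact h4 l (Nat.mem_primeFactors.2 ⟨hlp, hld, hm0.ne'⟩)
  -- the sum
  have hsum : ∑ x ∈ (Gam N 1 3).filter (fun x => b ∣ (dd x).natAbs ∧ b' ∣ (ee x).natAbs),
      (1 / 2 : ℝ) ^ oml p N w (mq x) = (1 / 2 : ℝ) ^ wn m * ∑ x ∈ Gam N 1 3,
        F x * ∏ l ∈ (PP p N).filter (fun l => ¬ l ∣ m), f l x := by
    rw [sum_filter, mul_sum]
    refine sum_congr rfl fun x hx => ?_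
    have hcr := mem_Gam_cross hx
    simp only [hF, hf]
    split_ifs with h5
    · rw [one_mul, prod_if_half, ← pow_add]
      congr 1
      unfold oml wn
      have e1 : m.primeFactors = ((PP p N).filter (fun l : ℕ => (l : ℝ) < w ∧ l ∣ mq x)).filter
          (fun l => l ∣ m) := by
        ext l
        rw [mem_filter, mem_filter]
        constructor
        · intro h
          refine ⟨⟨hP l h, hl l h, ?_⟩, Nat.dvd_of_mem_primeFactors h⟩
          rw [← natAbs_mul x hcr]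
          exact (Nat.dvd_of_mem_primeFactors h).trans (Nat.mul_dvd_mul h5.1 h5.2)
        · rintro ⟨⟨h6, _⟩, h7⟩
          exact Nat.mem_primeFactors.2 ⟨(mem_PP.1 h6).2.1, h7, hm0.ne'⟩
      have e2 : ((PP p N).filter (fun l => ¬ l ∣ m)).filter
          (fun l : ℕ => (l : ℝ) < w ∧ l ∣ mq x) =
          ((PP p N).filter (fun l : ℕ => (l : ℝ) < w ∧ l ∣ mq x)).filter
          (fun l => ¬ l ∣ m) := by
        rw [filter_filter, filter_filter]
        exact filter_congr fun l _ => and_comm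
      rw [e1, e2, card_filter_add_card_filter_not]
    · rw [zero_mul, mul_zero]
  rw [hsum]
  have hfm : fC b * fC b' = ∏ l ∈ m.primeFactors, (1 + 4 / (l : ℝ)) := fC_mul_eq hcop h4
  set S := ∑ x ∈ Gam N 1 3, F x * ∏ l ∈ (PP p N).filter (fun l => ¬ l ∣ m), f l x with hS
  set Pr := ∏ l ∈ (PP p N).filter (fun l => ¬ l ∣ m), (1 - mean l (fun x => 1 - f l x)) with hPr
  have hPr0 : 0 ≤ Pr := by
    refine prod_nonneg fun l hl' => ?_
    have h5 := (hμ l (mem_filter.1 hl').1).2.1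
    have h6 : (2 : ℝ) ≤ l := by exact_mod_cast (mem_PP.1 (mem_filter.1 hl').1).2.1.two_le
    have h7 : 2 / (l : ℝ) ≤ 1 := by
      rw [div_le_one (by linarith)]
      exact h6
    linarith
  have hmF0 : 0 ≤ mean m F := mean_nonneg fun x => by simp only [hF]; split_ifs <;> norm_num
  have hG0 : (0 : ℝ) ≤ (Gam N 1 3).card := Nat.cast_nonneg _
  have hS1 : S ≤ 2 * (((Gam N 1 3).card : ℝ) * mean m F * Pr) + (N : ℝ) ^ (1 - c) := by linarith
  have hb0 : (0 : ℝ) < b := by exact_mod_cast (by omega : 0 < b)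
  have hb0' : (0 : ℝ) < b' := by exact_mod_cast (by omega : 0 < b')
  have hmain2 : ((Gam N 1 3).card : ℝ) * mean m F * Pr ≤ ((Gam N 1 3).card : ℝ) *
      (2 ^ wn m / ((b : ℝ) * b')) * (Real.exp 3 * Real.exp (CM + 2 * p.E) / Real.log w *
        (fC b * fC b')) := by
    rw [hfm]
    exact mul_le_mul (mul_le_mul_of_nonneg_left hmF hG0) hprod hPr0 (by positivity)
  have h2wn : (1 / 2 : ℝ) ^ wn m * 2 ^ wn m = 1 := by
    rw [← mul_pow]; norm_num
  have hhalf : (1 / 2 : ℝ) ^ wn m ≤ 1 := pow_le_one₀ (by norm_num) (by norm_num)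
  have hNc : 0 ≤ (N : ℝ) ^ (1 - c) := Real.rpow_nonneg (by linarith) _
  calc (1 / 2 : ℝ) ^ wn m * S ≤ (1 / 2 : ℝ) ^ wn m *
        (2 * (((Gam N 1 3).card : ℝ) * mean m F * Pr) + (N : ℝ) ^ (1 - c)) :=
        mul_le_mul_of_nonneg_left hS1 (by positivity)
    _ = (1 / 2 : ℝ) ^ wn m * (2 * (((Gam N 1 3).card : ℝ) * mean m F * Pr)) +
        (1 / 2 : ℝ) ^ wn m * (N : ℝ) ^ (1 - c) := by ring
    _ ≤ (1 / 2 : ℝ) ^ wn m * (2 * (((Gam N 1 3).card : ℝ) *
      (2 ^ wn m / ((b : ℝ) * b')) * (Real.exp 3 * Real.exp (CM + 2 * p.E) / Real.log w *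
        (fC b * fC b')))) + 1 * (N : ℝ) ^ (1 - c) := by
        gcongr
    _ = ((1 / 2 : ℝ) ^ wn m * 2 ^ wn m) * (2 * (Real.exp 3 * Real.exp (CM + 2 * p.E)) *
        ((Gam N 1 3).card : ℝ) * (fC b * fC b' / ((b : ℝ) * b')) / Real.log w) +
          (N : ℝ) ^ (1 - c) := by
        field_simp
    _ = _ := by rw [h2wn, one_mul]

end

end Pool.Agent.Lib.MP391708.TF
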