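import Pool.Agent.Lib.MP_391708_nt.TF1.NuC
import Pool.Agent.Lib.MP_391708_nt.TF1.SlLD
import Pool.Agent.Lib.MP_391708_nt.TF.BrA

/-!
# Theorem T1a, group J: the local means `LM1`, `LM2`
-/

set_option autoImplicit false

namespace Pool.Agent.Lib.MP391708.TF

variable [Pool.Agent.Lib.MP391708.TF.Aa] [Pool.Agent.Lib.MP391708.TF.Frm]

open Finset Filter Topology
open Pool.Agent.Lib.MP391708.Eqd (V cross pairs)
open scoped Classical

namespace NuLM

lemma ind_dd {l : ℕ} (x : VV) : TF1.ind l 1 0 x = if l ∣ (dd x).natAbs then 1 else 0 := by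
  unfold TF1.ind dd
  refine if_congr ?_ rfl rfl
  rw [Int.natCast_dvd]
  simp

lemma ind_ee {l : ℕ} (x : VV) : TF1.ind l 0 1 x = if l ∣ (ee x).natAbs then 1 else 0 := by
  unfold TF1.ind ee
  refine if_congr ?_ rfl rfl
  rw [Int.natCast_dvd]
  simp

/-- on the classes modulo `l` -/
lemma mq_cls {l : ℕ} (hl : l.Prime) {x : VV} (hx : x ∈ cls l) :
    l ∣ mq x ↔ l ∣ (dd x).natAbs ∨ l ∣ (ee x).natAbs := by
  unfold cls at hx
  rw [mem_filter] at hx
  have h1 := hx.2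
  rw [dvd_mq_iff, ← Int.natCast_dvd, ← Int.natCast_dvd]
  have h2 : dd x * ee x = (mm x ^ 2 + aa) +
      (aa : ℤ) * ((cross x.1 x.2 + 1) * (cross x.1 x.2 - 1)) := by
    rw [← Frm.det]
    unfold dd ee mm nsq dot cross
    ring
  have hlp : Prime (l : ℤ) := Nat.prime_iff_prime_int.1 hl
  rw [← hlp.dvd_mul, h2]
  exact (dvd_add_left (dvd_mul_of_dvd_right (Dvd.dvd.mul_right h1 _) _)).symm

end NuLM

open NuLM

theorem specLM1 : SpecLM1 := by
  intro l hl h4
  have : Fact l.Prime := ⟨hl⟩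
  have hl0 : (0 : ℝ) < l := by exact_mod_cast hl.pos
  have hl1' : ¬ (l : ℤ) ∣ 1 := by
    intro hd
    have : l ∣ 1 := by exact_mod_cast hd
    exact hl.one_lt.ne' (Nat.dvd_one.1 this)
  have h1 : mean l (fun x => if l ∣ mq x then 1 else 0) =
      mean l (TF1.ind l 1 0) + mean l (TF1.ind l 0 1) -
        mean l (fun x => TF1.ind l 1 0 x * TF1.ind l 0 1 x) := by
    unfold mean
    rw [← add_div, ← sub_div, ← sum_add_distrib, ← sum_sub_distrib]
    congr 1
    refine sum_congr rfl fun x hx => ?_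
    rw [ind_dd, ind_ee]
    by_cases a1 : l ∣ (dd x).natAbs <;> by_cases a2 : l ∣ (ee x).natAbs <;>
      simp [mq_cls hl hx, a1, a2]
  rw [h1, mean_eq hl.pos, mean_eq hl.pos, mean_eq hl.pos,
    TF1.mn_ind_eq h4 (fun hh => hl1' hh.1), TF1.mn_ind_eq h4 (fun hh => hl1' hh.2),
    TF1.mn_ind2_eq h4 (by simpa using hl1')]
  field_simp
  ring

theorem specLM2 : SpecLM2 := by
  intro b b' hb hb' hco h4
  rw [mean_eq (Nat.mul_pos hb hb')]
  have h1 : (fun x : VV => if b ∣ (dd x).natAbs ∧ b' ∣ (ee x).natAbs then (1 : ℝ) else 0) =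
      fun x => TF1.ind b 1 0 x * TF1.ind b' 0 1 x := by
    funext x
    rw [ind_dd, ind_ee]
    by_cases a1 : b ∣ (dd x).natAbs <;> by_cases a2 : b' ∣ (ee x).natAbs <;> simp [a1, a2]
  have h0 : T1.mn (b * b') (fun x : VV => if b ∣ (dd x).natAbs ∧ b' ∣ (ee x).natAbs then (1 : ℝ)
      else 0) = T1.mn (b * b') (fun x => TF1.ind b 1 0 x * TF1.ind b' 0 1 x) := by
    rw [h1]
  rw [h0, TF1.mn_ind_mul hco hb.ne' hb'.ne']
  have hl1 : ∀ l : ℕ, l.Prime → ¬ (l : ℤ) ∣ 1 := by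
    intro l hl hd
    have : l ∣ 1 := by exact_mod_cast hd
    exact hl.one_lt.ne' (Nat.dvd_one.1 this)
  have h2 := TF1.mn_ind_le hb.ne' (s := 1) (t := 0)
    (TF1.coprime_of_spl fun l hl h => h4 l hl (Dvd.dvd.mul_right h b'))
    (fun l hl _ hh => hl1 l hl hh.1)
  have h3 := TF1.mn_ind_le hb'.ne' (s := 0) (t := 1)
    (TF1.coprime_of_spl fun l hl h => h4 l hl (Dvd.dvd.mul_left h b))
    (fun l hl _ hh => hl1 l hl hh.2)
  have h5 : wn (b * b') = b.primeFactors.card + b'.primeFactors.card := by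
    unfold wn
    rw [hco.primeFactors_mul, card_union_of_disjoint hco.disjoint_primeFactors]
  rw [h5]
  calc T1.mn b (TF1.ind b 1 0) * T1.mn b' (TF1.ind b' 0 1) ≤
        (2 ^ b.primeFactors.card / (b : ℝ)) * (2 ^ b'.primeFactors.card / (b' : ℝ)) :=
      mul_le_mul h2 h3 (T1.mn_nonneg (TF1.ind_nonneg _ _ _)) (by positivity)
    _ = _ := by
      rw [pow_add]
      field_simp

end Pool.Agent.Lib.MP391708.TF
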