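import Pool.Agent.Lib.MP_391708_nt.T1.Flg
import Pool.Agent.Lib.MP_391708_nt.TF.BasF

/-!
# T1a, group D: the fundamental lemma for unimodular pairs, form of determinant `a`
-/

set_option autoImplicit false

namespace Pool.Agent.Lib.MP391708.TF1

open Finset
open Pool.Agent.Lib.MP391708.Eqd (V cross pairs res)
open Pool.Agent.Lib.MP391708.T1 (Per mn mn_def lift sl gm mn_nonneg mn_le_one mn_prod mn_one_sub flw
  sum_per sl_card_le sl_card_pos Bd)
open Pool.Agent.Lib.MP391708.QPA (PB)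
open Pool.Agent.Lib.MP391708.TF (nsq dot)
open scoped Classical

variable [Pool.Agent.Lib.MP391708.TF.Aa] [Pool.Agent.Lib.MP391708.TF.Frm]

/-- the region: `T₁(d) < M ≤ T₂(d)`, `d = F(v)`, `M = B_F(v, w)` -/
def Reg (T₁ T₂ : ℝ → ℝ) (x : V × V) : Prop :=
  T₁ (nsq x.1) < (dot x.1 x.2 : ℝ) ∧ (dot x.1 x.2 : ℝ) ≤ T₂ (nsq x.1)

/-- **EQUID** for the form: unimodular pairs in a region and a residue class. -/
def SpecEquid : Prop :=
  ∀ L : ℝ, 1 ≤ L → ∃ K : ℝ, ∀ X Y : ℝ, 1 ≤ Y → Y ≤ L * X → ∀ T₁ T₂ : ℝ → ℝ, Bd L X Y T₁ T₂ →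
    ∀ M : ℕ, K * (X + 1) ^ 2 ≤ M → ∀ (q : ℕ) [NeZero q], ∀ r ∈ sl q,
      |(((pairs 1 M).filter (fun x => Reg T₁ T₂ x ∧ res q x = r)).card : ℝ) -
        (((pairs 1 M).filter (Reg T₁ T₂)).card : ℝ) / ((sl q).card : ℝ)| ≤
        K * (q : ℝ) ^ 8 * X * Y ^ (-(1 / 20) : ℝ)

/-- the region -/
noncomputable def RegS (T₁ T₂ : ℝ → ℝ) (M : ℕ) : Finset (V × V) :=
  (pairs 1 M).filter (Reg T₁ T₂)

/-- **FLG**: the fundamental lemma for unimodular pairs in a region. -/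
def SpecFlg : Prop :=
  ∀ κ : ℕ, ∃ C : ℝ, 0 < C ∧ ∀ L : ℝ, 1 ≤ L → ∃ K : ℝ, 0 < K ∧ ∀ X Y : ℝ, 1 ≤ Y → Y ≤ L * X →
    ∀ T₁ T₂ : ℝ → ℝ, Bd L X Y T₁ T₂ → ∀ M : ℕ, K * (X + 1) ^ 2 ≤ M →
    ∀ (b : ℕ) (z : ℝ), 2 ≤ z → ∀ m : ℕ, 0 < m →
    ∀ w : V × V → ℝ, Per m w → (∀ x, 0 ≤ w x ∧ w x ≤ 1) →
    ∀ f : ℕ → V × V → ℝ, (∀ l : ℕ, l.Prime → Per (l ^ 2) (f l) ∧ ∀ x, 0 ≤ f l x ∧ f l x ≤ 1) →
    (∀ l : ℕ, l.Prime → gm m f l ≤ κ / (l : ℝ) ∧ gm m f l ≤ 2 / 3) →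
    |(∑ x ∈ RegS T₁ T₂ M, w x * ∏ l ∈ (PB z).filter (fun l => ¬ l ∣ m), f l x) -
      (RegS T₁ T₂ M).card * mn m w * ∏ l ∈ PB z, (1 - gm m f l)| ≤
      C * Real.exp (-(b : ℝ)) *
        ((RegS T₁ T₂ M).card * mn m w * ∏ l ∈ PB z, (1 - gm m f l)) +
      K * (m : ℝ) ^ 12 * z ^ (25 * (8 * b + 16) + 1) * X * Y ^ (-(1 / 20) : ℝ)

theorem specFlg (hEq : SpecEquid) : SpecFlg := by
  intro κ
  obtain ⟨C, hC, hflw⟩ := flw κ
  refine ⟨C, hC, ?_⟩
  intro L hL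
  obtain ⟨K, hK⟩ := hEq L hL
  refine ⟨C * (|K| + 1) + |K|, by positivity, ?_⟩
  intro X Y hY hYX T₁ T₂ hB M hM b z hz m hm w hw hw01 f hf hg
  have hM : K * (X + 1) ^ 2 ≤ M := by
    refine le_trans (mul_le_mul_of_nonneg_right ?_ (sq_nonneg _)) hM
    have := le_abs_self K
    have h2 : 0 ≤ C * (|K| + 1) := by positivity
    linarith
  have hm0 : m ≠ 0 := hm.ne'
  set R := RegS T₁ T₂ M with hR
  have hRsub : R ⊆ pairs 1 M := Finset.filter_subset _ _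
  have hz0 : 0 < z := by linarith
  have hz1 : 1 ≤ z := by linarith
  have hX0 : 0 ≤ X := by
    by_contra h
    push Not at h
    nlinarith
  have hYp : 0 < Y := by linarith
  -- equidistribution of class functions
  have hper : ∀ (q : ℕ) (F : V × V → ℝ), q ≠ 0 → Per q F → (∀ x, |F x| ≤ 1) →
      |∑ x ∈ R, F x - R.card * mn q F| ≤ (|K| + 1) * (q : ℝ) ^ 12 * X * Y ^ (-(1 / 20) : ℝ) := by
    intro q F hq hF hF1
    have : NeZero q := ⟨hq⟩
    have h1 := sum_per (M := M) (q := q) hRsub hF hF1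
      (E := K * (q : ℝ) ^ 8 * X * Y ^ (-(1 / 20) : ℝ)) (by
        intro r hr
        have h2 := hK X Y hY hYX T₁ T₂ hB M hM q r hr
        have e1 : R.filter (fun x => res q x = r) =
            (pairs 1 M).filter (fun x => Reg T₁ T₂ x ∧ res q x = r) := by
          rw [hR, RegS, Finset.filter_filter]
        rw [e1]
        exact h2)
    refine h1.trans ?_
    have h3 : K ≤ |K| + 1 := by linarith [le_abs_self K]
    have h4 : 0 ≤ (q : ℝ) ^ 12 * X * Y ^ (-(1 / 20) : ℝ) := by positivity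
    calc (q : ℝ) ^ 4 * (K * (q : ℝ) ^ 8 * X * Y ^ (-(1 / 20) : ℝ)) =
        K * ((q : ℝ) ^ 12 * X * Y ^ (-(1 / 20) : ℝ)) := by ring
      _ ≤ (|K| + 1) * ((q : ℝ) ^ 12 * X * Y ^ (-(1 / 20) : ℝ)) :=
        mul_le_mul_of_nonneg_right h3 h4
      _ = _ := by ring
  set a : ℕ → V × V → ℝ := fun p x => if p ∣ m then 0 else 1 - f p x with ha
  have hmw : 0 ≤ mn m w := mn_nonneg fun x => (hw01 x).1
  have hg0 : ∀ p : ℕ, p.Prime → 0 ≤ gm m f p := by
    intro p hp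
    unfold gm
    split_ifs with h
    · exact le_rfl
    · have := mn_le_one (q := p ^ 2) (F := f p) (fun x => ((hf p hp).2 x).2)
      linarith
  have hmain := hflw b z hz R w a (R.card * mn m w) (gm m f) (by positivity)
    (fun x _ => (hw01 x).1)
    (by
      intro p hp x _
      rw [ha]
      simp only
      have := (hf p hp).2 x
      split_ifs
      · norm_num
      · constructor <;> linarith)
    (fun p hp => ⟨hg0 p hp, (hg p hp).1, (hg p hp).2⟩)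
  -- the sum on the left
  have eL : ∑ x ∈ R, w x * ∏ p ∈ PB z, (1 - a p x) =
      ∑ x ∈ R, w x * ∏ l ∈ (PB z).filter (fun l => ¬ l ∣ m), f l x := by
    refine Finset.sum_congr rfl fun x _ => ?_
    congr 1
    rw [Finset.prod_filter]
    refine Finset.prod_congr rfl fun p _ => ?_
    rw [ha]
    simp only
    by_cases h : p ∣ m
    · rw [if_pos h, if_neg (not_not.2 h)]; ring
    · rw [if_neg h, if_pos h]; ring
  rw [eL] at hmain
  -- the remainders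
  set Err : ℝ := (|K| + 1) * (m : ℝ) ^ 12 * z ^ (24 * (8 * b + 16)) * X *
    Y ^ (-(1 / 20) : ℝ) with hErr
  have hErr0 : 0 ≤ Err := by rw [hErr]; positivity
  have hrem : ∀ δ ∈ (Icc 1 ⌊z ^ (8 * b + 16)⌋₊).filter
      (fun δ => Squarefree δ ∧ ∀ p : ℕ, p.Prime → p ∣ δ → (p : ℝ) < z),
      |(∑ x ∈ R, w x * ∏ p ∈ δ.primeFactors, a p x) -
        R.card * mn m w * ∏ p ∈ δ.primeFactors, gm m f p| ≤ Err := by
    intro δ hδ
    rw [Finset.mem_filter, Finset.mem_Icc] at hδ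
    obtain ⟨⟨hδ1, hδ2⟩, hsq, -⟩ := hδ
    by_cases hbad : ∃ p ∈ δ.primeFactors, p ∣ m
    · obtain ⟨p, hp, hpm⟩ := hbad
      have e1 : ∏ p ∈ δ.primeFactors, gm m f p = 0 :=
        Finset.prod_eq_zero hp (by unfold gm; rw [if_pos hpm])
      have e2 : ∑ x ∈ R, w x * ∏ p ∈ δ.primeFactors, a p x = 0 := by
        refine Finset.sum_eq_zero fun x _ => ?_
        rw [Finset.prod_eq_zero hp (by rw [ha]; simp only; rw [if_pos hpm]), mul_zero]
      rw [e1, e2]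
      simpa using hErr0
    · push Not at hbad
      have hT : ∀ l ∈ δ.primeFactors, l.Prime ∧ ¬ l ∣ m :=
        fun l hl => ⟨Nat.prime_of_mem_primeFactors hl, hbad l hl⟩
      obtain ⟨h1, h2⟩ := mn_prod m hm0 hw (fun _ => 2) (fun l x => 1 - f l x) δ.primeFactors hT
        (fun l hl => fun x y hxy => by
          simp only
          rw [(hf l (hT l hl).1).1 x y hxy])
      have e1 : ∏ l ∈ δ.primeFactors, mn (l ^ 2) (fun x => 1 - f l x) =
          ∏ p ∈ δ.primeFactors, gm m f p := by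
        refine Finset.prod_congr rfl fun l hl => ?_
        have : NeZero (l ^ 2) := ⟨pow_ne_zero _ (hT l hl).1.ne_zero⟩
        rw [mn_one_sub]
        unfold gm
        rw [if_neg (hT l hl).2]
      have e2 : ∀ x, w x * ∏ p ∈ δ.primeFactors, a p x =
          w x * ∏ l ∈ δ.primeFactors, (1 - f l x) := by
        intro x
        congr 1
        refine Finset.prod_congr rfl fun p hp => ?_
        rw [ha]
        simp only
        rw [if_neg (hT p hp).2]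
      simp only [e2]
      rw [mul_assoc, ← e1, ← h2]
      have hq0 : m * ∏ l ∈ δ.primeFactors, l ^ 2 ≠ 0 :=
        mul_ne_zero hm0 (Finset.prod_ne_zero_iff.2 fun l hl => pow_ne_zero _ (hT l hl).1.ne_zero)
      refine (hper _ _ hq0 h1 ?_).trans ?_
      · intro x
        have hp : ∀ l ∈ δ.primeFactors, 0 ≤ 1 - f l x ∧ 1 - f l x ≤ 1 := by
          intro l hl
          have := (hf l (hT l hl).1).2 x
          constructor <;> linarith
        have h3 : 0 ≤ ∏ l ∈ δ.primeFactors, (1 - f l x) :=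
          Finset.prod_nonneg fun l hl => (hp l hl).1
        have h4 : ∏ l ∈ δ.primeFactors, (1 - f l x) ≤ 1 :=
          Finset.prod_le_one (fun l hl => (hp l hl).1) (fun l hl => (hp l hl).2)
        rw [abs_of_nonneg (mul_nonneg (hw01 x).1 h3)]
        calc w x * ∏ l ∈ δ.primeFactors, (1 - f l x) ≤ 1 * 1 :=
              mul_le_mul (hw01 x).2 h4 h3 zero_le_one
          _ = 1 := one_mul _
      · have e3 : ∏ l ∈ δ.primeFactors, l ^ 2 = δ ^ 2 := by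
          rw [Finset.prod_pow, Nat.prod_primeFactors_of_squarefree hsq]
        have h5 : (δ : ℝ) ≤ z ^ (8 * b + 16) :=
          (Nat.cast_le.2 hδ2).trans (Nat.floor_le (by positivity))
        rw [e3, hErr]
        push_cast
        have h6 : ((m : ℝ) * (δ : ℝ) ^ 2) ^ 12 ≤ (m : ℝ) ^ 12 * z ^ (24 * (8 * b + 16)) := by
          rw [mul_pow, ← pow_mul]
          refine mul_le_mul_of_nonneg_left ?_ (by positivity)
          calc (δ : ℝ) ^ (2 * 12) ≤ (z ^ (8 * b + 16)) ^ (2 * 12) :=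
                pow_le_pow_left₀ (Nat.cast_nonneg _) h5 _
            _ = z ^ (24 * (8 * b + 16)) := by rw [← pow_mul]; congr 1; ring
        have h7 : 0 ≤ (|K| + 1) := by positivity
        have h8 : 0 ≤ X * Y ^ (-(1 / 20) : ℝ) := by positivity
        calc (|K| + 1) * ((m : ℝ) * (δ : ℝ) ^ 2) ^ 12 * X * Y ^ (-(1 / 20) : ℝ) =
            (|K| + 1) * ((m : ℝ) * (δ : ℝ) ^ 2) ^ 12 * (X * Y ^ (-(1 / 20) : ℝ)) := by ring
          _ ≤ (|K| + 1) * ((m : ℝ) ^ 12 * z ^ (24 * (8 * b + 16))) *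
              (X * Y ^ (-(1 / 20) : ℝ)) :=
            mul_le_mul_of_nonneg_right (mul_le_mul_of_nonneg_left h6 h7) h8
          _ = _ := by ring
  have hsum : ∑ δ ∈ (Icc 1 ⌊z ^ (8 * b + 16)⌋₊).filter
      (fun δ => Squarefree δ ∧ ∀ p : ℕ, p.Prime → p ∣ δ → (p : ℝ) < z),
      |(∑ x ∈ R, w x * ∏ p ∈ δ.primeFactors, a p x) -
        R.card * mn m w * ∏ p ∈ δ.primeFactors, gm m f p| ≤ z ^ (8 * b + 16) * Err := by
    refine (Finset.sum_le_sum hrem).trans ?_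
    rw [Finset.sum_const, nsmul_eq_mul]
    refine mul_le_mul_of_nonneg_right ?_ hErr0
    calc ((((Icc 1 ⌊z ^ (8 * b + 16)⌋₊).filter
      (fun δ => Squarefree δ ∧ ∀ p : ℕ, p.Prime → p ∣ δ → (p : ℝ) < z)).card : ℕ) : ℝ) ≤
          ((Icc 1 ⌊z ^ (8 * b + 16)⌋₊).card : ℝ) := by
            exact_mod_cast Finset.card_filter_le _ _
      _ = (⌊z ^ (8 * b + 16)⌋₊ : ℝ) := by rw [Nat.card_Icc, Nat.add_sub_cancel]
      _ ≤ _ := Nat.floor_le (by positivity)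
  have hlog : 1 + Real.log z ≤ z := by
    have := Real.log_le_sub_one_of_pos hz0
    linarith
  have hlog0 : 0 ≤ 1 + Real.log z := by
    have := Real.log_nonneg hz1
    linarith
  refine hmain.trans ?_
  have h9 : C * (1 + Real.log z) * ∑ δ ∈ (Icc 1 ⌊z ^ (8 * b + 16)⌋₊).filter
      (fun δ => Squarefree δ ∧ ∀ p : ℕ, p.Prime → p ∣ δ → (p : ℝ) < z),
      |(∑ x ∈ R, w x * ∏ p ∈ δ.primeFactors, a p x) -
        R.card * mn m w * ∏ p ∈ δ.primeFactors, gm m f p| ≤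
      C * z * (z ^ (8 * b + 16) * Err) := by
    refine mul_le_mul (mul_le_mul_of_nonneg_left hlog hC.le) hsum
      (Finset.sum_nonneg fun _ _ => abs_nonneg _) (by positivity)
  have e5 : C * z * (z ^ (8 * b + 16) * Err) =
      C * (|K| + 1) * (m : ℝ) ^ 12 * z ^ (25 * (8 * b + 16) + 1) * X *
        Y ^ (-(1 / 20) : ℝ) := by
    rw [hErr, show 25 * (8 * b + 16) + 1 = 24 * (8 * b + 16) + (8 * b + 16) + 1 by ring,
      pow_succ, pow_add]
    ring
  rw [e5] at h9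
  have e6 : C * Real.exp (-(b : ℝ)) * (R.card * mn m w) * ∏ l ∈ PB z, (1 - gm m f l) =
      C * Real.exp (-(b : ℝ)) * (R.card * mn m w * ∏ l ∈ PB z, (1 - gm m f l)) := by ring
  have e7 : C * (|K| + 1) * (m : ℝ) ^ 12 * z ^ (25 * (8 * b + 16) + 1) * X *
        Y ^ (-(1 / 20) : ℝ) ≤ (C * (|K| + 1) + |K|) * (m : ℝ) ^ 12 *
        z ^ (25 * (8 * b + 16) + 1) * X * Y ^ (-(1 / 20) : ℝ) := by
    have h10 : 0 ≤ |K| := abs_nonneg K
    have h11 : 0 ≤ (m : ℝ) ^ 12 * z ^ (25 * (8 * b + 16) + 1) * X * Y ^ (-(1 / 20) : ℝ) := by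
      positivity
    nlinarith [mul_nonneg h10 h11]
  linarith

end Pool.Agent.Lib.MP391708.TF1
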