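import Pool.Agent.Lib.MP_391708_nt.TA.EqfQ
import Pool.Agent.Lib.MP_391708_nt.TF1.Flg

/-!
# T1a: EQUID for the form of determinant `a`
-/

set_option autoImplicit false

namespace Pool.Agent.Lib.MP391708.TF1

open Finset
open Pool.Agent.Lib.MP391708.Eqd (V cross pairs res)
open Pool.Agent.Lib.MP391708.T1 (sl Bd)
open Pool.Agent.Lib.MP391708.TF (nsq dot)
open scoped Classical

variable [Pool.Agent.Lib.MP391708.TF.Aa] [Pool.Agent.Lib.MP391708.TF.Frm]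

lemma reg_iff_regQ (T₁ T₂ : ℝ → ℝ) (x : V × V) :
    Reg T₁ T₂ x ↔ TA.RegQ TF.Frm.A TF.Frm.B TF.Frm.C T₁ T₂ x := by
  have e1 : nsq x.1 = TA.qv TF.Frm.A TF.Frm.B TF.Frm.C x.1 := by
    simp only [nsq, TA.qv]
  have e2 : dot x.1 x.2 = TA.qb TF.Frm.A TF.Frm.B TF.Frm.C x.1 x.2 := by
    simp only [dot, TA.qb]; ring
  unfold Reg TA.RegQ
  rw [e1, e2]

/-- **EQUID** for the form of determinant `a` -/
theorem equid : SpecEquid := by
  intro L hL
  have hdet : 0 < TF.Frm.A * TF.Frm.C - TF.Frm.B ^ 2 := by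
    rw [TF.Frm.det]
    have h : 0 < TF.aa := TF.Aa.ha
    exact_mod_cast h
  obtain ⟨K, hK⟩ := TA.specEquidQ TF.Frm.A TF.Frm.B TF.Frm.C TF.Frm.hA hdet L hL
  refine ⟨K, ?_⟩
  intro X Y hY hX T₁ T₂ hB M hM q hq0 r hr
  have h := hK X Y hY hX T₁ T₂ hB M hM q r hr
  have e1 : (pairs 1 M).filter (fun x => Reg T₁ T₂ x ∧ res q x = r) =
      (pairs 1 M).filter (fun x => TA.RegQ TF.Frm.A TF.Frm.B TF.Frm.C T₁ T₂ x ∧ res q x = r) := by
    apply filter_congr; intro x _; rw [reg_iff_regQ]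
  have e2 : (pairs 1 M).filter (Reg T₁ T₂) =
      (pairs 1 M).filter (TA.RegQ TF.Frm.A TF.Frm.B TF.Frm.C T₁ T₂) := by
    apply filter_congr; intro x _; rw [reg_iff_regQ]
  rw [e1, e2]
  exact h

end Pool.Agent.Lib.MP391708.TF1
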