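import Pool.Agent.Lib.MP_391708_nt.TF.Spec
import Pool.Agent.Lib.MP_391708_nt.T1.FuB

/-!
# T1a, group F1, part A: the moments of the numbers of prime divisors in two ranges

a-form of `T1/FuA.lean` and of `momk` of `T1/FuB.lean`.  `iv u x = 1` if `u ∣ nsq x.1`,
`iw v x = 1` if `v ∣ nsq x.2`.  The generic lemmas (`m2, a2, EqR, gen, mn_set, mom_typ, ...`) are
those of `T1`.
-/

set_option autoImplicit false

namespace Pool.Agent.Lib.MP391708.TF1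

open Finset
open Pool.Agent.Lib.MP391708.Eqd (V cross pairs res)
open Pool.Agent.Lib.MP391708.TF (aa nsq mm dd ee dot)
open Pool.Agent.Lib.MP391708.T1 (Per mn mn_mul mn_nonneg m2 a2 m2_ne m2_le m2_dvd cop_m2 mn_two sum_a2
  a2_nonneg EqR gen mn_set prod_le_B)
open scoped Classical

variable [Pool.Agent.Lib.MP391708.TF.Aa] [Pool.Agent.Lib.MP391708.TF.Frm]

/-- `u ∣ d` -/
noncomputable def iv (u : ℕ) (x : V × V) : ℝ := if (u : ℤ) ∣ nsq x.1 then 1 else 0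

/-- `v ∣ e` -/
noncomputable def iw (u : ℕ) (x : V × V) : ℝ := if (u : ℤ) ∣ nsq x.2 then 1 else 0

lemma iv_nonneg (u : ℕ) (x : V × V) : 0 ≤ iv u x := by unfold iv; split_ifs <;> norm_num
lemma iv_le_one (u : ℕ) (x : V × V) : iv u x ≤ 1 := by unfold iv; split_ifs <;> norm_num
lemma iw_nonneg (u : ℕ) (x : V × V) : 0 ≤ iw u x := by unfold iw; split_ifs <;> norm_num
lemma iw_le_one (u : ℕ) (x : V × V) : iw u x ≤ 1 := by unfold iw; split_ifs <;> norm_num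
lemma iv_sq (u : ℕ) (x : V × V) : iv u x * iv u x = iv u x := by
  unfold iv; split_ifs <;> norm_num
lemma iw_sq (u : ℕ) (x : V × V) : iw u x * iw u x = iw u x := by
  unfold iw; split_ifs <;> norm_num

lemma nsq_res {u : ℕ} {v w : V} (h1 : (v.1 : ZMod u) = w.1) (h2 : (v.2 : ZMod u) = w.2) :
    ((u : ℤ) ∣ nsq v ↔ (u : ℤ) ∣ nsq w) := by
  rw [← ZMod.intCast_zmod_eq_zero_iff_dvd, ← ZMod.intCast_zmod_eq_zero_iff_dvd]
  simp only [nsq]
  push_cast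
  rw [h1, h2]

lemma iv_per (u : ℕ) : Per u (iv u) := by
  intro x y h
  simp only [res, Prod.mk.injEq] at h
  unfold iv
  rw [if_congr (nsq_res h.1.1 h.1.2) rfl rfl]

lemma iw_per (u : ℕ) : Per u (iw u) := by
  intro x y h
  simp only [res, Prod.mk.injEq] at h
  unfold iw
  rw [if_congr (nsq_res h.2.1 h.2.2) rfl rfl]

/-- the number of prime divisors of `d` in `U` -/
noncomputable def nv (U : Finset ℕ) (x : V × V) : ℝ := ∑ u ∈ U, iv u x

/-- the number of prime divisors of `e` in `U` -/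
noncomputable def nw (U : Finset ℕ) (x : V × V) : ℝ := ∑ u ∈ U, iw u x

lemma nv_nonneg (U : Finset ℕ) (x : V × V) : 0 ≤ nv U x :=
  Finset.sum_nonneg fun _ _ => iv_nonneg _ _

lemma nw_nonneg (U : Finset ℕ) (x : V × V) : 0 ≤ nw U x :=
  Finset.sum_nonneg fun _ _ => iw_nonneg _ _

/-- first moment -/
theorem mom1 {R : Finset (V × V)} {Q B B' : ℕ} {Er : ℝ} (hR : EqR R Q Er) {U W : Finset ℕ}
    {a b : ℕ → ℝ} (hU : ∀ u ∈ U, u.Prime ∧ u ≤ B ∧ mn u (iv u) = a u)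
    (hW : ∀ v ∈ W, v.Prime ∧ v ≤ B' ∧ mn v (iw v) = b v) (hUW : Disjoint U W)
    (hQ : B * B' ≤ Q) :
    |∑ x ∈ R, nv U x * nw W x - R.card * ((∑ u ∈ U, a u) * ∑ v ∈ W, b v)| ≤
      U.card * W.card * Er := by
  have e1 : ∑ x ∈ R, nv U x * nw W x - R.card * ((∑ u ∈ U, a u) * ∑ v ∈ W, b v) =
      ∑ u ∈ U, ∑ v ∈ W, (∑ x ∈ R, iv u x * iw v x - R.card * (a u * b v)) := by
    have e2 : ∑ x ∈ R, nv U x * nw W x = ∑ u ∈ U, ∑ v ∈ W, ∑ x ∈ R, iv u x * iw v x := by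
      have : ∀ x ∈ R, nv U x * nw W x = ∑ u ∈ U, ∑ v ∈ W, iv u x * iw v x := by
        intro x _
        unfold nv nw
        rw [Finset.sum_mul_sum]
      rw [Finset.sum_congr rfl this, Finset.sum_comm]
      refine Finset.sum_congr rfl fun u _ => ?_
      rw [Finset.sum_comm]
    rw [e2, Finset.sum_mul_sum, Finset.mul_sum, ← Finset.sum_sub_distrib]
    refine Finset.sum_congr rfl fun u _ => ?_
    rw [Finset.mul_sum, ← Finset.sum_sub_distrib]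
  rw [e1]
  have h1 : ∀ u ∈ U, ∀ v ∈ W, |∑ x ∈ R, iv u x * iw v x - R.card * (a u * b v)| ≤ Er := by
    intro u hu v hv
    obtain ⟨hup, huB, hua⟩ := hU u hu
    obtain ⟨hvp, hvB, hvb⟩ := hW v hv
    have hne : u ≠ v := by
      rintro rfl
      exact (Finset.disjoint_left.1 hUW hu) hv
    have hc : u.Coprime v := (Nat.coprime_primes hup hvp).2 hne
    have h2 := hR (u * v) (mul_ne_zero hup.ne_zero hvp.ne_zero)
      ((Nat.mul_le_mul huB hvB).trans hQ) (fun x => iv u x * iw v x)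
      (((iv_per u).mono (dvd_mul_right _ _)).mul ((iw_per v).mono (dvd_mul_left _ _)))
      (fun x => ⟨mul_nonneg (iv_nonneg _ _) (iw_nonneg _ _),
        mul_le_one₀ (iv_le_one _ _) (iw_nonneg _ _) (iw_le_one _ _)⟩)
    rwa [mn_mul hc hup.ne_zero hvp.ne_zero (iv_per u) (iw_per v), hua, hvb] at h2
  refine (Finset.abs_sum_le_sum_abs _ _).trans ?_
  have h3 : ∀ u ∈ U, |∑ v ∈ W, (∑ x ∈ R, iv u x * iw v x - R.card * (a u * b v))| ≤
      W.card * Er := by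
    intro u hu
    refine (Finset.abs_sum_le_sum_abs _ _).trans ?_
    refine (Finset.sum_le_sum (h1 u hu)).trans ?_
    rw [Finset.sum_const, nsmul_eq_mul]
  refine (Finset.sum_le_sum h3).trans ?_
  rw [Finset.sum_const, nsmul_eq_mul]
  exact le_of_eq (by ring)

/-- mixed second moment -/
theorem mom2 {R : Finset (V × V)} {Q B B' : ℕ} {Er : ℝ} (hR : EqR R Q Er) {U W : Finset ℕ}
    {a b : ℕ → ℝ} (hU : ∀ u ∈ U, u.Prime ∧ u ≤ B ∧ mn u (iv u) = a u)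
    (hW : ∀ v ∈ W, v.Prime ∧ v ≤ B' ∧ mn v (iw v) = b v) (hUW : Disjoint U W)
    (hQ : B ^ 2 * B' ^ 2 ≤ Q) :
    ∑ x ∈ R, nv U x ^ 2 * nw W x ^ 2 ≤
      R.card * (((∑ u ∈ U, a u) ^ 2 + ∑ u ∈ U, a u) * ((∑ v ∈ W, b v) ^ 2 + ∑ v ∈ W, b v)) +
      (U.card : ℝ) ^ 2 * (W.card : ℝ) ^ 2 * Er := by
  have ha : ∀ u ∈ U, 0 ≤ a u := fun u hu => by
    rw [← (hU u hu).2.2]; exact mn_nonneg (iv_nonneg u)
  have hb : ∀ v ∈ W, 0 ≤ b v := fun v hv => by
    rw [← (hW v hv).2.2]; exact mn_nonneg (iw_nonneg v)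
  have e1 : ∑ x ∈ R, nv U x ^ 2 * nw W x ^ 2 =
      ∑ u ∈ U, ∑ u' ∈ U, ∑ v ∈ W, ∑ v' ∈ W,
        ∑ x ∈ R, (iv u x * iv u' x) * (iw v x * iw v' x) := by
    have : ∀ x ∈ R, nv U x ^ 2 * nw W x ^ 2 =
        ∑ u ∈ U, ∑ u' ∈ U, ∑ v ∈ W, ∑ v' ∈ W, (iv u x * iv u' x) * (iw v x * iw v' x) := by
      intro x _
      unfold nv nw
      rw [sq, sq, Finset.sum_mul_sum, Finset.sum_mul_sum, Finset.sum_mul]
      refine Finset.sum_congr rfl fun u _ => ?_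
      rw [Finset.sum_mul]
      refine Finset.sum_congr rfl fun u' _ => ?_
      rw [Finset.mul_sum]
      refine Finset.sum_congr rfl fun v _ => ?_
      rw [Finset.mul_sum]
    rw [Finset.sum_congr rfl this, Finset.sum_comm]
    refine Finset.sum_congr rfl fun u _ => ?_
    rw [Finset.sum_comm]
    refine Finset.sum_congr rfl fun u' _ => ?_
    rw [Finset.sum_comm]
    refine Finset.sum_congr rfl fun v _ => ?_
    rw [Finset.sum_comm]
  have h1 : ∀ u ∈ U, ∀ u' ∈ U, ∀ v ∈ W, ∀ v' ∈ W,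
      ∑ x ∈ R, (iv u x * iv u' x) * (iw v x * iw v' x) ≤
        R.card * (a2 a u u' * a2 b v v') + Er := by
    intro u hu u' hu' v hv v' hv'
    obtain ⟨hup, huB, hua⟩ := hU u hu
    obtain ⟨hup', huB', hua'⟩ := hU u' hu'
    obtain ⟨hvp, hvB, hvb⟩ := hW v hv
    obtain ⟨hvp', hvB', hvb'⟩ := hW v' hv'
    obtain ⟨p1, p2⟩ := mn_two iv_per iv_sq (a := a) hup hup' hua hua'
    obtain ⟨q1, q2⟩ := mn_two iw_per iw_sq (a := b) hvp hvp' hvb hvb'
    have hne : ∀ s ∈ U, ∀ t ∈ W, s.Prime → t.Prime → s.Coprime t := by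
      intro s hs t ht hsp htp
      refine (Nat.coprime_primes hsp htp).2 ?_
      rintro rfl
      exact (Finset.disjoint_left.1 hUW hs) ht
    have hc : (m2 u u').Coprime (m2 v v') := by
      refine cop_m2 ?_
      refine Nat.Coprime.mul_left ?_ ?_
      · exact Nat.Coprime.mul_right (hne u hu v hv hup hvp) (hne u hu v' hv' hup hvp')
      · exact Nat.Coprime.mul_right (hne u' hu' v hv hup' hvp) (hne u' hu' v' hv' hup' hvp')
    have h2 := hR (m2 u u' * m2 v v') (mul_ne_zero (m2_ne hup hup') (m2_ne hvp hvp'))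
      ((Nat.mul_le_mul (m2_le hup huB huB') (m2_le hvp hvB hvB')).trans hQ)
      (fun x => (iv u x * iv u' x) * (iw v x * iw v' x))
      ((p1.mono (dvd_mul_right _ _)).mul (q1.mono (dvd_mul_left _ _)))
      (fun x => ⟨mul_nonneg (mul_nonneg (iv_nonneg _ _) (iv_nonneg _ _))
          (mul_nonneg (iw_nonneg _ _) (iw_nonneg _ _)),
        mul_le_one₀ (mul_le_one₀ (iv_le_one _ _) (iv_nonneg _ _) (iv_le_one _ _))
          (mul_nonneg (iw_nonneg _ _) (iw_nonneg _ _))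
          (mul_le_one₀ (iw_le_one _ _) (iw_nonneg _ _) (iw_le_one _ _))⟩)
    rw [mn_mul hc (m2_ne hup hup') (m2_ne hvp hvp') p1 q1, p2, q2] at h2
    have := (abs_le.1 h2).2
    linarith
  rw [e1]
  have h2 : ∑ u ∈ U, ∑ u' ∈ U, ∑ v ∈ W, ∑ v' ∈ W,
        ∑ x ∈ R, (iv u x * iv u' x) * (iw v x * iw v' x) ≤
      ∑ u ∈ U, ∑ u' ∈ U, ∑ v ∈ W, ∑ v' ∈ W, (R.card * (a2 a u u' * a2 b v v') + Er) :=
    Finset.sum_le_sum fun u hu => Finset.sum_le_sum fun u' hu' => Finset.sum_le_sum fun v hv =>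
      Finset.sum_le_sum fun v' hv' => h1 u hu u' hu' v hv v' hv'
  refine h2.trans ?_
  have e3 : ∑ u ∈ U, ∑ u' ∈ U, ∑ v ∈ W, ∑ v' ∈ W, (R.card * (a2 a u u' * a2 b v v') + Er) =
      R.card * ((∑ u ∈ U, ∑ u' ∈ U, a2 a u u') * ∑ v ∈ W, ∑ v' ∈ W, a2 b v v') +
      (U.card : ℝ) ^ 2 * (W.card : ℝ) ^ 2 * Er := by
    simp only [Finset.sum_add_distrib, Finset.sum_const, nsmul_eq_mul]
    rw [Finset.sum_mul, Finset.mul_sum]
    congr 1
    · refine Finset.sum_congr rfl fun u _ => ?_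
      rw [Finset.sum_mul, Finset.mul_sum]
      refine Finset.sum_congr rfl fun u' _ => ?_
      rw [Finset.mul_sum, Finset.mul_sum]
      refine Finset.sum_congr rfl fun v _ => ?_
      rw [Finset.mul_sum, Finset.mul_sum]
    · ring
  rw [e3]
  have h4 : (∑ u ∈ U, ∑ u' ∈ U, a2 a u u') * ∑ v ∈ W, ∑ v' ∈ W, a2 b v v' ≤
      ((∑ u ∈ U, a u) ^ 2 + ∑ u ∈ U, a u) * ((∑ v ∈ W, b v) ^ 2 + ∑ v ∈ W, b v) := by
    refine mul_le_mul (sum_a2 ha) (sum_a2 hb) ?_ ?_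
    · exact Finset.sum_nonneg fun v hv => Finset.sum_nonneg fun v' hv' => a2_nonneg hb hv hv'
    · have := Finset.sum_nonneg ha
      positivity
  have := mul_le_mul_of_nonneg_left h4 (Nat.cast_nonneg R.card : (0 : ℝ) ≤ R.card)
  linarith

/-- **all mixed moments** -/
theorem momk {R : Finset (V × V)} {Q B B' : ℕ} {Er : ℝ} (hR : EqR R Q Er) {U W : Finset ℕ}
    {a b : ℕ → ℝ} (hU : ∀ u ∈ U, u.Prime ∧ u ≤ B ∧ mn u (iv u) = a u)
    (hW : ∀ v ∈ W, v.Prime ∧ v ≤ B' ∧ mn v (iw v) = b v) (hUW : Disjoint U W)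
    (i j : ℕ) (hB : 1 ≤ B) (hB' : 1 ≤ B') (hQ : B ^ i * B' ^ j ≤ Q) :
    ∑ x ∈ R, nv U x ^ i * nw W x ^ j ≤
      R.card * ((∏ t ∈ range i, ((∑ u ∈ U, a u) + t)) * ∏ t ∈ range j, ((∑ v ∈ W, b v) + t)) +
      (U.card : ℝ) ^ i * (W.card : ℝ) ^ j * Er := by
  have ha : ∀ u ∈ U, 0 ≤ a u := fun u hu => by
    rw [← (hU u hu).2.2]; exact mn_nonneg (iv_nonneg u)
  have hb : ∀ v ∈ W, 0 ≤ b v := fun v hv => by
    rw [← (hW v hv).2.2]; exact mn_nonneg (iw_nonneg v)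
  have h1 : ∀ S ⊆ U, S.card ≤ i → ∀ T ⊆ W, T.card ≤ j →
      ∑ x ∈ R, (∏ u ∈ S, iv u x) * ∏ v ∈ T, iw v x ≤
        R.card * (∏ u ∈ S, a u) * (∏ v ∈ T, b v) + Er := by
    intro S hS hSc T hT hTc
    obtain ⟨p1, p2⟩ := mn_set iv_per (a := a) S (fun u hu => ⟨(hU u (hS hu)).1, (hU u (hS hu)).2.2⟩)
    obtain ⟨q1, q2⟩ := mn_set iw_per (a := b) T (fun u hu => ⟨(hW u (hT hu)).1, (hW u (hT hu)).2.2⟩)
    have hS0 : ∏ u ∈ S, u ≠ 0 := Finset.prod_ne_zero_iff.2 fun u hu => (hU u (hS hu)).1.ne_zero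
    have hT0 : ∏ u ∈ T, u ≠ 0 := Finset.prod_ne_zero_iff.2 fun u hu => (hW u (hT hu)).1.ne_zero
    have hc : (∏ u ∈ S, u).Coprime (∏ u ∈ T, u) := by
      refine Nat.Coprime.prod_left fun u hu => Nat.Coprime.prod_right fun v hv => ?_
      refine (Nat.coprime_primes (hU u (hS hu)).1 (hW v (hT hv)).1).2 ?_
      rintro rfl
      exact (Finset.disjoint_left.1 hUW (hS hu)) (hT hv)
    have h2 := hR ((∏ u ∈ S, u) * ∏ u ∈ T, u) (mul_ne_zero hS0 hT0)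
      ((Nat.mul_le_mul (prod_le_B hB (fun u hu => (hU u (hS hu)).2.1) hSc)
        (prod_le_B hB' (fun u hu => (hW u (hT hu)).2.1) hTc)).trans hQ)
      (fun x => (∏ u ∈ S, iv u x) * ∏ v ∈ T, iw v x)
      ((p1.mono (dvd_mul_right _ _)).mul (q1.mono (dvd_mul_left _ _)))
      (fun x => by
        have n1 : 0 ≤ ∏ u ∈ S, iv u x := Finset.prod_nonneg fun u _ => iv_nonneg _ _
        have n2 : 0 ≤ ∏ u ∈ T, iw u x := Finset.prod_nonneg fun u _ => iw_nonneg _ _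
        have n3 : ∏ u ∈ S, iv u x ≤ 1 :=
          Finset.prod_le_one (fun u _ => iv_nonneg _ _) fun u _ => iv_le_one _ _
        have n4 : ∏ u ∈ T, iw u x ≤ 1 :=
          Finset.prod_le_one (fun u _ => iw_nonneg _ _) fun u _ => iw_le_one _ _
        exact ⟨mul_nonneg n1 n2, mul_le_one₀ n3 n2 n4⟩)
    rw [mn_mul hc hS0 hT0 p1 q1, p2, q2] at h2
    have := (abs_le.1 h2).2
    nlinarith
  have h2 : ∀ S ⊆ U, S.card ≤ i → ∑ x ∈ R, (∏ u ∈ S, iv u x) * nw W x ^ j ≤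
      (R.card * (∏ u ∈ S, a u)) * (∏ t ∈ range j, ((∑ v ∈ W, b v) + t)) +
        (W.card : ℝ) ^ j * Er := by
    intro S hS hSc
    refine gen R W iw (fun x => ∏ u ∈ S, iv u x) b iw_sq hb ?_ ?_
    · exact mul_nonneg (Nat.cast_nonneg _) (Finset.prod_nonneg fun u hu => ha u (hS hu))
    · intro T hT hTc
      exact h1 S hS hSc T hT hTc
  have h3 := gen R U iv (fun x => nw W x ^ j) a (k := i)
    (X := R.card * ∏ t ∈ range j, ((∑ v ∈ W, b v) + t)) (Y := (W.card : ℝ) ^ j * Er)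
    iv_sq ha
    (mul_nonneg (Nat.cast_nonneg _) (Finset.prod_nonneg fun t _ => by
      have := Finset.sum_nonneg hb; positivity))
    (by
      intro S hS hSc
      have h4 := h2 S hS hSc
      calc ∑ x ∈ R, nw W x ^ j * ∏ u ∈ S, iv u x = ∑ x ∈ R, (∏ u ∈ S, iv u x) * nw W x ^ j :=
            Finset.sum_congr rfl fun x _ => mul_comm _ _
        _ ≤ _ := h4
        _ = _ := by ring)
  calc ∑ x ∈ R, nv U x ^ i * nw W x ^ j = ∑ x ∈ R, nw W x ^ j * (∑ u ∈ U, iv u x) ^ i :=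
        Finset.sum_congr rfl fun x _ => by unfold nv; ring
    _ ≤ _ := h3
    _ = _ := by ring

end Pool.Agent.Lib.MP391708.TF1
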