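import Pool.Agent.Lib.MP_391708_nt.T1.LocD
import Pool.Agent.Lib.MP_391708_nt.TF.Spec

/-!
# T1a: local means of the form over the unimodular classes modulo a prime power

The a-form of `T1/LocM.lean`.  For `l ∤ 2a` the primitive zeros of `F` modulo `l^k` are the
`t · vs(s)`, `s² = -a`, `t` a unit; for all primes there is the crude bound `mn_norm_crude`.
-/

set_option autoImplicit false

namespace Pool.Agent.Lib.MP391708.TF1

open Pool.Agent.Lib.MP391708.TF

variable [Pool.Agent.Lib.MP391708.TF.Aa] [Pool.Agent.Lib.MP391708.TF.Frm]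

open Finset
open Pool.Agent.Lib.MP391708.Eqd (V cross pairs res)
open Pool.Agent.Lib.MP391708.T1 (sl R4 lift mn mn_def res_lift mem_sl mn_le_one mn_const sl_card_pos)
open scoped Classical

namespace LocM

export Pool.Agent.Lib.MP391708.T1.LocM (lin lin_one_zero lin_zero_one card_sl mn_pow red red_mem
  isUnit_iff isUnit_or not_isUnit_add card_units sum_sl_fst sum_lin sum_act totient_pp two_isUnit
  one_sub_sq prim card_prim_real)

/-! ### Units -/

omit [TF.Frm] in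
lemma aa_pos : 0 < aa := Aa.ha

omit [TF.Frm] in
/-- a split prime is odd, does not divide `a`, and `-a` is a square modulo it -/
lemma spl_spec {l : ℕ} (hl : l.Prime) (h : spl l) :
    l ≠ 2 ∧ ¬ l ∣ 2 * aa ∧ ∃ s : ℤ, (l : ℤ) ∣ s ^ 2 + (aa : ℤ) := by
  have h0 : TA.chz (aa : ℤ) l ≠ 0 := by unfold spl at h; rw [h]; norm_num
  have h1 : l.Coprime (2 * aa) := by
    by_contra hc
    exact h0 ((TA.chz_eq_zero_iff hl.ne_zero).2 (by simpa using hc))
  have h2 : ¬ l ∣ 2 * aa := (Nat.Prime.coprime_iff_not_dvd hl).1 h1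
  have h3 : l ≠ 2 := by rintro rfl; exact h2 (Dvd.intro _ rfl)
  have h4 : ¬ (l : ℤ) ∣ (aa : ℤ) := by
    intro hd
    exact h2 (Dvd.dvd.mul_left (Int.natCast_dvd_natCast.1 hd) 2)
  exact ⟨h3, h2, (TA.chz_prime_one hl h3 h4).1 h⟩

omit [TF.Aa] [TF.Frm] in
lemma unit_nat {l k : ℕ} (hl : l.Prime) (hk : 0 < k) {n : ℕ} (h : ¬ l ∣ n) :
    IsUnit ((n : ℕ) : ZMod (l ^ k)) := (ZMod.isUnit_natCast_iff_not_dvd_pow hl hk).2 h

omit [TF.Frm] in
lemma unit_two {l k : ℕ} (hl : l.Prime) (hk : 0 < k) (h : ¬ l ∣ 2 * aa) :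
    IsUnit (2 : ZMod (l ^ k)) := by
  have h1 := unit_nat hl hk (n := 2) (fun hd => h (hd.mul_right _))
  exact_mod_cast h1

omit [TF.Frm] in
lemma unit_aa {l k : ℕ} (hl : l.Prime) (hk : 0 < k) (h : ¬ l ∣ 2 * aa) :
    IsUnit ((aa : ℕ) : ZMod (l ^ k)) := unit_nat hl hk (fun hd => h (hd.mul_left _))

omit [TF.Aa] [TF.Frm] in
lemma unit_int {l k : ℕ} (hl : l.Prime) (hk : 0 < k) {n : ℤ} (h : ¬ (l : ℤ) ∣ n) :
    IsUnit ((n : ℤ) : ZMod (l ^ k)) := by
  have hz : NeZero (l ^ k) := ⟨pow_ne_zero _ hl.ne_zero⟩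
  rw [isUnit_iff hl hk]
  intro hd
  apply h
  have e : (((n : ZMod (l ^ k)).val : ℤ) : ZMod (l ^ k)) = (n : ZMod (l ^ k)) := by simp
  rw [ZMod.intCast_eq_intCast_iff_dvd_sub] at e
  have h1 : (l : ℤ) ∣ n - ((n : ZMod (l ^ k)).val : ℤ) :=
    (Int.natCast_dvd_natCast.2 (dvd_pow_self l hk.ne')).trans e
  have h2 : (l : ℤ) ∣ ((n : ZMod (l ^ k)).val : ℤ) := by exact_mod_cast hd
  have := dvd_add h1 h2
  rwa [sub_add_cancel] at this

/-! ### The form modulo `q` -/

/-- the residue of the form -/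
def fr {q : ℕ} (v : ZMod q × ZMod q) : ZMod q :=
  (Frm.A : ZMod q) * v.1 ^ 2 + 2 * (Frm.B : ZMod q) * v.1 * v.2 + (Frm.C : ZMod q) * v.2 ^ 2

/-- the residue of the bilinear form -/
def dr {q : ℕ} (r : R4 q) : ZMod q :=
  (Frm.A : ZMod q) * (r.1.1 * r.2.1) + (Frm.B : ZMod q) * (r.1.1 * r.2.2 + r.1.2 * r.2.1) +
    (Frm.C : ZMod q) * (r.1.2 * r.2.2)

lemma det_eq (q : ℕ) : (Frm.A : ZMod q) * (Frm.C : ZMod q) - (Frm.B : ZMod q) ^ 2 =
    ((aa : ℕ) : ZMod q) := by
  have h := congrArg (fun z : ℤ => (z : ZMod q)) (Frm.det : Frm.A * Frm.C - Frm.B ^ 2 = (aa : ℤ))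
  push_cast at h
  exact h

lemma fr_zero_iff {q : ℕ} {v : ZMod q × ZMod q} : fr v = 0 ↔
    v.1 * ((Frm.A : ZMod q) * v.1 + (Frm.B : ZMod q) * v.2) +
      v.2 * ((Frm.B : ZMod q) * v.1 + (Frm.C : ZMod q) * v.2) = 0 := by
  unfold fr
  constructor
  · intro h; linear_combination h
  · intro h; linear_combination h

omit [TF.Frm] in
/-- square roots of `-a` -/
noncomputable def iot (q : ℕ) [NeZero q] : Finset (ZMod q) :=
  univ.filter (fun s => s * s = -((aa : ℕ) : ZMod q))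

omit [TF.Frm] in
lemma mem_iot {q : ℕ} [NeZero q] {s : ZMod q} : s ∈ iot q ↔ s * s = -((aa : ℕ) : ZMod q) := by
  rw [iot, Finset.mem_filter]
  exact ⟨fun h => h.2, fun h => ⟨Finset.mem_univ _, h⟩⟩

omit [TF.Frm] in
lemma unit_iot {l k : ℕ} (hl : l.Prime) (hk : 0 < k) (h : ¬ l ∣ 2 * aa) {s : ZMod (l ^ k)}
    (hs : s * s = -((aa : ℕ) : ZMod (l ^ k))) : IsUnit s := by
  have h1 : IsUnit (s * s) := by rw [hs]; exact (unit_aa hl hk h).neg
  exact isUnit_of_mul_isUnit_left h1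

omit [TF.Frm] in
/-- two square roots of `-a` are equal or opposite -/
lemma iot_pm {l k : ℕ} (hl : l.Prime) (hk : 0 < k) (h : ¬ l ∣ 2 * aa) {s s' : ZMod (l ^ k)}
    (hs : s * s = -((aa : ℕ) : ZMod (l ^ k))) (hs' : s' * s' = -((aa : ℕ) : ZMod (l ^ k))) :
    s' = s ∨ s' = -s := by
  have h1 : (s' - s) * (s' + s) = 0 := by linear_combination hs' - hs
  have h2 : IsUnit ((s' + s) + -(s' - s)) := by
    have e : (s' + s) + -(s' - s) = 2 * s := by ring
    rw [e]
    exact (unit_two hl hk h).mul (unit_iot hl hk h hs)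
  rcases isUnit_or hl hk h2 with h | h
  · left
    have := (h.mul_left_eq_zero).1 h1
    linear_combination this
  · right
    have h3 : IsUnit (s' - s) := (IsUnit.neg_iff _).1 h
    have := (h3.mul_right_eq_zero).1 h1
    linear_combination this

omit [TF.Frm] in
lemma card_iot_le {l k : ℕ} (hl : l.Prime) (hk : 0 < k) (h : ¬ l ∣ 2 * aa) [NeZero (l ^ k)] :
    (iot (l ^ k)).card ≤ 2 := by
  rcases (iot (l ^ k)).eq_empty_or_nonempty with h' | ⟨s, hs⟩
  · rw [h']; simp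
  · have : iot (l ^ k) ⊆ {s, -s} := by
      intro s' hs'
      rw [mem_iot] at hs hs'
      rw [Finset.mem_insert, Finset.mem_singleton]
      exact iot_pm hl hk h hs hs'
    exact (Finset.card_le_card this).trans Finset.card_le_two

omit [TF.Frm] in
lemma card_iot_eq {l : ℕ} (hl : l.Prime) (hs : spl l) [NeZero (l ^ 1)] :
    (iot (l ^ 1)).card = 2 := by
  obtain ⟨-, h2, s₀, hs₀⟩ := spl_spec hl hs
  have h3 : ((s₀ : ℤ) : ZMod (l ^ 1)) * ((s₀ : ℤ) : ZMod (l ^ 1)) =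
      -((aa : ℕ) : ZMod (l ^ 1)) := by
    have h4 : (((l ^ 1 : ℕ) : ℤ)) ∣ s₀ ^ 2 + (aa : ℤ) := by rw [pow_one]; exact hs₀
    rw [← ZMod.intCast_zmod_eq_zero_iff_dvd] at h4
    push_cast at h4
    linear_combination h4
  set s : ZMod (l ^ 1) := ((s₀ : ℤ) : ZMod (l ^ 1))
  refine le_antisymm (card_iot_le hl one_pos h2) ?_
  have hne : s ≠ -s := by
    intro h
    have h1 : (2 : ZMod (l ^ 1)) * s = 0 := by linear_combination h
    have h5 := ((unit_two hl one_pos h2).mul_right_eq_zero).1 h1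
    have h6 := unit_iot hl one_pos h2 h3
    rw [h5] at h6
    have : Fact (1 < l ^ 1) := ⟨by rw [pow_one]; exact hl.one_lt⟩
    exact not_isUnit_zero h6
  rw [← Finset.card_pair hne]
  refine Finset.card_le_card ?_
  intro x hx
  rw [Finset.mem_insert, Finset.mem_singleton] at hx
  rw [mem_iot]
  rcases hx with rfl | rfl
  · exact h3
  · rw [neg_mul_neg]; exact h3

omit [TF.Frm] in
lemma iot_empty {l : ℕ} (hl : l.Prime) (hla : ¬ l ∣ 2 * aa) (hs : ¬ spl l) [NeZero (l ^ 1)] :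
    iot (l ^ 1) = ∅ := by
  rw [Finset.eq_empty_iff_forall_notMem]
  intro x hx
  rw [mem_iot] at hx
  apply hs
  have h2 : l ≠ 2 := by rintro rfl; exact hla (Dvd.intro _ rfl)
  have h4 : ¬ (l : ℤ) ∣ (aa : ℤ) := by
    intro hd
    exact hla (Dvd.dvd.mul_left (Int.natCast_dvd_natCast.1 hd) 2)
  refine (TA.chz_prime_one hl h2 h4).2 ⟨(x.val : ℤ), ?_⟩
  have h5 : ((l ^ 1 : ℕ) : ℤ) ∣ (x.val : ℤ) ^ 2 + (aa : ℤ) := by
    rw [← ZMod.intCast_zmod_eq_zero_iff_dvd]
    push_cast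
    rw [ZMod.natCast_zmod_val]
    linear_combination hx
  have e5 : ((l ^ 1 : ℕ) : ℤ) = (l : ℤ) := by push_cast; ring
  rwa [e5] at h5

/-! ### Primitive zeros for `l ∤ 2a` -/

/-- the kernel vector of `[[A, B + s], [B - s, C]]` -/
noncomputable def vs {q : ℕ} (s : ZMod q) : ZMod q × ZMod q :=
  if IsUnit (Frm.A : ZMod q) ∨ IsUnit ((Frm.B : ZMod q) + s) then
    ((Frm.B : ZMod q) + s, -(Frm.A : ZMod q)) else ((Frm.C : ZMod q), s - (Frm.B : ZMod q))

/-- two equations of the kernel vector -/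
lemma vs_ker {q : ℕ} {s : ZMod q} (hs : s * s = -((aa : ℕ) : ZMod q)) :
    (Frm.A : ZMod q) * (vs s).1 + ((Frm.B : ZMod q) + s) * (vs s).2 = 0 ∧
    ((Frm.B : ZMod q) - s) * (vs s).1 + (Frm.C : ZMod q) * (vs s).2 = 0 := by
  have hd := det_eq q
  unfold vs
  split_ifs
  · refine ⟨by ring, ?_⟩
    simp only
    linear_combination -hd - hs
  · refine ⟨?_, by ring⟩
    simp only
    linear_combination hd + hs

lemma vs_prim {l k : ℕ} (hl : l.Prime) (hk : 0 < k) (h : ¬ l ∣ 2 * aa) {s : ZMod (l ^ k)}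
    (hs : s * s = -((aa : ℕ) : ZMod (l ^ k))) : IsUnit (vs s).1 ∨ IsUnit (vs s).2 := by
  unfold vs
  split_ifs with h1
  · rcases h1 with h1 | h1
    · exact Or.inr h1.neg
    · exact Or.inl h1
  · push Not at h1
    right
    simp only
    have h2 : IsUnit (((Frm.B : ZMod (l ^ k)) + s) + (s - (Frm.B : ZMod (l ^ k)))) := by
      have e : ((Frm.B : ZMod (l ^ k)) + s) + (s - (Frm.B : ZMod (l ^ k))) = 2 * s := by ring
      rw [e]
      exact (unit_two hl hk h).mul (unit_iot hl hk h hs)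
    rcases isUnit_or hl hk h2 with h3 | h3
    · exact absurd h3 h1.2
    · exact h3

omit [TF.Aa] [TF.Frm] in
/-- a vector proportional to a primitive vector is a multiple of it -/
lemma exists_mul {R : Type*} [CommRing R] {p v : R × R} (hp : IsUnit p.1 ∨ IsUnit p.2)
    (h : p.1 * v.2 = p.2 * v.1) : ∃ t : R, v.1 = t * p.1 ∧ v.2 = t * p.2 := by
  rcases hp with ⟨u, hu⟩ | ⟨u, hu⟩
  · refine ⟨v.1 * ((u⁻¹ : Rˣ) : R), ?_, ?_⟩
    · rw [← hu, mul_assoc, Units.inv_mul, mul_one]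
    · rw [← hu] at h
      calc v.2 = ((u⁻¹ : Rˣ) : R) * ((u : R) * v.2) := by
            rw [← mul_assoc, Units.inv_mul, one_mul]
        _ = v.1 * ((u⁻¹ : Rˣ) : R) * p.2 := by rw [h]; ring
  · refine ⟨v.2 * ((u⁻¹ : Rˣ) : R), ?_, ?_⟩
    · rw [← hu] at h
      calc v.1 = ((u⁻¹ : Rˣ) : R) * ((u : R) * v.1) := by
            rw [← mul_assoc, Units.inv_mul, one_mul]
        _ = v.2 * ((u⁻¹ : Rˣ) : R) * p.1 := by rw [← h]; ring
    · rw [← hu, mul_assoc, Units.inv_mul, mul_one]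

/-- primitive zeros of the form -/
lemma card_zero (l k : ℕ) (hl : l.Prime) (hk : 0 < k) (hla : ¬ l ∣ 2 * aa) [NeZero (l ^ k)] :
    ((prim (l ^ k)).filter (fun v => fr v = 0)).card =
      (iot (l ^ k)).card * (l ^ k).totient := by
  rw [← card_units, ← Finset.card_product]
  symm
  refine Finset.card_bij (fun x _ => (x.2 * (vs x.1).1, x.2 * (vs x.1).2)) ?_ ?_ ?_
  · intro x hx
    rw [Finset.mem_product, mem_iot, Finset.mem_filter] at hx
    rw [Finset.mem_filter, prim, Finset.mem_filter]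
    obtain ⟨k1, k2⟩ := vs_ker hx.1
    refine ⟨⟨Finset.mem_univ _, ?_⟩, ?_⟩
    · exact (vs_prim hl hk hla hx.1).imp (fun h => hx.2.2.mul h) (fun h => hx.2.2.mul h)
    · unfold fr
      simp only
      linear_combination (x.2 ^ 2 * (vs x.1).1) * k1 + (x.2 ^ 2 * (vs x.1).2) * k2
  · intro x hx y hy h
    rw [Finset.mem_product, mem_iot, Finset.mem_filter] at hx hy
    obtain ⟨k1, k2⟩ := vs_ker hx.1
    obtain ⟨k3, k4⟩ := vs_ker hy.1
    have e1 : x.2 * (vs x.1).1 = y.2 * (vs y.1).1 := congrArg Prod.fst h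
    have e2 : x.2 * (vs x.1).2 = y.2 * (vs y.1).2 := congrArg Prod.snd h
    have hp := vs_prim hl hk hla hx.1
    have hs : x.1 = y.1 := by
      have f1 : (x.1 - y.1) * (x.2 * (vs x.1).2) = 0 := by
        linear_combination x.2 * k1 - y.2 * k3 - (Frm.A : ZMod (l ^ k)) * e1 -
          ((Frm.B : ZMod (l ^ k)) + y.1) * e2
      have f2 : (x.1 - y.1) * (x.2 * (vs x.1).1) = 0 := by
        linear_combination -(x.2 * k2 - y.2 * k4 - ((Frm.B : ZMod (l ^ k)) - y.1) * e1 -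
          (Frm.C : ZMod (l ^ k)) * e2)
      rcases hp with h1 | h1
      · exact sub_eq_zero.1 (((hx.2.2.mul h1).mul_left_eq_zero).1 f2)
      · exact sub_eq_zero.1 (((hx.2.2.mul h1).mul_left_eq_zero).1 f1)
    rw [← hs] at e1 e2
    refine Prod.ext hs ?_
    rcases hp with h1 | h1
    · exact h1.mul_right_cancel e1
    · exact h1.mul_right_cancel e2
  · intro v hv
    rw [Finset.mem_filter, prim, Finset.mem_filter, fr_zero_iff] at hv
    obtain ⟨⟨-, hv1⟩, hv2⟩ := hv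
    have hd := det_eq (l ^ k)
    -- the square root of `-a`
    obtain ⟨s, hs, k1, k2⟩ : ∃ s : ZMod (l ^ k), s * s = -((aa : ℕ) : ZMod (l ^ k)) ∧
        (Frm.A : ZMod (l ^ k)) * v.1 + ((Frm.B : ZMod (l ^ k)) + s) * v.2 = 0 ∧
        ((Frm.B : ZMod (l ^ k)) - s) * v.1 + (Frm.C : ZMod (l ^ k)) * v.2 = 0 := by
      rcases hv1 with ⟨u, hu⟩ | ⟨u, hu⟩
      · have hi : ((u⁻¹ : (ZMod (l ^ k))ˣ) : ZMod (l ^ k)) * v.1 = 1 := by
          rw [← hu, Units.inv_mul]
        set ui := ((u⁻¹ : (ZMod (l ^ k))ˣ) : ZMod (l ^ k))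
        set A := (Frm.A : ZMod (l ^ k))
        set B := (Frm.B : ZMod (l ^ k))
        set C := (Frm.C : ZMod (l ^ k))
        refine ⟨ui * (B * v.1 + C * v.2), ?_, ?_, ?_⟩
        · linear_combination (C * ui ^ 2) * hv2 -
            ((aa : ℕ) : ZMod (l ^ k)) * (ui * v.1 + 1) * hi - (ui * v.1) ^ 2 * hd
        · linear_combination ui * hv2 - (A * v.1 + B * v.2) * hi
        · linear_combination -(B * v.1 + C * v.2) * hi
      · have hi : ((u⁻¹ : (ZMod (l ^ k))ˣ) : ZMod (l ^ k)) * v.2 = 1 := by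
          rw [← hu, Units.inv_mul]
        set ui := ((u⁻¹ : (ZMod (l ^ k))ˣ) : ZMod (l ^ k))
        set A := (Frm.A : ZMod (l ^ k))
        set B := (Frm.B : ZMod (l ^ k))
        set C := (Frm.C : ZMod (l ^ k))
        refine ⟨-(ui * (A * v.1 + B * v.2)), ?_, ?_, ?_⟩
        · linear_combination (A * ui ^ 2) * hv2 -
            ((aa : ℕ) : ZMod (l ^ k)) * (ui * v.2 + 1) * hi - (ui * v.2) ^ 2 * hd
        · linear_combination -(A * v.1 + B * v.2) * hi
        · linear_combination ui * hv2 - (B * v.1 + C * v.2) * hi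
    obtain ⟨q1, q2⟩ := vs_ker hs
    have hp := vs_prim hl hk hla hs
    have hc : (vs s).1 * v.2 = (vs s).2 * v.1 := by
      unfold vs
      split_ifs
      · simp only; linear_combination k1
      · simp only; linear_combination k2
    obtain ⟨t, ht1, ht2⟩ := exists_mul hp hc
    refine ⟨(s, t), ?_, Prod.ext ht1.symm ht2.symm⟩
    rw [Finset.mem_product, mem_iot, Finset.mem_filter]
    refine ⟨hs, Finset.mem_univ _, ?_⟩
    rcases hv1 with h1 | h1
    · rw [ht1] at h1; exact isUnit_of_mul_isUnit_left h1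
    · rw [ht2] at h1; exact isUnit_of_mul_isUnit_left h1

/-! ### Means -/

/-- the sum over the classes from a bound for the number of primitive zeros -/
lemma sum_norm_fst {l k : ℕ} (hl : l.Prime) (hk : 0 < k) (hla : ¬ l ∣ 2 * aa) [NeZero (l ^ k)] :
    ∑ r ∈ sl (l ^ k), (if fr r.1 = 0 then (1 : ℝ) else 0) =
      ((iot (l ^ k)).card : ℝ) * ((l ^ k : ℕ) : ℝ) ^ 2 * (1 - 1 / (l : ℝ)) := by
  have h := sum_sl_fst hl hk (fun v => if fr v = 0 then (1 : ℝ) else 0)
  rw [h, ← Finset.sum_filter, Finset.sum_const, nsmul_eq_mul, mul_one, card_zero l k hl hk hla,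
    Nat.cast_mul, totient_pp hl hk]
  ring

/-- the mean, at the level of residues -/
lemma mean_norm_lin {l k : ℕ} (hl : l.Prime) (hk : 0 < k) (hla : ¬ l ∣ 2 * aa) [NeZero (l ^ k)]
    {s t : ZMod (l ^ k)} (h : IsUnit s ∨ IsUnit t) :
    (∑ r ∈ sl (l ^ k), (if fr (s * r.1.1 + t * r.2.1, s * r.1.2 + t * r.2.2) = 0
      then (1 : ℝ) else 0)) / ((sl (l ^ k)).card : ℝ) =
      ((iot (l ^ k)).card : ℝ) / (((l ^ k : ℕ) : ℝ) * (1 + 1 / (l : ℝ))) := by
  have h1 := sum_lin h (fun v => if fr v = 0 then (1 : ℝ) else 0)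
  rw [h1, sum_norm_fst hl hk hla, card_sl hl hk, one_sub_sq hl]
  have hl1 : (1 : ℝ) < l := by exact_mod_cast hl.one_lt
  have hl0 : (l : ℝ) ≠ 0 := by linarith
  have h2 : (1 - 1 / (l : ℝ)) ≠ 0 := by
    have : 1 / (l : ℝ) < 1 := by rw [div_lt_one (by linarith)]; exact hl1
    linarith
  have h3 : (1 + 1 / (l : ℝ)) ≠ 0 := by positivity
  have h4 : ((l ^ k : ℕ) : ℝ) ≠ 0 := by
    exact_mod_cast pow_ne_zero _ hl.ne_zero
  generalize ((l ^ k : ℕ) : ℝ) = Q at h4 ⊢
  generalize (1 - 1 / (l : ℝ)) = A at h2 ⊢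
  generalize (1 + 1 / (l : ℝ)) = B at h3 ⊢
  field_simp

lemma nsq_res {q : ℕ} (v : V) : ((nsq v : ℤ) : ZMod q) = fr ((v.1 : ZMod q), (v.2 : ZMod q)) := by
  unfold nsq fr
  push_cast
  rfl

lemma dvd_nsq_iff {q : ℕ} (s t : ℤ) (x : V × V) :
    (q : ℤ) ∣ nsq (lin s t x) ↔ fr ((s : ZMod q) * (res q x).1.1 + (t : ZMod q) * (res q x).2.1,
      (s : ZMod q) * (res q x).1.2 + (t : ZMod q) * (res q x).2.2) = 0 := by
  rw [← ZMod.intCast_zmod_eq_zero_iff_dvd, nsq_res]
  simp only [lin, res]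
  push_cast
  rfl

lemma per_dvd_nsq (q : ℕ) (s t : ℤ) :
    T1.Per q (fun x => if (q : ℤ) ∣ nsq (lin s t x) then (1 : ℝ) else 0) := by
  intro x y h
  simp only [dvd_nsq_iff, h]

omit [TF.Aa] [TF.Frm] in
lemma unit_or_int {l k : ℕ} (hl : l.Prime) (hk : 0 < k) {s t : ℤ}
    (h : ¬ ((l : ℤ) ∣ s ∧ (l : ℤ) ∣ t)) :
    IsUnit ((s : ℤ) : ZMod (l ^ k)) ∨ IsUnit ((t : ℤ) : ZMod (l ^ k)) := by
  rw [not_and_or] at h
  exact h.imp (unit_int hl hk) (unit_int hl hk)

/-- **LOC1**: the probability that `l^k ∣ F(s v + t w)` for `(s, t)` primitive modulo `l`. -/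
theorem mn_norm {l k : ℕ} (hl : l.Prime) (hk : 0 < k) (hla : ¬ l ∣ 2 * aa) [NeZero (l ^ k)]
    (s t : ℤ) (h : ¬ ((l : ℤ) ∣ s ∧ (l : ℤ) ∣ t)) :
    mn (l ^ k) (fun x => if ((l ^ k : ℕ) : ℤ) ∣ nsq (lin s t x) then (1 : ℝ) else 0) =
      ((iot (l ^ k)).card : ℝ) / (((l ^ k : ℕ) : ℝ) * (1 + 1 / (l : ℝ))) := by
  rw [mn_def, ← mean_norm_lin hl hk hla (unit_or_int hl hk h)]
  congr 1
  refine Finset.sum_congr rfl fun r _ => ?_
  simp only [dvd_nsq_iff, res_lift]

theorem mn_norm_le {l k : ℕ} (hl : l.Prime) (hk : 0 < k) (hla : ¬ l ∣ 2 * aa) (s t : ℤ)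
    (h : ¬ ((l : ℤ) ∣ s ∧ (l : ℤ) ∣ t)) :
    mn (l ^ k) (fun x => if ((l ^ k : ℕ) : ℤ) ∣ nsq (lin s t x) then (1 : ℝ) else 0) ≤
      2 / ((l ^ k : ℕ) : ℝ) := by
  have : NeZero (l ^ k) := ⟨pow_ne_zero _ hl.ne_zero⟩
  rw [mn_norm hl hk hla s t h]
  have h1 : ((iot (l ^ k)).card : ℝ) ≤ 2 := by exact_mod_cast card_iot_le hl hk hla
  have h2 : (0 : ℝ) < ((l ^ k : ℕ) : ℝ) := by exact_mod_cast pow_pos hl.pos k
  have h3 : (1 : ℝ) ≤ 1 + 1 / (l : ℝ) := by
    have : (0 : ℝ) ≤ 1 / (l : ℝ) := by positivity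
    linarith
  rw [div_le_div_iff₀ (by positivity) h2]
  nlinarith

/-- a split prime -/
theorem mn_norm_one {l : ℕ} (hl : l.Prime) (hs : spl l) (s t : ℤ)
    (h : ¬ ((l : ℤ) ∣ s ∧ (l : ℤ) ∣ t)) :
    mn l (fun x => if (l : ℤ) ∣ nsq (lin s t x) then (1 : ℝ) else 0) = 2 / ((l : ℝ) + 1) := by
  have : NeZero (l ^ 1) := ⟨pow_ne_zero _ hl.ne_zero⟩
  have h1 := mn_norm hl one_pos (spl_spec hl hs).2.1 s t h
  rw [card_iot_eq hl hs] at h1
  rw [pow_one] at h1
  rw [h1]
  have hl0 : (0 : ℝ) < l := by exact_mod_cast hl.pos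
  push_cast
  rw [mul_add, mul_one, mul_one_div_cancel hl0.ne']

/-- an inert prime -/
theorem mn_norm_inert {l : ℕ} (hl : l.Prime) (hla : ¬ l ∣ 2 * aa) (hs : ¬ spl l) (s t : ℤ)
    (h : ¬ ((l : ℤ) ∣ s ∧ (l : ℤ) ∣ t)) :
    mn l (fun x => if (l : ℤ) ∣ nsq (lin s t x) then (1 : ℝ) else 0) = 0 := by
  have : NeZero (l ^ 1) := ⟨pow_ne_zero _ hl.ne_zero⟩
  have h1 := mn_norm hl one_pos hla s t h
  rw [iot_empty hl hla hs] at h1
  rw [pow_one] at h1
  rw [h1]; simp

/-! ### The crude bound for all primes -/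

omit [TF.Frm] in
/-- square roots of `-a` modulo a prime power -/
lemma card_iot_crude {l k : ℕ} (hl : l.Prime) [NeZero (l ^ k)] :
    (iot (l ^ k)).card ≤ 8 * aa := by
  rcases (iot (l ^ k)).eq_empty_or_nonempty with h' | ⟨s, hs⟩
  · rw [h']; simp
  rw [mem_iot] at hs
  set m := min k (Nat.log l (4 * aa)) with hm
  have ha := aa_pos
  have hlm : l ^ m ≤ 4 * aa :=
    (Nat.pow_le_pow_right hl.pos (min_le_right _ _)).trans (Nat.pow_log_le_self _ (by omega))
  have hmk : m ≤ k := min_le_left _ _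
  -- the two families
  have hc : ∀ c : ZMod (l ^ k), ((univ : Finset (ZMod (l ^ k))).filter
      (fun x => l ^ (k - m) ∣ (x + c).val)).card ≤ l ^ m := by
    intro c
    have h1 := T1.LocD.card_mult (l := l) (a := k - m) (k := k) hl (Nat.sub_le _ _)
    rw [Nat.sub_sub_self hmk] at h1
    refine le_trans (Finset.card_le_card_of_injOn (fun x => x + c) ?_ ?_) h1
    · intro x hx
      rw [Finset.mem_coe, Finset.mem_filter] at hx ⊢
      exact ⟨Finset.mem_univ _, hx.2⟩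
    · intro x _ y _ h
      exact add_right_cancel h
  have hsub : iot (l ^ k) ⊆ (univ : Finset (ZMod (l ^ k))).filter
      (fun x => l ^ (k - m) ∣ (x + -s).val) ∪ (univ : Finset (ZMod (l ^ k))).filter
      (fun x => l ^ (k - m) ∣ (x + s).val) := by
    intro x hx
    rw [mem_iot] at hx
    have h0 : (x + -s) * (x + s) = 0 := by linear_combination hx - hs
    have h1 : l ^ k ∣ (x + -s).val * (x + s).val := by
      rw [← ZMod.natCast_eq_zero_iff, Nat.cast_mul, ZMod.natCast_zmod_val, ZMod.natCast_zmod_val]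
      exact h0
    obtain ⟨d, e, hd, he, hde⟩ := exists_dvd_and_dvd_of_dvd_mul h1
    obtain ⟨i, hi, rfl⟩ := (Nat.dvd_prime_pow hl).1 (Dvd.intro _ hde.symm)
    have he' : e = l ^ (k - i) := by
      have h3 : l ^ i * e = l ^ i * l ^ (k - i) := by
        rw [← hde, ← pow_add, Nat.add_sub_cancel' hi]
      exact Nat.eq_of_mul_eq_mul_left (pow_pos hl.pos i) h3
    subst he'
    -- the smaller exponent is at most `m`
    have hj : ∀ j : ℕ, j ≤ i → j ≤ k - i → j ≤ m := by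
      intro j h2 h3
      refine le_min (by omega) (Nat.le_log_of_pow_le hl.one_lt ?_)
      have h4 : (l ^ j : ℕ) ∣ (2 * s).val := by
        have e1 : (2 * s : ZMod (l ^ k)) = (((x + s).val : ℤ) - ((x + -s).val : ℤ) : ℤ) := by
          push_cast
          rw [ZMod.natCast_zmod_val, ZMod.natCast_zmod_val]
          ring
        have e2 : ((l ^ j : ℕ) : ℤ) ∣ ((x + s).val : ℤ) - ((x + -s).val : ℤ) := by
          refine dvd_sub ?_ ?_
          · exact Int.natCast_dvd_natCast.2 ((pow_dvd_pow l h3).trans he)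
          · exact Int.natCast_dvd_natCast.2 ((pow_dvd_pow l h2).trans hd)
        have e3 : ((l ^ k : ℕ) : ℤ) ∣ ((2 * s).val : ℤ) -
            (((x + s).val : ℤ) - ((x + -s).val : ℤ)) := by
          rw [← ZMod.intCast_zmod_eq_zero_iff_dvd]
          push_cast
          rw [ZMod.natCast_zmod_val, ZMod.natCast_zmod_val, ZMod.natCast_zmod_val]
          ring
        have e4 : ((l ^ j : ℕ) : ℤ) ∣ ((2 * s).val : ℤ) := by
          have h5 : ((l ^ j : ℕ) : ℤ) ∣ ((l ^ k : ℕ) : ℤ) :=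
            Int.natCast_dvd_natCast.2 (pow_dvd_pow l (by omega))
          have := dvd_add (h5.trans e3) e2
          rwa [sub_add_cancel] at this
        exact Int.natCast_dvd_natCast.1 e4
      have h6 : l ^ (2 * j) ∣ 4 * aa := by
        have e5 : l ^ k ∣ (2 * s).val * (2 * s).val + 4 * aa := by
          rw [← ZMod.natCast_eq_zero_iff]
          push_cast
          rw [ZMod.natCast_zmod_val]
          linear_combination 4 * hs
        have e6 : l ^ (2 * j) ∣ (2 * s).val * (2 * s).val := by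
          rw [two_mul, pow_add]; exact mul_dvd_mul h4 h4
        exact (Nat.dvd_add_right e6).1 ((pow_dvd_pow l (by omega)).trans e5)
      calc l ^ j ≤ l ^ (2 * j) := Nat.pow_le_pow_right hl.pos (by omega)
        _ ≤ 4 * aa := Nat.le_of_dvd (by omega) h6
    rw [Finset.mem_union, Finset.mem_filter, Finset.mem_filter]
    rcases le_total i (k - i) with h | h
    · right
      have := hj i le_rfl h
      exact ⟨Finset.mem_univ _, (pow_dvd_pow l (by omega)).trans he⟩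
    · left
      have := hj (k - i) h le_rfl
      exact ⟨Finset.mem_univ _, (pow_dvd_pow l (by omega)).trans hd⟩
  calc (iot (l ^ k)).card ≤ _ := Finset.card_le_card hsub
    _ ≤ _ := Finset.card_union_le _ _
    _ ≤ l ^ m + l ^ m := add_le_add (hc _) (hc _)
    _ ≤ 8 * aa := by omega

omit [TF.Aa] [TF.Frm] in
/-- annihilator of a positive integer modulo `q` -/
lemma card_ann {q n : ℕ} [NeZero q] (hn : 0 < n) (c : ZMod q) :
    ((univ : Finset (ZMod q)).filter (fun x => (n : ZMod q) * x = c)).card ≤ n := by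
  rcases ((univ : Finset (ZMod q)).filter (fun x => (n : ZMod q) * x = c)).eq_empty_or_nonempty
    with h | ⟨x₀, h0⟩
  · rw [h]; simp
  rw [Finset.mem_filter] at h0
  have hq : 0 < q := Nat.pos_of_ne_zero (NeZero.ne q)
  refine le_trans (Finset.card_le_card_of_injOn (t := range n)
    (fun x => n * (x - x₀).val / q) ?_ ?_) (Finset.card_range n).le
  · intro x _
    simp only [Finset.coe_range, Set.mem_Iio]
    rw [Nat.div_lt_iff_lt_mul hq]
    exact Nat.mul_lt_mul_of_pos_left (ZMod.val_lt _) hn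
  · intro x hx y hy h
    rw [Finset.mem_coe, Finset.mem_filter] at hx hy
    have key : ∀ z : ZMod q, (n : ZMod q) * z = c → q ∣ n * (z - x₀).val := by
      intro z hz
      rw [← ZMod.natCast_eq_zero_iff, Nat.cast_mul, ZMod.natCast_zmod_val]
      linear_combination hz - h0.2
    have h1 := key x hx.2
    have h2 := key y hy.2
    simp only at h
    have h3 : n * (x - x₀).val = n * (y - x₀).val := by
      rw [← Nat.div_mul_cancel h1, ← Nat.div_mul_cancel h2, h]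
    have h4 := Nat.eq_of_mul_eq_mul_left hn h3
    have h5 := ZMod.val_injective q h4
    linear_combination h5

omit [TF.Frm] in
/-- roots of `A r² + 2 B r + C` -/
lemma card_root_crude {l k : ℕ} (hl : l.Prime) [NeZero (l ^ k)] {A B C : ℤ} (hA : 0 < A)
    (hd : A * C - B ^ 2 = (aa : ℤ)) :
    ((univ : Finset (ZMod (l ^ k))).filter (fun r => (A : ZMod (l ^ k)) * r ^ 2 +
      2 * (B : ZMod (l ^ k)) * r + (C : ZMod (l ^ k)) = 0)).card ≤ A.natAbs * (8 * aa) := by
  have hd' := congrArg (fun z : ℤ => (z : ZMod (l ^ k))) hd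
  push_cast at hd'
  have hA' : ((A.natAbs : ℕ) : ZMod (l ^ k)) = (A : ZMod (l ^ k)) := by
    have : ((A.natAbs : ℕ) : ℤ) = A := by omega
    rw [← Int.cast_natCast, this]
  have h1 : ∀ r ∈ (univ : Finset (ZMod (l ^ k))).filter (fun r => (A : ZMod (l ^ k)) * r ^ 2 +
      2 * (B : ZMod (l ^ k)) * r + (C : ZMod (l ^ k)) = 0),
      (A : ZMod (l ^ k)) * r + (B : ZMod (l ^ k)) ∈ iot (l ^ k) := by
    intro r hr
    rw [Finset.mem_filter] at hr
    rw [mem_iot]
    linear_combination (A : ZMod (l ^ k)) * hr.2 - hd'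
  rw [Finset.card_eq_sum_card_fiberwise h1]
  calc _ ≤ ∑ _b ∈ iot (l ^ k), A.natAbs := by
        refine Finset.sum_le_sum fun b _ => ?_
        refine le_trans (Finset.card_le_card ?_) (card_ann (q := l ^ k) (n := A.natAbs)
          (by omega) (b - (B : ZMod (l ^ k))))
        intro r hr
        rw [Finset.mem_filter] at hr ⊢
        refine ⟨Finset.mem_univ _, ?_⟩
        rw [hA']
        linear_combination hr.2
    _ = (iot (l ^ k)).card * A.natAbs := by rw [Finset.sum_const, smul_eq_mul]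
    _ ≤ A.natAbs * (8 * aa) := by
        rw [mul_comm]; exact Nat.mul_le_mul_left _ (card_iot_crude hl)

lemma hC : 0 < (Frm.C : ℤ) := by
  have h1 : Frm.A * Frm.C - Frm.B ^ 2 = (aa : ℤ) := Frm.det
  have h2 : (0 : ℤ) < aa := by exact_mod_cast aa_pos
  have h3 : 0 < (Frm.A : ℤ) := Frm.hA
  by_contra h
  push Not at h
  nlinarith [sq_nonneg (Frm.B : ℤ)]

/-- the constant of the crude bounds -/
def KF : ℕ := (Frm.A.natAbs + Frm.C.natAbs) * (8 * aa)

/-- primitive zeros of the form, crude bound -/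
lemma card_zero_crude {l k : ℕ} (hl : l.Prime) [NeZero (l ^ k)] :
    ((prim (l ^ k)).filter (fun v => fr v = 0)).card ≤ KF * (l ^ k).totient := by
  have hA : 0 < (Frm.A : ℤ) := Frm.hA
  have hdet : Frm.A * Frm.C - Frm.B ^ 2 = (aa : ℤ) := Frm.det
  have hsub : (prim (l ^ k)).filter (fun v => fr v = 0) ⊆
      ((univ : Finset (ZMod (l ^ k) × ZMod (l ^ k))).filter (fun v => IsUnit v.2 ∧ fr v = 0)) ∪
      ((univ : Finset (ZMod (l ^ k) × ZMod (l ^ k))).filter (fun v => IsUnit v.1 ∧ fr v = 0)) := by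
    intro v hv
    rw [Finset.mem_filter, prim, Finset.mem_filter] at hv
    rw [Finset.mem_union, Finset.mem_filter, Finset.mem_filter]
    rcases hv.1.2 with h | h
    · exact Or.inr ⟨Finset.mem_univ _, h, hv.2⟩
    · exact Or.inl ⟨Finset.mem_univ _, h, hv.2⟩
  have h2 : ((univ : Finset (ZMod (l ^ k) × ZMod (l ^ k))).filter
      (fun v => IsUnit v.2 ∧ fr v = 0)).card ≤ Frm.A.natAbs * (8 * aa) * (l ^ k).totient := by
    rw [← card_units]
    refine le_trans ?_ (Nat.mul_le_mul_right _ (card_root_crude (k := k) hl hA hdet))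
    rw [← Finset.card_product]
    refine Finset.card_le_card_of_injOn (fun v => (v.1 * Ring.inverse v.2, v.2)) ?_ ?_
    · intro v hv
      rw [Finset.mem_coe, Finset.mem_filter] at hv
      have h3 := Ring.mul_inverse_cancel v.2 hv.2.1
      have h4 := hv.2.2
      unfold fr at h4
      simp only [Finset.coe_product, Set.mem_prod, Finset.mem_coe, Finset.mem_filter,
        Finset.mem_univ, true_and]
      refine ⟨?_, hv.2.1⟩
      generalize Ring.inverse v.2 = u at h3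
      linear_combination u ^ 2 * h4 - (2 * (Frm.B : ZMod (l ^ k)) * v.1 * u) * h3 -
        (Frm.C : ZMod (l ^ k)) * (v.2 * u + 1) * h3
    · intro v hv w hw h
      rw [Finset.mem_coe, Finset.mem_filter] at hv hw
      simp only [Prod.mk.injEq] at h
      have h3 := Ring.mul_inverse_cancel v.2 hv.2.1
      obtain ⟨ha, hb⟩ := h
      rw [← hb] at ha
      generalize Ring.inverse v.2 = u at h3 ha
      refine Prod.ext ?_ hb
      linear_combination v.2 * ha - (v.1 - w.1) * h3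
  have h3 : ((univ : Finset (ZMod (l ^ k) × ZMod (l ^ k))).filter
      (fun v => IsUnit v.1 ∧ fr v = 0)).card ≤ Frm.C.natAbs * (8 * aa) * (l ^ k).totient := by
    rw [← card_units]
    refine le_trans ?_ (Nat.mul_le_mul_right _ (card_root_crude (k := k) (A := Frm.C)
      (B := Frm.B) (C := Frm.A) hl hC (by linarith)))
    rw [← Finset.card_product]
    refine Finset.card_le_card_of_injOn (fun v => (v.2 * Ring.inverse v.1, v.1)) ?_ ?_
    · intro v hv
      rw [Finset.mem_coe, Finset.mem_filter] at hv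
      have h3 := Ring.mul_inverse_cancel v.1 hv.2.1
      have h4 := hv.2.2
      unfold fr at h4
      simp only [Finset.coe_product, Set.mem_prod, Finset.mem_coe, Finset.mem_filter,
        Finset.mem_univ, true_and]
      refine ⟨?_, hv.2.1⟩
      generalize Ring.inverse v.1 = u at h3
      linear_combination u ^ 2 * h4 - (2 * (Frm.B : ZMod (l ^ k)) * v.2 * u) * h3 -
        (Frm.A : ZMod (l ^ k)) * (v.1 * u + 1) * h3
    · intro v hv w hw h
      rw [Finset.mem_coe, Finset.mem_filter] at hv hw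
      simp only [Prod.mk.injEq] at h
      have h3 := Ring.mul_inverse_cancel v.1 hv.2.1
      obtain ⟨ha, hb⟩ := h
      rw [← hb] at ha
      generalize Ring.inverse v.1 = u at h3 ha
      refine Prod.ext hb ?_
      linear_combination v.1 * ha - (v.2 - w.2) * h3
  calc _ ≤ _ := Finset.card_le_card hsub
    _ ≤ _ := Finset.card_union_le _ _
    _ ≤ Frm.A.natAbs * (8 * aa) * (l ^ k).totient + Frm.C.natAbs * (8 * aa) * (l ^ k).totient :=
        add_le_add h2 h3
    _ = KF * (l ^ k).totient := by unfold KF; ring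

/-- the crude bound for all primes -/
theorem mn_norm_crude {l k : ℕ} (hl : l.Prime) (hk : 0 < k) (s t : ℤ)
    (h : ¬ ((l : ℤ) ∣ s ∧ (l : ℤ) ∣ t)) :
    mn (l ^ k) (fun x => if ((l ^ k : ℕ) : ℤ) ∣ nsq (lin s t x) then (1 : ℝ) else 0) ≤
      (KF : ℝ) / ((l ^ k : ℕ) : ℝ) := by
  have : NeZero (l ^ k) := ⟨pow_ne_zero _ hl.ne_zero⟩
  have e : ∑ r ∈ sl (l ^ k), (if ((l ^ k : ℕ) : ℤ) ∣ nsq (lin s t (lift (l ^ k) r))
      then (1 : ℝ) else 0) = ((l ^ k : ℕ) : ℝ) *
        (((prim (l ^ k)).filter (fun v => fr v = 0)).card : ℝ) := by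
    simp only [dvd_nsq_iff, res_lift]
    have h1 := sum_lin (unit_or_int (k := k) hl hk h) (fun v => if fr v = 0 then (1 : ℝ) else 0)
    rw [h1, sum_sl_fst hl hk (fun v => if fr v = 0 then (1 : ℝ) else 0), Finset.sum_boole]
  have h1 : (((prim (l ^ k)).filter (fun v => fr v = 0)).card : ℝ) ≤
      (KF : ℝ) * (((l ^ k : ℕ) : ℝ) * (1 - 1 / (l : ℝ))) := by
    rw [← totient_pp hl hk]
    exact_mod_cast card_zero_crude hl
  rw [mn_def, e, card_sl hl hk, one_sub_sq hl]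
  have hl1 : (1 : ℝ) < l := by exact_mod_cast hl.one_lt
  have h2 : 0 < (1 - 1 / (l : ℝ)) := by
    have : 1 / (l : ℝ) < 1 := by rw [div_lt_one (by linarith)]; exact hl1
    linarith
  have h3 : (0 : ℝ) ≤ 1 / (l : ℝ) := by positivity
  have h4 : (0 : ℝ) < ((l ^ k : ℕ) : ℝ) := by exact_mod_cast pow_pos hl.pos k
  have h5 : (0 : ℝ) ≤ KF := Nat.cast_nonneg _
  generalize (((prim (l ^ k)).filter (fun v => fr v = 0)).card : ℝ) = Z at h1 ⊢
  generalize ((l ^ k : ℕ) : ℝ) = Q at h1 h4 ⊢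
  generalize (1 - 1 / (l : ℝ)) = A at h1 h2 ⊢
  generalize 1 / (l : ℝ) = b at h3 ⊢
  generalize (KF : ℝ) = K at h1 h5 ⊢
  rw [div_le_div_iff₀ (by positivity) h4]
  calc Q * Z * Q ≤ Q * (K * (Q * A)) * Q :=
        mul_le_mul_of_nonneg_right (mul_le_mul_of_nonneg_left h1 h4.le) h4.le
    _ = K * (Q ^ 3 * (A * 1)) := by ring
    _ ≤ K * (Q ^ 3 * (A * (1 + b))) := by
        refine mul_le_mul_of_nonneg_left (mul_le_mul_of_nonneg_left
          (mul_le_mul_of_nonneg_left (by linarith) h2.le) (by positivity)) h5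

end LocM

end Pool.Agent.Lib.MP391708.TF1
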