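import Pool.Agent.Lib.MP_391708_nt.TF.Defs
import Pool.Agent.Lib.MP_391708_nt.TA.NGL
import Pool.Agent.Lib.MP_391708_nt.T1.NGP

/-!
# T1a, group NG: the conditions given by a pair of relations at the same `M`
-/

set_option autoImplicit false
set_option linter.constructorNameAsVariable false

namespace Pool.Agent.Lib.MP391708.TF1.NG

open Finset
open Pool.Agent.Lib.MP391708.TF (Aa aa spl IsR small RG PP sm)
open Pool.Agent.Lib.MP391708.T4 (Prm Rl rM rG rP rQ rD rX F1 D2 ep zz W0 tame)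
open Pool.Agent.Lib.MP391708.TA.NG (Pts Spl)

export Pool.Agent.Lib.MP391708.T1.NG (qf rdl mF sF tF sqf_prod_primes dvd_prod_primes sqf_rdl
  dvd_rdl sqf_lcm prime_large)

variable [Aa]

attribute [local irreducible] RG

/-! ## plain relations -/

/-- a relation in numbers -/
structure RelN (M G P Q X : ℕ) (D : ℤ) : Prop where
  G0 : 0 < G
  P0 : 0 < P
  Q0 : 0 < Q
  X0 : 0 < X
  mul : G * P * Q = M ^ 2 + aa
  dvd : D ∣ (X : ℤ) - G
  F : (X : ℤ) ∣ (P : ℤ) * D ^ 2 - 2 * M * D + G * Q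
  cop : Nat.Coprime G X
  sG : Squarefree G
  sX : Squarefree X
  cD : IsCoprime D (G : ℤ)
  oneG : ∀ l : ℕ, l.Prime → l ∣ G → Spl (aa : ℤ) l
  oneX : ∀ l : ℕ, l.Prime → l ∣ X → Spl (aa : ℤ) l

lemma spl_iff {l : ℕ} (hl : l.Prime) : spl l ↔ Spl (aa : ℤ) l := by
  unfold spl Spl
  constructor
  · intro h
    have h0 : ¬ (l : ℤ) ∣ 2 * (aa : ℤ) := by
      intro hd
      have h1 : l ∣ 2 * ((aa : ℤ)).natAbs := by
        rw [Int.natAbs_natCast]
        exact_mod_cast hd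
      rw [TA.chz_dvd hl h1] at h
      exact absurd h (by norm_num)
    refine ⟨h0, ?_⟩
    have h2 : l ≠ 2 := by
      rintro rfl
      exact h0 (dvd_mul_right _ _)
    have h3 : ¬ (l : ℤ) ∣ (aa : ℤ) := fun h4 => h0 (dvd_mul_of_dvd_right h4 _)
    exact (TA.chz_prime_one hl h2 h3).1 h
  · rintro ⟨h0, h1⟩
    have h2 : l ≠ 2 := by
      rintro rfl
      exact h0 (dvd_mul_right _ _)
    have h3 : ¬ (l : ℤ) ∣ (aa : ℤ) := fun h4 => h0 (dvd_mul_of_dvd_right h4 _)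
    exact (TA.chz_prime_one hl h2 h3).2 h1

lemma mod4 {l : ℕ} (h2 : ¬ l ∣ 2 * aa) {x : ℤ} (h : (l : ℤ) ∣ x ^ 2 + aa) : Spl (aa : ℤ) l :=
  ⟨fun h1 => h2 (by exact_mod_cast h1), x, h⟩

lemma not_dvd_of_lt {p : Prm} (hE : 2 * aa ≤ p.E) {l : ℕ} (hl : p.E < l) : ¬ l ∣ 2 * aa := by
  intro h
  have h1 : 0 < 2 * aa := by
    have : 0 < aa := Aa.ha
    omega
  have := Nat.le_of_dvd h1 h
  omega

omit [Aa] in
/-- a prime which does not divide `W0` is larger than `E` -/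
lemma lt_of_not_dvd_W0 {p : Prm} {l : ℕ} (hl : l.Prime) (h : ¬ l ∣ W0 p) : p.E < l := by
  by_contra hle
  push Not at hle
  have hl0 := hl.pos
  apply h
  unfold W0
  refine dvd_pow ?_ (by omega)
  exact hl.dvd_primorial_iff.2 hle

lemma RG_rel {p : Prm} {N : ℕ} {r : Rl} (hE : 2 * aa ≤ p.E) (hr : r ∈ RG p N) :
    RelN (rM r) (rG r) (rP r) (rQ r) (rX r) (rD r) := by
  classical
  rw [RG, mem_filter] at hr
  obtain ⟨g0, P0, q0, d0, x0, hm, hdv, hF, hcop⟩ := hr.2.1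
  obtain ⟨-, -, hW, -⟩ := hr.2.2.1
  have hsG := hr.2.2.2.2.2.2.2.2.2.2.1
  have hsX := hr.2.2.2.2.2.2.2.2.2.2.2.1
  have hcD := hr.2.2.2.2.2.2.2.2.2.2.2.2.1
  have hodd : ∀ l : ℕ, l.Prime → l ∣ rG r * rX r → ¬ l ∣ 2 * aa := by
    intro l hlp hl
    refine not_dvd_of_lt hE (lt_of_not_dvd_W0 hlp fun h0 => ?_)
    have h1 : l ∣ Nat.gcd (rG r * rX r) (W0 p) := Nat.dvd_gcd hl h0
    rw [hW] at h1
    exact hlp.one_lt.ne' (Nat.dvd_one.1 h1)
  refine ⟨g0, P0, q0, x0, hm, hdv, ?_, hcop, hsG, hsX, hcD, ?_, ?_⟩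
  · unfold F1 at hF
    exact hF
  · intro l hl hlG
    refine mod4 (hodd l hl (dvd_mul_of_dvd_left hlG _)) (x := rM r) ?_
    have h1 : l ∣ rM r ^ 2 + aa := by
      rw [← hm]
      exact dvd_mul_of_dvd_left (dvd_mul_of_dvd_left hlG _) _
    exact_mod_cast h1
  · intro l hl hlX
    refine mod4 (hodd l hl (dvd_mul_of_dvd_right hlX _)) (x := rD r * rP r - rM r) ?_
    have h1 : (l : ℤ) ∣ (rP r : ℤ) * F1 r :=
      dvd_mul_of_dvd_right ((Int.natCast_dvd_natCast.2 hlX).trans hF) _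
    have h2 : (rP r : ℤ) * F1 r = (rD r * rP r - rM r) ^ 2 + aa := by
      unfold F1
      have h3 : (rG r : ℤ) * rP r * rQ r = (rM r : ℤ) ^ 2 + aa := by exact_mod_cast hm
      linear_combination h3
    rwa [h2] at h1

section

variable {M G P Q X G' P' Q' X' : ℕ} {D D' : ℤ}

lemma RelN.cDX (h : RelN M G P Q X D) : IsCoprime D (X : ℤ) := by
  obtain ⟨k, hk⟩ := h.dvd
  have h1 : (X : ℤ) = G + D * k := by linarith
  rw [h1]
  exact IsCoprime.add_mul_left_right h.cD k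

lemma RelN.not_dvd_D (h : RelN M G P Q X D) {l : ℕ} (hl : l.Prime) (hlX : l ∣ X) :
    ¬ (l : ℤ) ∣ D := by
  intro hlD
  have h3 : IsCoprime (l : ℤ) (l : ℤ) :=
    (h.cDX.of_isCoprime_of_dvd_left hlD).of_isCoprime_of_dvd_right (Int.natCast_dvd_natCast.2 hlX)
  exact (Nat.prime_iff_prime_int.1 hl).not_isUnit (isCoprime_self.1 h3)

/-- the pair with `A D ≠ B D'` -/
theorem pts_core (h : RelN M G P Q X D) (h' : RelN M G' P' Q' X' D') {A B V : ℕ}
    (hA : P = A * V) (hB : P' = B * V) (hV : 0 < V)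
    (hone : ∀ l : ℕ, l.Prime → l ∣ A * B → Spl (aa : ℤ) l) :
    Pts (aa : ℤ) (mF A B G G' X X') (sF A B G G' D D') (tF A)
        (Nat.gcd (Nat.gcd X X') ((A : ℤ) * D - B * D').natAbs) ∧
      ∀ i, (mF A B G G' X X' i : ℤ) ∣ qf M P ((M ^ 2 + aa) / P : ℕ) (sF A B G G' D D' i) (tF A i) := by
  have hA0 : A ≠ 0 := fun h0 => by
    have := h.P0
    rw [hA, h0, zero_mul] at this
    omega
  have hB0 : B ≠ 0 := fun h0 => by
    have := h'.P0
    rw [hB, h0, zero_mul] at this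
    omega
  have hn0 : A * B * G * G' ≠ 0 :=
    mul_ne_zero (mul_ne_zero (mul_ne_zero hA0 hB0) h.G0.ne') h'.G0.ne'
  set S : Finset ℕ := (A * B * G * G').primeFactors.filter (fun l => ¬ l ∣ A) with hS
  have hSp : ∀ l ∈ S, l.Prime := fun l hl =>
    Nat.prime_of_mem_primeFactors (mem_filter.1 hl).1
  set s0 : ℕ := ∏ l ∈ S, l with hs0
  have hs0A : ∀ l : ℕ, l.Prime → l ∣ A → ¬ l ∣ s0 := by
    intro l hl hlA hls
    have := (dvd_prod_primes hSp hl).1 hls
    exact (mem_filter.1 this).2 hlA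
  have hs0n : ∀ l : ℕ, l.Prime → l ∣ A * B * G * G' → ¬ l ∣ A → l ∣ s0 := by
    intro l hl hln hlA
    refine (dvd_prod_primes hSp hl).2 (mem_filter.2 ⟨Nat.mem_primeFactors.2 ⟨hl, hln, hn0⟩, hlA⟩)
  -- the third modulus
  have hX'0 : X' ≠ 0 := h'.X0.ne'
  have hg0 : 0 < Nat.gcd X' (A * B) := Nat.gcd_pos_of_pos_left _ h'.X0
  have hX'eq : X' / Nat.gcd X' (A * B) * Nat.gcd X' (A * B) = X' :=
    Nat.div_mul_cancel (Nat.gcd_dvd_left _ _)
  have hm2X : X' / Nat.gcd X' (A * B) ∣ X' := ⟨_, hX'eq.symm⟩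
  have hm2 : ∀ l : ℕ, l.Prime → l ∣ X' / Nat.gcd X' (A * B) → ¬ l ∣ A * B := by
    intro l hl h1 h2
    have h3 : Nat.Coprime (X' / Nat.gcd X' (A * B)) (Nat.gcd X' (A * B)) := by
      refine Nat.coprime_of_squarefree_mul ?_
      rw [hX'eq]
      exact h'.sX
    have h4 : l ∣ Nat.gcd (X' / Nat.gcd X' (A * B)) (Nat.gcd X' (A * B)) :=
      Nat.dvd_gcd h1 (Nat.dvd_gcd (h1.trans hm2X) h2)
    rw [h3] at h4
    exact hl.one_lt.ne' (Nat.dvd_one.1 h4)
  -- `W`
  have hW : (M ^ 2 + aa) / P = G * Q := by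
    rw [← h.mul]
    have : G * P * Q = G * Q * P := by ring
    rw [this, Nat.mul_div_cancel _ h.P0]
  have hAW : A * (G * Q) = B * (G' * Q') := by
    have h1 : A * (G * Q) * V = B * (G' * Q') * V := by
      calc A * (G * Q) * V = G * (A * V) * Q := by ring
        _ = G' * (B * V) * Q' := by rw [← hA, ← hB, h.mul, h'.mul]
        _ = B * (G' * Q') * V := by ring
    exact Nat.eq_of_mul_eq_mul_right hV h1
  have hlW : ∀ l : ℕ, l.Prime → l ∣ A * B * G * G' → ¬ l ∣ A → l ∣ G * Q := by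
    intro l hl hln hlA
    have key : l ∣ A * (G * Q) → l ∣ G * Q := fun h1 =>
      (hl.dvd_mul.1 h1).resolve_left hlA
    rcases hl.dvd_mul.1 hln with h1 | h1
    · rcases hl.dvd_mul.1 h1 with h2 | h2
      · rcases hl.dvd_mul.1 h2 with h3 | h3
        · exact absurd h3 hlA
        · refine key ?_
          rw [hAW]
          exact dvd_mul_of_dvd_left h3 _
      · exact dvd_mul_of_dvd_left h2 _
    · refine key ?_
      rw [hAW]
      exact dvd_mul_of_dvd_right (dvd_mul_of_dvd_left h1 _) _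
  have m0 : mF A B G G' X X' 0 = rdl (A * B * G * G') := rfl
  have m1 : mF A B G G' X X' 1 = X := rfl
  have m2 : mF A B G G' X X' 2 = X' / Nat.gcd X' (A * B) := rfl
  have e0 : sF A B G G' D D' 0 = (s0 : ℤ) := rfl
  have e1 : sF A B G G' D D' 1 = D := rfl
  have e2 : sF A B G G' D D' 2 = B * D' := rfl
  have t0 : tF A 0 = (A : ℤ) := rfl
  have t1 : tF A 1 = -1 := rfl
  have t2 : tF A 2 = -(A : ℤ) := rfl
  -- the three distances
  have d01 : ∀ l : ℕ, l.Prime → l ∣ rdl (A * B * G * G') → l ∣ X →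
      ¬ (l : ℤ) ∣ (s0 : ℤ) * (-1) - D * (A : ℤ) := by
    intro l hl hl0 hlX hd
    have hln := ((dvd_rdl hl).1 hl0).1
    have hlp : Prime (l : ℤ) := Nat.prime_iff_prime_int.1 hl
    by_cases hlA : l ∣ A
    · apply hs0A l hl hlA
      have h1 : (l : ℤ) ∣ D * (A : ℤ) := dvd_mul_of_dvd_right (Int.natCast_dvd_natCast.2 hlA) _
      have h2 : (l : ℤ) ∣ (s0 : ℤ) := by
        have h3 := dvd_add hd h1
        have h4 : (s0 : ℤ) * (-1) - D * (A : ℤ) + D * (A : ℤ) = -(s0 : ℤ) := by ring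
        rw [h4] at h3
        exact (dvd_neg).1 h3
      exact_mod_cast h2
    · have h1 : (l : ℤ) ∣ (s0 : ℤ) * (-1) :=
        dvd_mul_of_dvd_left (Int.natCast_dvd_natCast.2 (hs0n l hl hln hlA)) _
      have h2 : (l : ℤ) ∣ D * (A : ℤ) := by
        have h3 := dvd_sub h1 hd
        have h4 : (s0 : ℤ) * (-1) - ((s0 : ℤ) * (-1) - D * (A : ℤ)) = D * A := by ring
        rwa [h4] at h3
      rcases hlp.dvd_or_dvd h2 with h3 | h3
      · exact h.not_dvd_D hl hlX h3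
      · exact hlA (Int.natCast_dvd_natCast.1 h3)
  have d02 : ∀ l : ℕ, l.Prime → l ∣ rdl (A * B * G * G') → l ∣ X' / Nat.gcd X' (A * B) →
      ¬ (l : ℤ) ∣ (s0 : ℤ) * (-(A : ℤ)) - B * D' * (A : ℤ) := by
    intro l hl hl0 hl2 hd
    have hln := ((dvd_rdl hl).1 hl0).1
    have hlp : Prime (l : ℤ) := Nat.prime_iff_prime_int.1 hl
    have hAB := hm2 l hl hl2
    have hlA : ¬ l ∣ A := fun h1 => hAB (dvd_mul_of_dvd_left h1 _)
    have hlB : ¬ l ∣ B := fun h1 => hAB (dvd_mul_of_dvd_right h1 _)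
    have h1 : (l : ℤ) ∣ (s0 : ℤ) * (-(A : ℤ)) :=
      dvd_mul_of_dvd_left (Int.natCast_dvd_natCast.2 (hs0n l hl hln hlA)) _
    have h2 : (l : ℤ) ∣ B * D' * (A : ℤ) := by
      have h3 := dvd_sub h1 hd
      have h4 : (s0 : ℤ) * (-(A : ℤ)) - ((s0 : ℤ) * (-(A : ℤ)) - B * D' * (A : ℤ)) =
          B * D' * (A : ℤ) := by ring
      rwa [h4] at h3
    rcases hlp.dvd_or_dvd h2 with h3 | h3
    · rcases hlp.dvd_or_dvd h3 with h4 | h4
      · exact hlB (Int.natCast_dvd_natCast.1 h4)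
      · exact h'.not_dvd_D hl (hl2.trans hm2X) h4
    · exact hlA (Int.natCast_dvd_natCast.1 h3)
  have d12 : ∀ l : ℕ, l.Prime → l ∣ X → l ∣ X' / Nat.gcd X' (A * B) →
      (l : ℤ) ∣ D * (-(A : ℤ)) - B * D' * (-1) →
      l ∣ Nat.gcd (Nat.gcd X X') ((A : ℤ) * D - B * D').natAbs := by
    intro l hl hlX hl2 hd
    refine Nat.dvd_gcd (Nat.dvd_gcd hlX (hl2.trans hm2X)) ?_
    rw [← Int.natCast_dvd]
    have h4 : D * (-(A : ℤ)) - B * D' * (-1) = -((A : ℤ) * D - B * D') := by ring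
    rw [h4] at hd
    exact (dvd_neg).1 hd
  refine ⟨⟨?_, ?_, ?_, ?_, ?_⟩, ?_⟩
  · -- squarefree
    intro i
    fin_cases i
    · exact sqf_rdl _
    · exact h.sX
    · exact h'.sX.squarefree_of_dvd hm2X
  · -- 1 mod 4
    intro i l hl hd
    fin_cases i
    · have hln := ((dvd_rdl hl).1 hd).1
      rcases hl.dvd_mul.1 hln with h1 | h1
      · rcases hl.dvd_mul.1 h1 with h2 | h2
        · exact hone l hl h2
        · exact h.oneG l hl h2
      · exact h'.oneG l hl h1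
    · exact h.oneX l hl hd
    · exact h'.oneX l hl (hd.trans hm2X)
  · -- primitive
    intro i l hl hd
    fin_cases i
    · rintro ⟨h1, h2⟩
      exact hs0A l hl (Int.natCast_dvd_natCast.1 h2) (Int.natCast_dvd_natCast.1 h1)
    · rintro ⟨-, h2⟩
      have h3 : (l : ℤ) ∣ -1 := h2
      rw [dvd_neg] at h3
      have h4 : l ∣ 1 := by exact_mod_cast h3
      exact hl.one_lt.ne' (Nat.dvd_one.1 h4)
    · rintro ⟨-, h2⟩
      have h3 : (l : ℤ) ∣ -(A : ℤ) := h2
      rw [dvd_neg] at h3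
      exact hm2 l hl hd (dvd_mul_of_dvd_left (Int.natCast_dvd_natCast.1 h3) _)
  · -- at most two
    rintro l hl ⟨h0, h1, h2⟩
    rw [m0] at h0
    rw [m1] at h1
    rw [m2] at h2
    have hln := ((dvd_rdl hl).1 h0).1
    have hAB := hm2 l hl h2
    rcases hl.dvd_mul.1 hln with h3 | h3
    · rcases hl.dvd_mul.1 h3 with h4 | h4
      · exact hAB h4
      · have := Nat.dvd_gcd h4 h1
        rw [h.cop] at this
        exact hl.one_lt.ne' (Nat.dvd_one.1 this)
    · have := Nat.dvd_gcd h3 (h2.trans hm2X)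
      rw [h'.cop] at this
      exact hl.one_lt.ne' (Nat.dvd_one.1 this)
  · -- distances
    intro i j hij l hl hi hj hd
    have hneg : ∀ a b : ℤ, (l : ℤ) ∣ a - b → (l : ℤ) ∣ b - a := fun a b h1 => by
      have := (dvd_neg).2 h1
      rwa [neg_sub] at this
    fin_cases i <;> fin_cases j
    · exact absurd rfl hij
    · exact absurd hd (d01 l hl hi hj)
    · exact absurd hd (d02 l hl hi hj)
    · exact absurd (hneg _ _ hd) (d01 l hl hj hi)
    · exact absurd rfl hij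
    · exact d12 l hl hi hj hd
    · exact absurd (hneg _ _ hd) (d02 l hl hj hi)
    · exact d12 l hl hj hi (hneg _ _ hd)
    · exact absurd rfl hij
  · -- divisibilities
    intro i
    rw [hW]
    fin_cases i
    · show ((rdl (A * B * G * G') : ℕ) : ℤ) ∣ qf M P (G * Q : ℕ) (s0 : ℤ) (A : ℤ)
      have key : ((rdl (A * B * G * G') : ℕ) : ℤ) ∣ qf M P (G * Q : ℕ) (s0 : ℤ) (A : ℤ) := by
        rw [Int.natCast_dvd]
        unfold rdl
        refine Finset.prod_primes_dvd _ (fun l hl => (Nat.prime_of_mem_primeFactors hl).prime) ?_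
        intro l hl
        obtain ⟨hlp, hln, -⟩ := Nat.mem_primeFactors.1 hl
        rw [← Int.natCast_dvd]
        unfold qf
        by_cases hlA : l ∣ A
        · have a1 : (l : ℤ) ∣ (A : ℤ) := Int.natCast_dvd_natCast.2 hlA
          have a2 : (l : ℤ) ∣ (P : ℤ) := by
            rw [hA]
            exact Int.natCast_dvd_natCast.2 (dvd_mul_of_dvd_left hlA _)
          refine dvd_add (dvd_add (dvd_mul_of_dvd_left a2 _) (dvd_mul_of_dvd_right a1 _)) ?_
          exact dvd_mul_of_dvd_right (dvd_pow a1 two_ne_zero) _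
        · have a1 : (l : ℤ) ∣ (s0 : ℤ) := Int.natCast_dvd_natCast.2 (hs0n l hlp hln hlA)
          have a2 : (l : ℤ) ∣ ((G * Q : ℕ) : ℤ) := Int.natCast_dvd_natCast.2 (hlW l hlp hln hlA)
          refine dvd_add (dvd_add ?_ ?_) (dvd_mul_of_dvd_left a2 _)
          · exact dvd_mul_of_dvd_right (dvd_pow a1 two_ne_zero) _
          · exact dvd_mul_of_dvd_left (dvd_mul_of_dvd_right a1 _) _
      exact key
    · show (X : ℤ) ∣ qf M P (G * Q : ℕ) D (-1)
      have h1 : qf M P (G * Q : ℕ) D (-1) = (P : ℤ) * D ^ 2 - 2 * M * D + G * Q := by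
        unfold qf
        push_cast
        ring
      rw [h1]
      exact h.F
    · show ((X' / Nat.gcd X' (A * B) : ℕ) : ℤ) ∣ qf M P (G * Q : ℕ) (B * D') (-(A : ℤ))
      have hPB : (P : ℤ) * B = A * P' := by
        rw [hA, hB]
        push_cast
        ring
      have hAWz : (A : ℤ) * (G * Q) = B * (G' * Q') := by exact_mod_cast hAW
      have h1 : qf M P (G * Q : ℕ) (B * D') (-(A : ℤ)) =
          (A : ℤ) * B * ((P' : ℤ) * D' ^ 2 - 2 * M * D' + G' * Q') := by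
        unfold qf
        push_cast
        linear_combination (B * D' ^ 2) * hPB + (A : ℤ) * hAWz
      rw [h1]
      exact dvd_mul_of_dvd_right ((Int.natCast_dvd_natCast.2 hm2X).trans h'.F) _

/-- the pair with `P = P'`, `D = D'` -/
theorem pts_core0 (h : RelN M G P Q X D) (h' : RelN M G' P Q' X' D) :
    Pts (aa : ℤ) ![Nat.lcm G G', Nat.lcm X X', 1] ![0, D, 1] ![1, -1, 0] 1 ∧
      ∀ i, ((![Nat.lcm G G', Nat.lcm X X', 1] : Fin 3 → ℕ) i : ℤ) ∣
        qf M P ((M ^ 2 + aa) / P : ℕ) ((![0, D, 1] : Fin 3 → ℤ) i) ((![1, -1, 0] : Fin 3 → ℤ) i) := by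
  have hlcm : ∀ {a b l : ℕ}, l.Prime → l ∣ Nat.lcm a b → l ∣ a ∨ l ∣ b := by
    intro a b l hl hd
    exact hl.dvd_mul.1 (hd.trans (Nat.lcm_dvd_mul a b))
  have hne1 : ∀ l : ℕ, l.Prime → ¬ l ∣ 1 := fun l hl h1 => hl.one_lt.ne' (Nat.dvd_one.1 h1)
  have hW : (M ^ 2 + aa) / P = G * Q := by
    rw [← h.mul]
    have : G * P * Q = G * Q * P := by ring
    rw [this, Nat.mul_div_cancel _ h.P0]
  have hQQ : G * Q = G' * Q' := by
    have h1 : G * Q * P = G' * Q' * P := by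
      calc G * Q * P = G * P * Q := by ring
        _ = G' * P * Q' := by rw [h.mul, h'.mul]
        _ = G' * Q' * P := by ring
    exact Nat.eq_of_mul_eq_mul_right h.P0 h1
  have hGD : ∀ l : ℕ, l.Prime → l ∣ Nat.lcm G G' → ¬ (l : ℤ) ∣ D := by
    intro l hl hd hlD
    have key : ∀ g : ℕ, IsCoprime D (g : ℤ) → l ∣ g → False := by
      intro g hc hlg
      have h3 : IsCoprime (l : ℤ) (l : ℤ) :=
        (hc.of_isCoprime_of_dvd_left hlD).of_isCoprime_of_dvd_right (Int.natCast_dvd_natCast.2 hlg)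
      exact (Nat.prime_iff_prime_int.1 hl).not_isUnit (isCoprime_self.1 h3)
    rcases hlcm hl hd with h1 | h1
    · exact key G h.cD h1
    · exact key G' h'.cD h1
  refine ⟨⟨?_, ?_, ?_, ?_, ?_⟩, ?_⟩
  · intro i
    fin_cases i
    · exact sqf_lcm h.sG h'.sG
    · exact sqf_lcm h.sX h'.sX
    · exact squarefree_one
  · intro i l hl hd
    fin_cases i
    · rcases hlcm hl hd with h1 | h1
      · exact h.oneG l hl h1
      · exact h'.oneG l hl h1
    · rcases hlcm hl hd with h1 | h1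
      · exact h.oneX l hl h1
      · exact h'.oneX l hl h1
    · exact absurd hd (hne1 l hl)
  · intro i l hl hd
    fin_cases i
    · rintro ⟨-, h2⟩
      have h3 : (l : ℤ) ∣ 1 := h2
      exact hne1 l hl (by exact_mod_cast h3)
    · rintro ⟨-, h2⟩
      have h3 : (l : ℤ) ∣ -1 := h2
      rw [dvd_neg] at h3
      exact hne1 l hl (by exact_mod_cast h3)
    · exact absurd hd (hne1 l hl)
  · rintro l hl ⟨-, -, h2⟩
    exact hne1 l hl h2
  · intro i j hij l hl hi hj hd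
    fin_cases i <;> fin_cases j
    · exact absurd rfl hij
    · have h1 : (l : ℤ) ∣ 0 * (-1) - D * 1 := hd
      have h2 : (0 : ℤ) * (-1) - D * 1 = -D := by ring
      rw [h2, dvd_neg] at h1
      exact absurd h1 (hGD l hl hi)
    · exact absurd hj (hne1 l hl)
    · have h1 : (l : ℤ) ∣ D * 1 - 0 * (-1) := hd
      have h2 : D * 1 - 0 * (-1) = D := by ring
      rw [h2] at h1
      exact absurd h1 (hGD l hl hj)
    · exact absurd rfl hij
    · exact absurd hj (hne1 l hl)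
    · exact absurd hi (hne1 l hl)
    · exact absurd hi (hne1 l hl)
    · exact absurd rfl hij
  · intro i
    rw [hW]
    fin_cases i
    · show ((Nat.lcm G G' : ℕ) : ℤ) ∣ qf M P (G * Q : ℕ) 0 1
      have h1 : qf M P (G * Q : ℕ) 0 1 = ((G * Q : ℕ) : ℤ) := by
        unfold qf
        ring
      rw [h1]
      refine Int.natCast_dvd_natCast.2 (Nat.lcm_dvd (dvd_mul_right _ _) ?_)
      rw [hQQ]
      exact dvd_mul_right _ _
    · show ((Nat.lcm X X' : ℕ) : ℤ) ∣ qf M P (G * Q : ℕ) D (-1)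
      have h1 : qf M P (G * Q : ℕ) D (-1) = (P : ℤ) * D ^ 2 - 2 * M * D + G * Q := by
        unfold qf
        push_cast
        ring
      have h2 : (G : ℤ) * Q = G' * Q' := by exact_mod_cast hQQ
      have h3 : (X' : ℤ) ∣ (P : ℤ) * D ^ 2 - 2 * M * D + G * Q := by
        rw [h2]
        exact h'.F
      rw [h1, Int.natCast_dvd]
      exact Nat.lcm_dvd (Int.natCast_dvd.1 h.F) (Int.natCast_dvd.1 h3)
    · show ((1 : ℕ) : ℤ) ∣ _
      simp

end

/-- **the pair**, `A = P / gcd(P, P')`, `B = P' / gcd(P, P')` -/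
theorem pair_pts {p : Prm} {N : ℕ} {r r' : Rl} (hE : 2 * aa ≤ p.E) (hr : r ∈ RG p N) (hr' : r' ∈ RG p N)
    (hM : rM r = rM r') (hep : ep p (rP r) = ep p (rP r')) {A B : ℕ}
    (hA : A = rP r / Nat.gcd (rP r) (rP r')) (hB : B = rP r' / Nat.gcd (rP r) (rP r')) :
    Pts (aa : ℤ) (mF A B (rG r) (rG r') (rX r) (rX r')) (sF A B (rG r) (rG r') (rD r) (rD r')) (tF A)
        (Nat.gcd (Nat.gcd (rX r) (rX r')) ((A : ℤ) * rD r - B * rD r').natAbs) ∧
      ∀ i, (mF A B (rG r) (rG r') (rX r) (rX r') i : ℤ) ∣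
        qf (rM r) (rP r) ((rM r ^ 2 + aa) / rP r : ℕ) (sF A B (rG r) (rG r') (rD r) (rD r') i)
          (tF A i) := by
  have h := RG_rel hE hr
  have h' := RG_rel hE hr'
  rw [← hM] at h'
  set V := Nat.gcd (rP r) (rP r') with hV
  have hV0 : 0 < V := Nat.gcd_pos_of_pos_left _ h.P0
  have hPA : rP r = A * V := by rw [hA, Nat.div_mul_cancel (Nat.gcd_dvd_left _ _)]
  have hPB : rP r' = B * V := by rw [hB, Nat.div_mul_cancel (Nat.gcd_dvd_right _ _)]
  refine pts_core h h' hPA hPB hV0 ?_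
  intro l hl hd
  have key : ∀ P Q G : ℕ, G * P * Q = rM r ^ 2 + aa → l ∣ P → p.E < l → Spl (aa : ℤ) l := by
    intro P Q G hm hlP hlE
    refine mod4 (not_dvd_of_lt hE hlE) (x := rM r) ?_
    have h1 : l ∣ rM r ^ 2 + aa := by
      rw [← hm]
      exact dvd_mul_of_dvd_left (dvd_mul_of_dvd_right hlP _) _
    exact_mod_cast h1
  rcases hl.dvd_mul.1 hd with h1 | h1
  · refine key _ _ _ h.mul ?_ (prime_large h.P0 h'.P0 hep hl (by rw [← hV, ← hA]; exact h1))
    rw [hPA]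
    exact dvd_mul_of_dvd_left h1 _
  · refine key _ _ _ h'.mul ?_ (prime_large h'.P0 h.P0 hep.symm hl
      (by rw [Nat.gcd_comm, ← hV, ← hB]; exact h1))
    rw [hPB]
    exact dvd_mul_of_dvd_left h1 _

/-- **the pair** with `P = P'`, `D = D'` -/
theorem pair_pts0 {p : Prm} {N : ℕ} {r r' : Rl} (hE : 2 * aa ≤ p.E) (hr : r ∈ RG p N)
    (hr' : r' ∈ RG p N) (hM : rM r = rM r') (hP : rP r = rP r') (hD : rD r = rD r') :
    Pts (aa : ℤ) ![Nat.lcm (rG r) (rG r'), Nat.lcm (rX r) (rX r'), 1] ![0, rD r, 1] ![1, -1, 0] 1 ∧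
      ∀ i, ((![Nat.lcm (rG r) (rG r'), Nat.lcm (rX r) (rX r'), 1] : Fin 3 → ℕ) i : ℤ) ∣
        qf (rM r) (rP r) ((rM r ^ 2 + aa) / rP r : ℕ) ((![0, rD r, 1] : Fin 3 → ℤ) i)
          ((![1, -1, 0] : Fin 3 → ℤ) i) := by
  have h := RG_rel hE hr
  have h' := RG_rel hE hr'
  rw [← hM, ← hP, ← hD] at h'
  exact pts_core0 h h'

/-- **sizes** -/
theorem pair_size {p : Prm} {N : ℕ} {r r' : Rl} (hE : 2 * aa ≤ p.E) (hr : r ∈ RG p N)
    (hr' : r' ∈ RG p N) (hM : rM r = rM r') (hep : ep p (rP r) = ep p (rP r')) {Z : ℝ}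
    (hn : ∃ n n' : ℕ, 0 < n ∧ 0 < n' ∧ (n : ℝ) ≤ Z ∧ (n' : ℝ) ≤ Z ∧ rP r * n = rP r' * n') {A B : ℕ}
    (hA : A = rP r / Nat.gcd (rP r) (rP r')) (hB : B = rP r' / Nat.gcd (rP r) (rP r')) :
    0 < A ∧ 0 < B ∧ (A : ℝ) ≤ Z ∧ (B : ℝ) ≤ Z ∧ Nat.Coprime A B ∧ rP r * B = rP r' * A ∧
      ∀ c : ℕ, 1 ≤ c → 1 < zz p N → Z ≤ zz p N ^ c → A ∣ rdl A ^ c ∧ B ∣ rdl B ^ c := by
  classical
  have h := RG_rel hE hr
  have h' := RG_rel hE hr'
  rw [← hM] at h'
  set V := Nat.gcd (rP r) (rP r') with hV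
  have hV0 : 0 < V := Nat.gcd_pos_of_pos_left _ h.P0
  have hPA : rP r = A * V := by rw [hA, Nat.div_mul_cancel (Nat.gcd_dvd_left _ _)]
  have hPB : rP r' = B * V := by rw [hB, Nat.div_mul_cancel (Nat.gcd_dvd_right _ _)]
  have hA0 : 0 < A := Nat.pos_of_ne_zero fun h0 => by
    have := h.P0
    rw [hPA, h0, zero_mul] at this
    omega
  have hB0 : 0 < B := Nat.pos_of_ne_zero fun h0 => by
    have := h'.P0
    rw [hPB, h0, zero_mul] at this
    omega
  have hcop : Nat.Coprime A B := by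
    rw [hA, hB]
    exact Nat.coprime_div_gcd_div_gcd hV0
  obtain ⟨n, n', hn0, hn0', hnZ, hnZ', hnn⟩ := hn
  have hAB : A * n = B * n' := by
    have h1 : A * n * V = B * n' * V := by
      calc A * n * V = A * V * n := by ring
        _ = B * V * n' := by rw [← hPA, ← hPB, hnn]
        _ = B * n' * V := by ring
    exact Nat.eq_of_mul_eq_mul_right hV0 h1
  have hAn : A ∣ n' := by
    have : A ∣ B * n' := by rw [← hAB]; exact dvd_mul_right _ _
    exact hcop.dvd_of_dvd_mul_left this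
  have hBn : B ∣ n := by
    have : B ∣ A * n := by rw [hAB]; exact dvd_mul_right _ _
    exact hcop.symm.dvd_of_dvd_mul_left this
  have hAZ : (A : ℝ) ≤ Z := (by exact_mod_cast Nat.le_of_dvd hn0' hAn : (A : ℝ) ≤ n').trans hnZ'
  have hBZ : (B : ℝ) ≤ Z := (by exact_mod_cast Nat.le_of_dvd hn0 hBn : (B : ℝ) ≤ n).trans hnZ
  refine ⟨hA0, hB0, hAZ, hBZ, hcop, by rw [hPA, hPB]; ring, ?_⟩
  intro c hc hz hZc
  rw [RG, mem_filter] at hr hr'
  have hPP := hr.2.2.2.2.2.2.2.2.2.2.2.2.2.2.1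
  -- the general statement
  have key : ∀ C P Q G : ℕ, 0 < C → (C : ℝ) ≤ Z → G * P * Q = rM r ^ 2 + aa → C ∣ P →
      (∀ l : ℕ, l.Prime → l ∣ C → p.E < l) → C ∣ rdl C ^ c := by
    intro C P Q G hC0 hCZ hm hCP hlarge
    have hr0 : rdl C ≠ 0 := (sqf_rdl C).ne_zero
    rw [← Nat.factorization_le_iff_dvd hC0.ne' (pow_ne_zero _ hr0)]
    intro l
    by_cases hl : l.Prime
    swap
    · simp [Nat.factorization_eq_zero_of_not_prime _ hl]
    by_cases hlC : l ∣ C
    swap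
    · rw [Nat.factorization_eq_zero_of_not_dvd hlC]
      exact Nat.zero_le _
    have h1 : 1 ≤ (rdl C).factorization l :=
      (hl.dvd_iff_one_le_factorization hr0).1 ((dvd_rdl hl).2 ⟨hlC, hC0.ne'⟩)
    rw [Nat.factorization_pow, Finsupp.smul_apply, smul_eq_mul]
    have h2 : C.factorization l ≤ c := by
      have hlE := hlarge l hl hlC
      have hl4 : Spl (aa : ℤ) l := by
        refine mod4 (not_dvd_of_lt hE hlE) (x := rM r) ?_
        have h3 : l ∣ rM r ^ 2 + aa := by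
          rw [← hm]
          exact dvd_mul_of_dvd_left (dvd_mul_of_dvd_right (hlC.trans hCP) _) _
        exact_mod_cast h3
      by_cases hlz : (l : ℝ) < zz p N
      · have hmem : l ∈ PP p N := by
          unfold PP
          rw [mem_filter, mem_range]
          exact ⟨Nat.lt_ceil.2 hlz, hl, (spl_iff hl).2 hl4, hlE⟩
        have h3 := hPP l hmem
        by_contra h4
        push Not at h4
        apply h3
        rw [← hm]
        refine dvd_mul_of_dvd_left (dvd_mul_of_dvd_right (dvd_trans ?_ hCP) _) _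
        rw [Nat.Prime.pow_dvd_iff_le_factorization hl hC0.ne']
        omega
      · push Not at hlz
        have h3 : (l : ℝ) ^ C.factorization l ≤ (l : ℝ) ^ c := by
          have h4 : l ^ C.factorization l ≤ C := Nat.le_of_dvd hC0 (Nat.ordProj_dvd C l)
          calc (l : ℝ) ^ C.factorization l ≤ C := by exact_mod_cast h4
            _ ≤ Z := hCZ
            _ ≤ zz p N ^ c := hZc
            _ ≤ (l : ℝ) ^ c := pow_le_pow_left₀ (by linarith) hlz c
        exact (pow_le_pow_iff_right₀ (by exact_mod_cast hl.one_lt)).1 h3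
    calc C.factorization l ≤ c * 1 := by omega
      _ ≤ c * (rdl C).factorization l := Nat.mul_le_mul_left _ h1
  refine ⟨key A _ _ _ hA0 hAZ h.mul (by rw [hPA]; exact dvd_mul_right _ _) ?_,
    key B _ _ _ hB0 hBZ h'.mul (by rw [hPB]; exact dvd_mul_right _ _) ?_⟩
  · intro l hl hd
    exact prime_large h.P0 h'.P0 hep hl (by rw [← hV, ← hA]; exact hd)
  · intro l hl hd
    exact prime_large h'.P0 h.P0 hep.symm hl (by rw [Nat.gcd_comm, ← hV, ← hB]; exact hd)

end Pool.Agent.Lib.MP391708.TF1.NG
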