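import Pool.Agent.Lib.MP_391708_nt.T1.NGT1
import Pool.Agent.Lib.MP_391708_nt.TF1.NGP
import Pool.Agent.Lib.MP_391708_nt.TF.Spec

/-!
# T1a, group NG: the pairs with different slopes (a-form of `T1/NGF1.lean`)

`core1` takes `TA.NG.CNT aa` at `c₁ = 1/4`, `C₁ = 100` as a hypothesis.
-/

set_option autoImplicit false
set_option linter.constructorNameAsVariable false
set_option linter.unusedSectionVars false

namespace Pool.Agent.Lib.MP391708.TF1.NG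

open Pool.Agent.Lib.MP391708.TF
open Pool.Agent.Lib.MP391708.T1.NG (PS XS mem_XS Cd Dt Wt wt SumRdl sum1)
open Pool.Agent.Lib.MP391708.TA.NG (Pts)

variable [Pool.Agent.Lib.MP391708.TF.Aa]

open Finset
open Pool.Agent.Lib.MP391708.Eqd.Loc (md)
open scoped Classical

attribute [local irreducible] RG

/-- the windows -/
structure Win (p : Prm) (N : ℕ) (r : Rl) : Prop where
  m1 : N ≤ 2 * rM r
  m2 : rM r ≤ 8 * N
  p1 : rM r ≤ 3 * ((rD r).natAbs * rP r)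
  p2 : (rD r).natAbs * rP r ≤ 10 * rM r
  x1 : rX r ≤ 100 * rG r
  x2 : rG r ≤ 100 * rX r
  d0 : rD r ≠ 0
  d1 : ((rD r).natAbs : ℝ) ≤ Y2 p N * zz p N ^ (4 * p.K)
  g1 : Y1 p N * Y3 p N ≤ 10 * (rG r : ℝ)
  g2 : (rG r : ℝ) ≤ 10 * (Y2 p N * Y4 p N * zz p N ^ (4 * p.K))

lemma RG_win {p : Prm} {N : ℕ} {r : Rl} (hr : r ∈ RG p N) : Win p N r := by
  rw [RG, mem_filter] at hr
  obtain ⟨-, hR, -, m1, m2, p1, p2, -, x1, x2, -, -, -, -, -, -, -, -, d1, g1, g2⟩ := hr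
  obtain ⟨-, -, -, d0, -⟩ := hR
  rw [Int.abs_eq_natAbs] at p1 p2
  refine ⟨m1, m2, ?_, ?_, x1, x2, d0, ?_, g1, g2⟩
  · exact_mod_cast p1
  · exact_mod_cast p2
  · rw [Nat.cast_natAbs, Int.cast_abs]
    exact d1

lemma RelN.xs {M G P Q X : ℕ} {D : ℤ} (h : RelN M G P Q X D) (h1 : X ≤ 100 * G)
    (h2 : G ≤ 100 * X) : X ∈ XS D.natAbs G 1 := by
  refine mem_XS.mpr ⟨h.X0, h1, h2, ?_, ?_, one_dvd _⟩
  · exact Int.natAbs_dvd.mpr h.dvd
  · have h3 : IsCoprime D (X : ℤ) := by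
      obtain ⟨k, hk⟩ := h.dvd
      have : (X : ℤ) = G + D * k := by linarith
      rw [this]
      exact (IsCoprime.add_mul_left_right_iff).mpr h.cD
    have h4 := Int.isCoprime_iff_gcd_eq_one.mp h3
    exact h4

/-- the first cofactor -/
def cA (t : Rl × Rl) : ℕ := rP t.1 / Nat.gcd (rP t.1) (rP t.2)
/-- the second cofactor -/
def cB (t : Rl × Rl) : ℕ := rP t.2 / Nat.gcd (rP t.1) (rP t.2)

/-- the small data of a pair -/
def dat (t : Rl × Rl) : Dt :=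
  ((cA t, cB t, rG t.1, rG t.2), (rD t.1, rD t.2), (rX t.1, rX t.2))

/-- the dyadic piece -/
def jd (N : ℕ) (t : Rl × Rl) : ℕ := Nat.log 2 (6 * ((rD t.1).natAbs * rP t.1) / N)

/-- the pairs with a common large prime, first kind -/
noncomputable def NG1 (p : Prm) (N : ℕ) : Finset (Rl × Rl) := (NGp p N).filter (fun t =>
  (cA t : ℤ) * rD t.1 - cB t * rD t.2 ≠ 0 ∧
  ∃ l : ℕ, l.Prime ∧ zz p N ≤ (l : ℝ) ∧ l ∣ rX t.1 ∧ l ∣ rX t.2 * rG t.2)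

lemma mem_NGp {p : Prm} {N : ℕ} {t : Rl × Rl} (h : t ∈ NGp p N) : t.1 ∈ RG p N ∧ t.2 ∈ RG p N ∧
    rM t.1 = rM t.2 ∧ t.1 ≠ t.2 ∧ ep p (rP t.1) = ep p (rP t.2) ∧
    (∃ n n' : ℕ, 0 < n ∧ 0 < n' ∧ (n : ℝ) ≤ Y2 p N * zz p N ^ (4 * p.K) ∧
      (n' : ℝ) ≤ Y2 p N * zz p N ^ (4 * p.K) ∧ rP t.1 * n = rP t.2 * n') ∧
    ∃ l : ℕ, l.Prime ∧ zz p N ≤ (l : ℝ) ∧
      ((l ∣ rX t.1 ∧ l ∣ rX t.2 * rG t.2) ∨ (l ∣ rX t.2 ∧ l ∣ rX t.1 * rG t.1)) := by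
  rw [NGp, mem_filter, mem_product] at h
  exact ⟨h.1.1, h.1.2, h.2⟩

/-- the conditions on the data of a pair -/
lemma pair_cd {p : Prm} {N : ℕ} {t : Rl × Rl} {c U : ℕ} (hE : 2 * aa ≤ p.E) (hc : 1 ≤ c)
    (hz : 1 < zz p N) (hZc : Y2 p N * zz p N ^ (4 * p.K) ≤ zz p N ^ c)
    (hU : 10 * (Y2 p N * Y4 p N * zz p N ^ (4 * p.K)) ≤ U) (h : t ∈ NG1 p N) :
    Cd c U ⌊Y2 p N * zz p N ^ (4 * p.K)⌋₊ ⌈Y1 p N * Y3 p N / 10⌉₊ ⌈zz p N⌉₊ (cA t) (cB t)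
      (rG t.1) (rG t.2) (rD t.1) (rD t.2) (rX t.1) (rX t.2) := by
  rw [NG1, mem_filter] at h
  obtain ⟨h0, hΔ, l, hl, hzl, l1, l2⟩ := h
  obtain ⟨h1, h2, hM, -, hep, hn, -⟩ := mem_NGp h0
  have R1 := RG_rel hE h1
  have R2 := RG_rel hE h2
  have W1 := RG_win h1
  have W2 := RG_win h2
  obtain ⟨A0, B0, Am, Bm, cAB, -, hr⟩ := pair_size hE h1 h2 hM hep hn (A := cA t) (B := cB t) rfl rfl
  obtain ⟨rA, rB⟩ := hr c hc hz hZc
  refine ⟨A0, B0, Nat.le_floor Am, Nat.le_floor Bm, rA, rB, cAB, ?_, ?_, ?_, ?_, R1.sG, R2.sG,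
    W1.d0, W2.d0, Nat.le_floor W1.d1, Nat.le_floor W2.d1, hΔ, R1.xs W1.x1 W1.x2,
    R2.xs W2.x1 W2.x2, R2.cop.symm, l, hl, Nat.ceil_le.mpr hzl, l1, l2⟩
  · exact Nat.ceil_le.mpr (by linarith [W1.g1])
  · exact Nat.ceil_le.mpr (by linarith [W2.g1])
  · exact_mod_cast W1.g2.trans hU
  · exact_mod_cast W2.g2.trans hU

/-- a pair is determined by its data and `(M, P)` -/
lemma pair_inj {p : Prm} {N : ℕ} {t t' : Rl × Rl} (hE : 2 * aa ≤ p.E) (h : t ∈ NG1 p N)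
    (h' : t' ∈ NG1 p N) (hd : dat t = dat t') (hMP : (rM t.1, rP t.1) = (rM t'.1, rP t'.1)) :
    t = t' := by
  rw [NG1, mem_filter] at h h'
  obtain ⟨h1, h2, hM, -, hep, hn, -⟩ := mem_NGp h.1
  obtain ⟨h1', h2', hM', -, hep', hn', -⟩ := mem_NGp h'.1
  have R1 := RG_rel hE h1
  have R2 := RG_rel hE h2
  have R1' := RG_rel hE h1'
  have R2' := RG_rel hE h2'
  obtain ⟨A0, B0, -, -, -, e, -⟩ := pair_size hE h1 h2 hM hep hn (A := cA t) (B := cB t) rfl rfl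
  obtain ⟨-, -, -, -, -, e', -⟩ :=
    pair_size hE h1' h2' hM' hep' hn' (A := cA t') (B := cB t') rfl rfl
  simp only [dat, Prod.mk.injEq] at hd hMP
  obtain ⟨⟨eA, eB, eG, eG'⟩, ⟨eD, eD'⟩, eX, eX'⟩ := hd
  obtain ⟨eM, eP⟩ := hMP
  have eM2 : rM t.2 = rM t'.2 := by rw [← hM, ← hM', eM]
  have eP2 : rP t.2 = rP t'.2 := by
    rw [← eA, ← eB, ← eP] at e'
    exact Nat.eq_of_mul_eq_mul_right A0 (e.symm.trans e')
  have eQ1 : rQ t.1 = rQ t'.1 := by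
    have u1 := R1.mul
    have u2 := R1'.mul
    rw [← eM, ← eG, ← eP] at u2
    exact Nat.eq_of_mul_eq_mul_left (Nat.mul_pos R1.G0 R1.P0) (u1.trans u2.symm)
  have eQ2 : rQ t.2 = rQ t'.2 := by
    have u1 := R2.mul
    have u2 := R2'.mul
    rw [← eM2, ← eG', ← eP2] at u2
    exact Nat.eq_of_mul_eq_mul_left (Nat.mul_pos R2.G0 R2.P0) (u1.trans u2.symm)
  refine Prod.ext ?_ ?_
  · exact Prod.ext eM (Prod.ext eG (Prod.ext eP (Prod.ext eQ1 (Prod.ext eD eX))))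
  · exact Prod.ext eM2 (Prod.ext eG' (Prod.ext eP2 (Prod.ext eQ2 (Prod.ext eD' eX'))))

/-- the dyadic pieces -/
lemma pair_dy {p : Prm} {N : ℕ} {r : Rl} (hN : 0 < N) (W : Win p N r) (hP : 0 < rP r) :
    let j := Nat.log 2 (6 * ((rD r).natAbs * rP r) / N)
    j < 9 ∧ 2 ^ j * ((N : ℝ) / (6 * (rD r).natAbs)) ≤ rP r ∧
      (rP r : ℝ) ≤ 2 * (2 ^ j * ((N : ℝ) / (6 * (rD r).natAbs))) := by
  intro j
  have hd : 0 < (rD r).natAbs := Int.natAbs_pos.mpr W.d0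
  have hdr : (0 : ℝ) < (rD r).natAbs := by exact_mod_cast hd
  have hNr : (0 : ℝ) < N := by exact_mod_cast hN
  set v := (rD r).natAbs * rP r with hv
  have v1 : N ≤ 6 * v := by have := W.m1; have := W.p1; omega
  have v2 : 6 * v ≤ 480 * N := by have := W.m2; have := W.p2; omega
  set n := 6 * v / N with hn
  have n1 : 1 ≤ n := (Nat.one_le_div_iff hN).mpr v1
  have n2 : n ≤ 480 := Nat.div_le_of_le_mul (by linarith)
  have hj : j = Nat.log 2 n := rfl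
  have j1 : 2 ^ j ≤ n := Nat.pow_log_le_self 2 (Nat.one_le_iff_ne_zero.mp n1)
  have j2 : n < 2 ^ (j + 1) := Nat.lt_pow_succ_log_self (by norm_num) n
  have k1 : n * N ≤ 6 * v := Nat.div_mul_le_self _ _
  have k2 : 6 * v < (n + 1) * N := by
    rw [mul_comm (n + 1) N]
    exact Nat.lt_mul_div_succ (6 * v) hN
  refine ⟨?_, ?_, ?_⟩
  · by_contra hcon
    have : 2 ^ 9 ≤ 2 ^ j := Nat.pow_le_pow_right (by norm_num) (by omega)
    omega
  · have e1 : (2 : ℝ) ^ j * N ≤ 6 * ((rD r).natAbs * rP r) := by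
      have : 2 ^ j * N ≤ 6 * v := (Nat.mul_le_mul_right N j1).trans k1
      exact_mod_cast this
    rw [← mul_div_assoc, div_le_iff₀ (by positivity)]
    linarith
  · have e1 : 6 * ((rD r).natAbs * rP r : ℝ) ≤ 2 ^ (j + 1) * N := by
      have : 6 * v ≤ 2 ^ (j + 1) * N := k2.le.trans (Nat.mul_le_mul_right N j2)
      exact_mod_cast this
    rw [← mul_div_assoc, ← mul_div_assoc, le_div_iff₀ (by positivity)]
    rw [pow_succ] at e1
    linarith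

lemma four_pow_le (n : ℕ) (hn : n ≠ 0) : 4 ^ n.primeFactors.card ≤ n.divisors.card ^ 2 := by
  have h : 2 ^ n.primeFactors.card ≤ n.divisors.card := by
    rw [Nat.card_divisors hn]
    refine Finset.pow_card_le_prod _ _ _ (fun p hp => ?_)
    have := (Nat.prime_of_mem_primeFactors hp).factorization_pos_of_dvd hn
      (Nat.dvd_of_mem_primeFactors hp)
    omega
  calc 4 ^ n.primeFactors.card = (2 ^ n.primeFactors.card) ^ 2 := by
        rw [← pow_mul, mul_comm, pow_mul]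
        norm_num
    _ ≤ _ := Nat.pow_le_pow_left h 2

lemma md_PS_le (m : Fin 3 → ℕ) (h : m 0 * m 1 * m 2 ≠ 0) : md (PS m) ≤ m 0 * m 1 * m 2 := by
  have h1 : md (PS m) = ∏ l ∈ (m 0 * m 1 * m 2).primeFactors, l := by
    unfold md PS
    exact prod_coe_sort _ (fun l => l)
  rw [h1]
  exact Nat.le_of_dvd (Nat.pos_of_ne_zero h) (Nat.prod_primeFactors_dvd _)

lemma rdl_le {n : ℕ} (h : n ≠ 0) : rdl n ≤ n :=
  Nat.le_of_dvd (Nat.pos_of_ne_zero h) (Nat.prod_primeFactors_dvd n)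

/-- the number of pairs with given data -/
lemma fib_le {K : ℝ}
    (hcnt : ∀ N Y : ℝ, 1 ≤ N → 1 ≤ Y → Y ≤ 100 * N →
      ∀ (m : Fin 3 → ℕ) (s t : Fin 3 → ℤ) (g : ℕ), Pts (aa : ℤ) m s t g → 0 < g →
      ∀ S : Finset (ℕ × ℕ), (∀ x ∈ S, 1 / 4 * N < x.1 ∧ (x.1 : ℝ) ≤ 100 * N ∧ Y ≤ x.2 ∧
        (x.2 : ℝ) ≤ 2 * Y ∧ x.2 ∣ x.1 ^ 2 + aa ∧
        ∀ i, (m i : ℤ) ∣ qf x.1 x.2 ((x.1 ^ 2 + aa) / x.2 : ℕ) (s i) (t i)) →
      (S.card : ℝ) ≤ K * N * (4 ^ (PS m).card * g / (m 0 * m 1 * m 2)) +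
        K * (md (PS m) : ℝ) ^ 12 * (N * Y ^ (-(1 / 20) : ℝ)))
    (hK : 0 < K) {T2 : ℝ} {p : Prm} {N c U : ℕ} (hE : 2 * aa ≤ p.E) (hc : 1 ≤ c) (hz : 1 < zz p N)
    (hZc : Y2 p N * zz p N ^ (4 * p.K) ≤ zz p N ^ c)
    (hU : 100 * (10 * (Y2 p N * Y4 p N * zz p N ^ (4 * p.K))) ≤ U)
    (hU2 : Y2 p N * zz p N ^ (4 * p.K) ≤ U) (hUN : 6 * U ≤ N) (hU1 : 1 ≤ U)
    (hT2 : ∀ n : ℕ, 0 < n → n ≤ U ^ 6 → (4 : ℝ) ^ n.primeFactors.card ≤ T2)
    (i : ℕ × Dt) (F : Finset (Rl × Rl)) (hF : ∀ t ∈ F, t ∈ NG1 p N ∧ (jd N t, dat t) = i)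
    (hne : F.Nonempty) :
    (F.card : ℝ) ≤ K * N * (T2 * Wt i.2) +
      K * ((U : ℝ) ^ 6) ^ 12 * (N * ((N : ℝ) / (6 * U)) ^ (-(1 / 20) : ℝ)) := by
  obtain ⟨t0, ht0⟩ := hne
  obtain ⟨hN0, hi0⟩ := hF t0 ht0
  have hY4 : 0 ≤ Y2 p N * Y4 p N * zz p N ^ (4 * p.K) := by
    have : 0 < zz p N := by linarith
    unfold Y2 Y4
    positivity
  have hUs : 10 * (Y2 p N * Y4 p N * zz p N ^ (4 * p.K)) ≤ U := by linarith
  have hN1 : 1 ≤ N := by omega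
  have hNr : (1 : ℝ) ≤ N := by exact_mod_cast hN1
  have hUr : (1 : ℝ) ≤ U := by exact_mod_cast hU1
  have hUNr : 6 * (U : ℝ) ≤ N := by exact_mod_cast hUN
  have C0 := pair_cd hE hc hz hZc hUs hN0
  have hm0 := hN0
  rw [NG1, mem_filter] at hm0
  obtain ⟨hm0', -⟩ := hm0
  obtain ⟨h1, h2, hM, -, hep, hn, -⟩ := mem_NGp hm0'
  have R1 := RG_rel hE h1
  have W1 := RG_win h1
  have W2 := RG_win h2
  obtain ⟨HP, -⟩ := pair_pts hE h1 h2 hM hep (A := cA t0) (B := cB t0) rfl rfl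
  have hdU : (rD t0.1).natAbs ≤ U := by exact_mod_cast W1.d1.trans hU2
  have hdp : 0 < (rD t0.1).natAbs := Int.natAbs_pos.mpr W1.d0
  have hdr : (0 : ℝ) < (rD t0.1).natAbs := by exact_mod_cast hdp
  have hdUr : ((rD t0.1).natAbs : ℝ) ≤ U := by exact_mod_cast hdU
  set m := mF (cA t0) (cB t0) (rG t0.1) (rG t0.2) (rX t0.1) (rX t0.2) with hm
  set s := sF (cA t0) (cB t0) (rG t0.1) (rG t0.2) (rD t0.1) (rD t0.2) with hs
  set tt := tF (cA t0) with htt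
  set g := Nat.gcd (Nat.gcd (rX t0.1) (rX t0.2)) ((cA t0 : ℤ) * rD t0.1 - cB t0 * rD t0.2).natAbs
    with hg
  have hg0 : 0 < g := Nat.gcd_pos_of_pos_right _ (Int.natAbs_pos.mpr C0.Δ)
  set Y : ℝ := 2 ^ (jd N t0) * ((N : ℝ) / (6 * (rD t0.1).natAbs)) with hY
  have hYlow : (N : ℝ) / (6 * U) ≤ Y := by
    have e1 : (N : ℝ) / (6 * U) ≤ (N : ℝ) / (6 * (rD t0.1).natAbs) := by gcongr
    have e2 : (1 : ℝ) ≤ 2 ^ (jd N t0) := one_le_pow₀ (by norm_num)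
    have e3 : 0 ≤ (N : ℝ) / (6 * (rD t0.1).natAbs) := by positivity
    rw [hY]
    nlinarith
  have hNU : 1 ≤ (N : ℝ) / (6 * U) := by
    rw [le_div_iff₀ (by positivity)]; linarith
  have hj9 : jd N t0 < 9 := (pair_dy (p := p) (by omega) W1 R1.P0).1
  have hYup : Y ≤ 100 * N := by
    have e1 : (2 : ℝ) ^ (jd N t0) ≤ 2 ^ 8 := pow_le_pow_right₀ (by norm_num) (by omega)
    have e2 : (N : ℝ) / (6 * (rD t0.1).natAbs) ≤ N / 6 := by
      have : (1 : ℝ) ≤ (rD t0.1).natAbs := by exact_mod_cast hdp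
      gcongr
      linarith
    have e3 : 0 ≤ (N : ℝ) / (6 * (rD t0.1).natAbs) := by positivity
    calc Y ≤ 2 ^ 8 * (N / 6) := by rw [hY]; exact mul_le_mul e1 e2 e3 (by positivity)
      _ ≤ 100 * N := by linarith
  have hcard : F.card = (F.image (fun t => (rM t.1, rP t.1))).card := by
    rw [card_image_of_injOn]
    intro t ht t' ht' he
    refine pair_inj hE (hF t ht).1 (hF t' ht').1 ?_ he
    have e1 := (hF t ht).2
    have e2 := (hF t' ht').2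
    have := e1.trans e2.symm
    exact (Prod.ext_iff.mp this).2
  have hmne : ∀ i, m i ≠ 0 := fun i => (HP.sqf i).ne_zero
  have hGU : 100 * rG t0.1 ≤ U := by
    have := W1.g2
    have h3 : (100 : ℝ) * rG t0.1 ≤ U := by linarith
    exact_mod_cast h3
  have hGU' : 100 * rG t0.2 ≤ U := by
    have := W2.g2
    have h3 : (100 : ℝ) * rG t0.2 ≤ U := by linarith
    exact_mod_cast h3
  have hAU : cA t0 ≤ U := C0.Am.trans (Nat.floor_le_of_le hU2)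
  have hBU : cB t0 ≤ U := C0.Bm.trans (Nat.floor_le_of_le hU2)
  have hABG : cA t0 * cB t0 * rG t0.1 * rG t0.2 ≠ 0 := by
    have a1 := C0.A0
    have a2 := C0.B0
    have a3 := R1.G0
    have a4 := (RG_rel hE h2).G0
    positivity
  have hmU : m 0 * m 1 * m 2 ≤ U ^ 6 := by
    have a0 : m 0 ≤ U * U * U * U := by
      have : m 0 ≤ cA t0 * cB t0 * rG t0.1 * rG t0.2 := rdl_le hABG
      refine this.trans ?_
      exact Nat.mul_le_mul (Nat.mul_le_mul (Nat.mul_le_mul hAU hBU) (by omega)) (by omega)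
    have a1 : m 1 ≤ U := W1.x1.trans hGU
    have a2 : m 2 ≤ U := (Nat.div_le_self _ _).trans (W2.x1.trans hGU')
    calc m 0 * m 1 * m 2 ≤ (U * U * U * U) * U * U := Nat.mul_le_mul (Nat.mul_le_mul a0 a1) a2
      _ = U ^ 6 := by ring
  have hc2 := hcnt N Y hNr (hNU.trans hYlow) hYup m s tt g HP hg0
    (F.image (fun t => (rM t.1, rP t.1))) ?_
  · rw [hcard]
    refine hc2.trans (add_le_add ?_ ?_)
    · rw [mul_assoc K, mul_assoc K]
      refine mul_le_mul_of_nonneg_left (mul_le_mul_of_nonneg_left ?_ (by linarith)) hK.le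
      have e0 : (4 : ℝ) ^ (PS m).card ≤ T2 :=
        hT2 _ (Nat.pos_of_ne_zero (mul_ne_zero (mul_ne_zero (hmne 0) (hmne 1)) (hmne 2))) hmU
      have e1 : Wt i.2 = g / (m 0 * m 1 * m 2) := by
        rw [← hi0]
        have hX2 : (0 : ℝ) < Nat.gcd (rX t0.2) (cA t0 * cB t0) := by
          exact_mod_cast Nat.gcd_pos_of_pos_left _ (RG_rel hE h2).X0
        have hX1 : (0 : ℝ) < rX t0.1 := by exact_mod_cast R1.X0
        have hX3 : (0 : ℝ) < rX t0.2 := by exact_mod_cast (RG_rel hE h2).X0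
        have hr0 : (0 : ℝ) < rdl (cA t0 * cB t0 * rG t0.1 * rG t0.2) := by
          exact_mod_cast Nat.pos_of_ne_zero (hmne 0)
        have hm2 : (m 2 : ℝ) = rX t0.2 / Nat.gcd (rX t0.2) (cA t0 * cB t0) := by
          have : m 2 = rX t0.2 / Nat.gcd (rX t0.2) (cA t0 * cB t0) := rfl
          rw [this, Nat.cast_div (Nat.gcd_dvd_left _ _) hX2.ne']
        have hm1 : (m 1 : ℝ) = rX t0.1 := rfl
        have hm0 : (m 0 : ℝ) = rdl (cA t0 * cB t0 * rG t0.1 * rG t0.2) := rfl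
        rw [hm2, hm1, hm0, hg]
        simp only [Wt, dat, wt]
        field_simp
      rw [e1, mul_div_assoc]
      exact mul_le_mul_of_nonneg_right e0 (by positivity)
    · have e0 : (md (PS m) : ℝ) ≤ (U : ℝ) ^ 6 := by
        exact_mod_cast (md_PS_le m (mul_ne_zero (mul_ne_zero (hmne 0) (hmne 1)) (hmne 2))).trans hmU
      have e1 : Y ^ (-(1 / 20) : ℝ) ≤ ((N : ℝ) / (6 * U)) ^ (-(1 / 20) : ℝ) :=
        Real.rpow_le_rpow_of_nonpos (by positivity) hYlow (by norm_num)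
      gcongr
  · intro x hx
    obtain ⟨t, ht, rfl⟩ := mem_image.mp hx
    obtain ⟨htN, hti⟩ := hF t ht
    have hde : dat t = dat t0 := (Prod.ext_iff.mp (hti.trans hi0.symm)).2
    have hje : jd N t = jd N t0 := (Prod.ext_iff.mp (hti.trans hi0.symm)).1
    simp only [dat, Prod.mk.injEq] at hde
    obtain ⟨⟨eA, eB, eG, eG'⟩, ⟨eD, eD'⟩, eX, eX'⟩ := hde
    rw [NG1, mem_filter] at htN
    obtain ⟨h1', h2', hM', -, hep', hn', -⟩ := mem_NGp htN.1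
    have R1' := RG_rel hE h1'
    have W1' := RG_win h1'
    obtain ⟨-, HD⟩ := pair_pts hE h1' h2' hM' hep' (A := cA t) (B := cB t) rfl rfl
    rw [eA, eB, eG, eG', eD, eD', eX, eX'] at HD
    obtain ⟨-, d1, d2⟩ := pair_dy (p := p) (by omega) W1' R1'.P0
    have hjd : Nat.log 2 (6 * ((rD t.1).natAbs * rP t.1) / N) = jd N t0 := hje
    rw [hjd, eD] at d1 d2
    refine ⟨?_, ?_, d1, d2, ?_, HD⟩
    · have : (N : ℝ) ≤ 2 * rM t.1 := by exact_mod_cast W1'.m1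
      simp only
      linarith
    · have : (rM t.1 : ℝ) ≤ 8 * N := by exact_mod_cast W1'.m2
      simp only
      linarith
    · simp only
      rw [← R1'.mul]
      exact Dvd.intro_left (rG t.1) rfl |>.mul_right _

lemma Wt_nonneg (x : Dt) : 0 ≤ Wt x := by
  unfold Wt wt
  positivity

/-- **pairs of the first kind** -/
theorem core1
    (hcnt : ∃ K : ℝ, 0 < K ∧ ∀ N Y : ℝ, 1 ≤ N → 1 ≤ Y → Y ≤ 100 * N →
      ∀ (m : Fin 3 → ℕ) (s t : Fin 3 → ℤ) (g : ℕ), Pts (aa : ℤ) m s t g → 0 < g →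
      ∀ S : Finset (ℕ × ℕ), (∀ x ∈ S, 1 / 4 * N < x.1 ∧ (x.1 : ℝ) ≤ 100 * N ∧ Y ≤ x.2 ∧
        (x.2 : ℝ) ≤ 2 * Y ∧ x.2 ∣ x.1 ^ 2 + aa ∧
        ∀ i, (m i : ℤ) ∣ qf x.1 x.2 ((x.1 ^ 2 + aa) / x.2 : ℕ) (s i) (t i)) →
      (S.card : ℝ) ≤ K * N * (4 ^ (PS m).card * g / (m 0 * m 1 * m 2)) +
        K * (md (PS m) : ℝ) ^ 12 * (N * Y ^ (-(1 / 20) : ℝ)))
    (hR : SumRdl) (c : ℕ) (hc : 1 ≤ c) (η : ℝ) (hη : 0 < η) :
    ∃ C : ℝ, 0 < C ∧ ∀ (p : Prm) (N U : ℕ), 2 * aa ≤ p.E → 1 < zz p N →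
      Y2 p N * zz p N ^ (4 * p.K) ≤ zz p N ^ c →
      100 * (10 * (Y2 p N * Y4 p N * zz p N ^ (4 * p.K))) ≤ U →
      Y2 p N * zz p N ^ (4 * p.K) ≤ U → 6 * U ≤ N → 3 ≤ U →
      200 * ⌊Y2 p N * zz p N ^ (4 * p.K)⌋₊ ^ 2 ≤ ⌈Y1 p N * Y3 p N / 10⌉₊ →
      ((NG1 p N).card : ℝ) ≤ C * N * (U : ℝ) ^ η * (1 / ⌈zz p N⌉₊ +
        (⌊Y2 p N * zz p N ^ (4 * p.K)⌋₊ : ℝ) ^ 6 / ⌈Y1 p N * Y3 p N / 10⌉₊) +
        C * (U : ℝ) ^ 91 * (N : ℝ) ^ (19 / 20 : ℝ) := by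
  obtain ⟨K, hK, hcnt⟩ := hcnt
  obtain ⟨C1, hC1, hS1⟩ := sum1 hR c hc (η / 2) (by positivity)
  obtain ⟨C2, hC2, hdv⟩ := MP_391708_nt.Div.card_divisors_le_rpow (η / 24) (by positivity)
  refine ⟨9 * K * C2 ^ 2 * C1 + 54 * K, by positivity, ?_⟩
  intro p N U hE hz hZc hU hU2 hUN hU3 hDG
  have hUr : (3 : ℝ) ≤ U := by exact_mod_cast hU3
  have hU0 : (0 : ℝ) < U := by linarith
  have hU1r : (1 : ℝ) ≤ U := by linarith
  have hN1 : 1 ≤ N := by omega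
  have hNr : (1 : ℝ) ≤ N := by exact_mod_cast hN1
  have hN0 : (0 : ℝ) < N := by linarith
  have hz0 : 0 < zz p N := by linarith
  have hY4 : 0 ≤ Y2 p N * Y4 p N * zz p N ^ (4 * p.K) := by
    unfold Y2 Y4
    positivity
  have hUs : 10 * (Y2 p N * Y4 p N * zz p N ^ (4 * p.K)) ≤ U := by linarith
  set T2 : ℝ := C2 ^ 2 * (U : ℝ) ^ (η / 2) with hT2d
  have hT2 : ∀ n : ℕ, 0 < n → n ≤ U ^ 6 → (4 : ℝ) ^ n.primeFactors.card ≤ T2 := by
    intro n hn hnU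
    have e1 : (4 : ℝ) ^ n.primeFactors.card ≤ (n.divisors.card : ℝ) ^ 2 := by
      exact_mod_cast four_pow_le n hn.ne'
    have e2 : (n : ℝ) ^ (η / 24) ≤ (U : ℝ) ^ (η / 4) := by
      have : (n : ℝ) ≤ (U : ℝ) ^ 6 := by exact_mod_cast hnU
      calc (n : ℝ) ^ (η / 24) ≤ ((U : ℝ) ^ 6) ^ (η / 24) :=
            Real.rpow_le_rpow (Nat.cast_nonneg _) this (by positivity)
        _ = (U : ℝ) ^ (η / 4) := by
            rw [← Real.rpow_natCast (U : ℝ) 6, ← Real.rpow_mul hU0.le]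
            congr 1; push_cast; ring
    calc (4 : ℝ) ^ n.primeFactors.card ≤ (n.divisors.card : ℝ) ^ 2 := e1
      _ ≤ (C2 * (U : ℝ) ^ (η / 4)) ^ 2 := by
          refine pow_le_pow_left₀ (Nat.cast_nonneg _) ((hdv n hn).trans ?_) 2
          exact mul_le_mul_of_nonneg_left e2 hC2.le
      _ = T2 := by
          rw [mul_pow, hT2d, ← Real.rpow_natCast ((U : ℝ) ^ (η / 4)) 2, ← Real.rpow_mul hU0.le]
          congr 2; push_cast; ring
  have hT20 : 0 ≤ T2 := by positivity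
  set F := NG1 p N with hF
  set I := F.image (fun t => (jd N t, dat t)) with hI
  set J := F.image dat with hJ
  set E1 : ℝ := K * ((U : ℝ) ^ 6) ^ 12 * (N * ((N : ℝ) / (6 * U)) ^ (-(1 / 20) : ℝ)) with hE1
  have hE10 : 0 ≤ E1 := by positivity
  have hIJ : I ⊆ range 9 ×ˢ J := by
    intro i hi
    obtain ⟨t, ht, rfl⟩ := mem_image.mp hi
    refine mem_product.mpr ⟨mem_range.mpr ?_, mem_image_of_mem _ ht⟩
    have ht' := ht
    rw [hF, NG1, mem_filter] at ht'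
    obtain ⟨h1, -⟩ := mem_NGp ht'.1
    exact (pair_dy (p := p) (by omega) (RG_win h1) (RG_rel hE h1).P0).1
  have hcardF : (F.card : ℝ) ≤ ∑ i ∈ I, (K * N * (T2 * Wt i.2) + E1) := by
    rw [card_eq_sum_card_image (fun t => (jd N t, dat t)) F]
    push_cast
    refine sum_le_sum fun i hi => ?_
    obtain ⟨t0, ht0, hti⟩ := mem_image.mp hi
    refine fib_le hcnt hK hE hc hz hZc hU hU2 hUN (by omega) hT2 i _ (fun t ht => ?_)
      ⟨t0, mem_filter.mpr ⟨ht0, hti⟩⟩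
    exact ⟨(mem_filter.mp ht).1, (mem_filter.mp ht).2⟩
  refine hcardF.trans ?_
  rw [sum_add_distrib, sum_const, nsmul_eq_mul, ← mul_sum, ← mul_sum]
  have hW : ∑ i ∈ I, Wt i.2 ≤ 9 * ∑ x ∈ J, Wt x := by
    calc ∑ i ∈ I, Wt i.2 ≤ ∑ i ∈ range 9 ×ˢ J, Wt i.2 :=
          sum_le_sum_of_subset_of_nonneg hIJ fun i _ _ => Wt_nonneg _
      _ = 9 * ∑ x ∈ J, Wt x := by
          rw [sum_product]
          simp only [sum_const, card_range, nsmul_eq_mul]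
          norm_num
  have hz2 : 2 ≤ ⌈zz p N⌉₊ := by
    have : 1 < ⌈zz p N⌉₊ := Nat.lt_ceil.mpr (by exact_mod_cast hz)
    omega
  have hG00 : 0 < ⌈Y1 p N * Y3 p N / 10⌉₊ := by
    refine Nat.ceil_pos.mpr ?_
    unfold Y1 Y3
    positivity
  have hS := hS1 U ⌊Y2 p N * zz p N ^ (4 * p.K)⌋₊ ⌈Y1 p N * Y3 p N / 10⌉₊ ⌈zz p N⌉₊ hz2 hG00 hDG
    (Nat.floor_le_of_le hU2) J ?_
  · set X0 : ℝ := 1 / (⌈zz p N⌉₊ : ℝ) +
        (⌊Y2 p N * zz p N ^ (4 * p.K)⌋₊ : ℝ) ^ 6 / ⌈Y1 p N * Y3 p N / 10⌉₊ with hX0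
    have hX00 : 0 ≤ X0 := by positivity
    have hIc : (I.card : ℝ) ≤ 9 * (U : ℝ) ^ 10 := by
      have e1 : I.card ≤ 9 * J.card := by
        have := card_le_card hIJ
        rwa [card_product, card_range] at this
      have e2 : J.card ≤ (U ^ 4) * ((2 * U + 1) ^ 2 * U ^ 2) := by
        have hsub : J ⊆ (Icc 1 U ×ˢ Icc 1 U ×ˢ Icc 1 U ×ˢ Icc 1 U) ×ˢ
            (Icc (-(U : ℤ)) U ×ˢ Icc (-(U : ℤ)) U) ×ˢ (Icc 1 U ×ˢ Icc 1 U) := by
          intro x hx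
          obtain ⟨t, ht, rfl⟩ := mem_image.mp hx
          have C0 := pair_cd hE hc hz hZc hUs ht
          have ht' := ht
          rw [hF, NG1, mem_filter] at ht'
          obtain ⟨h1, h2, -⟩ := mem_NGp ht'.1
          have R1 := RG_rel hE h1
          have R2 := RG_rel hE h2
          have W1 := RG_win h1
          have W2 := RG_win h2
          have hGU : 100 * rG t.1 ≤ U := by
            have := W1.g2
            have h3 : (100 : ℝ) * rG t.1 ≤ U := by linarith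
            exact_mod_cast h3
          have hGU' : 100 * rG t.2 ≤ U := by
            have := W2.g2
            have h3 : (100 : ℝ) * rG t.2 ≤ U := by linarith
            exact_mod_cast h3
          have hAU : cA t ≤ U := C0.Am.trans (Nat.floor_le_of_le hU2)
          have hBU : cB t ≤ U := C0.Bm.trans (Nat.floor_le_of_le hU2)
          have hDU : (rD t.1).natAbs ≤ U := C0.Dm_.trans (Nat.floor_le_of_le hU2)
          have hDU' : (rD t.2).natAbs ≤ U := C0.Dm'.trans (Nat.floor_le_of_le hU2)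
          have x1 := W1.x1
          have x2 := W2.x1
          have g1 := R1.G0
          have g2 := R2.G0
          have a0 := C0.A0
          have b0 := C0.B0
          have y1 := R1.X0
          have y2 := R2.X0
          simp only [dat, mem_product, mem_Icc]
          refine ⟨⟨⟨a0, hAU⟩, ⟨b0, hBU⟩, ⟨g1, by omega⟩, ⟨g2, by omega⟩⟩, ⟨⟨by omega, by omega⟩,
            ⟨by omega, by omega⟩⟩, ⟨y1, by omega⟩, ⟨y2, by omega⟩⟩
        refine (card_le_card hsub).trans (le_of_eq ?_)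
        simp only [card_product, Nat.card_Icc, Int.card_Icc]
        have : ((U : ℤ) + 1 - -(U : ℤ)).toNat = 2 * U + 1 := by omega
        rw [this, Nat.add_sub_cancel]
        ring
      have e3 : (U ^ 4) * ((2 * U + 1) ^ 2 * U ^ 2) ≤ U ^ 10 := by
        have h1 : 2 * U + 1 ≤ U ^ 2 := by nlinarith
        calc (U ^ 4) * ((2 * U + 1) ^ 2 * U ^ 2) ≤ U ^ 4 * ((U ^ 2) ^ 2 * U ^ 2) := by gcongr
          _ = U ^ 10 := by ring
      exact_mod_cast e1.trans (Nat.mul_le_mul_left 9 (e2.trans e3))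
    have hE1b : E1 ≤ 6 * K * (U : ℝ) ^ 73 * (N : ℝ) ^ (19 / 20 : ℝ) := by
      have e1 : ((N : ℝ) / (6 * U)) ^ (-(1 / 20) : ℝ) ≤ 6 * U * (N : ℝ) ^ (-(1 / 20) : ℝ) := by
        rw [Real.div_rpow hN0.le (by positivity), Real.rpow_neg (by positivity : (0:ℝ) ≤ 6 * U),
          div_inv_eq_mul, mul_comm]
        refine mul_le_mul_of_nonneg_right ?_ (by positivity)
        calc (6 * (U : ℝ)) ^ (1 / 20 : ℝ) ≤ (6 * (U : ℝ)) ^ (1 : ℝ) :=
              Real.rpow_le_rpow_of_exponent_le (by linarith) (by norm_num)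
          _ = 6 * U := Real.rpow_one _
      have e2 : (N : ℝ) * (N : ℝ) ^ (-(1 / 20) : ℝ) = (N : ℝ) ^ (19 / 20 : ℝ) := by
        rw [← Real.rpow_one_add' hN0.le (by norm_num)]
        norm_num
      calc E1 ≤ K * ((U : ℝ) ^ 6) ^ 12 * (N * (6 * U * (N : ℝ) ^ (-(1 / 20) : ℝ))) := by
            rw [hE1]; gcongr
        _ = 6 * K * (U : ℝ) ^ 73 * (N * (N : ℝ) ^ (-(1 / 20) : ℝ)) := by ring
        _ = _ := by rw [e2]
    have hUη : (U : ℝ) ^ (η / 2) * (U : ℝ) ^ (η / 2) = (U : ℝ) ^ η := by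
      rw [← Real.rpow_add hU0]; congr 1; ring
    have hN19 : 0 ≤ (N : ℝ) ^ (19 / 20 : ℝ) := by positivity
    have hU83 : (U : ℝ) ^ 83 ≤ (U : ℝ) ^ 91 := pow_le_pow_right₀ hU1r (by norm_num)
    calc K * N * (T2 * ∑ i ∈ I, Wt i.2) + I.card * E1
        ≤ K * N * (T2 * (9 * (C1 * (U : ℝ) ^ (η / 2) * X0))) +
          (9 * (U : ℝ) ^ 10) * (6 * K * (U : ℝ) ^ 73 * (N : ℝ) ^ (19 / 20 : ℝ)) := by
          refine add_le_add ?_ (mul_le_mul hIc hE1b hE10 (by positivity))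
          refine mul_le_mul_of_nonneg_left (mul_le_mul_of_nonneg_left ?_ hT20) (by positivity)
          exact hW.trans (mul_le_mul_of_nonneg_left hS (by norm_num))
      _ = (9 * K * C2 ^ 2 * C1) * N * ((U : ℝ) ^ (η / 2) * (U : ℝ) ^ (η / 2)) * X0 +
          54 * K * (U : ℝ) ^ 83 * (N : ℝ) ^ (19 / 20 : ℝ) := by rw [hT2d]; ring
      _ ≤ (9 * K * C2 ^ 2 * C1 + 54 * K) * N * (U : ℝ) ^ η * X0 +
          (9 * K * C2 ^ 2 * C1 + 54 * K) * (U : ℝ) ^ 91 * (N : ℝ) ^ (19 / 20 : ℝ) := by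
          rw [hUη]
          have k1 : 0 ≤ 54 * K := by positivity
          have k2 : 0 ≤ 9 * K * C2 ^ 2 * C1 := by positivity
          gcongr
          · linarith
          · linarith
  · intro x hx
    obtain ⟨t, ht, rfl⟩ := mem_image.mp hx
    exact pair_cd hE hc hz hZc hUs ht

end Pool.Agent.Lib.MP391708.TF1.NG
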