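import Pool.Agent.Lib.MP_391708_nt.TF1.NuSc
import Pool.Agent.Lib.MP_391708_nt.TF1.NuJ1
import Pool.Agent.Lib.MP_391708_nt.T1.GoodL
import Pool.Agent.Lib.MP_391708_nt.TF.FSpecB

/-!
# Theorem T1a, group J: the assembly
-/

set_option autoImplicit false

namespace Pool.Agent.Lib.MP391708.TF

variable [Pool.Agent.Lib.MP391708.TF.Aa] [Pool.Agent.Lib.MP391708.TF.Frm]

open Finset Filter Topology
open Pool.Agent.Lib.MP391708.Eqd (V cross pairs)
open Pool.Agent.Lib.MP391708.TF1.NuSum (fC cf pairs_le fC_nonneg)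
open scoped Classical

noncomputable section

namespace NuJF

open NuSc

/-! ## The inputs from group F -/

omit [Frm] in
lemma sm_mul' {p : Prm} {N a b : ℕ} (ha : a ≠ 0) (hb : b ≠ 0) :
    sm p N (a * b) = sm p N a * sm p N b := by
  unfold sm
  rw [← prod_mul_distrib]
  refine prod_congr rfl fun l _ => ?_
  rw [Nat.factorization_mul ha hb, Finsupp.add_apply, pow_add]

lemma specSMT (h : SpecTyp) : SpecSMT := by
  intro ε hε
  refine (h ε 1 1 hε one_pos one_pos).mono fun p hp => ?_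
  filter_upwards [hp] with N hN
  refine le_trans (Nat.cast_le.2 (card_le_card ?_)) hN
  intro x hx
  rw [mem_filter] at hx ⊢
  refine ⟨hx.1, fun ht => ?_⟩
  have hc := mem_Gam_cross hx.1
  have hd := I.dd_pos hc
  have he := I.ee_pos hc
  have h1 : (sm p N (mq x) : ℝ) ≤ zz p N ^ (2 * p.K) := by
    rw [← natAbs_mul x hc, sm_mul' (Int.natAbs_ne_zero.2 hd.ne') (Int.natAbs_ne_zero.2 he.ne')]
    push_cast
    calc (sm p N (dd x).natAbs : ℝ) * (sm p N (ee x).natAbs : ℝ) ≤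
          zz p N ^ p.K * zz p N ^ p.K :=
        mul_le_mul ht.1 ht.2.1 (Nat.cast_nonneg _) (pow_nonneg (zz_nonneg p N) _)
      _ = _ := by rw [← pow_add]; congr 1; omega
  exact absurd hx.2 (not_lt.2 h1)

lemma specTMT (h : SpecTyp) : SpecTMT := by
  intro ε hε
  refine (h ε 1 1 hε one_pos one_pos).mono fun p hp => ?_
  filter_upwards [hp] with N hN
  refine le_trans (Nat.cast_le.2 (card_le_card ?_)) hN
  intro x hx
  rw [mem_filter] at hx ⊢
  exact ⟨hx.1, fun ht => hx.2 ht.2.2.2.2.1⟩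

/-! ## The main inequality -/

omit [Frm] in
lemma om_split (p : Prm) (N : ℕ) (w : ℝ) (n : ℕ) : om p N n = omg p N w n + oml p N w n := by
  unfold om omg oml
  have e1 : (PP p N).filter (fun l : ℕ => w ≤ (l : ℝ) ∧ l ∣ n) =
      ((PP p N).filter (fun l => l ∣ n)).filter (fun l : ℕ => ¬ (l : ℝ) < w) := by
    rw [filter_filter]
    exact filter_congr fun l _ => by rw [not_lt, and_comm]
  have e2 : (PP p N).filter (fun l : ℕ => (l : ℝ) < w ∧ l ∣ n) =
      ((PP p N).filter (fun l => l ∣ n)).filter (fun l : ℕ => (l : ℝ) < w) := by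
    rw [filter_filter]
    exact filter_congr fun l _ => and_comm
  rw [e1, e2, add_comm, card_filter_add_card_filter_not]

/-- the good pairs of vectors -/
def gd (p : Prm) (N : ℕ) (K₀ : ℝ) (x : VV) : Prop :=
  (sm p N (mq x) : ℝ) ≤ zz p N ^ (2 * p.K) ∧
    ∀ i : ℕ, (p.E : ℝ) < wi p N i → 3 / 2 * i * Real.log 2 - K₀ ≤ (omg p N (wi p N i) (mq x) : ℝ)

lemma main_ineq {p : Prm} {N : ℕ} {K₀ C Er : ℝ} (hEr : 0 ≤ Er)
    (hEz : (p.E : ℝ) < zz p N) (hz : 1 < zz p N)
    (h3 : ∀ w : ℝ, (p.E : ℝ) < w → w ≤ zz p N → ∀ t ∈ bps p N,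
      (∀ l ∈ (t.1 * t.2).primeFactors, (l : ℝ) < w) →
      ∑ x ∈ (Gam N 1 3).filter (fun x => t.1 ∣ (dd x).natAbs ∧ t.2 ∣ (ee x).natAbs),
        (1 / 2 : ℝ) ^ oml p N w (mq x) ≤
      C * ((Gam N 1 3).card : ℝ) * (fC t.1 * fC t.2 / ((t.1 : ℝ) * t.2)) / Real.log w + Er) :
    ∑ x ∈ (Gam N 1 3).filter (fun x => gd p N K₀ x), (nus p N x : ℝ) * (1 / 2) ^ om p N (mq x) ≤
      2 ^ K₀ * (C * ((Gam N 1 3).card : ℝ) / Real.log (zz p N) *
        ∑ t ∈ bps p N, (2 * rho) ^ sc p N t * tm t + (bps p N).card * Er) := by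
  have hr0 := rho_pos
  have hr1 := two_rho_lt
  have h2K : (0 : ℝ) < 2 ^ K₀ := Real.rpow_pos_of_pos (by norm_num) _
  have hlz : 0 < Real.log (zz p N) := Real.log_pos hz
  set w : ℕ × ℕ → ℝ := fun t => wi p N (sc p N t) with hw
  -- properties of the scale
  have hwt : ∀ t ∈ bps p N, (p.E : ℝ) < w t ∧ w t ≤ zz p N ∧
      ∀ l ∈ (t.1 * t.2).primeFactors, (l : ℝ) < w t := by
    intro t ht
    obtain ⟨⟨a1, b1⟩, ⟨a2, b2⟩, a3, a4, a5⟩ := mem_bps ht
    rcases Nat.eq_zero_or_pos (sc p N t) with h0 | h0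
    · have hwz : w t = zz p N := by simp only [hw]; rw [h0, wi_zero]
      rw [hwz]
      exact ⟨hEz, le_rfl, fun l hl => (mem_PP.1 (a5 hl)).1⟩
    · have h1 := sc_lt (p := p) (N := N) (t := t) h0
      have h11 : t ≠ (1, 1) := by
        rintro rfl
        -- the scale of (1, 1) is zero
        have h5 : ¬ ∃ i, wi p N (i + 1) ≤ ((NuSc.mt (1, 1) : ℕ) : ℝ) := by
          rintro ⟨i, hi⟩
          have h6 : 0 < Real.log (wi p N (i + 1)) := by
            rw [log_wi (by linarith)]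
            positivity
          have h7 := (Real.log_pos_iff (wi_pos (by linarith) _).le).1 h6
          have h8 : ((NuSc.mt (1, 1) : ℕ) : ℝ) = 1 := by simp [NuSc.mt]
          rw [h8] at hi
          linarith
        have h9 : sc p N (1, 1) = 0 := by
          unfold sc
          rw [dif_neg h5]
        omega
      have h2 := bps_gt ht h11
      have h4 : (p.E : ℝ) < NuSc.mt t := by
        have : p.E < NuSc.mt t := h2.1.trans_le (le_max_left _ _)
        exact_mod_cast this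
      refine ⟨h4.trans h1, wi_le hz.le _, fun l hl => ?_⟩
      have hlp := Nat.prime_of_mem_primeFactors hl
      have hld := Nat.dvd_of_mem_primeFactors hl
      have h5 : l ≤ NuSc.mt t := by
        rcases (hlp.dvd_mul).1 hld with h | h
        · exact (Nat.le_of_dvd (by omega) h).trans (le_max_left _ _)
        · exact (Nat.le_of_dvd (by omega) h).trans (le_max_right _ _)
      exact (Nat.cast_le.2 h5).trans_lt h1
  -- step 1
  have hstep1 : ∑ x ∈ (Gam N 1 3).filter (fun x => gd p N K₀ x),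
      (nus p N x : ℝ) * (1 / 2) ^ om p N (mq x) ≤
      ∑ x ∈ Gam N 1 3, ∑ t ∈ bps p N,
        (if t.1 ∣ (dd x).natAbs ∧ t.2 ∣ (ee x).natAbs then
          2 ^ K₀ * rho ^ sc p N t * (1 / 2 : ℝ) ^ oml p N (w t) (mq x) else 0) := by
    have hnn : ∀ x ∈ Gam N 1 3, 0 ≤ ∑ t ∈ bps p N,
        (if t.1 ∣ (dd x).natAbs ∧ t.2 ∣ (ee x).natAbs then
          2 ^ K₀ * rho ^ sc p N t * (1 / 2 : ℝ) ^ oml p N (w t) (mq x) else 0) := by
      intro x _
      refine sum_nonneg fun t _ => ?_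
      split_ifs
      · positivity
      · exact le_rfl
    refine le_trans (sum_le_sum fun x hx => ?_) (sum_le_sum_of_subset_of_nonneg
      (filter_subset (fun x => gd p N K₀ x) _) fun x hx _ => hnn x hx)
    obtain ⟨hx1, hx2, hx3⟩ := mem_filter.1 hx
    have hnu := specJ1 p N x hx1 hx2
    calc (nus p N x : ℝ) * (1 / 2) ^ om p N (mq x) ≤
          (((bps p N).filter (fun t => t.1 ∣ (dd x).natAbs ∧ t.2 ∣ (ee x).natAbs)).card : ℝ) *
            (1 / 2) ^ om p N (mq x) :=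
          mul_le_mul_of_nonneg_right (Nat.cast_le.2 hnu) (by positivity)
      _ = ∑ t ∈ (bps p N).filter (fun t => t.1 ∣ (dd x).natAbs ∧ t.2 ∣ (ee x).natAbs),
            (1 / 2 : ℝ) ^ om p N (mq x) := by rw [sum_const, nsmul_eq_mul]
      _ ≤ ∑ t ∈ (bps p N).filter (fun t => t.1 ∣ (dd x).natAbs ∧ t.2 ∣ (ee x).natAbs),
            2 ^ K₀ * rho ^ sc p N t * (1 / 2 : ℝ) ^ oml p N (w t) (mq x) := by
          refine sum_le_sum fun t ht => ?_
          have ht1 := (mem_filter.1 ht).1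
          rw [om_split p N (w t), pow_add]
          refine mul_le_mul_of_nonneg_right (half_pow_le ?_) (by positivity)
          exact hx3 _ (hwt t ht1).1
      _ = _ := by rw [sum_filter]
  refine hstep1.trans ?_
  rw [sum_comm]
  -- step 2
  have hstep2 : ∀ t ∈ bps p N, ∑ x ∈ Gam N 1 3,
        (if t.1 ∣ (dd x).natAbs ∧ t.2 ∣ (ee x).natAbs then
          2 ^ K₀ * rho ^ sc p N t * (1 / 2 : ℝ) ^ oml p N (w t) (mq x) else 0) ≤
      2 ^ K₀ * (C * ((Gam N 1 3).card : ℝ) / Real.log (zz p N) * ((2 * rho) ^ sc p N t * tm t) +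
        Er) := by
    intro t ht
    obtain ⟨c1, c2, c3⟩ := hwt t ht
    have h4 := h3 (w t) c1 c2 t ht c3
    rw [← sum_filter, ← mul_sum]
    have h5 : rho ^ sc p N t ≤ 1 := pow_le_one₀ hr0.le (by linarith)
    have hlw : Real.log (w t) = (1 / 2) ^ sc p N t * Real.log (zz p N) := log_wi (by linarith) _
    have h6 : C * ((Gam N 1 3).card : ℝ) * (fC t.1 * fC t.2 / ((t.1 : ℝ) * t.2)) /
        Real.log (w t) = C * ((Gam N 1 3).card : ℝ) / Real.log (zz p N) *
          (2 ^ sc p N t * tm t) := by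
      rw [hlw]
      unfold tm
      have h7 : (1 / 2 : ℝ) ^ sc p N t = (2 ^ sc p N t)⁻¹ := by
        rw [one_div, inv_pow]
      rw [h7]
      field_simp
    rw [h6] at h4
    calc 2 ^ K₀ * rho ^ sc p N t * ∑ x ∈ (Gam N 1 3).filter
          (fun x => t.1 ∣ (dd x).natAbs ∧ t.2 ∣ (ee x).natAbs),
          (1 / 2 : ℝ) ^ oml p N (w t) (mq x) ≤
          2 ^ K₀ * rho ^ sc p N t * (C * ((Gam N 1 3).card : ℝ) / Real.log (zz p N) *
            (2 ^ sc p N t * tm t) + Er) := mul_le_mul_of_nonneg_left h4 (by positivity)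
      _ = 2 ^ K₀ * (C * ((Gam N 1 3).card : ℝ) / Real.log (zz p N) *
            ((2 * rho) ^ sc p N t * tm t) + rho ^ sc p N t * Er) := by
          rw [mul_pow]; ring
      _ ≤ _ := by
          apply mul_le_mul_of_nonneg_left _ h2K.le
          have := mul_le_of_le_one_left hEr h5
          linarith
  refine (sum_le_sum hstep2).trans (le_of_eq ?_)
  rw [← mul_sum, sum_add_distrib, ← mul_sum, sum_const, nsmul_eq_mul]

omit [Aa] [Frm] in
/-- the power of `N` beats the logarithm -/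
lemma eventually_log {c ζ A c₀ : ℝ} (hc : 0 < c) (hζ : 0 < ζ) (hA : 0 < A) (hc₀ : 0 < c₀) :
    ∀ᶠ N : ℕ in atTop, A * Real.log ((N : ℝ) ^ ζ) ≤ c₀ * (N : ℝ) ^ (c / 2) := by
  have h1 : Tendsto (fun N : ℕ => (N : ℝ) ^ (c / 4)) atTop atTop :=
    (tendsto_rpow_atTop (by linarith)).comp tendsto_natCast_atTop_atTop
  filter_upwards [h1.eventually_ge_atTop (A * ζ / (c / 4) / c₀), eventually_ge_atTop 1] with N h2 h3
  have hN : (1 : ℝ) ≤ N := by exact_mod_cast h3
  have hN0 : (0 : ℝ) < N := by linarith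
  rw [Real.log_rpow hN0]
  have h4 := Real.log_le_rpow_div hN0.le (by linarith : 0 < c / 4)
  have h5 : 0 < (N : ℝ) ^ (c / 4) := Real.rpow_pos_of_pos hN0 _
  have h6 : (N : ℝ) ^ (c / 2) = (N : ℝ) ^ (c / 4) * (N : ℝ) ^ (c / 4) := by
    rw [← Real.rpow_add hN0]; congr 1; ring
  rw [div_le_iff₀ hc₀] at h2
  calc A * (ζ * Real.log N) ≤ A * (ζ * ((N : ℝ) ^ (c / 4) / (c / 4))) := by gcongr
    _ = A * ζ / (c / 4) * (N : ℝ) ^ (c / 4) := by ring
    _ ≤ (N : ℝ) ^ (c / 4) * c₀ * (N : ℝ) ^ (c / 4) := by gcongr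
    _ = c₀ * (N : ℝ) ^ (c / 2) := by rw [h6]; ring

end NuJF

open NuJF NuSc

theorem specNUS_of (hCNT : SpecCNT) (hS : SpecSMT) (h2 : SpecJ2) (h3 : SpecJ3) : SpecNUS := by
  intro ε hε
  obtain ⟨c, hc, h3⟩ := h3
  obtain ⟨_, c0, hc0, hcnt⟩ := hCNT
  obtain ⟨CB, hCB, hB⟩ := sum_bps
  have hG := ((((((h2 (ε / 3) (by positivity)).and h3).and (hS (ε / 3) (by positivity))).and
    (Pool.Agent.Lib.MP391708.T4.Good.large_E 82)).and
    (Pool.Agent.Lib.MP391708.T4.Good.large_K fun _ => 1)).and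
    Pool.Agent.Lib.MP391708.T4.Good.zeta_pos).and
    (Pool.Agent.Lib.MP391708.T4.Good.zeta_le (fun _ K _ _ => c / (8 * ((K : ℝ) + 1)))
      (fun _ K _ _ => by positivity))
  refine hG.mono fun p hp => ?_
  obtain ⟨⟨⟨⟨⟨⟨⟨K₀, hK₀, h2⟩, ⟨C, hC, h3⟩⟩, hS⟩, hE⟩, hK⟩, hζ⟩, hζ'⟩ := hp
  have hKR : (1 : ℝ) ≤ p.K := by exact_mod_cast hK
  have hlog0 : 0 ≤ Real.log (4 * p.K) := Real.log_nonneg (by linarith)
  have h2K : (0 : ℝ) < 2 ^ K₀ := Real.rpow_pos_of_pos (by norm_num) _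
  set CC : ℝ := 2 ^ K₀ * (C * (CB * (1 + Real.log (4 * p.K)))) + 1 with hCC
  have hCC0 : 0 < CC := by positivity
  refine ⟨3 * CC / ε, by positivity, ?_⟩
  have hzt : Tendsto (fun N : ℕ => zz p N) atTop atTop :=
    (tendsto_rpow_atTop hζ).comp tendsto_natCast_atTop_atTop
  filter_upwards [h2, h3, hS, hcnt, eventually_log hc hζ h2K hc0, eventually_ge_atTop 1,
    hzt.eventually_ge_atTop ((p.E : ℝ) + 9)] with N h2 h3 hS hcnt hlogN hN1 hz
  have hNR : (1 : ℝ) ≤ N := by exact_mod_cast hN1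
  have hN0 : (0 : ℝ) < N := by linarith
  have hE0 : (0 : ℝ) ≤ p.E := Nat.cast_nonneg _
  have hlz : 0 < Real.log (zz p N) := Real.log_pos (by linarith)
  set Γ : ℝ := ((Gam N 1 3).card : ℝ) with hΓ
  have hΓ0 : 0 ≤ Γ := Nat.cast_nonneg _
  have hEr : 0 ≤ (N : ℝ) ^ (1 - c) := Real.rpow_nonneg hN0.le _
  have hmain := main_ineq (K₀ := K₀) hEr (by linarith) (by linarith) h3
  rw [← hΓ] at hmain
  have hsum := hB p N hE hK (by linarith)
  have hcard := card_bps p N
  -- the error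
  have herr : 2 ^ K₀ * (((bps p N).card : ℝ) * (N : ℝ) ^ (1 - c)) ≤ Γ / Real.log (zz p N) := by
    rw [le_div_iff₀ hlz]
    have e1 : zz p N ^ (4 * p.K) ≤ (N : ℝ) ^ (c / 2) := by
      unfold zz
      rw [← Real.rpow_natCast, ← Real.rpow_mul hN0.le]
      apply Real.rpow_le_rpow_of_exponent_le hNR
      push_cast
      have e2 : p.ζ * (8 * ((p.K : ℝ) + 1)) ≤ c := by
        rwa [← le_div_iff₀ (by positivity)]
      nlinarith
    have hlogN' : 2 ^ K₀ * Real.log (zz p N) ≤ c0 * (N : ℝ) ^ (c / 2) := hlogN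
    calc 2 ^ K₀ * (((bps p N).card : ℝ) * (N : ℝ) ^ (1 - c)) * Real.log (zz p N) ≤
          2 ^ K₀ * ((N : ℝ) ^ (c / 2) * (N : ℝ) ^ (1 - c)) * Real.log (zz p N) := by
          gcongr
          exact hcard.trans e1
      _ = (2 ^ K₀ * Real.log (zz p N)) * ((N : ℝ) ^ (c / 2) * (N : ℝ) ^ (1 - c)) := by ring
      _ ≤ (c0 * (N : ℝ) ^ (c / 2)) * ((N : ℝ) ^ (c / 2) * (N : ℝ) ^ (1 - c)) := by gcongr
      _ = c0 * N := by
          rw [mul_assoc, ← Real.rpow_add hN0, ← Real.rpow_add hN0]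
          have : c / 2 + (c / 2 + (1 - c)) = 1 := by ring
          rw [this, Real.rpow_one]
      _ ≤ Γ := hcnt
  have hmain2 : ∑ x ∈ (Gam N 1 3).filter (fun x => gd p N K₀ x),
      (nus p N x : ℝ) * (1 / 2) ^ om p N (mq x) ≤ CC * Γ / Real.log (zz p N) := by
    refine hmain.trans ?_
    rw [mul_add]
    calc 2 ^ K₀ * (C * Γ / Real.log (zz p N) *
          ∑ t ∈ bps p N, (2 * rho) ^ sc p N t * tm t) +
          2 ^ K₀ * (((bps p N).card : ℝ) * (N : ℝ) ^ (1 - c)) ≤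
          2 ^ K₀ * (C * Γ / Real.log (zz p N) * (CB * (1 + Real.log (4 * p.K)))) +
          Γ / Real.log (zz p N) := by
          refine add_le_add ?_ herr
          exact mul_le_mul_of_nonneg_left (mul_le_mul_of_nonneg_left hsum (by positivity)) h2K.le
      _ = _ := by rw [hCC]; ring
  -- Markov
  set Bd := (Gam N 1 3).filter (fun x => 3 * CC / ε * 2 ^ om p N (mq x) / Real.log (zz p N) <
      (nus p N x : ℝ)) with hBd
  have hmk : ((Bd.filter (fun x => gd p N K₀ x)).card : ℝ) * (3 * CC / ε / Real.log (zz p N)) ≤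
      CC * Γ / Real.log (zz p N) := by
    refine le_trans ?_ hmain2
    rw [← nsmul_eq_mul, ← sum_const]
    calc ∑ _x ∈ Bd.filter (fun x => gd p N K₀ x), 3 * CC / ε / Real.log (zz p N) ≤
          ∑ x ∈ Bd.filter (fun x => gd p N K₀ x), (nus p N x : ℝ) * (1 / 2) ^ om p N (mq x) := by
          refine sum_le_sum fun x hx => ?_
          have h5 := (mem_filter.1 (mem_filter.1 hx).1).2
          have h6 : (2 : ℝ) ^ om p N (mq x) * (1 / 2) ^ om p N (mq x) = 1 := by
            rw [← mul_pow]; norm_num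
          have h7 : (0 : ℝ) < (1 / 2) ^ om p N (mq x) := by positivity
          calc 3 * CC / ε / Real.log (zz p N) = 3 * CC / ε / Real.log (zz p N) *
                ((2 : ℝ) ^ om p N (mq x) * (1 / 2) ^ om p N (mq x)) := by rw [h6, mul_one]
            _ = (3 * CC / ε * 2 ^ om p N (mq x) / Real.log (zz p N)) *
                (1 / 2) ^ om p N (mq x) := by ring
            _ ≤ _ := mul_le_mul_of_nonneg_right h5.le h7.le
      _ ≤ _ := by
          refine sum_le_sum_of_subset_of_nonneg ?_ fun x _ _ => by positivity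
          intro x hx
          rw [mem_filter] at hx ⊢
          exact ⟨(mem_filter.1 hx.1).1, hx.2⟩
  have hmk2 : ((Bd.filter (fun x => gd p N K₀ x)).card : ℝ) ≤ ε / 3 * Γ := by
    have e1 : ((Bd.filter (fun x => gd p N K₀ x)).card : ℝ) * (3 * CC / ε / Real.log (zz p N)) ≤
        (ε / 3 * Γ) * (3 * CC / ε / Real.log (zz p N)) := by
      refine hmk.trans (le_of_eq ?_)
      field_simp
    exact le_of_mul_le_mul_right e1 (by positivity)
  have hcov : Bd ⊆ (Bd.filter (fun x => gd p N K₀ x)) ∪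
      (((Gam N 1 3).filter (fun x => ∃ i : ℕ, (p.E : ℝ) < wi p N i ∧
        (omg p N (wi p N i) (mq x) : ℝ) < 3 / 2 * i * Real.log 2 - K₀)) ∪
      ((Gam N 1 3).filter (fun x => zz p N ^ (2 * p.K) < (sm p N (mq x) : ℝ)))) := by
    intro x hx
    have hxG := (mem_filter.1 hx).1
    by_cases hg : gd p N K₀ x
    · exact mem_union_left _ (mem_filter.2 ⟨hx, hg⟩)
    · refine mem_union_right _ ?_
      unfold gd at hg
      rw [not_and_or] at hg
      rcases hg with hg | hg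
      · exact mem_union_right _ (mem_filter.2 ⟨hxG, not_le.1 hg⟩)
      · refine mem_union_left _ (mem_filter.2 ⟨hxG, ?_⟩)
        push Not at hg
        exact hg
  have hfin : (Bd.card : ℝ) ≤ ε / 3 * Γ + (ε / 3 * Γ + ε / 3 * Γ) := by
    calc (Bd.card : ℝ) ≤ ((Bd.filter (fun x => gd p N K₀ x)).card : ℝ) +
          ((((Gam N 1 3).filter (fun x => ∃ i : ℕ, (p.E : ℝ) < wi p N i ∧
            (omg p N (wi p N i) (mq x) : ℝ) < 3 / 2 * i * Real.log 2 - K₀)).card : ℝ) +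
          (((Gam N 1 3).filter (fun x => zz p N ^ (2 * p.K) <
            (sm p N (mq x) : ℝ))).card : ℝ)) := by
          have e1 := (card_le_card hcov).trans ((card_union_le _ _).trans
            (Nat.add_le_add_left (card_union_le _ _) _))
          exact_mod_cast e1
      _ ≤ _ := add_le_add hmk2 (add_le_add h2 hS)
  calc (Bd.card : ℝ) ≤ ε / 3 * Γ + (ε / 3 * Γ + ε / 3 * Γ) := hfin
    _ = ε * Γ := by ring

end

end Pool.Agent.Lib.MP391708.TF
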