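import Pool.Agent.Lib.MP_391708_nt.TF1.JDefs

/-!
# Theorem T1a, group J: the scale of a pair and the sum over the pairs
-/

set_option autoImplicit false

namespace Pool.Agent.Lib.MP391708.TF

open Finset Filter Topology
open Pool.Agent.Lib.MP391708.Eqd (V cross pairs)
open Pool.Agent.Lib.MP391708.TF1.NuSum (fC cf pairs_le fC_nonneg)
open scoped Classical

variable [Aa]

noncomputable section

namespace NuSc

/-! ## Scales -/

omit [Aa] in
lemma wi_zero (p : Prm) (N : ℕ) : wi p N 0 = zz p N := by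
  unfold wi
  rw [pow_zero, Real.rpow_one]

omit [Aa] in
lemma zz_nonneg (p : Prm) (N : ℕ) : 0 ≤ zz p N := Real.rpow_nonneg (Nat.cast_nonneg _) _

omit [Aa] in
lemma wi_sq (p : Prm) (N i : ℕ) : wi p N (i + 1) ^ 2 = wi p N i := by
  unfold wi
  rw [← Real.rpow_natCast, ← Real.rpow_mul (zz_nonneg p N)]
  congr 1
  rw [pow_succ]
  push_cast
  ring

omit [Aa] in
lemma wi_pos {p : Prm} {N : ℕ} (hz : 0 < zz p N) (i : ℕ) : 0 < wi p N i :=
  Real.rpow_pos_of_pos hz _

omit [Aa] in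
lemma log_wi {p : Prm} {N : ℕ} (hz : 0 < zz p N) (i : ℕ) :
    Real.log (wi p N i) = (1 / 2) ^ i * Real.log (zz p N) := by
  unfold wi
  rw [Real.log_rpow hz]

omit [Aa] in
lemma wi_le {p : Prm} {N : ℕ} (hz : 1 ≤ zz p N) (i : ℕ) : wi p N i ≤ zz p N := by
  unfold wi
  calc zz p N ^ ((1 / 2 : ℝ) ^ i) ≤ zz p N ^ (1 : ℝ) :=
        Real.rpow_le_rpow_of_exponent_le hz (pow_le_one₀ (by norm_num) (by norm_num))
    _ = zz p N := Real.rpow_one _

omit [Aa] in
lemma exists_sc {p : Prm} {N : ℕ} (hz : 1 < zz p N) {m : ℝ} (hm : 1 < m) :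
    ∃ i, wi p N (i + 1) ≤ m := by
  have hl : 0 < Real.log (zz p N) := Real.log_pos hz
  obtain ⟨i, hi⟩ := exists_pow_lt_of_lt_one (div_pos (Real.log_pos hm) hl)
    (by norm_num : (1 / 2 : ℝ) < 1)
  refine ⟨i, ?_⟩
  have h1 : Real.log (wi p N (i + 1)) ≤ Real.log m := by
    rw [log_wi (by linarith)]
    rw [lt_div_iff₀ hl] at hi
    have h2 : (1 / 2 : ℝ) ^ (i + 1) * Real.log (zz p N) = (1 / 2) ^ i * Real.log (zz p N) / 2 := by
      rw [pow_succ]; ring
    have h3 : 0 ≤ (1 / 2 : ℝ) ^ i * Real.log (zz p N) := by positivity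
    rw [h2]
    linarith
  exact (Real.log_le_log_iff (wi_pos (by linarith) _) (by linarith)).1 h1

/-- the size of a pair -/
def mt (t : ℕ × ℕ) : ℕ := max t.1 t.2

/-- the scale of a pair -/
def sc (p : Prm) (N : ℕ) (t : ℕ × ℕ) : ℕ :=
  if h : ∃ i, wi p N (i + 1) ≤ (mt t : ℝ) then Nat.find h else 0

omit [Aa] in
lemma sc_lt {p : Prm} {N : ℕ} {t : ℕ × ℕ} (h1 : 1 ≤ sc p N t) :
    (mt t : ℝ) < wi p N (sc p N t) := by
  unfold sc at h1 ⊢
  split_ifs at h1 ⊢ with h
  · obtain ⟨j, hj⟩ : ∃ j, Nat.find h = j + 1 := ⟨Nat.find h - 1, by omega⟩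
    have h2 := Nat.find_min h (m := j) (by omega)
    rw [hj]
    exact not_le.1 h2
  · omega

omit [Aa] in
lemma sc_le {p : Prm} {N : ℕ} (hz : 1 < zz p N) {t : ℕ × ℕ} (h1 : 1 < mt t) :
    wi p N (sc p N t + 1) ≤ (mt t : ℝ) := by
  have h : ∃ i, wi p N (i + 1) ≤ (mt t : ℝ) := exists_sc hz (by exact_mod_cast h1)
  unfold sc
  rw [dif_pos h]
  exact Nat.find_spec h

/-! ## The ratio -/

/-- `2 ^ (-1.5 log 2)` -/
def rho : ℝ := (1 / 2 : ℝ) ^ (3 / 2 * Real.log 2)

omit [Aa] in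
lemma rho_pos : 0 < rho := Real.rpow_pos_of_pos (by norm_num) _

omit [Aa] in
lemma two_rho_lt : 2 * rho < 1 := by
  have h1 : rho = Real.exp (-(3 / 2 * Real.log 2 * Real.log 2)) := by
    unfold rho
    rw [Real.rpow_def_of_pos (by norm_num), one_div, Real.log_inv]
    congr 1
    ring
  have h2 : (2 : ℝ) = Real.exp (Real.log 2) := (Real.exp_log (by norm_num)).symm
  have h3 := Real.log_two_gt_d9
  have h4 : 2 * rho = Real.exp (Real.log 2 + -(3 / 2 * Real.log 2 * Real.log 2)) := by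
    rw [Real.exp_add, ← h2, h1]
  rw [h4]
  rw [Real.exp_lt_one_iff]
  nlinarith

omit [Aa] in
lemma half_pow_le {n i : ℕ} {K₀ : ℝ} (h : 3 / 2 * (i : ℝ) * Real.log 2 - K₀ ≤ (n : ℝ)) :
    (1 / 2 : ℝ) ^ n ≤ 2 ^ K₀ * rho ^ i := by
  calc (1 / 2 : ℝ) ^ n = (1 / 2 : ℝ) ^ (n : ℝ) := (Real.rpow_natCast _ _).symm
    _ ≤ (1 / 2 : ℝ) ^ (3 / 2 * (i : ℝ) * Real.log 2 - K₀) :=
        Real.rpow_le_rpow_of_exponent_ge (by norm_num) (by norm_num) h
    _ = 2 ^ K₀ * rho ^ i := by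
        have e1 : 3 / 2 * (i : ℝ) * Real.log 2 - K₀ = -K₀ + 3 / 2 * Real.log 2 * i := by ring
        rw [e1, Real.rpow_add (by norm_num), Real.rpow_mul (by norm_num), Real.rpow_natCast]
        congr 1
        rw [one_div, Real.inv_rpow (by norm_num), Real.rpow_neg (by norm_num), inv_inv]

/-! ## Pairs -/

lemma mem_bps {p : Prm} {N : ℕ} {t : ℕ × ℕ} (ht : t ∈ bps p N) :
    (1 ≤ t.1 ∧ (t.1 : ℝ) ≤ zz p N ^ (2 * p.K)) ∧ (1 ≤ t.2 ∧ (t.2 : ℝ) ≤ zz p N ^ (2 * p.K)) ∧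
      t.1 < 3 * t.2 ∧ t.2 < 3 * t.1 ∧ (t.1 * t.2).primeFactors ⊆ PP p N := by
  unfold bps at ht
  rw [mem_filter, mem_product, mem_Icc, mem_Icc] at ht
  obtain ⟨⟨⟨h1, h2⟩, h3, h4⟩, h5, h6, h7, h8⟩ := ht
  have h0 : 0 ≤ zz p N ^ (2 * p.K) := pow_nonneg (zz_nonneg p N) _
  exact ⟨⟨h1, (Nat.cast_le.2 h2).trans (Nat.floor_le h0)⟩,
    ⟨h3, (Nat.cast_le.2 h4).trans (Nat.floor_le h0)⟩, h6, h7, h8⟩

lemma bps_gt {p : Prm} {N : ℕ} {t : ℕ × ℕ} (ht : t ∈ bps p N) (h1 : t ≠ (1, 1)) :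
    p.E < t.1 ∧ p.E < t.2 := by
  obtain ⟨⟨a1, -⟩, ⟨a2, -⟩, a3, a4, a5⟩ := mem_bps ht
  have h4 : t.1 * t.2 ≠ 0 := by positivity
  have h20 : ¬ 2 ∣ t.1 * t.2 := by
    intro h
    have h5 := (mem_filter.1 (a5 (Nat.mem_primeFactors.2 ⟨Nat.prime_two, h, h4⟩))).2.2.1
    rw [spl, TA.chz_even (by norm_num)] at h5
    exact absurd h5 (by norm_num)
  have h2 : t.1 ≠ 1 := by
    intro h
    apply h1
    rw [h] at a4 h20
    have : t.2 ≠ 2 := by
      intro h6
      rw [h6] at h20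
      exact h20 (by norm_num)
    exact Prod.ext h (by omega)
  have h3 : t.2 ≠ 1 := by
    intro h
    apply h1
    rw [h] at a3 h20
    have : t.1 ≠ 2 := by
      intro h6
      rw [h6] at h20
      exact h20 (by norm_num)
    exact Prod.ext (by omega) h
  constructor
  · have h5 := Nat.minFac_prime h2
    have h6 : t.1.minFac ∈ PP p N := a5 (Nat.mem_primeFactors.2 ⟨h5,
      (Nat.minFac_dvd t.1).trans (Dvd.intro _ rfl), h4⟩)
    exact (mem_filter.1 h6).2.2.2.trans_le (Nat.minFac_le a1)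
  · have h5 := Nat.minFac_prime h3
    have h6 : t.2.minFac ∈ PP p N := a5 (Nat.mem_primeFactors.2 ⟨h5,
      (Nat.minFac_dvd t.2).trans (Dvd.intro_left _ rfl), h4⟩)
    exact (mem_filter.1 h6).2.2.2.trans_le (Nat.minFac_le a2)

/-- the number of pairs -/
lemma card_bps (p : Prm) (N : ℕ) : ((bps p N).card : ℝ) ≤ zz p N ^ (4 * p.K) := by
  have h0 : 0 ≤ zz p N ^ (2 * p.K) := pow_nonneg (zz_nonneg p N) _
  have h1 : (bps p N).card ≤ ⌊zz p N ^ (2 * p.K)⌋₊ * ⌊zz p N ^ (2 * p.K)⌋₊ := by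
    unfold bps
    refine (card_filter_le _ _).trans ?_
    rw [card_product, Nat.card_Icc, Nat.add_sub_cancel]
  calc ((bps p N).card : ℝ) ≤ (⌊zz p N ^ (2 * p.K)⌋₊ : ℝ) * ⌊zz p N ^ (2 * p.K)⌋₊ := by
        exact_mod_cast h1
    _ ≤ zz p N ^ (2 * p.K) * zz p N ^ (2 * p.K) :=
        mul_le_mul (Nat.floor_le h0) (Nat.floor_le h0) (Nat.cast_nonneg _) h0
    _ = zz p N ^ (4 * p.K) := by rw [← pow_add]; congr 1; omega

lemma fC_one : fC 1 = 1 := by
  unfold fC Pool.Agent.Lib.MP_391708_nt.Many.F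
  simp

/-- the term -/
def tm (t : ℕ × ℕ) : ℝ := fC t.1 * fC t.2 / ((t.1 : ℝ) * t.2)

lemma tm_nonneg (t : ℕ × ℕ) : 0 ≤ tm t := by
  unfold tm
  have := fC_nonneg t.1
  have := fC_nonneg t.2
  positivity

/-- **the sum over the pairs** -/
theorem sum_bps : ∃ C : ℝ, 0 < C ∧ ∀ (p : Prm) (N : ℕ), 82 ≤ p.E → 1 ≤ p.K → 9 ≤ zz p N →
    ∑ t ∈ bps p N, (2 * rho) ^ sc p N t * tm t ≤ C * (1 + Real.log (4 * p.K)) := by
  obtain ⟨C, hC, hP⟩ := pairs_le 3
  have hr0 : 0 < 2 * rho := by have := rho_pos; linarith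
  have hr1 := two_rho_lt
  refine ⟨1 + C + C / (1 - 2 * rho), by
    have : 0 < C / (1 - 2 * rho) := div_pos hC (by linarith)
    linarith, fun p N hE hK hz => ?_⟩
  have hz1 : 1 < zz p N := by linarith
  have hKR : (1 : ℝ) ≤ p.K := by exact_mod_cast hK
  have hlog4 : Real.log 4 ≤ Real.log (4 * p.K) := Real.log_le_log (by norm_num) (by linarith)
  have hlog0 : 0 ≤ Real.log 4 := Real.log_nonneg (by norm_num)
  set f : ℕ × ℕ → ℝ := fun t => (2 * rho) ^ sc p N t * tm t with hf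
  have hf0 : ∀ t, 0 ≤ f t := fun t => mul_nonneg (pow_nonneg hr0.le _) (tm_nonneg t)
  have hf1 : ∀ t, f t ≤ tm t := fun t => by
    have h1 : (2 * rho) ^ sc p N t ≤ 1 := pow_le_one₀ hr0.le hr1.le
    have h2 := mul_le_mul_of_nonneg_right h1 (tm_nonneg t)
    rw [one_mul] at h2
    exact h2
  set A := (bps p N).filter (fun t => t ≠ (1, 1)) with hA
  -- the pair (1, 1)
  have h1 : ∑ t ∈ bps p N, f t ≤ 1 + ∑ t ∈ A, f t := by
    rw [← sum_filter_add_sum_filter_not (bps p N) (fun t => t ≠ (1, 1)) f, ← hA, add_comm]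
    have h2 : ∑ t ∈ (bps p N).filter (fun t => ¬ t ≠ (1, 1)), f t ≤ ∑ t ∈ {(1, 1)}, f t := by
      refine sum_le_sum_of_subset_of_nonneg (fun t ht => ?_) fun t _ _ => hf0 t
      rw [mem_singleton]
      exact not_not.1 (mem_filter.1 ht).2
    rw [sum_singleton] at h2
    have h3 : f (1, 1) ≤ 1 := by
      refine (hf1 _).trans ?_
      unfold tm
      rw [fC_one]
      norm_num
    linarith
  -- the large pairs
  have h2 : ∑ t ∈ A.filter (fun t => zz p N ≤ (mt t : ℝ)), f t ≤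
      C * (1 + Real.log (4 * p.K)) := by
    refine (sum_le_sum fun t _ => hf1 t).trans ?_
    refine hP (zz p N / 3) (4 * p.K) (by linarith) (by linarith) _ fun t ht => ?_
    rw [mem_filter, hA, mem_filter] at ht
    obtain ⟨⟨ht1, ht2⟩, ht3⟩ := ht
    obtain ⟨⟨a1, b1⟩, ⟨a2, b2⟩, a3, a4, a5⟩ := mem_bps ht1
    have c1 : (t.1 : ℝ) ≤ 3 * t.2 := by exact_mod_cast a3.le
    have c2 : (t.2 : ℝ) ≤ 3 * t.1 := by exact_mod_cast a4.le
    have c3 : (0 : ℝ) ≤ t.1 := Nat.cast_nonneg _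
    have c4 : (mt t : ℝ) ≤ 3 * t.1 := by
      unfold mt
      rw [Nat.cast_max]
      exact max_le (by linarith) c2
    refine ⟨by linarith, b1.trans ?_, c1, c2⟩
    have c5 : zz p N ≤ (zz p N / 3) ^ 2 := by nlinarith
    calc zz p N ^ (2 * p.K) ≤ ((zz p N / 3) ^ 2) ^ (2 * p.K) :=
          pow_le_pow_left₀ (by linarith) c5 _
      _ = (zz p N / 3) ^ ((4 * p.K : ℕ) : ℝ) := by
          rw [Real.rpow_natCast, ← pow_mul]
          congr 1
          ring
      _ = (zz p N / 3) ^ (4 * (p.K : ℝ)) := by push_cast; rfl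
  -- the small pairs
  have h3 : ∑ t ∈ A.filter (fun t => ¬ zz p N ≤ (mt t : ℝ)), f t ≤
      C / (1 - 2 * rho) * (1 + Real.log (4 * p.K)) := by
    set B := A.filter (fun t => ¬ zz p N ≤ (mt t : ℝ)) with hB
    obtain ⟨n, hn⟩ : ∃ n : ℕ, ∀ t ∈ B, sc p N t ∈ range n := by
      refine ⟨∑ t ∈ B, sc p N t + 1, fun t ht => ?_⟩
      rw [mem_range]
      have := single_le_sum (f := fun t => sc p N t) (fun _ _ => Nat.zero_le _) ht
      omega
    rw [← sum_fiberwise_of_maps_to hn]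
    have h4 : ∀ i ∈ range n, ∑ t ∈ B.filter (fun t => sc p N t = i), f t ≤
        (2 * rho) ^ i * (C * (1 + Real.log 4)) := by
      intro i _
      rcases (B.filter (fun t => sc p N t = i)).eq_empty_or_nonempty with he | ⟨t₀, ht₀⟩
      · rw [he, sum_empty]
        positivity
      · have key : ∀ t ∈ B.filter (fun t => sc p N t = i), t ∈ bps p N ∧ t ≠ (1, 1) ∧
            (mt t : ℝ) < wi p N i ∧ wi p N (i + 1) ≤ (mt t : ℝ) ∧ (81 : ℝ) < mt t := by
          intro t ht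
          rw [mem_filter, hB, mem_filter, hA, mem_filter] at ht
          obtain ⟨⟨⟨ht1, ht2⟩, ht3⟩, ht4⟩ := ht
          have d1 : 81 < mt t := by
            have := (bps_gt ht1 ht2).1
            unfold mt
            exact lt_max_of_lt_left (by omega)
          refine ⟨ht1, ht2, ?_, ?_, by exact_mod_cast d1⟩
          · rcases Nat.eq_zero_or_pos i with h0 | h0
            · rw [h0, wi_zero]
              exact not_le.1 ht3
            · rw [← ht4]
              exact sc_lt (by omega)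
          · rw [← ht4]
            exact sc_le hz1 (by omega)
        obtain ⟨-, -, k1, k2, k3⟩ := key t₀ ht₀
        have hsq := wi_sq p N i
        have hwp : 0 < wi p N (i + 1) := wi_pos (by linarith) _
        have hw4 : 9 < wi p N (i + 1) := by nlinarith
        have h5 : ∑ t ∈ B.filter (fun t => sc p N t = i), tm t ≤ C * (1 + Real.log 4) := by
          refine hP (wi p N (i + 1) / 3) 4 (by linarith) (by norm_num) _ fun t ht => ?_
          obtain ⟨m1, m2, m3, m4, m5⟩ := key t ht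
          obtain ⟨⟨a1, b1⟩, ⟨a2, b2⟩, a3, a4, a5⟩ := mem_bps m1
          have c1 : (t.1 : ℝ) ≤ 3 * t.2 := by exact_mod_cast a3.le
          have c2 : (t.2 : ℝ) ≤ 3 * t.1 := by exact_mod_cast a4.le
          have c3 : (0 : ℝ) ≤ t.1 := Nat.cast_nonneg _
          have c4 : (mt t : ℝ) ≤ 3 * t.1 := by
            unfold mt
            rw [Nat.cast_max]
            exact max_le (by linarith) c2
          have c5 : (t.1 : ℝ) ≤ mt t := by
            unfold mt
            exact_mod_cast le_max_left _ _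
          refine ⟨by linarith, ?_, c1, c2⟩
          set y := wi p N (i + 1) / 3 with hy
          have hy2 : 3 < y := by rw [hy]; linarith
          have hy4 : wi p N i = 9 * y ^ 2 := by rw [← hsq, hy]; ring
          have e4 : y ^ (4 : ℝ) = y ^ 4 := by
            rw [← Real.rpow_natCast]; norm_num
          rw [e4]
          have : 9 * y ^ 2 ≤ y ^ 4 := by
            have h6 : 9 ≤ y ^ 2 := by nlinarith
            calc 9 * y ^ 2 ≤ y ^ 2 * y ^ 2 := mul_le_mul_of_nonneg_right h6 (by positivity)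
              _ = y ^ 4 := by ring
          linarith
        calc ∑ t ∈ B.filter (fun t => sc p N t = i), f t =
              (2 * rho) ^ i * ∑ t ∈ B.filter (fun t => sc p N t = i), tm t := by
              rw [mul_sum]
              refine sum_congr rfl fun t ht => ?_
              simp only [hf]
              rw [(mem_filter.1 ht).2]
          _ ≤ _ := mul_le_mul_of_nonneg_left h5 (pow_nonneg hr0.le _)
    refine (sum_le_sum h4).trans ?_
    rw [← sum_mul]
    have h5 : ∑ i ∈ range n, (2 * rho) ^ i ≤ 1 / (1 - 2 * rho) := by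
      rw [geom_sum_eq hr1.ne, ← neg_div_neg_eq, neg_sub, neg_sub]
      refine div_le_div_of_nonneg_right ?_ (by linarith)
      have : 0 ≤ (2 * rho) ^ n := pow_nonneg hr0.le _
      linarith
    calc (∑ i ∈ range n, (2 * rho) ^ i) * (C * (1 + Real.log 4)) ≤
          1 / (1 - 2 * rho) * (C * (1 + Real.log (4 * p.K))) := by
          refine mul_le_mul h5 ?_ (by positivity) ?_
          · exact mul_le_mul_of_nonneg_left (by linarith) hC.le
          · apply div_nonneg zero_le_one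
            linarith
      _ = _ := by ring
  have h4 := sum_filter_add_sum_filter_not A (fun t => zz p N ≤ (mt t : ℝ)) f
  have h5 : 0 ≤ Real.log (4 * p.K) := hlog0.trans hlog4
  calc ∑ t ∈ bps p N, f t ≤ 1 + ∑ t ∈ A, f t := h1
    _ = 1 + (∑ t ∈ A.filter (fun t => zz p N ≤ (mt t : ℝ)), f t +
        ∑ t ∈ A.filter (fun t => ¬ zz p N ≤ (mt t : ℝ)), f t) := by rw [h4]
    _ ≤ 1 + (C * (1 + Real.log (4 * p.K)) + C / (1 - 2 * rho) * (1 + Real.log (4 * p.K))) := by
        linarith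
    _ ≤ _ := by
        have e : (1 + C + C / (1 - 2 * rho)) * (1 + Real.log (4 * p.K)) =
          (1 + Real.log (4 * p.K)) + (C * (1 + Real.log (4 * p.K)) +
            C / (1 - 2 * rho) * (1 + Real.log (4 * p.K))) := by ring
        rw [e]
        linarith

end NuSc

end

end Pool.Agent.Lib.MP391708.TF
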